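import Pool.Agent.TX1.WinN
import Pool.Agent.MML.MainG

/-!
# TX1, module StartA: few zeros on the average

`winN` with `Y = Yη = -½ log (exp (-2(1/2-δ) TM f) + η²)`, then `η → 0` exactly as in `MML.main_gen` (MainG.lean, `mainG_log`):
`(1/2-δ) ∫ exp (-s) TM f ≤ κ1 ∫ exp (-s)(TM f + 1) - ν ∫ exp (-s) TN f + C(...)`.  With `a = π/ω`, `ω = π/2 - τ0` (so `sin (π/a) = cos τ0`, `cos (π/a) = sin τ0`),
`κ1 = 1/(2 cos τ0) + τ0²`, `ν = τ0/4`: `κ1 - 1/2 + δ ≤ 2τ0² + δ ≤ r ν` for `τ0` small and `δ ≤ δ0`.  The term `κ1 ∫ exp (-s)` is at most `κ1 exp (-α)`.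
-/

set_option autoImplicit false

namespace Pool.Agent.TX1

open Real MeasureTheory Set Filter Topology
open Pool.Agent.MML (Fe Ue mN mainG_log mainG_cont mainG_exp_int)

theorem startA_lim {κ1 ν K C : ℝ} {f : ℂ → ℂ} (hf : Differentiable ℂ f) (h0 : f 0 = 1)
    (hw : ∀ η ∈ Ioc (0 : ℝ) 1, ∀ (Y : ℝ → ℝ) (α β : ℝ), α ≤ β → ContinuousOn Y (Icc α β) →
        (∀ s ∈ Icc α β, ∃ t, Y s ≤ -(Ue f 1 η s t)) →
        ∫ s in α..β, exp (-s) * Y s ≤
          κ1 * (∫ s in α..β, exp (-s) * (TM f s + 1)) - ν * (∫ s in α..β, exp (-s) * TN f s)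
          + C * (exp (-α) * (TM f (α + K) + 1) + exp (-β) * (TM f (β + K) + 1)))
    {c' s0 α β : ℝ} (hs : ∀ s, s0 ≤ s → ∃ t, ‖f (pt s t)‖ ≤ exp (-(c' * TM f s)))
    (hα : s0 ≤ α) (hαβ : α ≤ β) :
    ∫ s in α..β, exp (-s) * (c' * TM f s) ≤
          κ1 * (∫ s in α..β, exp (-s) * (TM f s + 1)) - ν * (∫ s in α..β, exp (-s) * TN f s)
          + C * (exp (-α) * (TM f (α + K) + 1) + exp (-β) * (TM f (β + K) + 1)) := by
  have hMc : Continuous (TM f) := TM_cont hf
  set M : ℝ → ℝ := TM f with hM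
  have hTNc : Continuous (TN f) := TN_cont hf h0
  set B : ℝ := ∫ s in α..β, exp (-s) * (1 / 2 * exp (2 * (c' * M s))) with hB
  have hIntM : IntervalIntegrable (fun s => exp (-s) * (c' * M s)) volume α β :=
    Continuous.intervalIntegrable (by fun_prop) _ _
  have hIntB : IntervalIntegrable
      (fun s => exp (-s) * (1 / 2 * exp (2 * (c' * M s)))) volume α β :=
    Continuous.intervalIntegrable (by fun_prop) _ _
  have hB0 : 0 ≤ B := by
    apply intervalIntegral.integral_nonneg hαβ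
    intro t _
    positivity
  set J := κ1 * (∫ s in α..β, exp (-s) * (M s + 1)) - ν * (∫ s in α..β, exp (-s) * TN f s)
          + C * (exp (-α) * (M (α + K) + 1) + exp (-β) * (M (β + K) + 1)) with hJ
  have key : ∀ η ∈ Ioc (0 : ℝ) 1,
      ∫ s in α..β, exp (-s) * (c' * M s) ≤ J + η ^ 2 * B := by
    intro η hη
    have hη0 : 0 < η := hη.1
    set Y : ℝ → ℝ := fun s => -(1 / 2 * log (exp (-(2 * (c' * M s))) + η ^ 2)) with hY
    have hYc : Continuous Y := by
      simp only [hY]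
      apply Continuous.neg
      apply Continuous.mul continuous_const
      apply Continuous.log
      · fun_prop
      · intro s
        have : 0 < exp (-(2 * (c' * M s))) + η ^ 2 := by positivity
        exact this.ne'
    have hYle : ∀ s ∈ Icc α β, ∃ t, Y s ≤ -(Ue f 1 η s t) := by
      intro s hs'
      obtain ⟨t, ht⟩ := hs s (le_trans hα hs'.1)
      refine ⟨t, ?_⟩
      simp only [hY, Ue]
      rw [li_Fe]
      have hsq : ‖f (pt s t)‖ ^ 2 ≤ exp (-(2 * (c' * M s))) := by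
        have h3 : ‖f (pt s t)‖ ^ 2 ≤ (exp (-(c' * M s))) ^ 2 :=
          pow_le_pow_left₀ (norm_nonneg _) ht 2
        have h4 : (exp (-(c' * M s))) ^ 2 = exp (-(2 * (c' * M s))) := by
          rw [← Real.exp_nat_mul]; congr 1; push_cast; ring
        rwa [h4] at h3
      have hlog : log (‖f (pt s t)‖ ^ 2 + η ^ 2) ≤ log (exp (-(2 * (c' * M s))) + η ^ 2) := by
        apply Real.log_le_log (by positivity)
        linarith
      linarith
    have hw1 := hw η hη Y α β hαβ hYc.continuousOn hYle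
    have hIntY : IntervalIntegrable (fun s => exp (-s) * Y s) volume α β :=
      Continuous.intervalIntegrable (by fun_prop) _ _
    have hmono : ∫ s in α..β, (exp (-s) * (c' * M s)
        - η ^ 2 * (exp (-s) * (1 / 2 * exp (2 * (c' * M s)))))
        ≤ ∫ s in α..β, exp (-s) * Y s := by
      apply intervalIntegral.integral_mono_on hαβ (hIntM.sub (hIntB.const_mul _)) hIntY
      intro s _
      have h5 := mainG_log (c' * M s) η hη0
      have h6 := mul_le_mul_of_nonneg_left h5 (Real.exp_pos (-s)).le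
      simp only [hY]
      calc _ = exp (-s) * (c' * M s - η ^ 2 * (1 / 2 * exp (2 * (c' * M s)))) := by
            ring
        _ ≤ _ := h6
    rw [intervalIntegral.integral_sub hIntM (hIntB.const_mul _),
      intervalIntegral.integral_const_mul] at hmono
    have hmono' : (∫ s in α..β, exp (-s) * (c' * M s)) - η ^ 2 * B
        ≤ ∫ s in α..β, exp (-s) * Y s := hmono
    linarith
  apply le_of_forall_pos_le_add
  intro ε hε
  set η : ℝ := min 1 (ε / (B + 1)) with hηdef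
  have hη0 : 0 < η := lt_min one_pos (by positivity)
  have hη1 : η ≤ 1 := min_le_left _ _
  have h7 := key η ⟨hη0, hη1⟩
  have h8 : η ^ 2 * B ≤ ε := by
    have h9 : η ^ 2 ≤ η := by nlinarith
    have h10 : η ≤ ε / (B + 1) := min_le_right _ _
    have h11 : η * (B + 1) ≤ ε := by
      rwa [le_div_iff₀ (by positivity)] at h10
    nlinarith
  linarith

theorem startA {r : ℝ} (hr : 0 < r) : ∃ K C δ0 : ℝ, 0 ≤ K ∧ 0 ≤ C ∧ 0 < δ0 ∧
    ∀ (f : ℂ → ℂ) (δ s0 : ℝ), Differentiable ℂ f → f 0 = 1 → 0 ≤ δ → δ ≤ δ0 → HM f δ s0 →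
      ∀ α β, s0 ≤ α → α ≤ β →
        ∫ s in α..β, exp (-s) * TN f s ≤ r * (∫ s in α..β, exp (-s) * (TM f s + 1))
          + C * (exp (-α) * (TM f (α + K) + 1) + exp (-β) * (TM f (β + K) + 1)) := by
  set τ0 := min 1 (r / 16) with hτ0
  have t0 : 0 < τ0 := lt_min one_pos (by positivity)
  have t1 : τ0 ≤ 1 := min_le_left _ _
  have t2 : τ0 ≤ r / 16 := min_le_right _ _
  have hpi3 := pi_gt_three
  set ω := π / 2 - τ0 with hω
  have hω0 : 0 < ω := by rw [hω]; linarith
  set a := π / ω with ha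
  have hπa : π / a = ω := by rw [ha]; field_simp
  have ha2 : 2 < a := by
    rw [ha, lt_div_iff₀ hω0, hω]; linarith
  have hsin : sin (π / a) = cos τ0 := by
    rw [hπa, hω, sin_pi_div_two_sub]
  have hcos : cos (π / a) = sin τ0 := by
    rw [hπa, hω, cos_pi_div_two_sub]
  have hc1 : 1 - τ0 ^ 2 / 2 ≤ cos τ0 := one_sub_sq_div_two_le_cos
  have hc2 : 1 / 2 ≤ cos τ0 := by nlinarith
  have hc3 : cos τ0 ≤ 1 := cos_le_one _
  have hc0 : 0 < cos τ0 := by linarith
  have hs1 : 0 < sin τ0 := sin_pos_of_pos_of_lt_pi t0 (by linarith)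
  have htan : τ0 < tan τ0 := lt_tan t0 (by linarith)
  have hk1 : 1 / (2 * sin (π / a)) < 1 / (2 * cos τ0) + τ0 ^ 2 := by
    rw [hsin]; nlinarith [sq_nonneg τ0, mul_pos t0 t0]
  have hν : τ0 / 4 < cos (π / a) / (2 * sin (π / a)) := by
    rw [hsin, hcos]
    have e : sin τ0 / (2 * cos τ0) = tan τ0 / 2 := by
      rw [tan_eq_sin_div_cos]; field_simp
    rw [e]; linarith
  obtain ⟨K, C, hK, hC, hw⟩ := winN ha2 hk1 hν (by positivity)
  set κ1 := 1 / (2 * cos τ0) + τ0 ^ 2 with hκ1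
  have hk2 : κ1 - 1 / 2 ≤ 3 / 2 * τ0 ^ 2 := by
    have h1 : 1 / (2 * cos τ0) ≤ 1 / 2 + τ0 ^ 2 / 2 := by
      rw [div_le_iff₀ (by positivity)]
      nlinarith [sq_nonneg τ0, mul_nonneg (sq_nonneg τ0) (sub_nonneg.2 hc2)]
    rw [hκ1]; linarith
  refine ⟨K, (C + 1 / 2) * (4 / τ0), r * τ0 / 8, hK, by positivity, by positivity, ?_⟩
  intro f δ s0 hf h0 hδ0 hδ hH α β hα hαβ
  have hMc : Continuous (TM f) := TM_cont hf
  have hM0 : ∀ s, 0 ≤ TM f s := TM_nonneg f
  have hTNc : Continuous (TN f) := TN_cont hf h0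
  have h1 := startA_lim hf h0 (fun η hη Y α β h1 h2 h3 => hw f hf h0 η hη Y α β h1 h2 h3)
    (c' := 1 / 2 - δ) (s0 := s0) hH hα hαβ
  set J := ∫ s in α..β, exp (-s) * (TM f s + 1) with hJ
  set JN := ∫ s in α..β, exp (-s) * TN f s with hJN
  set Φa := exp (-α) * (TM f (α + K) + 1) with hΦa
  set Φb := exp (-β) * (TM f (β + K) + 1) with hΦb
  have hJ0 : 0 ≤ J := by
    apply intervalIntegral.integral_nonneg hαβ
    intro s _
    have := hM0 s
    exact mul_nonneg (exp_pos _).le (by linarith)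
  have hE := mainG_exp_int (ρ := 1) one_pos hαβ
  simp only [neg_mul, one_mul, inv_one] at hE
  have hE0 : 0 ≤ ∫ s in α..β, exp (-s) := by
    apply intervalIntegral.integral_nonneg hαβ
    intro s _
    exact (exp_pos _).le
  have hΦa1 : exp (-α) ≤ Φa := by
    have := hM0 (α + K)
    have h12 := Real.exp_pos (-α)
    simp only [hΦa]
    nlinarith
  have hΦb0 : 0 ≤ Φb := by
    have := hM0 (β + K)
    exact mul_nonneg (exp_pos _).le (by linarith)
  have hsplit : ∫ s in α..β, exp (-s) * ((1 / 2 - δ) * TM f s)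
      = (1 / 2 - δ) * J - (1 / 2 - δ) * ∫ s in α..β, exp (-s) := by
    rw [hJ, ← intervalIntegral.integral_const_mul, ← intervalIntegral.integral_const_mul,
      ← intervalIntegral.integral_sub]
    · apply intervalIntegral.integral_congr
      intro s _
      simp only []
      ring
    all_goals exact Continuous.intervalIntegrable (by fun_prop) _ _
  rw [hsplit] at h1
  have h2 : (1 / 2 - δ) * (∫ s in α..β, exp (-s)) ≤ 1 / 2 * Φa := by
    have : (1 / 2 - δ) * (∫ s in α..β, exp (-s)) ≤ 1 / 2 * (∫ s in α..β, exp (-s)) :=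
      mul_le_mul_of_nonneg_right (by linarith) hE0
    linarith
  have h3 : (κ1 - 1 / 2 + δ) * J ≤ (r * (τ0 / 4)) * J := by
    apply mul_le_mul_of_nonneg_right _ hJ0
    have : τ0 ^ 2 ≤ τ0 * (r / 16) := by nlinarith
    have hrt : 0 < r * τ0 := by positivity
    linarith [hk2, this, hδ]
  have h4 : τ0 / 4 * JN ≤ (r * (τ0 / 4)) * J + (C + 1 / 2) * (Φa + Φb) := by
    nlinarith [h1, h2, h3, hΦb0]
  have h5 : JN = 4 / τ0 * (τ0 / 4 * JN) := by field_simp
  rw [h5]
  calc 4 / τ0 * (τ0 / 4 * JN) ≤ 4 / τ0 * ((r * (τ0 / 4)) * J + (C + 1 / 2) * (Φa + Φb)) := by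
        apply mul_le_mul_of_nonneg_left h4 (by positivity)
    _ = r * J + (C + 1 / 2) * (4 / τ0) * (Φa + Φb) := by field_simp

end Pool.Agent.TX1
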