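import Pool.Agent.MML.Sel

/-!
# TX1, module StartB: selection of a window (real analysis only)

`P` continuous nondecreasing `≥ 1`, `N` continuous nondecreasing `≥ 0`, `a s = exp (-s) P s`, `n s = exp (-s) N s`, `K1 = R1 + 2`.
* `greedy`: suppose that for every `b ≥ S` either `∃ t ∈ [0,K1], P (b+t) > 8 exp t P b` (i.e. `a (b+t) > 8 a b`) or `∃ t ∈ [0,R1], N (b+t) > σ P (b+t)`.  Then
  `∫_α^β a ≤ C' ∫_α^{β+K1} n + D exp (-β) P (β+K1)` for `S ≤ α ≤ β`, `D = 2 K1`, `C' = 10 K1 exp K1 / σ`.  Proof: `G b = ∫_b^β a + D a b - C' ∫_b^{β+K1} n`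
  is continuous on `[α, β+K1]`; at the largest point where the maximum is attained `b ≥ β`, since for `b ≤ β` there is `b' ∈ (b, b+K1]` with `G b ≤ G b'`.
* with (W): `∫ n ≤ r ∫ a + C(...)`, `r C' = 1/2`: `∫_α^β a ≤ C'' (exp (-α) P (α+K2) + exp (-β) P (β+K2))` (use `∫_β^{β+K1} a ≤ K1 exp (-β) P (β+K1)`).
* weights `exp (-lam s)`, `lam = 1+ε ∈ [1, 1+ε0]`: integrate by parts, `∫_α^β exp (-εs) a = exp (-εβ) A(β) + ε ∫ exp (-εs) A(s) ds`, `A s = ∫_α^s a`; the term
  `ε C'' ∫ exp (-lam s) P (s+K2) ≤ ε C'' exp (lam K2) (∫_α^β exp (-lam s) P + K2 exp (-lam β) P (β+K2))` is absorbed for `ε0` small.  Contradiction with `MML.sel` with `ρ = lam`.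
The constants: first `C', D` from `R1, σ`; `r = 1/(2C')`; then `K, C` are given, then `ε0`.
-/

set_option autoImplicit false

namespace Pool.Agent.TX1

open Real MeasureTheory Set Filter Topology

/-- one greedy step -/
private theorem greedy_step {K1 σ D C' b : ℝ} (hK1 : 2 ≤ K1) (hσ : 0 < σ) (hD : D = 2 * K1)
    (hC' : C' = 10 * K1 * exp K1 / σ) {P N : ℝ → ℝ} (hPc : Continuous P) (hPm : Monotone P)
    (hP1 : ∀ s, 1 ≤ P s) (hNc : Continuous N) (hNm : Monotone N) (hN0 : ∀ s, 0 ≤ N s)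
    (h : (∃ t, 0 ≤ t ∧ t ≤ K1 ∧ 8 * exp t * P b < P (b + t)) ∨
      ∃ t, 0 ≤ t ∧ t ≤ K1 - 2 ∧ σ * P (b + t) < N (b + t)) :
    ∃ b', b < b' ∧ b' ≤ b + K1 ∧
      (∫ s in b..b', exp (-s) * P s) + D * (exp (-b) * P b) - C' * (∫ s in b..b', exp (-s) * N s)
        ≤ D * (exp (-b') * P b') := by
  have hac : Continuous fun s => exp (-s) * P s := by fun_prop
  have hnc : Continuous fun s => exp (-s) * N s := by fun_prop
  have ha0 : ∀ s, 0 < exp (-s) * P s := fun s => mul_pos (exp_pos _) (by linarith [hP1 s])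
  have hn0 : ∀ s, 0 ≤ exp (-s) * N s := fun s => mul_nonneg (exp_pos _).le (hN0 s)
  have hC'0 : 0 < C' := by rw [hC']; positivity
  by_cases hI : ∃ t, 0 ≤ t ∧ t ≤ K1 ∧ 8 * exp t * P b < P (b + t)
  · -- first kind: the first time at which `a ≥ 8 a b`
    obtain ⟨t, ht0, htK, ht⟩ := hI
    obtain ⟨T, hT⟩ : ∃ T : Set ℝ, T = Icc b (b + K1) ∩ {s | 8 * (exp (-b) * P b) ≤ exp (-s) * P s} :=
      ⟨_, rfl⟩
    have hTc : IsCompact T := by
      rw [hT]
      exact isCompact_Icc.inter_right (isClosed_le continuous_const hac)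
    have hTne : T.Nonempty := by
      refine ⟨b + t, ?_⟩
      rw [hT]
      refine ⟨⟨by linarith, by linarith⟩, ?_⟩
      show 8 * (exp (-b) * P b) ≤ exp (-(b + t)) * P (b + t)
      have e1 : exp (-(b + t)) * (8 * exp t * P b) = 8 * (exp (-b) * P b) := by
        have : exp (-(b + t)) * exp t = exp (-b) := by rw [← exp_add]; congr 1; ring
        calc exp (-(b + t)) * (8 * exp t * P b) = 8 * ((exp (-(b + t)) * exp t) * P b) := by ring
          _ = _ := by rw [this]
      rw [← e1]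
      exact mul_le_mul_of_nonneg_left ht.le (exp_pos _).le
    obtain ⟨b', hb'T, hb'min⟩ := hTc.exists_isLeast hTne
    have hb'1 : b' ∈ T := hb'T
    rw [hT] at hb'1
    have hb'8 : 8 * (exp (-b) * P b) ≤ exp (-b') * P b' := hb'1.2
    have hlt : b < b' := by
      rcases lt_or_eq_of_le hb'1.1.1 with h1 | h1
      · exact h1
      · exfalso
        rw [← h1] at hb'8
        linarith [ha0 b]
    refine ⟨b', hlt, hb'1.1.2, ?_⟩
    have hle : ∀ s ∈ Ioo b b', exp (-s) * P s ≤ 8 * (exp (-b) * P b) := by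
      intro s hs
      by_contra hcon
      push Not at hcon
      have hsT : s ∈ T := by
        rw [hT]
        exact ⟨⟨hs.1.le, hs.2.le.trans hb'1.1.2⟩, hcon.le⟩
      exact absurd (hb'min hsT) (not_le.2 hs.2)
    have hint : ∫ s in b..b', exp (-s) * P s ≤ 8 * K1 * (exp (-b) * P b) := by
      calc ∫ s in b..b', exp (-s) * P s ≤ ∫ s in b..b', 8 * (exp (-b) * P b) := by
            apply intervalIntegral.integral_mono_on_of_le_Ioo hlt.le (hac.intervalIntegrable _ _)
              (by simp)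
            exact hle
        _ = (b' - b) * (8 * (exp (-b) * P b)) := by
            rw [intervalIntegral.integral_const, smul_eq_mul]
        _ ≤ K1 * (8 * (exp (-b) * P b)) :=
            mul_le_mul_of_nonneg_right (by linarith [hb'1.1.2]) (by linarith [ha0 b])
        _ = _ := by ring
    have hnn : 0 ≤ ∫ s in b..b', exp (-s) * N s :=
      intervalIntegral.integral_nonneg hlt.le fun s _ => hn0 s
    have h1 : 0 ≤ C' * ∫ s in b..b', exp (-s) * N s := mul_nonneg hC'0.le hnn
    have h2 : D * (8 * (exp (-b) * P b)) ≤ D * (exp (-b') * P b') :=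
      mul_le_mul_of_nonneg_left hb'8 (by rw [hD]; linarith)
    have h3 : 0 ≤ K1 * (exp (-b) * P b) := mul_nonneg (by linarith) (ha0 b).le
    rw [hD] at h2 ⊢
    nlinarith
  · -- second kind
    rcases h with h | ⟨t, ht0, htK, ht⟩
    · exact absurd h hI
    push Not at hI
    refine ⟨b + K1, by linarith, le_rfl, ?_⟩
    have hle : ∀ s ∈ Icc b (b + K1), exp (-s) * P s ≤ 8 * (exp (-b) * P b) := by
      intro s hs
      have e1 := hI (s - b) (by linarith [hs.1]) (by linarith [hs.2])
      rw [add_sub_cancel] at e1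
      calc exp (-s) * P s ≤ exp (-s) * (8 * exp (s - b) * P b) :=
            mul_le_mul_of_nonneg_left e1 (exp_pos _).le
        _ = 8 * (exp (-b) * P b) := by
            have : exp (-s) * exp (s - b) = exp (-b) := by rw [← exp_add]; congr 1; ring
            calc exp (-s) * (8 * exp (s - b) * P b) = 8 * ((exp (-s) * exp (s - b)) * P b) := by ring
              _ = _ := by rw [this]
    have hint : ∫ s in b..(b + K1), exp (-s) * P s ≤ 8 * K1 * (exp (-b) * P b) := by
      calc ∫ s in b..(b + K1), exp (-s) * P s ≤ ∫ s in b..(b + K1), 8 * (exp (-b) * P b) := by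
            apply intervalIntegral.integral_mono_on (by linarith) (hac.intervalIntegrable _ _)
              (by simp)
            exact hle
        _ = (b + K1 - b) * (8 * (exp (-b) * P b)) := by
            rw [intervalIntegral.integral_const, smul_eq_mul]
        _ = _ := by ring
    have hnn : σ * exp (-K1) * (exp (-b) * P b) ≤ ∫ s in b..(b + K1), exp (-s) * N s := by
      have e1 : ∫ s in b..(b + K1), exp (-s) * N s =
          (∫ s in b..(b + t), exp (-s) * N s) + ∫ s in (b + t)..(b + K1), exp (-s) * N s :=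
        (intervalIntegral.integral_add_adjacent_intervals (hnc.intervalIntegrable _ _)
          (hnc.intervalIntegrable _ _)).symm
      have e2 : 0 ≤ ∫ s in b..(b + t), exp (-s) * N s :=
        intervalIntegral.integral_nonneg (by linarith) fun s _ => hn0 s
      have e3 : ∫ s in (b + t)..(b + K1), σ * exp (-K1) * (exp (-b) * P b) ≤
          ∫ s in (b + t)..(b + K1), exp (-s) * N s := by
        apply intervalIntegral.integral_mono_on (by linarith) (by simp)
          (hnc.intervalIntegrable _ _)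
        intro s hs
        have e4 : σ * P b ≤ N s := by
          calc σ * P b ≤ σ * P (b + t) := mul_le_mul_of_nonneg_left (hPm (by linarith)) hσ.le
            _ ≤ N (b + t) := ht.le
            _ ≤ N s := hNm hs.1
        have e5 : exp (-(b + K1)) ≤ exp (-s) := exp_le_exp.2 (by linarith [hs.2])
        calc σ * exp (-K1) * (exp (-b) * P b) = (exp (-b) * exp (-K1)) * (σ * P b) := by ring
          _ = exp (-(b + K1)) * (σ * P b) := by
              rw [← exp_add]; congr 2; ring
          _ ≤ exp (-s) * N s :=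
              mul_le_mul e5 e4 (mul_nonneg hσ.le (by linarith [hP1 b])) (exp_pos _).le
      rw [intervalIntegral.integral_const, smul_eq_mul] at e3
      have e6 : 0 ≤ σ * exp (-K1) * (exp (-b) * P b) :=
        mul_nonneg (mul_nonneg hσ.le (exp_pos _).le) (ha0 b).le
      have e7 : 1 * (σ * exp (-K1) * (exp (-b) * P b)) ≤
          (b + K1 - (b + t)) * (σ * exp (-K1) * (exp (-b) * P b)) :=
        mul_le_mul_of_nonneg_right (by linarith) e6
      linarith
    have h1 := mul_le_mul_of_nonneg_left hnn hC'0.le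
    have h2 : C' * (σ * exp (-K1) * (exp (-b) * P b)) = 10 * K1 * (exp (-b) * P b) := by
      have e1 : exp K1 * exp (-K1) = 1 := by rw [← exp_add]; simp
      rw [hC']
      calc 10 * K1 * exp K1 / σ * (σ * exp (-K1) * (exp (-b) * P b))
          = 10 * K1 * (exp K1 * exp (-K1)) * (σ / σ) * (exp (-b) * P b) := by ring
        _ = _ := by rw [e1, div_self hσ.ne']; ring
    have h3 : 0 ≤ D * (exp (-(b + K1)) * P (b + K1)) :=
      mul_nonneg (by rw [hD]; linarith) (ha0 _).le
    rw [h2] at h1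
    have h4 : D * (exp (-b) * P b) = 2 * (K1 * (exp (-b) * P b)) := by rw [hD]; ring
    rw [h4]
    linarith

/-- the greedy bound -/
private theorem greedy {K1 σ D C' S : ℝ} (hK1 : 2 ≤ K1) (hσ : 0 < σ) (hD : D = 2 * K1)
    (hC' : C' = 10 * K1 * exp K1 / σ) {P N : ℝ → ℝ} (hPc : Continuous P) (hPm : Monotone P)
    (hP1 : ∀ s, 1 ≤ P s) (hNc : Continuous N) (hNm : Monotone N) (hN0 : ∀ s, 0 ≤ N s)
    (h : ∀ b, S ≤ b → (∃ t, 0 ≤ t ∧ t ≤ K1 ∧ 8 * exp t * P b < P (b + t)) ∨
      ∃ t, 0 ≤ t ∧ t ≤ K1 - 2 ∧ σ * P (b + t) < N (b + t)) {α β : ℝ} (hα : S ≤ α) (hαβ : α ≤ β) :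
    ∫ s in α..β, exp (-s) * P s ≤
      C' * (∫ s in α..(β + K1), exp (-s) * N s) + D * (exp (-β) * P (β + K1)) := by
  have hac : Continuous fun s => exp (-s) * P s := by fun_prop
  have hnc : Continuous fun s => exp (-s) * N s := by fun_prop
  have ha0 : ∀ s, 0 < exp (-s) * P s := fun s => mul_pos (exp_pos _) (by linarith [hP1 s])
  have hn0 : ∀ s, 0 ≤ exp (-s) * N s := fun s => mul_nonneg (exp_pos _).le (hN0 s)
  have hC'0 : 0 < C' := by rw [hC']; positivity
  have hD0 : 0 < D := by rw [hD]; linarith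
  obtain ⟨G, hG⟩ : ∃ G : ℝ → ℝ, G = fun b => (-∫ s in β..b, exp (-s) * P s) +
      D * (exp (-b) * P b) - C' * (-∫ s in (β + K1)..b, exp (-s) * N s) := ⟨_, rfl⟩
  have hGc : Continuous G := by
    rw [hG]
    have c1 : Continuous fun b => ∫ s in β..b, exp (-s) * P s :=
      intervalIntegral.continuous_primitive (fun a b => hac.intervalIntegrable a b) β
    have c2 : Continuous fun b => ∫ s in (β + K1)..b, exp (-s) * N s :=
      intervalIntegral.continuous_primitive (fun a b => hnc.intervalIntegrable a b) (β + K1)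
    fun_prop
  have hne : (Icc α (β + K1)).Nonempty := ⟨α, left_mem_Icc.2 (by linarith)⟩
  obtain ⟨b0, hb0, hb0max⟩ := isCompact_Icc.exists_isMaxOn hne hGc.continuousOn
  obtain ⟨M, hM⟩ : ∃ M : Set ℝ, M = Icc α (β + K1) ∩ {b | G b0 ≤ G b} := ⟨_, rfl⟩
  have hMc : IsCompact M := by
    rw [hM]
    exact isCompact_Icc.inter_right (isClosed_le continuous_const hGc)
  have hMne : M.Nonempty := by
    refine ⟨b0, ?_⟩
    rw [hM]
    exact ⟨hb0, le_refl (G b0)⟩
  obtain ⟨b1, hb1M, hb1max⟩ := hMc.exists_isGreatest hMne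
  have hb1 : b1 ∈ M := hb1M
  rw [hM] at hb1
  have hb1β : β ≤ b1 := by
    by_contra hcon
    push Not at hcon
    obtain ⟨b', hbb', hb'K, hb'⟩ := greedy_step hK1 hσ hD hC' hPc hPm hP1 hNc hNm hN0
      (h b1 (hα.trans hb1.1.1))
    have hGle : G b1 ≤ G b' := by
      rw [hG]
      have e1 : ∫ s in β..b', exp (-s) * P s =
          (∫ s in β..b1, exp (-s) * P s) + ∫ s in b1..b', exp (-s) * P s :=
        (intervalIntegral.integral_add_adjacent_intervals (hac.intervalIntegrable _ _)
          (hac.intervalIntegrable _ _)).symm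
      have e2 : ∫ s in (β + K1)..b', exp (-s) * N s =
          (∫ s in (β + K1)..b1, exp (-s) * N s) + ∫ s in b1..b', exp (-s) * N s :=
        (intervalIntegral.integral_add_adjacent_intervals (hnc.intervalIntegrable _ _)
          (hnc.intervalIntegrable _ _)).symm
      simp only []
      rw [e1, e2]
      nlinarith [hb']
    have hb'M : b' ∈ M := by
      rw [hM]
      exact ⟨⟨by linarith [hb1.1.1], by linarith⟩, le_trans hb1.2 hGle⟩
    exact absurd (hb1max hb'M) (not_le.2 hbb')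
  have hGα : G α ≤ G b1 := by
    have e1 : G α ≤ G b0 := hb0max (left_mem_Icc.2 (by linarith))
    exact e1.trans hb1.2
  have hGb1 : G b1 ≤ D * (exp (-β) * P (β + K1)) := by
    rw [hG]
    have e1 : 0 ≤ ∫ s in β..b1, exp (-s) * P s :=
      intervalIntegral.integral_nonneg hb1β fun s _ => (ha0 s).le
    have e2 : 0 ≤ -∫ s in (β + K1)..b1, exp (-s) * N s := by
      rw [← intervalIntegral.integral_symm]
      exact intervalIntegral.integral_nonneg hb1.1.2 fun s _ => hn0 s
    have e3 := mul_nonneg hC'0.le e2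
    have e4 : exp (-b1) * P b1 ≤ exp (-β) * P (β + K1) :=
      mul_le_mul (exp_le_exp.2 (by linarith)) (hPm hb1.1.2) (by linarith [hP1 b1]) (exp_pos _).le
    have e5 := mul_le_mul_of_nonneg_left e4 hD0.le
    simp only []
    linarith
  have e1 : G α = (∫ s in α..β, exp (-s) * P s) + D * (exp (-α) * P α) -
      C' * ∫ s in α..(β + K1), exp (-s) * N s := by
    rw [hG]
    simp only []
    rw [← intervalIntegral.integral_symm, ← intervalIntegral.integral_symm]
  have e2 := mul_pos hD0 (ha0 α)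
  linarith

/-- change of the weight: from `exp (-s)` to `exp (-lam s)` -/
private theorem weight {C2 K2 lam S : ℝ} (hC2 : 0 ≤ C2) (hK2 : 0 ≤ K2) (hlam : 1 ≤ lam)
    (hlam2 : (lam - 1) * C2 * exp (lam * K2) ≤ 1 / 2)
    {P : ℝ → ℝ} (hPc : Continuous P) (hPm : Monotone P) (hP1 : ∀ s, 1 ≤ P s)
    (h : ∀ α β, S ≤ α → α ≤ β → ∫ s in α..β, exp (-s) * P s ≤
      C2 * (exp (-α) * P (α + K2) + exp (-β) * P (β + K2))) {α β : ℝ} (hα : S ≤ α) (hαβ : α ≤ β) :
    ∫ s in α..β, exp (-lam * s) * P s ≤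
      (4 * C2 + K2) * (exp (-lam * α) * P (α + K2) + exp (-lam * β) * P (β + K2)) := by
  obtain ⟨ε, hε⟩ : ∃ ε : ℝ, ε = lam - 1 := ⟨_, rfl⟩
  have hε0 : 0 ≤ ε := by rw [hε]; linarith
  have hlε : lam = 1 + ε := by rw [hε]; ring
  have hac : Continuous fun s => exp (-s) * P s := by fun_prop
  have hmc : Continuous fun s => exp (-lam * s) * P s := by fun_prop
  have hm0 : ∀ s, 0 ≤ exp (-lam * s) * P s := fun s =>
    mul_nonneg (exp_pos _).le (by linarith [hP1 s])
  obtain ⟨A, hA⟩ : ∃ A : ℝ → ℝ, A = fun s => ∫ u in α..s, exp (-u) * P u := ⟨_, rfl⟩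
  have hAc : Continuous A := by
    rw [hA]
    exact intervalIntegral.continuous_primitive (fun a b => hac.intervalIntegrable a b) α
  have hAd : ∀ s, HasDerivAt A (exp (-s) * P s) s := by
    intro s
    rw [hA]
    exact (hac.integral_hasStrictDerivAt α s).hasDerivAt
  have hud : ∀ s, HasDerivAt (fun s => exp (-ε * s)) (-ε * exp (-ε * s)) s := by
    intro s
    have e1 : HasDerivAt (fun s : ℝ => -ε * s) (-ε) s := by
      simpa using (hasDerivAt_id s).const_mul (-ε)
    have e2 := e1.exp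
    rw [mul_comm] at e2
    exact e2
  have hparts : ∫ s in α..β, exp (-lam * s) * P s =
      exp (-ε * β) * A β + ε * ∫ s in α..β, exp (-ε * s) * A s := by
    have e1 := intervalIntegral.integral_mul_deriv_eq_deriv_mul (a := α) (b := β)
      (u := fun s => exp (-ε * s)) (v := A) (u' := fun s => -ε * exp (-ε * s))
      (v' := fun s => exp (-s) * P s)
      (fun s _ => hud s) (fun s _ => hAd s)
      (Continuous.intervalIntegrable (by fun_prop) _ _) (hac.intervalIntegrable _ _)
    have e2 : ∫ s in α..β, exp (-lam * s) * P s =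
        ∫ s in α..β, exp (-ε * s) * (exp (-s) * P s) := by
      refine intervalIntegral.integral_congr fun s _ => ?_
      rw [← mul_assoc, ← exp_add, hlε]
      congr 2
      ring
    have e3 : A α = 0 := by rw [hA]; simp
    rw [e2, e1, e3]
    have e4 : ∫ s in α..β, -ε * exp (-ε * s) * A s = -(ε * ∫ s in α..β, exp (-ε * s) * A s) := by
      rw [← intervalIntegral.integral_const_mul, ← intervalIntegral.integral_neg]
      refine intervalIntegral.integral_congr fun s _ => ?_
      ring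
    rw [e4]
    ring
  -- bounds
  obtain ⟨Φ, hΦ⟩ : ∃ Φ : ℝ → ℝ, Φ = fun s => exp (-lam * s) * P (s + K2) := ⟨_, rfl⟩
  have hΦ0 : ∀ s, 0 ≤ Φ s := fun s => by
    rw [hΦ]; exact mul_nonneg (exp_pos _).le (by linarith [hP1 (s + K2)])
  have hΦc : Continuous Φ := by rw [hΦ]; fun_prop
  have hAle : ∀ s, α ≤ s → exp (-ε * s) * A s ≤
      C2 * (exp (-ε * s) * (exp (-α) * P (α + K2)) + Φ s) := by
    intro s hs
    have e1 := mul_le_mul_of_nonneg_left (h α s hα hs) (exp_pos (-ε * s)).le
    have e2 : exp (-ε * s) * (C2 * (exp (-α) * P (α + K2) + exp (-s) * P (s + K2))) =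
        C2 * (exp (-ε * s) * (exp (-α) * P (α + K2)) + Φ s) := by
      rw [hΦ]
      simp only []
      have e3 : exp (-lam * s) = exp (-ε * s) * exp (-s) := by
        rw [← exp_add, hlε]; congr 1; ring
      rw [e3]
      ring
    rw [← e2, hA]
    exact e1
  have hΦα : exp (-ε * α) * (exp (-α) * P (α + K2)) = Φ α := by
    rw [hΦ]
    simp only []
    rw [← mul_assoc, ← exp_add, hlε]
    congr 2
    ring
  have hexpβ : exp (-ε * β) * (exp (-α) * P (α + K2)) ≤ Φ α := by
    rw [← hΦα]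
    refine mul_le_mul_of_nonneg_right (exp_le_exp.2 ?_) ?_
    · nlinarith
    · exact mul_nonneg (exp_pos _).le (by linarith [hP1 (α + K2)])
  have hfirst : exp (-ε * β) * A β ≤ C2 * (Φ α + Φ β) := by
    refine (hAle β hαβ).trans ?_
    exact mul_le_mul_of_nonneg_left (by linarith) hC2
  have hexpint : ε * ∫ s in α..β, exp (-ε * s) = exp (-ε * α) - exp (-ε * β) := by
    have e1 : ∫ s in α..β, -ε * exp (-ε * s) = exp (-ε * β) - exp (-ε * α) :=
      intervalIntegral.integral_eq_sub_of_hasDerivAt (fun s _ => hud s)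
        (Continuous.intervalIntegrable (by fun_prop) _ _)
    rw [intervalIntegral.integral_const_mul] at e1
    linarith
  have hshift : ∫ s in α..β, Φ s ≤
      exp (lam * K2) * ((∫ s in α..β, exp (-lam * s) * P s) + K2 * Φ β) := by
    have e1 : ∫ s in α..β, Φ s = exp (lam * K2) * ∫ s in α..β, exp (-lam * (s + K2)) * P (s + K2) := by
      rw [← intervalIntegral.integral_const_mul]
      refine intervalIntegral.integral_congr fun s _ => ?_
      rw [hΦ]
      simp only []
      rw [← mul_assoc, ← exp_add]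
      congr 2
      ring
    have e2 : ∫ s in α..β, exp (-lam * (s + K2)) * P (s + K2) =
        ∫ s in (α + K2)..(β + K2), exp (-lam * s) * P s :=
      intervalIntegral.integral_comp_add_right (fun s => exp (-lam * s) * P s) K2
    have e3 : ∫ s in (α + K2)..(β + K2), exp (-lam * s) * P s ≤
        ∫ s in α..(β + K2), exp (-lam * s) * P s := by
      have e4 : ∫ s in α..(β + K2), exp (-lam * s) * P s =
          (∫ s in α..(α + K2), exp (-lam * s) * P s) +
            ∫ s in (α + K2)..(β + K2), exp (-lam * s) * P s :=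
        (intervalIntegral.integral_add_adjacent_intervals (hmc.intervalIntegrable _ _)
          (hmc.intervalIntegrable _ _)).symm
      have e5 : 0 ≤ ∫ s in α..(α + K2), exp (-lam * s) * P s :=
        intervalIntegral.integral_nonneg (by linarith) fun s _ => hm0 s
      linarith
    have e6 : ∫ s in α..(β + K2), exp (-lam * s) * P s =
        (∫ s in α..β, exp (-lam * s) * P s) + ∫ s in β..(β + K2), exp (-lam * s) * P s :=
      (intervalIntegral.integral_add_adjacent_intervals (hmc.intervalIntegrable _ _)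
        (hmc.intervalIntegrable _ _)).symm
    have e7 : ∫ s in β..(β + K2), exp (-lam * s) * P s ≤ K2 * Φ β := by
      calc ∫ s in β..(β + K2), exp (-lam * s) * P s ≤ ∫ s in β..(β + K2), Φ β := by
            apply intervalIntegral.integral_mono_on (by linarith) (hmc.intervalIntegrable _ _)
              (by simp)
            intro s hs
            rw [hΦ]
            refine mul_le_mul (exp_le_exp.2 ?_) (hPm hs.2) (by linarith [hP1 s]) (exp_pos _).le
            nlinarith [hs.1]
        _ = (β + K2 - β) * Φ β := by rw [intervalIntegral.integral_const, smul_eq_mul]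
        _ = _ := by ring
    rw [e1, e2]
    exact mul_le_mul_of_nonneg_left (by linarith) (exp_pos _).le
  have hsecond : ε * ∫ s in α..β, exp (-ε * s) * A s ≤
      C2 * Φ α + ε * C2 * ∫ s in α..β, Φ s := by
    have e1 : ∫ s in α..β, exp (-ε * s) * A s ≤
        ∫ s in α..β, C2 * (exp (-ε * s) * (exp (-α) * P (α + K2)) + Φ s) := by
      apply intervalIntegral.integral_mono_on hαβ
        (Continuous.intervalIntegrable (by fun_prop) _ _)
        (Continuous.intervalIntegrable (by fun_prop) _ _)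
      intro s hs
      exact hAle s hs.1
    have e2 : ∫ s in α..β, C2 * (exp (-ε * s) * (exp (-α) * P (α + K2)) + Φ s) =
        C2 * ((∫ s in α..β, exp (-ε * s)) * (exp (-α) * P (α + K2)) + ∫ s in α..β, Φ s) := by
      rw [intervalIntegral.integral_const_mul, intervalIntegral.integral_add
        (Continuous.intervalIntegrable (by fun_prop) _ _)
        (Continuous.intervalIntegrable (by fun_prop) _ _), intervalIntegral.integral_mul_const]
    rw [e2] at e1
    have e3 := mul_le_mul_of_nonneg_left e1 hε0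
    have e4 : ε * (C2 * ((∫ s in α..β, exp (-ε * s)) * (exp (-α) * P (α + K2)) + ∫ s in α..β, Φ s)) =
        C2 * ((ε * ∫ s in α..β, exp (-ε * s)) * (exp (-α) * P (α + K2))) +
          ε * C2 * ∫ s in α..β, Φ s := by ring
    rw [e4, hexpint] at e3
    have e5 : (exp (-ε * α) - exp (-ε * β)) * (exp (-α) * P (α + K2)) ≤ Φ α := by
      rw [← hΦα]
      refine mul_le_mul_of_nonneg_right ?_ ?_
      · linarith [exp_pos (-ε * β)]
      · exact mul_nonneg (exp_pos _).le (by linarith [hP1 (α + K2)])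
    have e6 := mul_le_mul_of_nonneg_left e5 hC2
    linarith
  have hint0 : 0 ≤ ∫ s in α..β, exp (-lam * s) * P s :=
    intervalIntegral.integral_nonneg hαβ fun s _ => hm0 s
  have hfin : ε * C2 * ∫ s in α..β, Φ s ≤
      1 / 2 * ((∫ s in α..β, exp (-lam * s) * P s) + K2 * Φ β) := by
    have e1 := mul_le_mul_of_nonneg_left hshift (mul_nonneg hε0 hC2)
    have e2 : 0 ≤ (∫ s in α..β, exp (-lam * s) * P s) + K2 * Φ β :=
      add_nonneg hint0 (mul_nonneg hK2 (hΦ0 β))
    have e3 := mul_le_mul_of_nonneg_right hlam2 e2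
    rw [← hε] at e3
    linarith
  have hgoal : ∫ s in α..β, exp (-lam * s) * P s ≤ (4 * C2 + K2) * (Φ α + Φ β) := by
    have e1 : ∫ s in α..β, exp (-lam * s) * P s ≤
        C2 * (Φ α + Φ β) + (C2 * Φ α + 1 / 2 * ((∫ s in α..β, exp (-lam * s) * P s) + K2 * Φ β)) := by
      rw [hparts] at *
      linarith
    have e2 := mul_nonneg hC2 (hΦ0 α)
    have e3 := mul_nonneg hC2 (hΦ0 β)
    have e4 := mul_nonneg hK2 (hΦ0 α)
    nlinarith
  rw [hΦ] at hgoal
  exact hgoal

theorem startB {R1 σ : ℝ} (hR : 0 ≤ R1) (hσ : 0 < σ) : ∃ r : ℝ, 0 < r ∧ ∀ K C : ℝ, 0 ≤ K → 0 ≤ C →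
    ∃ ε0 : ℝ, 0 < ε0 ∧ ∀ (P N : ℝ → ℝ) (lam s0 : ℝ), 1 ≤ lam → lam ≤ 1 + ε0 →
      Continuous P → Monotone P → (∀ s, 1 ≤ P s) → Continuous N → Monotone N → (∀ s, 0 ≤ N s) →
      (∀ ρ' c : ℝ, lam < ρ' → 0 < c → ¬ ∀ᶠ s in atTop, c * exp (ρ' * s) ≤ P s) →
      (∀ ρ' C : ℝ, ρ' < lam → ¬ ∀ᶠ s in atTop, P s ≤ C * exp (ρ' * s)) →
      (∀ α β, s0 ≤ α → α ≤ β → ∫ s in α..β, exp (-s) * N s ≤ r * (∫ s in α..β, exp (-s) * P s)
          + C * (exp (-α) * P (α + K) + exp (-β) * P (β + K))) →
      ∀ S : ℝ, ∃ b, S ≤ b ∧ (∀ t, 0 ≤ t → t ≤ R1 + 2 → P (b + t) ≤ 8 * exp t * P b) ∧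
        (∀ t, 0 ≤ t → t ≤ R1 → N (b + t) ≤ σ * P (b + t)) := by
  obtain ⟨K1, hK1e⟩ : ∃ K1 : ℝ, K1 = R1 + 2 := ⟨_, rfl⟩
  have hK1 : 2 ≤ K1 := by linarith
  obtain ⟨C', hC'⟩ : ∃ C' : ℝ, C' = 10 * K1 * exp K1 / σ := ⟨_, rfl⟩
  have hC'0 : 0 < C' := by rw [hC']; positivity
  refine ⟨1 / (2 * C'), by positivity, fun K C hK hC => ?_⟩
  obtain ⟨K2, hK2e⟩ : ∃ K2 : ℝ, K2 = K1 + K := ⟨_, rfl⟩
  have hK2 : 0 ≤ K2 := by linarith
  obtain ⟨C2, hC2e⟩ : ∃ C2 : ℝ, C2 = 2 * (2 * K1 + K1 / 2 + C' * C) := ⟨_, rfl⟩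
  have hC2 : 0 < C2 := by
    have := mul_nonneg hC'0.le hC
    rw [hC2e]; linarith
  obtain ⟨e, he⟩ : ∃ e : ℝ, e = 1 / (2 * C2 * exp (2 * K2)) := ⟨_, rfl⟩
  have he0 : 0 < e := by rw [he]; positivity
  refine ⟨min 1 e, lt_min one_pos he0, ?_⟩
  intro P N lam s0 hlam hlam' hPc hPm hP1 hNc hNm hN0 hg1 hg2 hW S
  by_contra hcon
  push Not at hcon
  have hac : Continuous fun s => exp (-s) * P s := by fun_prop
  have hdich : ∀ b, max S s0 ≤ b → (∃ t, 0 ≤ t ∧ t ≤ K1 ∧ 8 * exp t * P b < P (b + t)) ∨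
      ∃ t, 0 ≤ t ∧ t ≤ K1 - 2 ∧ σ * P (b + t) < N (b + t) := by
    intro b hb
    by_cases h1 : ∃ t, 0 ≤ t ∧ t ≤ K1 ∧ 8 * exp t * P b < P (b + t)
    · exact Or.inl h1
    · right
      push Not at h1
      obtain ⟨t, ht0, htR, ht⟩ := hcon b ((le_max_left _ _).trans hb)
        (fun t ht0 htR => h1 t ht0 (by linarith))
      exact ⟨t, ht0, by linarith, ht⟩
  have hstar : ∀ α β, max S s0 ≤ α → α ≤ β → ∫ s in α..β, exp (-s) * P s ≤
      C2 * (exp (-α) * P (α + K2) + exp (-β) * P (β + K2)) := by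
    intro α β hα hαβ
    have h1 := greedy hK1 hσ rfl hC' hPc hPm hP1 hNc hNm hN0 hdich hα hαβ
    have h2 := hW α (β + K1) ((le_max_right _ _).trans hα) (by linarith)
    have h3 : ∫ s in α..(β + K1), exp (-s) * P s =
        (∫ s in α..β, exp (-s) * P s) + ∫ s in β..(β + K1), exp (-s) * P s :=
      (intervalIntegral.integral_add_adjacent_intervals (hac.intervalIntegrable _ _)
        (hac.intervalIntegrable _ _)).symm
    have h4 : ∫ s in β..(β + K1), exp (-s) * P s ≤ K1 * (exp (-β) * P (β + K1)) := by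
      calc ∫ s in β..(β + K1), exp (-s) * P s ≤ ∫ s in β..(β + K1), exp (-β) * P (β + K1) := by
            apply intervalIntegral.integral_mono_on (by linarith) (hac.intervalIntegrable _ _)
              (by simp)
            intro s hs
            exact mul_le_mul (exp_le_exp.2 (by linarith [hs.1])) (hPm hs.2) (by linarith [hP1 s])
              (exp_pos _).le
        _ = (β + K1 - β) * (exp (-β) * P (β + K1)) := by
            rw [intervalIntegral.integral_const, smul_eq_mul]
        _ = _ := by ring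
    have h5 := mul_le_mul_of_nonneg_left h2 hC'0.le
    rw [h3] at h5
    have h6 : C' * (1 / (2 * C') * ((∫ s in α..β, exp (-s) * P s) +
          ∫ s in β..(β + K1), exp (-s) * P s)
          + C * (exp (-α) * P (α + K) + exp (-(β + K1)) * P (β + K1 + K))) =
        1 / 2 * ((∫ s in α..β, exp (-s) * P s) + ∫ s in β..(β + K1), exp (-s) * P s)
          + C' * C * (exp (-α) * P (α + K) + exp (-(β + K1)) * P (β + K1 + K)) := by
      field_simp
    rw [h6] at h5
    have h7 : exp (-α) * P (α + K) ≤ exp (-α) * P (α + K2) :=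
      mul_le_mul_of_nonneg_left (hPm (by linarith)) (exp_pos _).le
    have h8 : exp (-(β + K1)) * P (β + K1 + K) ≤ exp (-β) * P (β + K2) := by
      have : β + K1 + K = β + K2 := by rw [hK2e]; ring
      rw [this]
      exact mul_le_mul_of_nonneg_right (exp_le_exp.2 (by linarith)) (by linarith [hP1 (β + K2)])
    have h9 : exp (-β) * P (β + K1) ≤ exp (-β) * P (β + K2) :=
      mul_le_mul_of_nonneg_left (hPm (by linarith)) (exp_pos _).le
    have h10 := mul_le_mul_of_nonneg_left (add_le_add h7 h8) (mul_nonneg hC'0.le hC)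
    have h11 := mul_le_mul_of_nonneg_left h9 (by linarith : (0 : ℝ) ≤ 2 * K1 + K1 / 2)
    have h12 : 0 ≤ exp (-α) * P (α + K2) :=
      mul_nonneg (exp_pos _).le (by linarith [hP1 (α + K2)])
    have h13 : 0 ≤ (2 * K1 + K1 / 2) * (exp (-α) * P (α + K2)) := mul_nonneg (by linarith) h12
    have h14 : C2 * (exp (-α) * P (α + K2) + exp (-β) * P (β + K2)) =
        2 * ((2 * K1 + K1 / 2) * (exp (-α) * P (α + K2)) +
          (2 * K1 + K1 / 2) * (exp (-β) * P (β + K2)) +
          C' * C * (exp (-α) * P (α + K2) + exp (-β) * P (β + K2))) := by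
      rw [hC2e]; ring
    rw [h14]
    linarith
  have hlamK : (lam - 1) * C2 * exp (lam * K2) ≤ 1 / 2 := by
    have e1 : lam - 1 ≤ e := by linarith [min_le_right (1 : ℝ) e]
    have e2 : lam ≤ 2 := by linarith [min_le_left (1 : ℝ) e]
    have e3 : exp (lam * K2) ≤ exp (2 * K2) :=
      exp_le_exp.2 (mul_le_mul_of_nonneg_right e2 hK2)
    have e4 : e * C2 * exp (2 * K2) = 1 / 2 := by
      rw [he]
      field_simp
    calc (lam - 1) * C2 * exp (lam * K2) ≤ e * C2 * exp (2 * K2) :=
          mul_le_mul (mul_le_mul_of_nonneg_right e1 hC2.le) e3 (exp_pos _).le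
            (mul_nonneg he0.le hC2.le)
      _ = 1 / 2 := e4
  have hM : 0 < 4 * C2 + K2 := by linarith
  obtain ⟨α, β, hα, hαβ, hsel⟩ := Pool.Agent.MML.sel lam (by linarith) P hPm hPc
    (fun s => by linarith [hP1 s]) hg1 hg2 (1 / (2 * (4 * C2 + K2))) K2 (max S s0)
    (by positivity) hK2
  have h1 := weight hC2.le hK2 hlam hlamK hPc hPm hP1 hstar hα hαβ
  have h2 : 0 < exp (-lam * α) * P (α + K2) + exp (-lam * β) * P (β + K2) := by
    have e1 : 0 < exp (-lam * α) * P (α + K2) := mul_pos (exp_pos _) (by linarith [hP1 (α + K2)])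
    have e2 : 0 < exp (-lam * β) * P (β + K2) := mul_pos (exp_pos _) (by linarith [hP1 (β + K2)])
    linarith
  have h3 : 1 / (2 * (4 * C2 + K2)) * ∫ s in α..β, exp (-lam * s) * P s ≤
      1 / 2 * (exp (-lam * α) * P (α + K2) + exp (-lam * β) * P (β + K2)) := by
    have e1 := mul_le_mul_of_nonneg_left h1 (by positivity : (0 : ℝ) ≤ 1 / (2 * (4 * C2 + K2)))
    have e2 : 1 / (2 * (4 * C2 + K2)) * ((4 * C2 + K2) *
        (exp (-lam * α) * P (α + K2) + exp (-lam * β) * P (β + K2))) =
        1 / 2 * (exp (-lam * α) * P (α + K2) + exp (-lam * β) * P (β + K2)) := by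
      field_simp
    linarith
  linarith

end Pool.Agent.TX1
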