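import Pool.Agent.TX1.Step
import Pool.Agent.TX1.StartA
import Pool.Agent.TX1.StartB

/-!
# TX1, module Regime: the regime `JJ` for all large `s`

`start`: `startA` and `startB` with `P = TM f + 1`, `N = TN f`, window length `R1 + 2`; `TM f → ∞` (second part of `Gr` with `ρ' = 0`), so `8 (TM f b + 1) ≤ 9 TM f b`: `Win f b R1 σ1` for
arbitrarily large `b` (`R1 + 2` in place of `R1` in `startB`).
`regime`: `R0, C` from `step_left`.  Given `R ≥ R0`: take `m = ⌈R⌉ + 5`, `R1 = 8 (R + 20)`, `σ1` so small that `5000((R1+1)σ1 + exp (-R1/2))` is tiny; `near` on the window `Win f b R1 σ1` gives the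
hypothesis of `step_left` at `b` for `j = 0..m` (`b + j + 1 ≤ b + R1/4`; `TN (b+j) ≤ σ1 TM (b+j)`).  Induction: the same at `b - 1, b - 2, ...` as long as `b - k ≥ s1`, `s1` with `exp R ≤ TM f s1`, `s0 ≤ s1`.
For a real `s ≥ s1 + 1` take `b - k ≤ s < b - k + 1` (`b` arbitrarily large): `TN s ≤ TN (b-k+1) ≤ σ TM (b-k+1) ≤ 3σ TM (b-k) ≤ 3σ TM s`, and `near` on `Win f (b-k) R (3σ)` (see `step_left`)
at `t = s-(b-k)` and `t + 1` gives `TM f (s+1) ≤ exp (1+1/(R+8)) TM f s` (for `R0` large).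
`regime2`: `step_up` repeatedly.  The result: `JJ f R s1` with `R = R0 + k`, `k` the largest natural number with `C δ ≤ exp (-(R0+k)/4)`; so `exp (-(R/4)) ≤ 2 C δ`.
-/

set_option autoImplicit false

namespace Pool.Agent.TX1

open Real MeasureTheory Set Filter Topology

/-- `TM` is unbounded -/
theorem Gr_large {f : ℂ → ℂ} (hf : Differentiable ℂ f) {lam : ℝ} (hlam : 0 < lam) (hG : Gr f lam)
    (B : ℝ) : ∃ s1, ∀ s, s1 ≤ s → B ≤ TM f s := by
  by_contra hcon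
  push Not at hcon
  refine hG.2 0 B hlam ?_
  refine Filter.Eventually.of_forall (fun s => ?_)
  obtain ⟨s', h1, h2⟩ := hcon s
  have := TM_mono hf h1
  simp only [zero_mul, exp_zero, mul_one]
  linarith

theorem HM_mono {f : ℂ → ℂ} {δ s0 s1 : ℝ} (h : HM f δ s0) (hs : s0 ≤ s1) : HM f δ s1 :=
  fun s hs1 => h s (hs.trans hs1)

theorem start {R1 σ1 : ℝ} (hR : 40 ≤ R1) (hσ : 0 < σ1) (hσ1 : σ1 ≤ 1) : ∃ ε0 δ0 : ℝ, 0 < ε0 ∧ 0 < δ0 ∧
    ∀ (f : ℂ → ℂ) (lam δ s0 : ℝ), Differentiable ℂ f → f 0 = 1 → 1 ≤ lam → lam ≤ 1 + ε0 → Gr f lam →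
      0 ≤ δ → δ ≤ δ0 → HM f δ s0 → ∀ S : ℝ, ∃ b, S ≤ b ∧ Win f b R1 σ1 := by
  obtain ⟨r, hr, hB⟩ := startB (R1 := R1 + 2) (σ := σ1 / 2) (by linarith) (by linarith)
  obtain ⟨K, C, δ0, hK, hC, hδ0, hA⟩ := startA hr
  obtain ⟨ε0, hε0, hB'⟩ := hB K C hK hC
  refine ⟨ε0, δ0, hε0, hδ0, ?_⟩
  intro f lam δ s0 hf h0 hlam1 hlam2 hG hδ1 hδ2 hH S
  have hM0 := TM_nonneg f
  have hMm := TM_mono hf
  obtain ⟨s1, hs1⟩ := Gr_large hf (by linarith) hG (max 8 (exp R1))
  obtain ⟨b, hb, h1, h2⟩ := hB' (fun s => TM f s + 1) (TN f) lam s0 hlam1 hlam2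
    ((TM_cont hf).add continuous_const) (fun x y hxy => by have := hMm hxy; simp only; linarith)
    (fun s => by have := hM0 s; linarith) (TN_cont hf h0) (TN_mono hf h0) (TN_nonneg hf h0)
    (by
      intro ρ' c hρ' hc hcon
      refine hG.1 ρ' (c / 2) hρ' (by positivity) ?_
      have htend : Tendsto (fun s : ℝ => c / 2 * exp (ρ' * s)) atTop atTop := by
        apply Tendsto.const_mul_atTop (by positivity)
        exact Real.tendsto_exp_atTop.comp (Tendsto.const_mul_atTop (by linarith) tendsto_id)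
      filter_upwards [hcon, htend.eventually_ge_atTop 1] with s ha hb
      have : c * exp (ρ' * s) ≤ TM f s + 1 := ha
      linarith)
    (by
      intro ρ' C' hρ' hcon
      refine hG.2 ρ' C' hρ' ?_
      filter_upwards [hcon] with s ha
      have : TM f s + 1 ≤ C' * exp (ρ' * s) := ha
      linarith)
    (fun α β hα hαβ => hA f δ s0 hf h0 hδ1 hδ2 hH α β hα hαβ) (max S s1)
  have hbS : S ≤ b := le_trans (le_max_left _ _) hb
  have hbs1 : s1 ≤ b := le_trans (le_max_right _ _) hb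
  have hbig := hs1 b hbs1
  have hb8 : 8 ≤ TM f b := le_trans (le_max_left _ _) hbig
  have hbe : exp R1 ≤ TM f b := le_trans (le_max_right _ _) hbig
  refine ⟨b, hbS, ⟨hf, h0, hR, hσ, hσ1, ?_, ?_, hbe⟩⟩
  · intro t ht htR
    have h3 := h1 t ht (by linarith)
    have h4 : 8 * exp t * (TM f b + 1) ≤ 9 * exp t * TM f b := by
      have := exp_pos t
      nlinarith
    linarith
  · intro t ht htR
    have h3 := h2 t ht (by linarith)
    have h4 : TM f b ≤ TM f (b + t) := hMm (by linarith)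
    nlinarith

/-- numerical estimate -/
theorem reg_num : ∃ R0 : ℝ, 80 ≤ R0 ∧ ∀ R, R0 ≤ R →
    5000 * ((R + 1) * (3 * exp (-(R / 4))) + exp (-(R / 2))) ≤ 1 / (4 * (R + 8)) := by
  have h1 : Tendsto (fun R : ℝ => (R + 8) * ((R + 1) * (3 * exp (-(R / 4))) + exp (-(R / 2))))
      atTop (𝓝 0) := by
    have hb : ∀ n : ℕ, Tendsto (fun R : ℝ => (R / 4) ^ n * exp (-(R / 4))) atTop (𝓝 0) := by
      intro n
      exact (Real.tendsto_pow_mul_exp_neg_atTop_nhds_zero n).comp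
        (tendsto_id.atTop_div_const (by norm_num : (0 : ℝ) < 4))
    have h2 := ((hb 2).const_mul 48).add (((hb 1).const_mul 108).add ((hb 0).const_mul 24))
    have hc : ∀ n : ℕ, Tendsto (fun R : ℝ => (R / 2) ^ n * exp (-(R / 2))) atTop (𝓝 0) := by
      intro n
      exact (Real.tendsto_pow_mul_exp_neg_atTop_nhds_zero n).comp
        (tendsto_id.atTop_div_const (by norm_num : (0 : ℝ) < 2))
    have h3 := ((hc 1).const_mul 2).add ((hc 0).const_mul 8)
    have h4 := h2.add h3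
    simp only [mul_zero, add_zero] at h4
    refine h4.congr (fun R => ?_)
    ring
  have h2 := h1.eventually (ge_mem_nhds (by norm_num : (0 : ℝ) < 1 / 20000))
  obtain ⟨R0, hR0⟩ := eventually_atTop.1 h2
  refine ⟨max R0 80, le_max_right _ _, fun R hR => ?_⟩
  have h3 := hR0 R (le_trans (le_max_left _ _) hR)
  have h4 : 80 ≤ R := le_trans (le_max_right _ _) hR
  rw [le_div_iff₀ (by linarith)]
  nlinarith

/-- the ratio of `TM` in a window -/
theorem ratio_win {f : ℂ → ℂ} {b R σ ρ : ℝ} (hW : Win f b R σ) (hρ1 : ρ ≤ 1 / 2)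
    (he : 5000 * ((R + 1) * σ + exp (-(R / 2))) ≤ ρ / 4) {t : ℝ} (ht : 0 ≤ t) (htR : t + 1 ≤ R / 4) :
    TM f (b + t + 1) ≤ exp (1 + ρ) * TM f (b + t) := by
  obtain ⟨n, x, y, h, A, ψ, hD⟩ := exists_dip hW
  have n1 := near hW hD (by linarith : -1 ≤ t + 1) htR
  have n0 := near hW hD (by linarith : -1 ≤ t) (by linarith)
  have nA := (near_A hW hD (by linarith)).1
  set e := 5000 * ((R + 1) * σ + exp (-(R / 2))) with hedef
  have he0 : 0 ≤ e := by
    have := hW.hσ; have := hW.hR; positivity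
  have hρ0 : 0 ≤ ρ := by linarith
  rw [← add_assoc] at n1
  have n1' := (abs_le.1 n1).2
  have n0' := (abs_le.1 n0).1
  have hE : 0 < exp t := exp_pos t
  have hb0 : 0 ≤ TM f b := TM_nonneg f b
  have e1 : exp (t + 1) = exp 1 * exp t := by rw [exp_add, mul_comm]
  have e2 : 1 + ρ ≤ exp ρ := by linarith [add_one_le_exp ρ]
  have e3 : exp (1 + ρ) = exp 1 * exp ρ := exp_add 1 ρ
  rw [e1] at n1'
  rw [e3]
  have h1 : TM f (b + t + 1) ≤ exp 1 * (exp t * (2 * A + e * TM f b)) := by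
    nlinarith
  have h2 : exp t * (2 * A - e * TM f b) ≤ TM f (b + t) := by nlinarith
  have h3 : 2 * A + e * TM f b ≤ (1 + ρ) * (2 * A - e * TM f b) := by
    have h4 : e * TM f b ≤ ρ / 4 * TM f b := mul_le_mul_of_nonneg_right he hb0
    have h5 : ρ * (TM f b / 3) ≤ ρ * A := mul_le_mul_of_nonneg_left nA hρ0
    have h6 : ρ * (e * TM f b) ≤ 1 / 2 * (ρ / 4 * TM f b) :=
      mul_le_mul hρ1 h4 (by positivity) (by norm_num)
    nlinarith [mul_nonneg hρ0 hb0]
  have h7 : 0 ≤ 2 * A - e * TM f b := by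
    have h4 : e * TM f b ≤ ρ / 4 * TM f b := mul_le_mul_of_nonneg_right he hb0
    nlinarith [mul_nonneg hρ0 hb0]
  have h8 : exp t * (2 * A + e * TM f b) ≤ exp t * ((1 + ρ) * (2 * A - e * TM f b)) :=
    mul_le_mul_of_nonneg_left h3 hE.le
  have h9 : (1 + ρ) * (exp t * (2 * A - e * TM f b)) ≤ exp ρ * TM f (b + t) :=
    mul_le_mul e2 h2 (mul_nonneg hE.le h7) (exp_pos ρ).le
  calc TM f (b + t + 1) ≤ exp 1 * (exp t * (2 * A + e * TM f b)) := h1
    _ ≤ exp 1 * (exp ρ * TM f (b + t)) := by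
        apply mul_le_mul_of_nonneg_left _ (exp_pos 1).le
        linarith
    _ = exp 1 * exp ρ * TM f (b + t) := by ring

/-- the discrete hypothesis -/
def QQ (f : ℂ → ℂ) (R : ℝ) (m : ℕ) (b : ℝ) : Prop :=
  ∀ j : ℕ, j ≤ m → TM f (b + j + 1) ≤ exp (1 + 1 / (R + 8)) * TM f (b + j) ∧
      TN f (b + j) ≤ exp (-(R / 4)) * TM f (b + j)

theorem reg_exp_le_three {R : ℝ} (hR : 80 ≤ R) : exp (1 + 1 / (R + 8)) ≤ 3 := by
  have h1 : 1 / (R + 8) ≤ 1 / 88 := by
    apply one_div_le_one_div_of_le (by norm_num); linarith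
  have h2 : exp (1 + 1 / (R + 8)) ≤ exp (1 + 1 / 88) := exp_le_exp.2 (by linarith)
  have h3 : exp (1 + 1 / 88) = exp 1 * exp (1 / 88) := exp_add _ _
  have h4 : exp (1 / 88 : ℝ) ≤ 1 / (1 - 1 / 88) := by
    have := Real.one_sub_le_exp_neg (1 / 88)
    rw [exp_neg] at this
    rw [le_div_iff₀ (by norm_num)]
    have hp := exp_pos (1 / 88 : ℝ)
    calc exp (1 / 88 : ℝ) * (1 - 1 / 88) ≤ exp (1 / 88 : ℝ) * (exp (1 / 88 : ℝ))⁻¹ := by gcongr
      _ = 1 := mul_inv_cancel₀ hp.ne'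
  have h5 := Real.exp_one_lt_d9
  have hp := exp_pos (1 / 88 : ℝ)
  rw [h3] at h2
  nlinarith

theorem reg_exp_two_le : exp (2 : ℝ) ≤ 9 := by
  have h5 := Real.exp_one_lt_d9
  have : exp (2 : ℝ) = exp 1 * exp 1 := by rw [← exp_add]; norm_num
  rw [this]
  have hp := exp_pos (1 : ℝ)
  nlinarith

theorem reg_QQ_pow {f : ℂ → ℂ} {R : ℝ} {m : ℕ} {b : ℝ} (hQ : QQ f R m b) :
    ∀ j : ℕ, j ≤ m + 1 → TM f (b + j) ≤ exp ((1 + 1 / (R + 8)) * j) * TM f b := by
  intro j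
  induction j with
  | zero => intro _; simp
  | succ j ih =>
    intro hj
    have h1 := ih (by omega)
    have h2 := (hQ j (by omega)).1
    have e1 : b + ((j + 1 : ℕ) : ℝ) = b + j + 1 := by push_cast; ring
    rw [e1]
    calc TM f (b + j + 1) ≤ exp (1 + 1 / (R + 8)) * TM f (b + j) := h2
      _ ≤ exp (1 + 1 / (R + 8)) * (exp ((1 + 1 / (R + 8)) * j) * TM f b) := by gcongr
      _ = exp ((1 + 1 / (R + 8)) * ((j + 1 : ℕ) : ℝ)) * TM f b := by
          rw [← mul_assoc, ← exp_add]; congr 2; push_cast; ring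

theorem win_of_Q {f : ℂ → ℂ} (hf : Differentiable ℂ f) (h0 : f 0 = 1) {R b : ℝ} {m : ℕ}
    (hR : 80 ≤ R) (hm : R + 4 ≤ m) (hQ : QQ f R m b) (hb : exp R ≤ TM f b) :
    Win f b R (3 * exp (-(R / 4))) := by
  have hMm := TM_mono hf
  have hNm := TN_mono hf h0
  have hM0 := TM_nonneg f
  have hσ : 3 * exp (-(R / 4)) ≤ 1 := by
    have : exp (-(R / 4)) ≤ exp (-2) := exp_le_exp.2 (by linarith)
    have h2 : exp (-2 : ℝ) ≤ 1 / 3 := by
      have := Real.one_sub_le_exp_neg (-2)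
      have h3 : (3 : ℝ) ≤ exp 2 := by
        have := add_one_le_exp (2 : ℝ); linarith
      rw [exp_neg, ← one_div]
      exact one_div_le_one_div_of_le (by norm_num) h3
    linarith
  refine ⟨hf, h0, by linarith, by positivity, hσ, ?_, ?_, hb⟩
  · intro t ht htR
    obtain ⟨j, hj1, hj2⟩ : ∃ j : ℕ, (j : ℝ) ≤ t ∧ t < j + 1 :=
      ⟨⌊t⌋₊, Nat.floor_le ht, Nat.lt_floor_add_one t⟩
    have hjm : j + 1 ≤ m := by
      have : ((j + 1 : ℕ) : ℝ) ≤ (m : ℝ) := by push_cast; linarith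
      exact_mod_cast this
    have h1 := reg_QQ_pow hQ (j + 1) (by omega)
    have h2 : TM f (b + t) ≤ TM f (b + ((j + 1 : ℕ) : ℝ)) := hMm (by push_cast; linarith)
    have h3 : (1 + 1 / (R + 8)) * ((j + 1 : ℕ) : ℝ) ≤ t + 2 := by
      push_cast
      have h4 : 1 / (R + 8) * (j + 1) ≤ 1 := by
        rw [one_div, ← div_eq_inv_mul, div_le_one (by linarith)]; linarith
      nlinarith
    have h5 : exp ((1 + 1 / (R + 8)) * ((j + 1 : ℕ) : ℝ)) ≤ 9 * exp t := by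
      calc _ ≤ exp (t + 2) := exp_le_exp.2 h3
        _ = exp 2 * exp t := by rw [exp_add, mul_comm]
        _ ≤ 9 * exp t := by have := reg_exp_two_le; gcongr
    calc TM f (b + t) ≤ _ := h2
      _ ≤ _ := h1
      _ ≤ 9 * exp t * TM f b := by gcongr; exact hM0 b
  · intro t ht htR
    obtain ⟨j, hj1, hj2⟩ : ∃ j : ℕ, (j : ℝ) ≤ t ∧ t < j + 1 :=
      ⟨⌊t⌋₊, Nat.floor_le ht, Nat.lt_floor_add_one t⟩
    have hjm : j + 1 ≤ m := by
      have : ((j + 1 : ℕ) : ℝ) ≤ (m : ℝ) := by push_cast; linarith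
      exact_mod_cast this
    have h1 := (hQ (j + 1) hjm).2
    have h2 := (hQ j (by omega)).1
    have e1 : b + ((j + 1 : ℕ) : ℝ) = b + j + 1 := by push_cast; ring
    rw [e1] at h1
    have h3 : TN f (b + t) ≤ TN f (b + j + 1) := hNm (by linarith)
    have h4 : TM f (b + j) ≤ TM f (b + t) := hMm (by linarith)
    have h5 := reg_exp_le_three hR
    have h6 : exp (1 + 1 / (R + 8)) * TM f (b + j) ≤ 3 * TM f (b + t) :=
      mul_le_mul h5 h4 (hM0 _) (by norm_num)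
    calc TN f (b + t) ≤ _ := h3
      _ ≤ _ := h1
      _ ≤ exp (-(R / 4)) * (3 * TM f (b + t)) := by gcongr; linarith
      _ = 3 * exp (-(R / 4)) * TM f (b + t) := by ring

theorem regime : ∃ R0 : ℝ, 80 ≤ R0 ∧ ∀ R, R0 ≤ R → ∃ ε0 δ0 : ℝ, 0 < ε0 ∧ 0 < δ0 ∧
    ∀ (f : ℂ → ℂ) (lam δ s0 : ℝ), Differentiable ℂ f → f 0 = 1 → 1 ≤ lam → lam ≤ 1 + ε0 → Gr f lam →
      0 ≤ δ → δ ≤ δ0 → HM f δ s0 → ∃ s1, JJ f R s1 := by
  obtain ⟨R0a, C, hR0a, hC, hstep⟩ := step_left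
  obtain ⟨R0b, hR0b, hnum⟩ := reg_num
  refine ⟨max R0a R0b, le_trans hR0a (le_max_left _ _), ?_⟩
  intro R hR
  have hRa : R0a ≤ R := le_trans (le_max_left _ _) hR
  have hRb : R0b ≤ R := le_trans (le_max_right _ _) hR
  have hR80 : 80 ≤ R := hR0a.trans hRa
  set ρ := 1 / (R + 8) with hρ
  have hρ0 : 0 < ρ := by rw [hρ]; positivity
  have hρ1 : ρ ≤ 1 / 2 := by
    rw [hρ]; apply one_div_le_one_div_of_le (by norm_num); linarith
  set R1 := 8 * (R + 20) with hR1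
  set m : ℕ := ⌈R⌉₊ + 5 with hm
  have hm1 : R + 5 ≤ m := by
    rw [hm]; push_cast; linarith [Nat.le_ceil R]
  have hm2 : (m : ℝ) ≤ R + 6 := by
    rw [hm]; push_cast; linarith [Nat.ceil_lt_add_one (by linarith : 0 ≤ R)]
  set σ1 := min (1 / (40000 * (R1 + 1) * (R + 8))) (exp (-(R / 4))) with hσ1
  have hσ0 : 0 < σ1 := by
    rw [hσ1]; apply lt_min
    · have : 0 < R1 + 1 := by rw [hR1]; linarith
      positivity
    · exact exp_pos _
  have hσa : σ1 ≤ 1 / (40000 * (R1 + 1) * (R + 8)) := min_le_left _ _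
  have hσb : σ1 ≤ exp (-(R / 4)) := min_le_right _ _
  have hσc : σ1 ≤ 1 := hσb.trans (by rw [exp_le_one_iff]; linarith)
  have hR1p : 0 < R1 + 1 := by rw [hR1]; linarith
  have he1 : 5000 * ((R1 + 1) * σ1 + exp (-(R1 / 2))) ≤ ρ / 4 := by
    have h1 : 5000 * ((R1 + 1) * σ1) ≤ ρ / 8 := by
      calc 5000 * ((R1 + 1) * σ1) ≤ 5000 * ((R1 + 1) * (1 / (40000 * (R1 + 1) * (R + 8)))) := by
            gcongr
        _ = ρ / 8 := by
            rw [hρ]; field_simp; norm_num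
    have h2 : 5000 * exp (-(R1 / 2)) ≤ ρ / 8 := by
      have h3 := Real.pow_div_factorial_le_exp (R1 / 2) (by rw [hR1]; linarith) 4
      have h4 : R1 / 2 = 4 * (R + 20) := by rw [hR1]; ring
      rw [h4] at h3 ⊢
      have h5 : (40000 : ℝ) * (R + 8) ≤ exp (4 * (R + 20)) := by
        refine le_trans ?_ h3
        have h6 : ((4 : ℕ).factorial : ℝ) = 24 := by norm_num [Nat.factorial]
        rw [h6, le_div_iff₀ (by norm_num)]
        have h7 : (100 : ℝ) ≤ R + 20 := by linarith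
        have h8 : (100 : ℝ) ^ 3 ≤ (R + 20) ^ 3 := by gcongr
        have h9 : (R + 20) ^ 4 = (R + 20) ^ 3 * (R + 20) := by ring
        have h10 : (4 * (R + 20)) ^ 4 = 256 * ((R + 20) ^ 3 * (R + 20)) := by ring
        rw [h10]
        nlinarith
      rw [exp_neg, hρ]
      have h6 : (exp (4 * (R + 20)))⁻¹ ≤ (40000 * (R + 8))⁻¹ := by
        apply inv_anti₀ (by positivity) h5
      calc 5000 * (exp (4 * (R + 20)))⁻¹ ≤ 5000 * (40000 * (R + 8))⁻¹ := by gcongr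
        _ = 1 / (R + 8) / 8 := by field_simp; norm_num
    linarith
  obtain ⟨ε0, δ0, hε0, hδ0, hstart⟩ := start (R1 := R1) (σ1 := σ1) (by rw [hR1]; linarith) hσ0 hσc
  refine ⟨ε0, min δ0 (exp (-(R / 4)) / C), hε0, lt_min hδ0 (by positivity), ?_⟩
  intro f lam δ s0 hf h0 hlam1 hlam2 hG hδ1 hδ2 hH
  have hMm := TM_mono hf
  have hNm := TN_mono hf h0
  have hM0 := TM_nonneg f
  have hδa : δ ≤ δ0 := hδ2.trans (min_le_left _ _)
  have hδb : C * δ ≤ exp (-(R / 4)) := by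
    have := hδ2.trans (min_le_right _ _)
    rw [le_div_iff₀ hC] at this
    linarith
  obtain ⟨s1', hs1'⟩ := Gr_large hf (by linarith) hG (exp R)
  set s1 := max s0 s1' with hs1
  have hs1a : s0 ≤ s1 := le_max_left _ _
  have hs1b : ∀ s, s1 ≤ s → exp R ≤ TM f s := fun s hs => hs1' s ((le_max_right _ _).trans hs)
  -- one step
  have hdown : ∀ b, QQ f R m b → s1 ≤ b - 1 → QQ f R m (b - 1) := by
    intro b hQ hb
    have h1 := hstep f b R δ m hf h0 hRa hδ1 hδb (by linarith) (hs1b _ hb)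
      (HM_mono hH (hs1a.trans hb)) hQ
    intro j hj
    rcases Nat.eq_zero_or_pos j with rfl | hj0
    · simpa using h1
    · obtain ⟨i, rfl⟩ : ∃ i, j = i + 1 := ⟨j - 1, by omega⟩
      have h2 := hQ i (by omega)
      have e1 : b - 1 + ((i + 1 : ℕ) : ℝ) = b + i := by push_cast; ring
      rw [e1]
      exact h2
  have hdown' : ∀ k : ℕ, ∀ b, QQ f R m b → s1 ≤ b - k → QQ f R m (b - k) := by
    intro k
    induction k with
    | zero => intro b hQ _; simpa using hQ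
    | succ k ih =>
      intro b hQ hb
      have e1 : b - ((k + 1 : ℕ) : ℝ) = b - k - 1 := by push_cast; ring
      rw [e1] at hb ⊢
      exact hdown _ (ih b hQ (by linarith)) hb
  refine ⟨s1 + 1, fun s hs => ?_⟩
  obtain ⟨b, hb, hW⟩ := hstart f lam δ s0 hf h0 hlam1 hlam2 hG hδ1 hδa hH (s + 1)
  have hQb : QQ f R m b := by
    intro j hj
    have hj' : (j : ℝ) ≤ m := by exact_mod_cast hj
    have hj0 : (0 : ℝ) ≤ j := Nat.cast_nonneg j
    constructor
    · exact ratio_win hW hρ1 he1 hj0 (by rw [hR1]; linarith)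
    · have h1 := hW.ze j hj0 (by rw [hR1]; linarith)
      refine h1.trans ?_
      exact mul_le_mul_of_nonneg_right hσb (hM0 _)
  set k : ℕ := ⌈b - s⌉₊ with hk
  have hk1 : b - s ≤ k := Nat.le_ceil _
  have hk2 : (k : ℝ) < b - s + 1 := Nat.ceil_lt_add_one (by linarith)
  set b' := b - k with hb'
  have hQ' : QQ f R m b' := hdown' k b hQb (by linarith)
  have hb1 : s1 ≤ b' := by linarith
  have hW' : Win f b' R (3 * exp (-(R / 4))) :=
    win_of_Q hf h0 hR80 (by linarith) hQ' (hs1b _ hb1)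
  have hnumR := hnum R hRb
  have hρ4 : 1 / (4 * (R + 8)) = ρ / 4 := by rw [hρ]; field_simp
  rw [hρ4] at hnumR
  constructor
  · have h1 := ratio_win hW' hρ1 hnumR (t := s - b') (by linarith) (by linarith)
    have e1 : b' + (s - b') = s := by ring
    rw [e1] at h1
    exact h1
  · have h1 := (hQ' 1 (by omega)).2
    have h2 := (hQ' 0 (by omega)).1
    simp only [Nat.cast_one, Nat.cast_zero, add_zero] at h1 h2
    have h3 : TN f s ≤ TN f (b' + 1) := hNm (by linarith)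
    have h4 : TM f b' ≤ TM f s := hMm (by linarith)
    have h5 := reg_exp_le_three hR80
    have h6 : exp (1 + 1 / (R + 8)) * TM f b' ≤ 3 * TM f s :=
      mul_le_mul h5 h4 (hM0 _) (by norm_num)
    calc TN f s ≤ _ := h3
      _ ≤ _ := h1
      _ ≤ exp (-(R / 4)) * (3 * TM f s) := by gcongr; linarith
      _ = 3 * exp (-(R / 4)) * TM f s := by ring

theorem regime2 : ∃ C1 δ0 ε0 : ℝ, 0 < C1 ∧ 0 < δ0 ∧ 0 < ε0 ∧
    ∀ (f : ℂ → ℂ) (lam δ s0 : ℝ), Differentiable ℂ f → f 0 = 1 → 1 ≤ lam → lam ≤ 1 + ε0 → Gr f lam →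
      0 < δ → δ ≤ δ0 → HM f δ s0 →
      ∃ R s1, 80 ≤ R ∧ exp (-(R / 4)) ≤ C1 * δ ∧ δ ≤ C1 * exp (-(R / 4)) ∧ JJ f R s1 := by
  obtain ⟨R0a, hR0a, hreg⟩ := regime
  obtain ⟨R0b, C, hR0b, hC, hup⟩ := step_up
  set R0 := max R0a R0b with hR0
  have hRa : R0a ≤ R0 := le_max_left _ _
  have hRb : R0b ≤ R0 := le_max_right _ _
  obtain ⟨ε0, δ0, hε0, hδ0, hreg'⟩ := hreg R0 hRa
  refine ⟨2 * C + 1 / C, min δ0 (exp (-(R0 / 4)) / C), ε0, by positivity,
    lt_min hδ0 (by positivity), hε0, ?_⟩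
  intro f lam δ s0 hf h0 hlam1 hlam2 hG hδ1 hδ2 hH
  have hδa : δ ≤ δ0 := hδ2.trans (min_le_left _ _)
  have hδb : C * δ ≤ exp (-(R0 / 4)) := by
    have := hδ2.trans (min_le_right _ _)
    rw [le_div_iff₀ hC] at this
    linarith
  have hCδ : 0 < C * δ := by positivity
  have hind : ∀ k : ℕ, C * δ ≤ exp (-((R0 + k) / 4)) → ∃ s1, JJ f (R0 + k) s1 := by
    intro k
    induction k with
    | zero =>
      intro _
      obtain ⟨s1, hs1⟩ := hreg' f lam δ s0 hf h0 hlam1 hlam2 hG hδ1.le hδa hH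
      exact ⟨s1, by simpa using hs1⟩
    | succ k ih =>
      intro hk
      have hk' : C * δ ≤ exp (-((R0 + k + 1) / 4)) := by
        have e1 : R0 + ((k + 1 : ℕ) : ℝ) = R0 + k + 1 := by push_cast; ring
        rwa [e1] at hk
      obtain ⟨s1, hs1⟩ := ih (hk'.trans (exp_le_exp.2 (by linarith)))
      obtain ⟨s2, hs2⟩ := Gr_large hf (by linarith) hG (exp (R0 + k))
      set s3 := max s1 (max s0 s2) with hs3
      have a1 : s1 ≤ s3 := le_max_left _ _
      have a2 : s0 ≤ s3 := (le_max_left _ _).trans (le_max_right _ _)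
      have a3 : s2 ≤ s3 := (le_max_right _ _).trans (le_max_right _ _)
      have h1 := hup f (R0 + k) δ s3 hf h0 (by have : (0 : ℝ) ≤ k := Nat.cast_nonneg k; linarith)
        hδ1.le hk' (HM_mono hH a2) (hs2 s3 a3) (fun s hs => hs1 s (a1.trans hs))
      refine ⟨s3, ?_⟩
      have e1 : R0 + ((k + 1 : ℕ) : ℝ) = R0 + k + 1 := by push_cast; ring
      rw [e1]
      exact h1
  -- choice of k
  set u := -4 * log (C * δ) - R0 with hu
  have hu0 : 0 ≤ u := by
    have h1 : log (C * δ) ≤ -(R0 / 4) := by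
      rw [log_le_iff_le_exp hCδ]; exact hδb
    rw [hu]; linarith
  set k := ⌊u⌋₊ with hk
  have hk1 : (k : ℝ) ≤ u := Nat.floor_le hu0
  have hk2 : u < k + 1 := Nat.lt_floor_add_one u
  have h1 : C * δ ≤ exp (-((R0 + k) / 4)) := by
    rw [← log_le_iff_le_exp hCδ]
    rw [hu] at hk1
    linarith
  have h2 : exp (-((R0 + k) / 4)) ≤ 2 * (C * δ) := by
    have h3 : -((R0 + k) / 4) ≤ log (C * δ) + 1 / 4 := by
      rw [hu] at hk2
      linarith
    calc exp (-((R0 + k) / 4)) ≤ exp (log (C * δ) + 1 / 4) := exp_le_exp.2 h3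
      _ = C * δ * exp (1 / 4) := by rw [exp_add, exp_log hCδ]
      _ ≤ C * δ * 2 := by
          have h4 : exp (1 / 4 : ℝ) ≤ 2 := by
            have := Real.one_sub_le_exp_neg (1 / 4)
            rw [exp_neg] at this
            have hp := exp_pos (1 / 4 : ℝ)
            have h5 : exp (1 / 4 : ℝ) * (1 - 1 / 4) ≤ 1 := by
              calc exp (1 / 4 : ℝ) * (1 - 1 / 4) ≤ exp (1 / 4 : ℝ) * (exp (1 / 4 : ℝ))⁻¹ := by
                    gcongr
                _ = 1 := mul_inv_cancel₀ hp.ne'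
            linarith
          gcongr
      _ = 2 * (C * δ) := by ring
  obtain ⟨s1, hs1⟩ := hind k h1
  have hk0 : (0 : ℝ) ≤ k := Nat.cast_nonneg k
  refine ⟨R0 + k, s1, by linarith, ?_, ?_, hs1⟩
  · have : 0 ≤ 1 / C * δ := by positivity
    nlinarith
  · have h3 : δ ≤ 1 / C * exp (-((R0 + k) / 4)) := by
      rw [one_div, ← div_eq_inv_mul, le_div_iff₀ hC]
      linarith
    have h4 : 0 ≤ 2 * C * exp (-((R0 + k) / 4)) := by positivity
    nlinarith

end Pool.Agent.TX1
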