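import Pool.Agent.TX1.Defs

/-!
# TX1, module Ell: the contribution `ell τ β = log |1 - exp (τ + iβ)|` of one zero

* `ell_int`: mean value (Mathlib: `circleAverage_log_norm_sub_const_eq_posLog` and relatives).
* `ell_pos_int`: pointwise `ell ≤ log (1 + exp τ)`.
* `ell_neg_int`: `∫ max (-ell) 0 = ∫ max ell 0 - ∫ ell ≤ 2π log (1 + exp τ) - 2π max τ 0 ≤ 2π exp (-|τ|)`.
* `ell_diff`: for `τ < 0`: `|1 - pt τ β| ≤ |1 - pt τ β'| + |pt τ β - pt τ β'|`, `|pt τ β - pt τ β'| ≤ exp τ |β - β'|`,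
  `|1 - pt τ β'| ≥ 1 - exp τ`, so the quotient is at most `1 + |β - β'| exp τ / (1 - exp τ) = 1 + |β-β'|/(exp |τ| - 1)`;
  for `τ > 0` use `ell_neg`.
-/

set_option autoImplicit false

namespace Pool.Agent.TX1

open Real MeasureTheory Set Filter Topology

theorem pt_norm (s θ : ℝ) : ‖pt s θ‖ = exp s := by
  unfold pt
  rw [Complex.norm_exp]
  simp

theorem pt_ne (s θ : ℝ) : pt s θ ≠ 0 := Complex.exp_ne_zero _

theorem pt_div (s θ s' θ' : ℝ) : pt s θ / pt s' θ' = pt (s - s') (θ - θ') := by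
  unfold pt
  rw [← Complex.exp_sub]
  congr 1
  push_cast
  ring

theorem pt_per (s θ : ℝ) : pt s (θ + 2 * π) = pt s θ := by
  unfold pt
  have h : ((s : ℂ) + ((θ + 2 * π : ℝ) : ℂ) * Complex.I)
      = ((s : ℂ) + (θ : ℂ) * Complex.I) + 2 * π * Complex.I := by
    push_cast
    ring
  rw [h, Complex.exp_add, Complex.exp_two_pi_mul_I, mul_one]

theorem pt_cont : Continuous (fun p : ℝ × ℝ => pt p.1 p.2) := by
  unfold pt
  fun_prop

theorem ell_per (τ β : ℝ) : ell τ (β + 2 * π) = ell τ β := by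
  unfold ell
  rw [pt_per]

theorem pt_conj (τ β : ℝ) : (starRingEnd ℂ) (pt τ β) = pt τ (-β) := by
  unfold pt
  rw [← Complex.exp_conj]
  congr 1
  simp

theorem ell_even (τ β : ℝ) : ell τ (-β) = ell τ β := by
  unfold ell
  rw [← pt_conj]
  have h : (1 : ℂ) - (starRingEnd ℂ) (pt τ β) = (starRingEnd ℂ) (1 - pt τ β) := by
    simp
  rw [h, Complex.norm_conj]

theorem norm_one_sub_pt (τ β : ℝ) : ‖1 - pt τ β‖ = exp τ * ‖1 - pt (-τ) β‖ := by
  have h1 : (1 : ℂ) - pt τ β = -(pt τ β) * (1 - pt (-τ) (-β)) := by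
    have h2 : pt τ β * pt (-τ) (-β) = 1 := by
      unfold pt
      rw [← Complex.exp_add]
      have : ((τ : ℂ) + (β : ℂ) * Complex.I) + (((-τ : ℝ) : ℂ) + ((-β : ℝ) : ℂ) * Complex.I) = 0 := by
        push_cast
        ring
      rw [this, Complex.exp_zero]
    linear_combination -h2
  have h3 : ‖1 - pt (-τ) (-β)‖ = ‖1 - pt (-τ) β‖ := by
    have h : (1 : ℂ) - pt (-τ) (-β) = (starRingEnd ℂ) (1 - pt (-τ) β) := by
      rw [← pt_conj]; simp
    rw [h, Complex.norm_conj]
  rw [h1, norm_mul, norm_neg, pt_norm, h3]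

theorem ell_neg (τ β : ℝ) : ell τ β = τ + ell (-τ) β := by
  by_cases h0 : pt (-τ) β = 1
  · have hn := pt_norm (-τ) β
    rw [h0, norm_one] at hn
    have h2 : -τ = 0 := by
      have := congrArg Real.log hn
      rw [Real.log_one, Real.log_exp] at this
      exact this.symm
    have h3 : τ = 0 := by linarith
    subst h3
    simp
  · unfold ell
    rw [norm_one_sub_pt, Real.log_mul (exp_pos _).ne' _, Real.log_exp]
    rw [Ne, norm_eq_zero, sub_eq_zero]
    exact fun h => h0 h.symm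

theorem ell_le (τ β : ℝ) : ell τ β ≤ log (1 + exp τ) := by
  unfold ell
  by_cases h : ‖1 - pt τ β‖ = 0
  · rw [h, Real.log_zero]
    apply Real.log_nonneg
    linarith [exp_pos τ]
  · apply Real.log_le_log (lt_of_le_of_ne (norm_nonneg _) (Ne.symm h))
    calc ‖1 - pt τ β‖ ≤ ‖(1 : ℂ)‖ + ‖pt τ β‖ := norm_sub_le _ _
      _ = 1 + exp τ := by rw [norm_one, pt_norm]

theorem one_sub_pt_ne {τ : ℝ} (hτ : τ ≠ 0) (β : ℝ) : ‖1 - pt τ β‖ ≠ 0 := by
  rw [Ne, norm_eq_zero, sub_eq_zero]
  intro h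
  have hn := pt_norm τ β
  rw [← h, norm_one] at hn
  have := congrArg Real.log hn
  rw [Real.log_one, Real.log_exp] at this
  exact hτ this.symm

theorem ell_cont2 : ContinuousOn (fun p : ℝ × ℝ => ell p.1 p.2) {p | p.1 ≠ 0} := by
  unfold ell
  apply ContinuousOn.log
  · apply Continuous.continuousOn
    exact (continuous_const.sub pt_cont).norm
  · intro p hp
    exact one_sub_pt_ne hp p.2

theorem ell_ii (τ a b : ℝ) : IntervalIntegrable (ell τ) volume a b := by
  have h : MeromorphicOn (fun β : ℝ => 1 - pt τ β) (uIcc a b) := by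
    intro β _
    apply AnalyticAt.meromorphicAt
    unfold pt
    have h1 : AnalyticAt ℝ (fun β : ℝ => (τ : ℂ) + (β : ℂ) * Complex.I) β := by
      have h2 : AnalyticAt ℝ (fun β : ℝ => (β : ℂ)) β := Complex.ofRealCLM.analyticAt β
      exact analyticAt_const.add (h2.mul analyticAt_const)
    exact analyticAt_const.sub ((analyticAt_cexp.restrictScalars (𝕜 := ℝ)).comp h1)
  exact h.intervalIntegrable_log_norm

theorem ell_int (τ a : ℝ) : ∫ β in a..(a + 2 * π), ell τ β = 2 * π * max τ 0 := by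
  have hper : Function.Periodic (ell τ) (2 * π) := fun β => ell_per τ β
  rw [hper.intervalIntegral_add_eq a 0, zero_add]
  have hc := circleAverage_log_norm_sub_const_eq_log_radius_add_posLog (a := (1 : ℂ)) (c := 0)
    (R := exp τ) (exp_pos τ).ne'
  rw [circleAverage_def] at hc
  have he : ∀ β : ℝ, log ‖circleMap 0 (exp τ) β - 1‖ = ell τ β := by
    intro β
    unfold ell pt circleMap
    rw [norm_sub_rev]
    congr 3
    rw [zero_add, Complex.exp_add, Complex.ofReal_exp]
  simp only [he] at hc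
  have hpi := Real.pi_pos
  have h2 : ∫ β in (0 : ℝ)..(2 * π), ell τ β
      = 2 * π * (log (exp τ) + log⁺ ((exp τ)⁻¹ * ‖(0 : ℂ) - 1‖)) := by
    rw [← hc, smul_eq_mul, ← mul_assoc, mul_inv_cancel₀ (by positivity), one_mul]
  rw [h2]
  congr 1
  rw [Real.log_exp, zero_sub, norm_neg, norm_one, mul_one, ← Real.exp_neg, Real.posLog_def,
    Pi.sup_apply, Pi.zero_apply, Real.log_exp]
  rcases le_total τ 0 with h | h
  · rw [max_eq_right (by linarith : (0:ℝ) ≤ -τ), max_eq_right h]
    ring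
  · rw [max_eq_left (by linarith : -τ ≤ (0:ℝ)), max_eq_left h]
    ring

theorem ell_pos_int (τ a : ℝ) : ∫ β in a..(a + 2 * π), max (ell τ β) 0 ≤ 2 * π * log (1 + exp τ) := by
  have hpi := Real.pi_pos
  have hii : IntervalIntegrable (fun β => max (ell τ β) 0) volume a (a + 2 * π) := by
    have h1 := ell_ii τ a (a + 2 * π)
    have h2 : (fun β => max (ell τ β) 0) = fun β => (ell τ β + |ell τ β|) / 2 := by
      funext β
      rcases le_total (ell τ β) 0 with h | h
      · rw [max_eq_right h, abs_of_nonpos h]; ring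
      · rw [max_eq_left h, abs_of_nonneg h]; ring
    rw [h2]
    exact (h1.add h1.abs).div_const 2
  calc ∫ β in a..(a + 2 * π), max (ell τ β) 0
      ≤ ∫ β in a..(a + 2 * π), log (1 + exp τ) := by
        apply intervalIntegral.integral_mono_on (by linarith) hii intervalIntegrable_const
        intro β _
        exact max_le (ell_le τ β) (Real.log_nonneg (by linarith [exp_pos τ]))
    _ = 2 * π * log (1 + exp τ) := by
        rw [intervalIntegral.integral_const, smul_eq_mul]
        ring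

theorem log_one_add_exp_sub_max (τ : ℝ) : log (1 + exp τ) - max τ 0 ≤ exp (-|τ|) := by
  have key : ∀ x : ℝ, log (1 + exp x) ≤ exp x := by
    intro x
    have h := Real.log_le_sub_one_of_pos (by linarith [exp_pos x] : (0:ℝ) < 1 + exp x)
    linarith
  rcases le_total τ 0 with h | h
  · rw [max_eq_right h, abs_of_nonpos h, neg_neg, sub_zero]
    exact key τ
  · rw [max_eq_left h, abs_of_nonneg h]
    have h1 : 1 + exp τ = exp τ * (1 + exp (-τ)) := by
      rw [mul_add, mul_one, ← Real.exp_add]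
      simp [add_comm]
    rw [h1, Real.log_mul (exp_pos _).ne' (by linarith [exp_pos (-τ)]), Real.log_exp]
    linarith [key (-τ)]

theorem ell_neg_int (τ a : ℝ) : ∫ β in a..(a + 2 * π), max (-ell τ β) 0 ≤ 2 * π * exp (-|τ|) := by
  have hpi := Real.pi_pos
  have h1 := ell_ii τ a (a + 2 * π)
  have hii : IntervalIntegrable (fun β => max (ell τ β) 0) volume a (a + 2 * π) := by
    have h2 : (fun β => max (ell τ β) 0) = fun β => (ell τ β + |ell τ β|) / 2 := by
      funext β
      rcases le_total (ell τ β) 0 with h | h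
      · rw [max_eq_right h, abs_of_nonpos h]; ring
      · rw [max_eq_left h, abs_of_nonneg h]; ring
    rw [h2]
    exact (h1.add h1.abs).div_const 2
  have he : (fun β => max (-ell τ β) 0) = fun β => max (ell τ β) 0 - ell τ β := by
    funext β
    rcases le_total (ell τ β) 0 with h | h
    · rw [max_eq_right h, max_eq_left (by linarith)]; ring
    · rw [max_eq_left h, max_eq_right (by linarith)]; ring
  rw [he, intervalIntegral.integral_sub hii h1, ell_int]
  have h3 := ell_pos_int τ a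
  have h4 := log_one_add_exp_sub_max τ
  nlinarith

theorem pt_sub_le (τ β β' : ℝ) : ‖pt τ β - pt τ β'‖ ≤ exp τ * |β - β'| := by
  have h1 : pt τ β - pt τ β' = pt τ β' * (Complex.exp (Complex.I * ((β - β' : ℝ) : ℂ)) - 1) := by
    unfold pt
    rw [mul_sub, ← Complex.exp_add, mul_one]
    congr 2
    push_cast
    ring
  rw [h1, norm_mul, pt_norm]
  apply mul_le_mul_of_nonneg_left _ (exp_pos _).le
  exact Real.norm_exp_I_mul_ofReal_sub_one_le

theorem ell_diff_neg {τ : ℝ} (hτ : τ < 0) (β β' : ℝ) :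
    ell τ β - ell τ β' ≤ log (1 + |β - β'| / (exp |τ| - 1)) := by
  have hne := one_sub_pt_ne hτ.ne β
  have hne' := one_sub_pt_ne hτ.ne β'
  have hp : 0 < ‖1 - pt τ β‖ := lt_of_le_of_ne (norm_nonneg _) (Ne.symm hne)
  have hp' : 0 < ‖1 - pt τ β'‖ := lt_of_le_of_ne (norm_nonneg _) (Ne.symm hne')
  unfold ell
  rw [← Real.log_div hne hne']
  apply Real.log_le_log (by positivity)
  have he1 : exp τ < 1 := by
    rw [Real.exp_lt_one_iff]
    exact hτ
  have hlow : 1 - exp τ ≤ ‖1 - pt τ β'‖ := by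
    have h := norm_sub_norm_le (1 : ℂ) (pt τ β')
    rw [norm_one, pt_norm] at h
    exact h
  have hup : ‖1 - pt τ β‖ ≤ ‖1 - pt τ β'‖ + exp τ * |β - β'| := by
    have h2 : (1 : ℂ) - pt τ β = (1 - pt τ β') - (pt τ β - pt τ β') := by ring
    calc ‖1 - pt τ β‖ = ‖(1 - pt τ β') - (pt τ β - pt τ β')‖ := by rw [h2]
      _ ≤ ‖1 - pt τ β'‖ + ‖pt τ β - pt τ β'‖ := norm_sub_le _ _
      _ ≤ _ := by linarith [pt_sub_le τ β β']
  have habs : |τ| = -τ := abs_of_neg hτ
  have h5 : exp τ / (1 - exp τ) = 1 / (exp |τ| - 1) := by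
    rw [habs, div_eq_div_iff (by linarith) _, one_mul, mul_sub, ← Real.exp_add]
    · simp
    · have : 1 < exp (-τ) := by
        rw [Real.one_lt_exp_iff]
        linarith
      linarith
  calc ‖1 - pt τ β‖ / ‖1 - pt τ β'‖
      ≤ (‖1 - pt τ β'‖ + exp τ * |β - β'|) / ‖1 - pt τ β'‖ := by
        gcongr
    _ = 1 + exp τ * |β - β'| / ‖1 - pt τ β'‖ := by
        field_simp
    _ ≤ 1 + exp τ * |β - β'| / (1 - exp τ) := by
        have : 0 < 1 - exp τ := by linarith
        gcongr
    _ = 1 + |β - β'| / (exp |τ| - 1) := by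
        rw [div_eq_mul_one_div |β - β'|, ← h5]
        ring

theorem ell_diff {τ : ℝ} (hτ : τ ≠ 0) (β β' : ℝ) :
    ell τ β - ell τ β' ≤ log (1 + |β - β'| / (exp |τ| - 1)) := by
  rcases lt_or_gt_of_ne hτ with h | h
  · exact ell_diff_neg h β β'
  · rw [ell_neg τ β, ell_neg τ β']
    have := ell_diff_neg (by linarith : -τ < 0) β β'
    rw [abs_neg] at this
    linarith

end Pool.Agent.TX1
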