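import Pool.Agent.TX1.Jens

/-!
# TX1, module Norm: reduction to `f 0 = 1`

`f` entire, not identically zero: `f z = c z^k f1 z`, `f1` entire, `f1 0 = 1`, `c ≠ 0` (repeat `dslope`, or the order of vanishing at `0`).
`TM f1 s ≤ TM f s + C'` for `s ≥ 0` (`|f1| ≤ |f|/|c|`), `TM f s ≤ TM f1 s + 2π (k s + C')`.  So `Gr f lam → Gr f1 lam` (for `0 < lam`), `TM f1 → ∞`, and
`‖f‖ ≤ exp (-(c' TM f))` implies `‖f1‖ ≤ |c|⁻¹ exp (-(c' TM f)) ≤ exp (-(c'' TM f1))` for large `s` if `c'' < c'`.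
-/

set_option autoImplicit false

namespace Pool.Agent.TX1

open Real MeasureTheory Set Filter Topology

private theorem nr_norm_factor {f : ℂ → ℂ} (hf : Differentiable ℂ f) (hne : ∃ z, f z ≠ 0) :
    ∃ (k : ℕ) (g : ℂ → ℂ), Differentiable ℂ g ∧ g 0 ≠ 0 ∧ ∀ z, f z = z ^ k * g z := by
  classical
  have han : AnalyticOnNhd ℂ f univ := fun z _ => hf.analyticAt z
  have h0 : ¬ ∀ᶠ z in 𝓝 (0 : ℂ), f z = 0 := by
    intro h
    obtain ⟨z, hz⟩ := hne
    exact hz (han.eqOn_zero_of_preconnected_of_eventuallyEq_zero isPreconnected_univ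
      (mem_univ (0 : ℂ)) h (mem_univ z))
  obtain ⟨k, g0, hg0, hg00, hev⟩ :=
    (hf.analyticAt 0).exists_eventuallyEq_pow_smul_nonzero_iff.2 h0
  have hev' : ∀ᶠ z in 𝓝 (0 : ℂ), f z = z ^ k * g0 z := by
    filter_upwards [hev] with z hz
    rw [hz, sub_zero, smul_eq_mul]
  obtain ⟨g, hg⟩ : ∃ g : ℂ → ℂ, ∀ z, g z = if z = 0 then g0 0 else f z / z ^ k :=
    ⟨_, fun _ => rfl⟩
  have hgg : g =ᶠ[𝓝 0] g0 := by
    filter_upwards [hev'] with z hz
    rw [hg]
    split_ifs with h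
    · rw [h]
    · rw [hz, mul_div_cancel_left₀ _ (pow_ne_zero k h)]
  refine ⟨k, g, fun z => ?_, ?_, fun z => ?_⟩
  · rcases eq_or_ne z 0 with h | h
    · subst h
      exact (hg0.differentiableAt).congr_of_eventuallyEq hgg
    · have h1 : DifferentiableAt ℂ (fun w => f w / w ^ k) z :=
        (hf z).div (differentiableAt_id.pow k) (pow_ne_zero k h)
      refine h1.congr_of_eventuallyEq ?_
      filter_upwards [isOpen_ne.mem_nhds h] with w hw
      rw [hg, if_neg hw]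
  · rw [hg, if_pos rfl]
    exact hg00
  · rw [hg]
    split_ifs with h
    · subst h
      exact hev'.self_of_nhds
    · rw [mul_div_cancel₀ _ (pow_ne_zero k h)]

private theorem nr_norm_pt (s θ : ℝ) : ‖pt s θ‖ = exp s := by
  unfold pt
  rw [Complex.norm_exp]
  simp

private theorem nr_pt_cont (s : ℝ) : Continuous (pt s) := by
  unfold pt
  fun_prop

private theorem nr_log_cont {f : ℂ → ℂ} (hf : Differentiable ℂ f) (s : ℝ) :
    Continuous fun θ : ℝ => 1 / 2 * log (‖f (pt s θ)‖ ^ 2 + 1) := by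
  have h1 : Continuous fun θ : ℝ => ‖f (pt s θ)‖ ^ 2 + 1 :=
    ((hf.continuous.comp (nr_pt_cont s)).norm.pow 2).add continuous_const
  exact continuous_const.mul (h1.log fun θ => by positivity)

/-- comparison of characteristics -/
private theorem nr_TM_comp {f g : ℂ → ℂ} (hf : Differentiable ℂ f) (hg : Differentiable ℂ g)
    {B s : ℝ} (hB : 1 ≤ B) (h : ∀ θ, ‖f (pt s θ)‖ ≤ B * ‖g (pt s θ)‖) :
    TM f s ≤ TM g s + 2 * π * log B := by
  rw [TM_eq f s (-π), TM_eq g s (-π)]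
  have hle : -π ≤ -π + 2 * π := by linarith [Real.pi_pos]
  have h1 : ∫ θ in (-π)..(-π + 2 * π), 1 / 2 * log (‖f (pt s θ)‖ ^ 2 + 1) ≤
      ∫ θ in (-π)..(-π + 2 * π), (1 / 2 * log (‖g (pt s θ)‖ ^ 2 + 1) + log B) := by
    refine intervalIntegral.integral_mono_on hle ((nr_log_cont hf s).intervalIntegrable _ _)
      (((nr_log_cont hg s).add continuous_const).intervalIntegrable _ _) fun θ _ => ?_
    have hB0 : 0 < B := by linarith
    have h2 : ‖f (pt s θ)‖ ^ 2 + 1 ≤ (‖g (pt s θ)‖ ^ 2 + 1) * B ^ 2 := by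
      have h3 := pow_le_pow_left₀ (norm_nonneg _) (h θ) 2
      rw [mul_pow] at h3
      have h4 : 1 ≤ B ^ 2 := one_le_pow₀ hB
      nlinarith
    have h3 : log (‖f (pt s θ)‖ ^ 2 + 1) ≤ log (‖g (pt s θ)‖ ^ 2 + 1) + 2 * log B := by
      refine (Real.log_le_log (by positivity) h2).trans (le_of_eq ?_)
      rw [Real.log_mul (by positivity) (by positivity), Real.log_pow]
      push_cast
      ring
    linarith
  refine h1.trans (le_of_eq ?_)
  rw [intervalIntegral.integral_add ((nr_log_cont hg s).intervalIntegrable _ _)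
    (continuous_const.intervalIntegrable _ _), intervalIntegral.integral_const]
  simp only [smul_eq_mul]
  ring

theorem norm_red {f : ℂ → ℂ} (hf : Differentiable ℂ f) (hne : ∃ z, f z ≠ 0) {lam c' c'' : ℝ} (hlam : 0 < lam)
    (hG : Gr f lam) (hc0 : 0 < c'') (hc : c'' < c')
    (hH : ∀ᶠ s in atTop, ∃ t, ‖f (pt s t)‖ ≤ exp (-(c' * TM f s))) :
    ∃ f1 : ℂ → ℂ, Differentiable ℂ f1 ∧ f1 0 = 1 ∧ Gr f1 lam ∧
      ∀ᶠ s in atTop, ∃ t, ‖f1 (pt s t)‖ ≤ exp (-(c'' * TM f1 s)) := by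
  obtain ⟨k, g, hg, hg0, hfg⟩ := nr_norm_factor hf hne
  obtain ⟨f1, hf1⟩ : ∃ f1 : ℂ → ℂ, ∀ z, f1 z = g z / g 0 := ⟨_, fun _ => rfl⟩
  have hf1d : Differentiable ℂ f1 := by
    have : f1 = fun z => g z / g 0 := funext hf1
    rw [this]
    exact hg.div_const _
  have hf10 : f1 0 = 1 := by rw [hf1, div_self hg0]
  have hgn : 0 < ‖g 0‖ := norm_pos_iff.2 hg0
  have hnf : ∀ s θ, ‖f (pt s θ)‖ = ‖g 0‖ * exp (k * s) * ‖f1 (pt s θ)‖ := by
    intro s θ
    rw [hfg, hf1, norm_mul, norm_pow, nr_norm_pt, norm_div, ← Real.exp_nat_mul]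
    field_simp
  -- the two comparisons
  obtain ⟨C1, hC1, hcmp1⟩ : ∃ C1 : ℝ, 0 ≤ C1 ∧ ∀ s, 0 ≤ s → TM f1 s ≤ TM f s + C1 := by
    refine ⟨2 * π * log (max 1 ‖g 0‖⁻¹), ?_, fun s hs => ?_⟩
    · have := Real.log_nonneg (le_max_left 1 ‖g 0‖⁻¹)
      have := Real.pi_pos
      positivity
    · refine nr_TM_comp hf1d hf (le_max_left _ _) fun θ => ?_
      have h1 : ‖f1 (pt s θ)‖ ≤ ‖g 0‖⁻¹ * ‖f (pt s θ)‖ := by
        rw [hnf, ← mul_assoc, ← mul_assoc, inv_mul_cancel₀ hgn.ne', one_mul]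
        have h2 : 1 ≤ exp (k * s) := Real.one_le_exp (by positivity)
        have h3 := norm_nonneg (f1 (pt s θ))
        nlinarith
      exact h1.trans (mul_le_mul_of_nonneg_right (le_max_right _ _) (norm_nonneg _))
  obtain ⟨C2, hC2, hcmp2⟩ : ∃ C2 : ℝ, 0 ≤ C2 ∧ ∀ s, 0 ≤ s →
      TM f s ≤ TM f1 s + (C2 + 2 * π * (k * s)) := by
    refine ⟨2 * π * log (max 1 ‖g 0‖), ?_, fun s hs => ?_⟩
    · have := Real.log_nonneg (le_max_left 1 ‖g 0‖)
      have := Real.pi_pos
      positivity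
    · have h2 : 1 ≤ exp (k * s) := Real.one_le_exp (by positivity)
      have h3 : 1 ≤ max 1 ‖g 0‖ := le_max_left _ _
      have h1 := nr_TM_comp (B := max 1 ‖g 0‖ * exp (k * s)) (s := s) hf hf1d
        (by nlinarith) fun θ => by
          rw [hnf]
          refine mul_le_mul_of_nonneg_right ?_ (norm_nonneg _)
          exact mul_le_mul_of_nonneg_right (le_max_right _ _) (by positivity)
      rw [Real.log_mul (by positivity) (by positivity), Real.log_exp] at h1
      linarith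
  have htend : ∀ r : ℝ, 0 < r → Tendsto (fun s : ℝ => exp (r * s)) atTop atTop := fun r hr =>
    Real.tendsto_exp_atTop.comp (Tendsto.const_mul_atTop hr tendsto_id)
  have hG1 : Gr f1 lam := by
    refine ⟨fun ρ' c hρ hcp hcon => ?_, fun ρ' C hρ hcon => ?_⟩
    · refine hG.1 ρ' (c / 2) hρ (by positivity) ?_
      have h1 := (Tendsto.const_mul_atTop (half_pos hcp)
        (htend ρ' (hlam.trans hρ))).eventually_ge_atTop C1
      filter_upwards [hcon, h1, eventually_ge_atTop 0] with s ha hb hs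
      have h2 := hcmp1 s hs
      linarith
    · have hr0 : 0 < max ρ' (lam / 2) := lt_of_lt_of_le (half_pos hlam) (le_max_right _ _)
      refine hG.2 (max ρ' (lam / 2)) (|C| + C2 + 2 * π * k / max ρ' (lam / 2))
        (max_lt hρ (by linarith)) ?_
      filter_upwards [hcon, eventually_ge_atTop 0] with s ha hs
      have h2 := hcmp2 s hs
      have h3 : exp (ρ' * s) ≤ exp (max ρ' (lam / 2) * s) :=
        Real.exp_le_exp.2 (mul_le_mul_of_nonneg_right (le_max_left _ _) hs)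
      have h4 : C * exp (ρ' * s) ≤ |C| * exp (max ρ' (lam / 2) * s) :=
        mul_le_mul (le_abs_self C) h3 (by positivity) (abs_nonneg C)
      have h5 : 1 ≤ exp (max ρ' (lam / 2) * s) := Real.one_le_exp (by positivity)
      have h6 : max ρ' (lam / 2) * s ≤ exp (max ρ' (lam / 2) * s) := by
        have := Real.add_one_le_exp (max ρ' (lam / 2) * s)
        linarith
      have h7 : s ≤ exp (max ρ' (lam / 2) * s) / max ρ' (lam / 2) := by
        rw [le_div_iff₀ hr0]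
        linarith
      have h8 : 2 * π * (k * s) ≤ 2 * π * k / max ρ' (lam / 2) *
          exp (max ρ' (lam / 2) * s) := by
        have h9 : 0 ≤ 2 * π * (k : ℝ) := by
          have := Real.pi_pos
          positivity
        calc 2 * π * (k * s) = 2 * π * k * s := by ring
          _ ≤ 2 * π * k * (exp (max ρ' (lam / 2) * s) / max ρ' (lam / 2)) :=
            mul_le_mul_of_nonneg_left h7 h9
          _ = _ := by ring
      have h9 : C2 ≤ C2 * exp (max ρ' (lam / 2) * s) := by nlinarith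
      calc TM f s ≤ TM f1 s + (C2 + 2 * π * (k * s)) := h2
        _ ≤ |C| * exp (max ρ' (lam / 2) * s) + (C2 * exp (max ρ' (lam / 2) * s) +
            2 * π * k / max ρ' (lam / 2) * exp (max ρ' (lam / 2) * s)) := by linarith
        _ = _ := by ring
  have hinf : Tendsto (TM f1) atTop atTop := by
    refine tendsto_atTop_atTop_of_monotone (TM_mono hf1d) fun b => ?_
    have h1 := hG1.2 (lam / 2) 1 (by linarith)
    rw [Filter.not_eventually] at h1
    obtain ⟨s, hs1, hs2⟩ := (h1.and_eventually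
      ((htend (lam / 2) (half_pos hlam)).eventually_ge_atTop b)).exists
    refine ⟨s, ?_⟩
    rw [not_le, one_mul] at hs1
    exact (hs2.trans hs1.le)
  refine ⟨f1, hf1d, hf10, hG1, ?_⟩
  have hc' : 0 < c' := hc0.trans hc
  have h1 := (Tendsto.const_mul_atTop (sub_pos.2 hc) hinf).eventually_ge_atTop
    (c' * C1 - log ‖g 0‖)
  filter_upwards [hH, h1, eventually_ge_atTop 0] with s hs h2 hs0
  obtain ⟨t, ht⟩ := hs
  refine ⟨t, ?_⟩
  have h3 := hcmp1 s hs0
  have h4 : ‖g 0‖ * ‖f1 (pt s t)‖ ≤ ‖f (pt s t)‖ := by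
    rw [hnf]
    have h5 : 1 ≤ exp (k * s) := Real.one_le_exp (by positivity)
    have h6 := norm_nonneg (f1 (pt s t))
    have h7 : ‖g 0‖ * 1 ≤ ‖g 0‖ * exp (k * s) := mul_le_mul_of_nonneg_left h5 hgn.le
    nlinarith
  have h5 : ‖f1 (pt s t)‖ ≤ exp (-(c' * TM f s)) / ‖g 0‖ := by
    rw [le_div_iff₀ hgn, mul_comm]
    exact h4.trans ht
  refine h5.trans ?_
  have h6 : exp (-(c'' * TM f1 s)) * ‖g 0‖ = exp (-(c'' * TM f1 s) + log ‖g 0‖) := by
    rw [Real.exp_add, Real.exp_log hgn]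
  rw [div_le_iff₀ hgn, h6]
  refine Real.exp_le_exp.2 ?_
  have h7 := mul_le_mul_of_nonneg_left h3 hc'.le
  nlinarith

end Pool.Agent.TX1
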