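import Pool.Agent.TX1.Rep

/-!
# TX1, module Coef: the dipole

`exists_fac` with `S = b + R`, `rep`: `‖c k‖ exp (kS) ≤ H/π`, `H = 2 TM f S + 9 n`, `2πn ≤ TN f (S+1) ≤ TM f (S+1)` (`hn`, `Win.ze`, `σ ≤ 1`), `TM f S ≤ 9 exp R TM f b`,
`TM f (S+1) ≤ 9 exp (R+1) TM f b` (`Win.gr`), so `H ≤ (18 + 36) exp R * TM f b`; the terms `k ≥ 2` at `pt (b+t) θ`, `t ≤ R-1`, are at most
`∑_{k≥2} exp (-k(R-t)) H/π ≤ 1.6 exp (-2(R-t)) * 17.2 exp R * TM f b`.
`deriv h 0 = c 1 = -A exp (-b) exp (-iψ)` in polar form (`A = |c 1| exp b`), so `Re (c 1 * pt s θ) = -A exp (s-b) cos (θ-ψ)`.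
-/

set_option autoImplicit false

namespace Pool.Agent.TX1

open Real MeasureTheory Set Filter Topology

/-- the dipole in polar form -/
theorem coef_polar (c : ℂ) (b s θ : ℝ) :
    (c * pt s θ).re = -((‖c‖ * exp b) * exp (s - b) * cos (θ - (-Complex.arg (-c)))) := by
  have h1 : -c = (‖c‖ : ℂ) * Complex.exp ((Complex.arg (-c) : ℂ) * Complex.I) := by
    have h := (Complex.norm_mul_exp_arg_mul_I (-c)).symm
    rwa [norm_neg] at h
  have h2 : c * pt s θ = -(((‖c‖ * exp s : ℝ) : ℂ) *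
      Complex.exp (((θ - (-Complex.arg (-c)) : ℝ) : ℂ) * Complex.I)) := by
    have h3 : Complex.exp (((θ - (-Complex.arg (-c)) : ℝ) : ℂ) * Complex.I)
        = Complex.exp ((Complex.arg (-c) : ℂ) * Complex.I) * Complex.exp ((θ : ℂ) * Complex.I) := by
      rw [← Complex.exp_add]
      congr 1
      push_cast
      ring
    have h4 : pt s θ = ((exp s : ℝ) : ℂ) * Complex.exp ((θ : ℂ) * Complex.I) := by
      unfold pt
      rw [Complex.exp_add, Complex.ofReal_exp]
    rw [h3, h4]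
    push_cast
    linear_combination (-((Complex.exp (s : ℂ)) * Complex.exp ((θ : ℂ) * Complex.I))) * h1
  rw [h2, Complex.neg_re, Complex.re_ofReal_mul, Complex.exp_ofReal_mul_I_re]
  have h5 : exp b * exp (s - b) = exp s := by
    rw [← Real.exp_add]
    congr 1
    ring
  rw [← h5]
  ring

/-- the tail of the power series -/
theorem coef_tail {c : ℕ → ℂ} {z w : ℂ} {S u K : ℝ} (hs : HasSum (fun k => c k * z ^ k) w)
    (c0 : c 0 = 0) (hc : ∀ k : ℕ, 1 ≤ k → ‖c k‖ * exp (k * S) ≤ K) (hz : ‖z‖ = exp u)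
    (hu : u ≤ S - 1) (hK : 0 ≤ K) :
    ‖w - c 1 * z‖ ≤ K * (8 / 5 * exp (2 * (u - S))) := by
  have h1 := (hasSum_nat_add_iff' 2).2 hs
  have h2 : w - ∑ i ∈ Finset.range 2, c i * z ^ i = w - c 1 * z := by
    rw [Finset.sum_range_succ, Finset.sum_range_one, c0]
    ring
  rw [h2] at h1
  set r : ℝ := exp (u - S) with hr
  have hr0 : 0 < r := exp_pos _
  have hr1 : r ≤ exp (-1) := Real.exp_le_exp.2 (by linarith)
  have he : exp (-1) < 3 / 8 := by
    have h3 := Real.exp_one_gt_d9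
    rw [Real.exp_neg]
    rw [inv_lt_comm₀ (exp_pos _) (by norm_num)]
    linarith
  have hr3 : r < 3 / 8 := lt_of_le_of_lt hr1 he
  have hg : HasSum (fun k : ℕ => K * r ^ 2 * r ^ k) (K * r ^ 2 * (1 - r)⁻¹) :=
    (hasSum_geometric_of_lt_one hr0.le (by linarith)).mul_left _
  have hb : ∀ k : ℕ, ‖c (k + 2) * z ^ (k + 2)‖ ≤ K * r ^ 2 * r ^ k := by
    intro k
    have h4 := hc (k + 2) (by omega)
    have h5 : exp u ^ (k + 2) = exp (((k + 2 : ℕ) : ℝ) * S) * r ^ (k + 2) := by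
      rw [hr, ← Real.exp_nat_mul, ← Real.exp_nat_mul, ← Real.exp_add]
      congr 1
      ring
    rw [norm_mul, norm_pow, hz, h5]
    calc ‖c (k + 2)‖ * (exp (((k + 2 : ℕ) : ℝ) * S) * r ^ (k + 2))
        = (‖c (k + 2)‖ * exp (((k + 2 : ℕ) : ℝ) * S)) * r ^ (k + 2) := by ring
      _ ≤ K * r ^ (k + 2) := by gcongr
      _ = K * r ^ 2 * r ^ k := by ring
  have h6 := h1.norm_le_of_bounded hg hb
  refine h6.trans ?_
  have h7 : (1 - r)⁻¹ ≤ 8 / 5 := by
    rw [inv_le_comm₀ (by linarith) (by norm_num)]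
    linarith
  have h8 : exp (2 * (u - S)) = r ^ 2 := by
    rw [hr, ← Real.exp_nat_mul]
    norm_num
  rw [h8]
  calc K * r ^ 2 * (1 - r)⁻¹ ≤ K * r ^ 2 * (8 / 5) := by gcongr
    _ = K * (8 / 5 * r ^ 2) := by ring

theorem exists_dip {f : ℂ → ℂ} {b R σ : ℝ} (hW : Win f b R σ) :
    ∃ (n : ℕ) (x y : Fin n → ℝ) (h : ℂ → ℂ) (A ψ : ℝ), Dip f b R n x y h A ψ := by
  obtain ⟨n, x, y, h, hF⟩ := exists_fac hW.hf hW.f0 (b + R)
  obtain ⟨c, hs, c0, c1, hc⟩ := rep hW.hf hW.f0 hF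
  have hR := hW.hR
  have hM0 : 0 ≤ TM f b := TM_nonneg f b
  have hpi := Real.pi_gt_d2
  have hpi2 := Real.pi_lt_d2
  have he1 := Real.exp_one_lt_d9
  have hH : (2 * TM f (b + R) + 9 * n) / π ≤ 35 / 2 * exp R * TM f b := by
    have g1 := hW.gr R (by linarith) (by linarith)
    have g2 := hW.gr (R + 1) (by linarith) (by linarith)
    have g3 := hW.ze (R + 1) (by linarith) (by linarith)
    have g4 := hF.hn
    rw [show b + R + 1 = b + (R + 1) by ring] at g4
    have g5 : σ * TM f (b + (R + 1)) ≤ TM f (b + (R + 1)) := by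
      have := TM_nonneg f (b + (R + 1))
      nlinarith [hW.hσ1, hW.hσ]
    have g6 : exp (R + 1) = exp R * exp 1 := Real.exp_add R 1
    rw [g6] at g2
    have hER := exp_pos R
    have hP : 0 ≤ exp R * TM f b := by positivity
    have g7 : exp R * exp 1 * TM f b ≤ (272 / 100) * (exp R * TM f b) := by
      nlinarith
    have g8 : 2 * π * (n : ℝ) ≤ 9 * ((272 / 100) * (exp R * TM f b)) := by nlinarith
    have hn0 : (0 : ℝ) ≤ n := Nat.cast_nonneg n
    have g9 : (n : ℝ) * (628 / 100) ≤ 9 * ((272 / 100) * (exp R * TM f b)) := by nlinarith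
    rw [div_le_iff₀ (by linarith)]
    nlinarith
  have hK0 : 0 ≤ 35 / 2 * exp R * TM f b := by positivity
  refine ⟨n, x, y, h, ‖c 1‖ * exp b, -Complex.arg (-(c 1)), ⟨hF, by positivity, ?_, ?_⟩⟩
  · intro s θ
    rw [← c1]
    exact coef_polar (c 1) b s θ
  · intro t θ ht
    have hz : ‖pt (b + t) θ‖ = exp (b + t) := pt_norm _ _
    have h1 := hs (pt (b + t) θ) (by rw [hz]; exact Real.exp_le_exp.2 (by linarith))
    have h2 := coef_tail (S := b + R) (u := b + t) (K := 35 / 2 * exp R * TM f b) h1 c0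
      (fun k hk => (hc k hk).trans hH) hz (by linarith) hK0
    have h3 := coef_polar (c 1) b (b + t) θ
    rw [show b + t - b = t by ring] at h3
    have h4 : (h (pt (b + t) θ)).re + (‖c 1‖ * exp b) * exp t * cos (θ - (-Complex.arg (-(c 1))))
        = (h (pt (b + t) θ) - c 1 * pt (b + t) θ).re := by
      rw [Complex.sub_re, h3]
      ring
    rw [h4]
    refine (Complex.abs_re_le_norm _).trans (h2.trans ?_)
    have h5 : exp R * exp (2 * (b + t - (b + R))) = exp (2 * t - R) := by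
      rw [← Real.exp_add]
      congr 1
      ring
    have h6 : 0 ≤ exp (2 * t - R) * TM f b := by positivity
    calc 35 / 2 * exp R * TM f b * (8 / 5 * exp (2 * (b + t - (b + R))))
        = 28 * ((exp R * exp (2 * (b + t - (b + R)))) * TM f b) := by ring
      _ = 28 * (exp (2 * t - R) * TM f b) := by rw [h5]
      _ ≤ 60 * exp (2 * t - R) * TM f b := by nlinarith

end Pool.Agent.TX1
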