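import Pool.Agent.TX1.Jens

/-!
# TX1, module Rep: the power series of `h`

`h z = ∑ c_k z^k` for `‖z‖ ≤ exp S` (`h` is holomorphic on a larger disc: `DifferentiableOn.hasFPowerSeriesOnBall` or the Cauchy power series), `c 0 = h 0 = 0`.
`H = ∫_{-π}^{π} |Re h (pt S θ)| dθ ≤ ∫ |log |f|| + ∑_i ∫ |ell (S - x i)|` (a.e. `θ`: `log |f (pt S θ)| = ∑ ell (S - x i) (θ - y i) + Re h (pt S θ)`),
`∫ |log |f|| ≤ 2 TM f S - TN f S` (`abs_log_int`), `∫ |ell τ| = 2 ∫ max ell 0 - ∫ ell ≤ 4π log (1 + exp τ) - 2πτ ≤ 2πτ + 4π log 2` for `τ ≥ 0`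
(`ell_pos_int`, `ell_int`); sum: `TN f S + 4π n log 2` (`TN_fac`), `4π log 2 ≤ 9`.
For `k ≥ 1`: `c_k exp (kS) = (1/π) ∫_{-π}^{π} Re h (pt S θ) exp (-ikθ) dθ`: `(1/2π) ∫ h (pt S θ) exp (-ikθ) dθ = c_k exp (kS)` and `∫ h (pt S θ) exp (ikθ) dθ = 0` (uniformly convergent series,
integrate termwise), take the conjugate of the second and add.
-/

set_option autoImplicit false

namespace Pool.Agent.TX1

open Real MeasureTheory Set Filter Topology

theorem rep_orth (n : ℤ) : ∫ θ in (-π)..π, Complex.exp (((n : ℂ) * Complex.I) * (θ : ℂ)) =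
    if n = 0 then 2 * (π : ℂ) else 0 := by
  split_ifs with h
  · subst h
    simp only [Int.cast_zero, zero_mul, Complex.exp_zero, intervalIntegral.integral_const]
    rw [sub_neg_eq_add, Complex.real_smul]
    push_cast
    ring
  · have hc : (n : ℂ) * Complex.I ≠ 0 := mul_ne_zero (by exact_mod_cast h) Complex.I_ne_zero
    rw [integral_exp_mul_complex hc]
    have h1 : Complex.exp ((n : ℂ) * Complex.I * (π : ℂ)) =
        Complex.exp ((n : ℂ) * Complex.I * ((-π : ℝ) : ℂ)) := by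
      rw [Complex.exp_eq_exp_iff_exists_int]
      refine ⟨n, ?_⟩
      push_cast
      ring
    rw [h1, sub_self, zero_div]

theorem rep_pow (S θ : ℝ) (j : ℕ) : (pt S θ) ^ j =
    (exp (j * S) : ℂ) * Complex.exp (((j : ℂ) * Complex.I) * (θ : ℂ)) := by
  unfold pt
  rw [← Complex.exp_nat_mul, Complex.ofReal_exp, ← Complex.exp_add]
  congr 1
  push_cast
  ring

theorem rep_four {c : ℕ → ℂ} {h : ℂ → ℂ} {S : ℝ}
    (hc : ∀ z : ℂ, ‖z‖ ≤ exp S → HasSum (fun k => c k * z ^ k) (h z)) (m : ℤ) :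
    HasSum (fun j : ℕ => if (j : ℤ) + m = 0 then 2 * (π : ℂ) * (c j * (exp (j * S) : ℂ)) else 0)
      (∫ θ in (-π)..π, h (pt S θ) * Complex.exp (((m : ℂ) * Complex.I) * (θ : ℂ))) := by
  have hsum : Summable fun j : ℕ => ‖c j‖ * exp (j * S) := by
    have h1 := (hc ((exp S : ℝ) : ℂ) (by rw [Complex.norm_real, Real.norm_of_nonneg (exp_pos S).le])).summable.norm
    refine h1.congr fun j => ?_
    rw [norm_mul, norm_pow, Complex.norm_real, Real.norm_of_nonneg (exp_pos S).le, ← Real.exp_nat_mul]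
  have hone : ∀ (n : ℝ) (θ : ℝ), ‖Complex.exp (((n : ℂ) * Complex.I) * (θ : ℂ))‖ = 1 := by
    intro n θ
    have : ((n : ℂ) * Complex.I) * (θ : ℂ) = ((n * θ : ℝ) : ℂ) * Complex.I := by
      push_cast
      ring
    rw [this, Complex.norm_exp_ofReal_mul_I]
  have key := intervalIntegral.hasSum_integral_of_dominated_convergence (μ := volume) (a := -π) (b := π)
    (F := fun (j : ℕ) (θ : ℝ) => c j * (pt S θ) ^ j * Complex.exp (((m : ℂ) * Complex.I) * (θ : ℂ)))
    (f := fun θ : ℝ => h (pt S θ) * Complex.exp (((m : ℂ) * Complex.I) * (θ : ℂ)))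
    (fun j _ => ‖c j‖ * exp (j * S)) ?_ ?_ ?_ ?_ ?_
  · have e : ∀ j : ℕ, (if (j : ℤ) + m = 0 then 2 * (π : ℂ) * (c j * (exp (j * S) : ℂ)) else 0) =
        ∫ θ in (-π)..π, c j * (pt S θ) ^ j * Complex.exp (((m : ℂ) * Complex.I) * (θ : ℂ)) := by
      intro j
      have e1 : ∀ θ : ℝ, c j * (pt S θ) ^ j * Complex.exp (((m : ℂ) * Complex.I) * (θ : ℂ)) =
          (c j * (exp (j * S) : ℂ)) * Complex.exp (((((j : ℤ) + m : ℤ) : ℂ) * Complex.I) * (θ : ℂ)) := by
        intro θ
        rw [rep_pow]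
        have e2 : Complex.exp (((((j : ℤ) + m : ℤ) : ℂ) * Complex.I) * (θ : ℂ)) =
            Complex.exp (((j : ℂ) * Complex.I) * (θ : ℂ)) * Complex.exp (((m : ℂ) * Complex.I) * (θ : ℂ)) := by
          rw [← Complex.exp_add]
          congr 1
          push_cast
          ring
        rw [e2]
        ring
      simp only [e1]
      rw [intervalIntegral.integral_const_mul, rep_orth]
      split_ifs
      · ring
      · ring
    simp only [e]
    exact key
  · intro j
    refine Continuous.aestronglyMeasurable ?_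
    simp only [rep_pow]
    fun_prop
  · intro j
    refine Filter.Eventually.of_forall fun θ _ => ?_
    rw [norm_mul, norm_mul, rep_pow, norm_mul, Complex.norm_real, Real.norm_of_nonneg (exp_pos _).le]
    have h1 := hone j θ
    have h2 := hone m θ
    push_cast at h1 h2
    rw [h1, h2]
    linarith
  · exact Filter.Eventually.of_forall fun θ _ => hsum
  · exact intervalIntegrable_const
  · refine Filter.Eventually.of_forall fun θ _ => ?_
    exact (hc _ (pt_norm S θ).le).mul_right _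

theorem rep_four_neg {c : ℕ → ℂ} {h : ℂ → ℂ} {S : ℝ}
    (hc : ∀ z : ℂ, ‖z‖ ≤ exp S → HasSum (fun k => c k * z ^ k) (h z)) (k : ℕ) :
    ∫ θ in (-π)..π, h (pt S θ) * Complex.exp (((((-(k : ℤ)) : ℤ) : ℂ) * Complex.I) * (θ : ℂ)) =
      2 * (π : ℂ) * (c k * (exp (k * S) : ℂ)) := by
  have h1 := rep_four hc (-(k : ℤ))
  refine h1.unique ?_
  have h2 := hasSum_single (f := fun j : ℕ => if (j : ℤ) + (-(k : ℤ)) = 0 then
    2 * (π : ℂ) * (c j * (exp (j * S) : ℂ)) else 0) k (fun j hj => by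
      rw [if_neg]
      intro h3
      exact hj (by omega))
  simpa using h2

theorem rep_four_pos {c : ℕ → ℂ} {h : ℂ → ℂ} {S : ℝ}
    (hc : ∀ z : ℂ, ‖z‖ ≤ exp S → HasSum (fun k => c k * z ^ k) (h z)) (k : ℕ) (hk : 1 ≤ k) :
    ∫ θ in (-π)..π, h (pt S θ) * Complex.exp ((((k : ℤ) : ℂ) * Complex.I) * (θ : ℂ)) = 0 := by
  have h1 := rep_four hc (k : ℤ)
  refine h1.unique ?_
  have h2 : ∀ j : ℕ, (if (j : ℤ) + (k : ℤ) = 0 then
    2 * (π : ℂ) * (c j * (exp (j * S) : ℂ)) else 0) = 0 := fun j => by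
      rw [if_neg]
      omega
  simp only [h2]
  exact hasSum_zero

theorem rep_coef {c : ℕ → ℂ} {h : ℂ → ℂ} {S : ℝ}
    (hc : ∀ z : ℂ, ‖z‖ ≤ exp S → HasSum (fun k => c k * z ^ k) (h z))
    (hcont : Continuous fun θ => h (pt S θ)) (k : ℕ) (hk : 1 ≤ k) :
    ‖c k‖ * exp (k * S) * π ≤ ∫ θ in (-π)..π, |(h (pt S θ)).re| := by
  have hpi : -π ≤ π := by linarith [Real.pi_pos]
  obtain ⟨E, hE⟩ : ∃ E : ℤ → ℝ → ℂ, ∀ m θ, E m θ = Complex.exp (((m : ℂ) * Complex.I) * (θ : ℂ)) :=
    ⟨_, fun _ _ => rfl⟩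
  have hEc : ∀ m, Continuous (E m) := by
    intro m
    have : E m = fun θ : ℝ => Complex.exp (((m : ℂ) * Complex.I) * (θ : ℂ)) := funext (hE m)
    rw [this]
    fun_prop
  have h1 := rep_four_neg hc k
  have h2 := rep_four_pos hc k hk
  simp only [← hE] at h1 h2
  have h3 : ∫ θ in (-π)..π, (starRingEnd ℂ) (h (pt S θ)) * E (-(k : ℤ)) θ = 0 := by
    have e1 : ∀ θ : ℝ, (starRingEnd ℂ) (h (pt S θ)) * E (-(k : ℤ)) θ =
        (starRingEnd ℂ) (h (pt S θ) * E k θ) := by
      intro θ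
      rw [map_mul]
      congr 1
      rw [hE, hE, ← Complex.exp_conj]
      congr 1
      simp only [map_mul, Complex.conj_I, Complex.conj_ofReal, map_intCast]
      push_cast
      ring
    simp only [e1]
    rw [intervalIntegral.integral_of_le hpi, integral_conj, ← intervalIntegral.integral_of_le hpi, h2,
      map_zero]
  have h4 : ∫ θ in (-π)..π, (((h (pt S θ)).re : ℝ) : ℂ) * E (-(k : ℤ)) θ =
      (π : ℂ) * (c k * (exp (k * S) : ℂ)) := by
    have e1 : ∀ θ : ℝ, (((h (pt S θ)).re : ℝ) : ℂ) * E (-(k : ℤ)) θ =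
        (1 / 2 : ℂ) * (h (pt S θ) * E (-(k : ℤ)) θ + (starRingEnd ℂ) (h (pt S θ)) * E (-(k : ℤ)) θ) := by
      intro θ
      rw [Complex.re_eq_add_conj]
      ring
    simp only [e1]
    rw [intervalIntegral.integral_const_mul, intervalIntegral.integral_add, h1, h3]
    · ring
    · exact (hcont.mul (hEc _)).intervalIntegrable _ _
    · exact ((Complex.continuous_conj.comp hcont).mul (hEc _)).intervalIntegrable _ _
  have h5 := intervalIntegral.norm_integral_le_integral_norm (μ := volume)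
    (f := fun θ => (((h (pt S θ)).re : ℝ) : ℂ) * E (-(k : ℤ)) θ) hpi
  rw [h4] at h5
  have h6 : ∀ θ : ℝ, ‖(((h (pt S θ)).re : ℝ) : ℂ) * E (-(k : ℤ)) θ‖ = |(h (pt S θ)).re| := by
    intro θ
    rw [norm_mul, Complex.norm_real, Real.norm_eq_abs, hE]
    have : (((-(k : ℤ) : ℤ) : ℂ) * Complex.I) * (θ : ℂ) = ((-(k : ℝ) * θ : ℝ) : ℂ) * Complex.I := by
      push_cast
      ring
    rw [this, Complex.norm_exp_ofReal_mul_I, mul_one]
  simp only [h6] at h5
  refine le_trans (le_of_eq ?_) h5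
  rw [norm_mul, norm_mul, Complex.norm_real, Complex.norm_real, Real.norm_of_nonneg Real.pi_pos.le,
    Real.norm_of_nonneg (exp_pos _).le]
  ring

theorem rep_ell_abs {τ : ℝ} (hτ : 0 ≤ τ) (a : ℝ) :
    ∫ β in a..(a + 2 * π), |ell τ β| ≤ 2 * π * τ + 9 := by
  have hle : a ≤ a + 2 * π := by linarith [Real.pi_pos]
  have hii := ell_ii τ a (a + 2 * π)
  have e1 : ∀ β, |ell τ β| = 2 * max (ell τ β) 0 - ell τ β := by
    intro β
    rcases le_total (ell τ β) 0 with h | h
    · rw [abs_of_nonpos h, max_eq_right h]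
      ring
    · rw [abs_of_nonneg h, max_eq_left h]
      ring
  have hmax : IntervalIntegrable (fun β => max (ell τ β) 0) volume a (a + 2 * π) := by
    have e2 : (fun β => max (ell τ β) 0) = fun β => (1 / 2 : ℝ) * (|ell τ β| + ell τ β) := by
      funext β
      rw [e1]
      ring
    rw [e2]
    exact (hii.abs.add hii).const_mul _
  simp only [e1]
  rw [intervalIntegral.integral_sub (hmax.const_mul 2) hii, intervalIntegral.integral_const_mul, ell_int,
    max_eq_left hτ]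
  have h1 := ell_pos_int τ a
  have h2 : log (1 + exp τ) ≤ log 2 + τ := by
    have h3 : 1 + exp τ ≤ 2 * exp τ := by
      have := Real.one_le_exp hτ
      linarith
    have h4 := Real.log_le_log (by positivity) h3
    rwa [Real.log_mul (by norm_num) (exp_pos τ).ne', Real.log_exp] at h4
  have h5 := Real.log_two_lt_d9
  have h6 := Real.pi_lt_d2
  have h7 := Real.pi_pos
  have h8 : 2 * π * log (1 + exp τ) ≤ 2 * π * (log 2 + τ) := by
    refine mul_le_mul_of_nonneg_left h2 (by positivity)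
  have h9 : 4 * π * log 2 ≤ 9 := by
    have : 4 * π * log 2 ≤ 4 * 3.15 * 0.6931471808 := by
      have h10 := Real.log_nonneg (show (1 : ℝ) ≤ 2 by norm_num)
      nlinarith
    norm_num at this
    linarith
  linarith

theorem rep_ae {S : ℝ} {n : ℕ} (x y : Fin n → ℝ) :
    ∀ᵐ θ : ℝ, ∀ i, pt S θ ≠ pt (x i) (y i) := by
  have hcount : (⋃ i : Fin n, range fun k : ℤ => y i + k * (2 * π)).Countable :=
    countable_iUnion fun i => countable_range _
  filter_upwards [hcount.ae_notMem volume] with θ hθ i hi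
  refine hθ (mem_iUnion.2 ⟨i, ?_⟩)
  unfold pt at hi
  rw [Complex.exp_eq_exp_iff_exists_int] at hi
  obtain ⟨k, hk⟩ := hi
  refine ⟨k, ?_⟩
  have h1 := congrArg Complex.im hk
  simp at h1
  simp only
  linarith

theorem rep_log {f : ℂ → ℂ} {S : ℝ} {n : ℕ} {x y : Fin n → ℝ} {h : ℂ → ℂ} (hF : Fac f S n x y h)
    {θ : ℝ} (hθ : ∀ i, pt S θ ≠ pt (x i) (y i)) :
    log ‖f (pt S θ)‖ = (∑ i, ell (S - x i) (θ - y i)) + (h (pt S θ)).re := by
  rw [hF.hf _ (pt_norm S θ).le, norm_mul, norm_prod, Complex.norm_exp]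
  have h1 : ∀ i, ‖1 - pt S θ / pt (x i) (y i)‖ ≠ 0 := by
    intro i
    rw [norm_ne_zero_iff, sub_ne_zero]
    intro h2
    rw [eq_div_iff (pt_ne _ _), one_mul] at h2
    exact hθ i h2.symm
  rw [Real.log_mul (Finset.prod_ne_zero_iff.2 fun i _ => h1 i) (exp_pos _).ne', Real.log_exp,
    Real.log_prod fun i _ => h1 i]
  congr 1
  refine Finset.sum_congr rfl fun i _ => ?_
  unfold ell
  rw [pt_div]

theorem rep_H {f : ℂ → ℂ} {S : ℝ} {n : ℕ} {x y : Fin n → ℝ} {h : ℂ → ℂ} (hf : Differentiable ℂ f)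
    (h0 : f 0 = 1) (hF : Fac f S n x y h) (hcont : Continuous fun θ => h (pt S θ)) :
    ∫ θ in (-π)..π, |(h (pt S θ)).re| ≤ 2 * TM f S + 9 * n := by
  have hpi : -π ≤ π := by linarith [Real.pi_pos]
  have hre : IntervalIntegrable (fun θ => (h (pt S θ)).re) volume (-π) π :=
    (Complex.continuous_re.comp hcont).intervalIntegrable _ _
  have hell : ∀ i, IntervalIntegrable (fun θ => ell (S - x i) (θ - y i)) volume (-π) π := by
    intro i
    have := (ell_ii (S - x i) (-π - y i) (π - y i)).comp_sub_right (y i)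
    simpa using this
  have hsum : IntervalIntegrable (fun θ => ∑ i, ell (S - x i) (θ - y i)) volume (-π) π := by
    have := IntervalIntegrable.sum Finset.univ (f := fun i θ => ell (S - x i) (θ - y i)) fun i _ => hell i
    simpa [Finset.sum_fn] using this
  have hlog : IntervalIntegrable (fun θ => log ‖f (pt S θ)‖) volume (-π) π := by
    refine (hsum.add hre).congr_ae ?_
    refine ae_restrict_of_ae ?_
    filter_upwards [rep_ae (S := S) x y] with θ hθ
    exact (rep_log hF hθ).symm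
  have h1 : ∫ θ in (-π)..π, |(h (pt S θ)).re| ≤
      ∫ θ in (-π)..π, (|log ‖f (pt S θ)‖| + ∑ i, |ell (S - x i) (θ - y i)|) := by
    refine intervalIntegral.integral_mono_ae hpi hre.abs ?_ ?_
    · have := IntervalIntegrable.sum Finset.univ (f := fun i θ => |ell (S - x i) (θ - y i)|)
        fun i _ => (hell i).abs
      refine hlog.abs.add ?_
      simpa [Finset.sum_fn] using this
    · filter_upwards [rep_ae (S := S) x y] with θ hθ
      have h2 := rep_log hF hθ
      have h3 : (h (pt S θ)).re = log ‖f (pt S θ)‖ - ∑ i, ell (S - x i) (θ - y i) := by linarith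
      rw [h3]
      refine (abs_sub _ _).trans ?_
      have h4 := Finset.abs_sum_le_sum_abs (fun i => ell (S - x i) (θ - y i)) Finset.univ
      linarith
  have h2 : ∀ i, ∫ θ in (-π)..π, |ell (S - x i) (θ - y i)| ≤ 2 * π * (S - x i) + 9 := by
    intro i
    have h3 := rep_ell_abs (show 0 ≤ S - x i by linarith [hF.hx i]) (-π - y i)
    have h4 : ∫ θ in (-π)..π, |ell (S - x i) (θ - y i)| = ∫ θ in (-π - y i)..(π - y i), |ell (S - x i) θ| :=
      intervalIntegral.integral_comp_sub_right (fun θ => |ell (S - x i) θ|) (y i)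
    rw [h4]
    have h5 : π - y i = -π - y i + 2 * π := by ring
    rw [h5]
    exact h3
  rw [intervalIntegral.integral_add hlog.abs] at h1
  · rw [intervalIntegral.integral_finsetSum fun i _ => (hell i).abs] at h1
    have h3 := Finset.sum_le_sum fun i (_ : i ∈ Finset.univ) => h2 i
    have h4 := abs_log_int hf h0 S
    have h5 := TN_fac hF le_rfl
    have h6 : ∀ i, max (S - x i) 0 = S - x i := fun i => max_eq_left (by linarith [hF.hx i])
    simp only [h6] at h5
    have h7 : ∑ i : Fin n, (2 * π * (S - x i) + 9) = TN f S + 9 * n := by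
      rw [h5, Finset.sum_add_distrib, Finset.mul_sum]
      simp
      ring
    rw [h7] at h3
    linarith
  · have := IntervalIntegrable.sum Finset.univ (f := fun i θ => |ell (S - x i) (θ - y i)|)
      fun i _ => (hell i).abs
    simpa [Finset.sum_fn] using this

theorem rep {f : ℂ → ℂ} {S : ℝ} {n : ℕ} {x y : Fin n → ℝ} {h : ℂ → ℂ} (hf : Differentiable ℂ f)
    (h0 : f 0 = 1) (hF : Fac f S n x y h) :
    ∃ c : ℕ → ℂ, (∀ z : ℂ, ‖z‖ ≤ exp S → HasSum (fun k => c k * z ^ k) (h z)) ∧ c 0 = 0 ∧ c 1 = deriv h 0 ∧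
      ∀ k : ℕ, 1 ≤ k → ‖c k‖ * exp (k * S) ≤ (2 * TM f S + 9 * n) / π := by
  obtain ⟨ρ, hρ, hd⟩ := hF.hd
  have hc : ∀ z : ℂ, ‖z‖ ≤ exp S →
      HasSum (fun k : ℕ => ((k.factorial : ℂ)⁻¹ * iteratedDeriv k h 0) * z ^ k) (h z) := by
    intro z hz
    have h1 := Complex.hasSum_taylorSeries_on_ball (f := h) (c := 0) (r := ρ) hd (z := z)
      (by rw [mem_ball_zero_iff]; linarith)
    have e : (fun k : ℕ => ((k.factorial : ℂ)⁻¹ * iteratedDeriv k h 0) * z ^ k) =
        fun k : ℕ => (k.factorial : ℂ)⁻¹ • (z - 0) ^ k • iteratedDeriv k h 0 := by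
      funext k
      rw [sub_zero, smul_eq_mul, smul_eq_mul]
      ring
    rw [e]
    exact h1
  have hcont : Continuous fun θ => h (pt S θ) := by
    have h1 : ContinuousOn h (Metric.ball 0 ρ) := hd.continuousOn
    refine h1.comp_continuous ?_ fun θ => ?_
    · exact pt_cont.comp (by fun_prop : Continuous fun θ : ℝ => (S, θ))
    · rw [mem_ball_zero_iff, pt_norm]
      exact hρ
  refine ⟨_, hc, ?_, ?_, fun k hk => ?_⟩
  · simp [hF.h0]
  · simp [iteratedDeriv_one]
  · have h1 := rep_coef hc hcont k hk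
    have h2 := rep_H hf h0 hF hcont
    rw [le_div_iff₀ Real.pi_pos]
    exact h1.trans h2

end Pool.Agent.TX1
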