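import Pool.Agent.TX1.Boot

/-!
# TX1, module Step: one step to the left, and the improvement step

`JJ f R s1` is the regime statement.  `win_of_J`: on `[s, s+R+2]`: `TM f (s+t) ≤ TM f (s+⌈t⌉) ≤ exp ((1+1/(R+8))⌈t⌉) TM f s ≤ exp (t+2) TM f s ≤ 9 exp t TM f s`.
`step_left`: hypotheses only at `b, b+1, ..., b+m`, `m ≥ R+4`.  (1) `Win f b R (3σ)`, `σ = exp (-R/4)`: growth as before; zeros:
`TN (b+t) ≤ TN (b+⌈t⌉) ≤ σ TM (b+⌈t⌉) ≤ 3σ TM (b+⌊t⌋) ≤ 3σ TM (b+t)`.  (2) `near` at `t = -1` and `t = 0`: `TM f b ≤ exp (1+1/(R+8)) TM f (b-1)` for `R` large.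
(3) `Win f (b-1) R (3σ)`.  (4) `boot` at `b-1`: `TN ≤ C(δ + (3(R+1)σ)^{5/4} + 3(R+1)σ exp (-R/40) + exp (-R/2)) TM ≤ σ TM` for `R ≥ R0` and `Cδ ≤ σ/4`.
`step_up`: `JJ f R s1` and `Cδ ≤ exp (-(R+1)/4)` give `JJ f (R+1) s1'`: `win_of_J`, `boot` and `near` at every `s ≥ s1`
(`near` at `t = 0, 1`).
-/

set_option autoImplicit false

namespace Pool.Agent.TX1

open Real MeasureTheory Set Filter Topology

/-- the regime -/
def JJ (f : ℂ → ℂ) (R s1 : ℝ) : Prop :=
  ∀ s, s1 ≤ s → TM f (s + 1) ≤ exp (1 + 1 / (R + 8)) * TM f s ∧ TN f s ≤ 3 * exp (-(R / 4)) * TM f s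

/-- smallness of the error terms for large `R` -/
theorem small_ev (η : ℝ) (hη : 0 < η) :
    ∃ R0 : ℝ, 80 ≤ R0 ∧ ∀ R, R0 ≤ R → (3 * (R + 1)) ^ 2 * exp (-(R / 40)) ≤ η := by
  have h1 : Tendsto (fun R : ℝ => (R / 40) ^ 2 * exp (-(R / 40))) atTop (𝓝 0) :=
    (Real.tendsto_pow_mul_exp_neg_atTop_nhds_zero 2).comp
      (tendsto_id.atTop_div_const (by norm_num : (0 : ℝ) < 40))
  have h2 : Tendsto (fun R : ℝ => (57600 : ℝ) * ((R / 40) ^ 2 * exp (-(R / 40)))) atTop (𝓝 0) := by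
    simpa using h1.const_mul (57600 : ℝ)
  have h3 := (h2.eventually (gt_mem_nhds hη)).and (eventually_ge_atTop (80 : ℝ))
  obtain ⟨R0, hR0⟩ := h3.exists_forall_of_atTop
  refine ⟨max R0 80, le_max_right _ _, fun R hR => ?_⟩
  obtain ⟨h4, h5⟩ := hR0 R ((le_max_left _ _).trans hR)
  refine le_trans ?_ h4.le
  have h6 : (3 * (R + 1)) ^ 2 ≤ 57600 * (R / 40) ^ 2 := by nlinarith
  nlinarith [exp_pos (-(R / 40)), mul_le_mul_of_nonneg_right h6 (exp_pos (-(R / 40))).le]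

/-- the error of `near` -/
theorem err_E {R : ℝ} (hR : 80 ≤ R) (hG : (3 * (R + 1)) ^ 2 * exp (-(R / 40)) ≤ 1 / 40000) :
    5000 * ((R + 1) * (3 * exp (-(R / 4))) + exp (-(R / 2))) * (R + 9) ≤ 1 / 4 := by
  have h1 : exp (-(R / 4)) ≤ exp (-(R / 40)) := exp_le_exp.2 (by linarith)
  have h2 : exp (-(R / 2)) ≤ exp (-(R / 40)) := exp_le_exp.2 (by linarith)
  have h0 := exp_pos (-(R / 40))
  have h3 : (R + 1) * (3 * exp (-(R / 4))) + exp (-(R / 2)) ≤
      (3 * (R + 1) + 1) * exp (-(R / 40)) := by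
    nlinarith
  calc 5000 * ((R + 1) * (3 * exp (-(R / 4))) + exp (-(R / 2))) * (R + 9)
      ≤ 5000 * ((3 * (R + 1) + 1) * exp (-(R / 40))) * (R + 9) := by
        have : 0 ≤ R + 9 := by linarith
        nlinarith [mul_le_mul_of_nonneg_right h3 this]
    _ = 5000 * ((3 * (R + 1) + 1) * (R + 9)) * exp (-(R / 40)) := by ring
    _ ≤ 10000 * (3 * (R + 1)) ^ 2 * exp (-(R / 40)) := by
        apply mul_le_mul_of_nonneg_right _ h0.le
        nlinarith
    _ ≤ 1 / 4 := by nlinarith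

theorem err_E' {R : ℝ} (hR : 80 ≤ R) (hG : (3 * (R + 1)) ^ 2 * exp (-(R / 40)) ≤ 1 / 40000) :
    5000 * ((R + 1) * (3 * exp (-(R / 4))) + exp (-(R / 2))) ≤ 1 / (4 * (R + 9)) := by
  rw [le_div_iff₀ (by linarith)]
  have := err_E hR hG
  linarith

/-- the error of `boot` -/
theorem err_B {R : ℝ} (hR : 80 ≤ R) :
    ((R + 1) * (3 * exp (-(R / 4)))) ^ (5 / 4 : ℝ) + (R + 1) * (3 * exp (-(R / 4))) * exp (-(R / 40))
      + exp (-(R / 2)) ≤ 3 * ((3 * (R + 1)) ^ 2 * exp (-(R / 40))) * exp (-(R / 4)) := by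
  have h0 := exp_pos (-(R / 40))
  have h0' := exp_pos (-(R / 4))
  have hP : (1 : ℝ) ≤ 3 * (R + 1) := by linarith
  have h1 : ((R + 1) * (3 * exp (-(R / 4)))) ^ (5 / 4 : ℝ) ≤
      (3 * (R + 1)) ^ 2 * exp (-(R / 40)) * exp (-(R / 4)) := by
    have e1 : (R + 1) * (3 * exp (-(R / 4))) = (3 * (R + 1)) * exp (-(R / 4)) := by ring
    rw [e1, mul_rpow (by linarith) h0'.le, ← exp_mul]
    have h2 : (3 * (R + 1)) ^ (5 / 4 : ℝ) ≤ (3 * (R + 1)) ^ 2 := by
      rw [← rpow_natCast]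
      exact rpow_le_rpow_of_exponent_le hP (by norm_num)
    have h3 : exp (-(R / 4) * (5 / 4)) ≤ exp (-(R / 40)) * exp (-(R / 4)) := by
      rw [← exp_add]
      exact exp_le_exp.2 (by linarith)
    calc (3 * (R + 1)) ^ (5 / 4 : ℝ) * exp (-(R / 4) * (5 / 4))
        ≤ (3 * (R + 1)) ^ 2 * (exp (-(R / 40)) * exp (-(R / 4))) :=
          mul_le_mul h2 h3 (exp_pos _).le (by positivity)
      _ = _ := by ring
  have h4 : (R + 1) * (3 * exp (-(R / 4))) * exp (-(R / 40)) ≤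
      (3 * (R + 1)) ^ 2 * exp (-(R / 40)) * exp (-(R / 4)) := by
    have : 3 * (R + 1) ≤ (3 * (R + 1)) ^ 2 := by nlinarith
    calc (R + 1) * (3 * exp (-(R / 4))) * exp (-(R / 40))
        = 3 * (R + 1) * (exp (-(R / 40)) * exp (-(R / 4))) := by ring
      _ ≤ (3 * (R + 1)) ^ 2 * (exp (-(R / 40)) * exp (-(R / 4))) :=
          mul_le_mul_of_nonneg_right this (by positivity)
      _ = _ := by ring
  have h5 : exp (-(R / 2)) ≤ (3 * (R + 1)) ^ 2 * exp (-(R / 40)) * exp (-(R / 4)) := by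
    have : exp (-(R / 2)) ≤ exp (-(R / 40)) * exp (-(R / 4)) := by
      rw [← exp_add]
      exact exp_le_exp.2 (by linarith)
    have h6 : (1 : ℝ) ≤ (3 * (R + 1)) ^ 2 := by nlinarith
    calc exp (-(R / 2)) ≤ 1 * (exp (-(R / 40)) * exp (-(R / 4))) := by linarith
      _ ≤ (3 * (R + 1)) ^ 2 * (exp (-(R / 40)) * exp (-(R / 4))) :=
          mul_le_mul_of_nonneg_right h6 (by positivity)
      _ = _ := by ring
  linarith

theorem exp_two_le : exp 2 ≤ 9 := by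
  have h : exp 1 ≤ 3 := by
    have := exp_one_lt_d9
    linarith
  have : exp 2 = exp 1 * exp 1 := by rw [← exp_add]; norm_num
  rw [this]
  nlinarith [exp_pos 1]

theorem exp_q_le {R : ℝ} (hR : 80 ≤ R) : exp (1 + 1 / (R + 8)) ≤ 3 := by
  have h1 : 1 / (R + 8) ≤ 1 / 88 := one_div_le_one_div_of_le (by norm_num) (by linarith)
  have h2 : exp (1 / 88) ≤ 89 / 87 := by
    have := exp_bound_div_one_sub_of_interval (x := 1 / 88) (by norm_num) (by norm_num)
    norm_num at this ⊢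
    linarith
  rw [exp_add]
  have h3 := exp_one_lt_d9
  have h4 : exp (1 / (R + 8)) ≤ 89 / 87 := (exp_le_exp.2 h1).trans h2
  nlinarith [exp_pos 1, exp_pos (1 / (R + 8))]

/-- window from discrete data -/
theorem win_disc {f : ℂ → ℂ} (hf : Differentiable ℂ f) (h0 : f 0 = 1) {R b σ : ℝ} {m : ℕ}
    (hR : 80 ≤ R) (hσ : 0 < σ) (hσ1 : 3 * σ ≤ 1) (hm : R + 3 ≤ m) (hb : exp R ≤ TM f b)
    (hg : ∀ j : ℕ, j < m → TM f (b + j + 1) ≤ exp (1 + 1 / (R + 8)) * TM f (b + j))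
    (hz : ∀ j : ℕ, 1 ≤ j → j ≤ m → TN f (b + j) ≤ σ * TM f (b + j)) : Win f b R (3 * σ) := by
  have hpos : 0 < 1 / (R + 8) := by positivity
  have ind : ∀ j : ℕ, j ≤ m → TM f (b + j) ≤ exp ((1 + 1 / (R + 8)) * j) * TM f b := by
    intro j
    induction j with
    | zero => intro _; simp
    | succ j ih =>
      intro hj
      have h1 := ih (by omega)
      have h2 := hg j (by omega)
      have e1 : b + ((j + 1 : ℕ) : ℝ) = b + j + 1 := by push_cast; ring
      rw [e1]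
      calc TM f (b + j + 1) ≤ exp (1 + 1 / (R + 8)) * TM f (b + j) := h2
        _ ≤ exp (1 + 1 / (R + 8)) * (exp ((1 + 1 / (R + 8)) * j) * TM f b) :=
            mul_le_mul_of_nonneg_left h1 (exp_pos _).le
        _ = exp ((1 + 1 / (R + 8)) * ((j + 1 : ℕ) : ℝ)) * TM f b := by
            rw [← mul_assoc, ← exp_add]
            congr 2
            push_cast
            ring
  have hTM := TM_nonneg f b
  refine ⟨hf, h0, by linarith, by linarith, hσ1, ?_, ?_, hb⟩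
  · intro t ht htR
    have hfl := Nat.floor_le ht
    have hfl' := Nat.lt_floor_add_one t
    have hjm : ⌊t⌋₊ + 1 ≤ m := by
      have : ((⌊t⌋₊ + 1 : ℕ) : ℝ) ≤ m := by push_cast; linarith
      exact_mod_cast this
    have h1 : TM f (b + t) ≤ TM f (b + ((⌊t⌋₊ + 1 : ℕ) : ℝ)) :=
      TM_mono hf (by push_cast; linarith)
    have h2 := ind _ hjm
    have h3 : (1 + 1 / (R + 8)) * ((⌊t⌋₊ + 1 : ℕ) : ℝ) ≤ t + 2 := by
      have h4 : ((⌊t⌋₊ + 1 : ℕ) : ℝ) ≤ t + 1 := by push_cast; linarith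
      have h5 : 1 / (R + 8) * ((⌊t⌋₊ + 1 : ℕ) : ℝ) ≤ 1 := by
        have h6 : ((⌊t⌋₊ + 1 : ℕ) : ℝ) ≤ R + 8 := by linarith
        calc 1 / (R + 8) * ((⌊t⌋₊ + 1 : ℕ) : ℝ) ≤ 1 / (R + 8) * (R + 8) :=
              mul_le_mul_of_nonneg_left h6 hpos.le
          _ = 1 := by field_simp
      rw [add_mul, one_mul]
      linarith
    calc TM f (b + t) ≤ exp ((1 + 1 / (R + 8)) * ((⌊t⌋₊ + 1 : ℕ) : ℝ)) * TM f b := h1.trans h2
      _ ≤ exp (t + 2) * TM f b := mul_le_mul_of_nonneg_right (exp_le_exp.2 h3) hTM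
      _ = exp 2 * (exp t * TM f b) := by rw [exp_add]; ring
      _ ≤ 9 * (exp t * TM f b) := mul_le_mul_of_nonneg_right exp_two_le (by positivity)
      _ = 9 * exp t * TM f b := by ring
  · intro t ht htR
    have hfl := Nat.floor_le ht
    have hfl' := Nat.lt_floor_add_one t
    have hjm : ⌊t⌋₊ + 1 ≤ m := by
      have : ((⌊t⌋₊ + 1 : ℕ) : ℝ) ≤ m := by push_cast; linarith
      exact_mod_cast this
    have e1 : b + ((⌊t⌋₊ + 1 : ℕ) : ℝ) = b + ⌊t⌋₊ + 1 := by push_cast; ring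
    have h1 : TN f (b + t) ≤ TN f (b + ((⌊t⌋₊ + 1 : ℕ) : ℝ)) :=
      TN_mono hf h0 (by push_cast; linarith)
    have h2 := hz (⌊t⌋₊ + 1) (by omega) hjm
    have h3 := hg ⌊t⌋₊ (by omega)
    have h4 : TM f (b + ⌊t⌋₊) ≤ TM f (b + t) := TM_mono hf (by linarith)
    have h5 := exp_q_le hR
    have h6 := TM_nonneg f (b + ⌊t⌋₊)
    calc TN f (b + t) ≤ σ * TM f (b + ((⌊t⌋₊ + 1 : ℕ) : ℝ)) := h1.trans h2
      _ = σ * TM f (b + ⌊t⌋₊ + 1) := by rw [e1]
      _ ≤ σ * (exp (1 + 1 / (R + 8)) * TM f (b + ⌊t⌋₊)) := mul_le_mul_of_nonneg_left h3 hσ.le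
      _ ≤ σ * (3 * TM f (b + t)) := by
          apply mul_le_mul_of_nonneg_left _ hσ.le
          exact mul_le_mul h5 h4 h6 (by norm_num)
      _ = 3 * σ * TM f (b + t) := by ring

theorem three_exp_le {R : ℝ} (hR : 80 ≤ R) : 3 * exp (-(R / 4)) ≤ 1 := by
  have h1 : exp (-(R / 4)) ≤ exp (-20) := exp_le_exp.2 (by linarith)
  have h2 : exp (-20 : ℝ) ≤ 1 / 21 := by
    rw [exp_neg, inv_eq_one_div]
    exact one_div_le_one_div_of_le (by norm_num) (by linarith [add_one_le_exp (20 : ℝ)])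
  linarith

theorem win_of_J {f : ℂ → ℂ} (hf : Differentiable ℂ f) (h0 : f 0 = 1) {R s1 s : ℝ} (hR : 80 ≤ R)
    (hJ : JJ f R s1) (hs : s1 ≤ s) (hb : exp R ≤ TM f s) : Win f s R (3 * exp (-(R / 4))) := by
  have hpos : 0 < 1 / (R + 8) := by positivity
  have ind : ∀ j : ℕ, TM f (s + j) ≤ exp ((1 + 1 / (R + 8)) * j) * TM f s := by
    intro j
    induction j with
    | zero => simp
    | succ j ih =>
      have hj0 : (0 : ℝ) ≤ j := Nat.cast_nonneg j
      have h2 := (hJ (s + j) (by linarith)).1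
      have e1 : s + ((j + 1 : ℕ) : ℝ) = s + j + 1 := by push_cast; ring
      rw [e1]
      calc TM f (s + j + 1) ≤ exp (1 + 1 / (R + 8)) * TM f (s + j) := h2
        _ ≤ exp (1 + 1 / (R + 8)) * (exp ((1 + 1 / (R + 8)) * j) * TM f s) :=
            mul_le_mul_of_nonneg_left ih (exp_pos _).le
        _ = exp ((1 + 1 / (R + 8)) * ((j + 1 : ℕ) : ℝ)) * TM f s := by
            rw [← mul_assoc, ← exp_add]
            congr 2
            push_cast
            ring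
  have hTM := TM_nonneg f s
  have h3e := three_exp_le hR
  refine ⟨hf, h0, by linarith, by positivity, h3e, ?_, ?_, hb⟩
  · intro t ht htR
    have hfl := Nat.floor_le ht
    have hfl' := Nat.lt_floor_add_one t
    have h1 : TM f (s + t) ≤ TM f (s + ((⌊t⌋₊ + 1 : ℕ) : ℝ)) :=
      TM_mono hf (by push_cast; linarith)
    have h2 := ind (⌊t⌋₊ + 1)
    have h3 : (1 + 1 / (R + 8)) * ((⌊t⌋₊ + 1 : ℕ) : ℝ) ≤ t + 2 := by
      have h4 : ((⌊t⌋₊ + 1 : ℕ) : ℝ) ≤ t + 1 := by push_cast; linarith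
      have h5 : 1 / (R + 8) * ((⌊t⌋₊ + 1 : ℕ) : ℝ) ≤ 1 := by
        have h6 : ((⌊t⌋₊ + 1 : ℕ) : ℝ) ≤ R + 8 := by linarith
        calc 1 / (R + 8) * ((⌊t⌋₊ + 1 : ℕ) : ℝ) ≤ 1 / (R + 8) * (R + 8) :=
              mul_le_mul_of_nonneg_left h6 hpos.le
          _ = 1 := by field_simp
      rw [add_mul, one_mul]
      linarith
    calc TM f (s + t) ≤ exp ((1 + 1 / (R + 8)) * ((⌊t⌋₊ + 1 : ℕ) : ℝ)) * TM f s := h1.trans h2
      _ ≤ exp (t + 2) * TM f s := mul_le_mul_of_nonneg_right (exp_le_exp.2 h3) hTM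
      _ = exp 2 * (exp t * TM f s) := by rw [exp_add]; ring
      _ ≤ 9 * (exp t * TM f s) := mul_le_mul_of_nonneg_right exp_two_le (by positivity)
      _ = 9 * exp t * TM f s := by ring
  · intro t ht htR
    exact (hJ (s + t) (by linarith)).2

theorem step_left : ∃ R0 C : ℝ, 80 ≤ R0 ∧ 0 < C ∧ ∀ (f : ℂ → ℂ) (b R δ : ℝ) (m : ℕ), Differentiable ℂ f → f 0 = 1 →
    R0 ≤ R → 0 ≤ δ → C * δ ≤ exp (-(R / 4)) → R + 4 ≤ m → exp R ≤ TM f (b - 1) → HM f δ (b - 1) →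
    (∀ j : ℕ, j ≤ m → TM f (b + j + 1) ≤ exp (1 + 1 / (R + 8)) * TM f (b + j) ∧
      TN f (b + j) ≤ exp (-(R / 4)) * TM f (b + j)) →
    TM f b ≤ exp (1 + 1 / (R + 8)) * TM f (b - 1) ∧ TN f (b - 1) ≤ exp (-(R / 4)) * TM f (b - 1) := by
  obtain ⟨C0, hC0, hboot⟩ := boot
  obtain ⟨R0, hR0, hsm⟩ := small_ev (min (1 / 40000) (1 / (12 * C0))) (by positivity)
  refine ⟨R0, 2 * C0 + 2, hR0, by positivity, ?_⟩
  intro f b R δ m hf h0 hR hδ hCδ hm hb hHM hdata
  have hR80 : 80 ≤ R := hR0.trans hR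
  have hG := hsm R hR
  have hG1 : (3 * (R + 1)) ^ 2 * exp (-(R / 40)) ≤ 1 / 40000 := hG.trans (min_le_left _ _)
  have hG2 : (3 * (R + 1)) ^ 2 * exp (-(R / 40)) ≤ 1 / (12 * C0) := hG.trans (min_le_right _ _)
  have hE := err_E' hR80 hG1
  have hσ := exp_pos (-(R / 4))
  have h3e := three_exp_le hR80
  have hbb : exp R ≤ TM f b := hb.trans (TM_mono hf (by linarith))
  have hW : Win f b R (3 * exp (-(R / 4))) :=
    win_disc hf h0 hR80 hσ h3e (by linarith) hbb (fun j hj => (hdata j hj.le).1)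
      (fun j _ hj => (hdata j hj).2)
  obtain ⟨n, x, y, h, A, ψ, hD⟩ := exists_dip hW
  have hn1 := near hW hD (t := -1) (by norm_num) (by linarith)
  have hn0 := near hW hD (t := 0) (by norm_num) (by linarith)
  set E : ℝ := 5000 * ((R + 1) * (3 * exp (-(R / 4))) + exp (-(R / 2))) with hEdef
  have hE0 : 0 ≤ E := by positivity
  rw [add_zero, exp_zero, mul_one, mul_one] at hn0
  have hTb := TM_nonneg f b
  have hTb1 := TM_nonneg f (b - 1)
  have e1 : b + -1 = b - 1 := by ring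
  rw [e1] at hn1
  have hM1 : TM f b * (1 - 2 * E) ≤ exp 1 * TM f (b - 1) := by
    have a1 := (abs_le.1 hn0).2
    have a2 := (abs_le.1 hn1).1
    have a3 : exp 1 * exp (-1 : ℝ) = 1 := by rw [← exp_add]; norm_num
    have a4 := mul_le_mul_of_nonneg_left a2 (exp_pos 1).le
    have a5 : exp 1 * -(E * exp (-1) * TM f b) = -(E * TM f b) := by
      calc exp 1 * -(E * exp (-1) * TM f b) = -((exp 1 * exp (-1)) * (E * TM f b)) := by ring
        _ = -(E * TM f b) := by rw [a3, one_mul]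
    have a6 : exp 1 * (TM f (b - 1) - 2 * A * exp (-1)) = exp 1 * TM f (b - 1) - 2 * A := by
      calc exp 1 * (TM f (b - 1) - 2 * A * exp (-1))
          = exp 1 * TM f (b - 1) - (exp 1 * exp (-1)) * (2 * A) := by ring
        _ = exp 1 * TM f (b - 1) - 2 * A := by rw [a3, one_mul]
    rw [a5, a6] at a4
    linarith
  have hstep : TM f b ≤ exp (1 + 1 / (R + 8)) * TM f (b - 1) := by
    have hx : (0 : ℝ) < 1 / (R + 8) := by positivity
    have hx1 : 1 / (R + 8) ≤ 1 := by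
      rw [div_le_one (by linarith)]; linarith
    have hE4 : 2 * E ≤ 1 / (R + 8) / 2 := by
      have : 1 / (4 * (R + 9)) ≤ 1 / (4 * (R + 8)) :=
        one_div_le_one_div_of_le (by linarith) (by linarith)
      have e2 : 1 / (R + 8) / 2 = 2 * (1 / (4 * (R + 8))) := by field_simp; norm_num
      rw [e2]
      linarith
    have hex : exp (-(1 / (R + 8))) ≤ 1 - 1 / (R + 8) / 2 := by
      have := exp_bound_div_one_sub_of_interval (x := 1 / (R + 8) / 2) (by positivity) (by linarith)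
      have h7 : 1 / (1 - 1 / (R + 8) / 2) ≤ exp (1 / (R + 8)) := by
        rw [div_le_iff₀ (by linarith)]
        have := add_one_le_exp (1 / (R + 8))
        nlinarith
      rw [exp_neg]
      have h8 : 0 < 1 - 1 / (R + 8) / 2 := by linarith
      rw [div_le_iff₀ h8] at h7
      rw [inv_le_iff_one_le_mul₀ (exp_pos _)]
      linarith
    have h9 : exp (-(1 / (R + 8))) * TM f b ≤ exp 1 * TM f (b - 1) := by
      calc exp (-(1 / (R + 8))) * TM f b ≤ (1 - 2 * E) * TM f b :=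
            mul_le_mul_of_nonneg_right (by linarith) hTb
        _ = TM f b * (1 - 2 * E) := by ring
        _ ≤ _ := hM1
    have h10 := mul_le_mul_of_nonneg_left h9 (exp_pos (1 / (R + 8))).le
    have e3 : exp (1 / (R + 8)) * (exp (-(1 / (R + 8))) * TM f b) = TM f b := by
      rw [← mul_assoc, ← exp_add, add_neg_cancel, exp_zero, one_mul]
    rw [e3, ← mul_assoc, ← exp_add, add_comm] at h10
    exact h10
  refine ⟨hstep, ?_⟩
  have hW' : Win f (b - 1) R (3 * exp (-(R / 4))) := by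
    refine win_disc (m := m) hf h0 hR80 hσ h3e (by linarith) hb ?_ ?_
    · intro j hj
      rcases j with _ | j
      · simpa using hstep
      · have := (hdata j (by omega)).1
        have e4 : b - 1 + ((j + 1 : ℕ) : ℝ) = b + j := by push_cast; ring
        rw [e4]
        exact this
    · intro j hj1 hj
      obtain ⟨i, rfl⟩ : ∃ i, j = i + 1 := ⟨j - 1, by omega⟩
      have := (hdata i (by omega)).2
      have e4 : b - 1 + ((i + 1 : ℕ) : ℝ) = b + i := by push_cast; ring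
      rw [e4]
      exact this
  have hδ2 : δ ≤ 1 / 2 := by
    nlinarith
  have hE6 : E ≤ 1 / 6 := by
    refine hE.trans ?_
    rw [div_le_div_iff₀ (by linarith) (by norm_num)]
    linarith
  have hB := hboot f (b - 1) R (3 * exp (-(R / 4))) δ hW' hR80 hδ hδ2 hHM hE6
  refine hB.trans ?_
  apply mul_le_mul_of_nonneg_right _ hTb1
  have hB2 := err_B hR80
  have hB3 : C0 * (((R + 1) * (3 * exp (-(R / 4)))) ^ (5 / 4 : ℝ) +
      (R + 1) * (3 * exp (-(R / 4))) * exp (-(R / 40)) + exp (-(R / 2))) ≤ exp (-(R / 4)) / 4 := by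
    calc C0 * (((R + 1) * (3 * exp (-(R / 4)))) ^ (5 / 4 : ℝ) +
      (R + 1) * (3 * exp (-(R / 4))) * exp (-(R / 40)) + exp (-(R / 2)))
        ≤ C0 * (3 * ((3 * (R + 1)) ^ 2 * exp (-(R / 40))) * exp (-(R / 4))) :=
          mul_le_mul_of_nonneg_left hB2 hC0.le
      _ ≤ C0 * (3 * (1 / (12 * C0)) * exp (-(R / 4))) := by
          apply mul_le_mul_of_nonneg_left _ hC0.le
          apply mul_le_mul_of_nonneg_right _ hσ.le
          linarith
      _ = exp (-(R / 4)) / 4 := by field_simp; norm_num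
  have hB4 : C0 * δ ≤ exp (-(R / 4)) / 2 := by nlinarith
  calc C0 * (δ + ((R + 1) * (3 * exp (-(R / 4)))) ^ (5 / 4 : ℝ) +
      (R + 1) * (3 * exp (-(R / 4))) * exp (-(R / 40)) + exp (-(R / 2)))
      = C0 * δ + C0 * (((R + 1) * (3 * exp (-(R / 4)))) ^ (5 / 4 : ℝ) +
      (R + 1) * (3 * exp (-(R / 4))) * exp (-(R / 40)) + exp (-(R / 2))) := by ring
    _ ≤ exp (-(R / 4)) := by linarith

theorem step_up : ∃ R0 C : ℝ, 80 ≤ R0 ∧ 0 < C ∧ ∀ (f : ℂ → ℂ) (R δ s1 : ℝ), Differentiable ℂ f → f 0 = 1 →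
    R0 ≤ R → 0 ≤ δ → C * δ ≤ exp (-((R + 1) / 4)) → HM f δ s1 → exp R ≤ TM f s1 → JJ f R s1 →
    JJ f (R + 1) s1 := by
  obtain ⟨C0, hC0, hboot⟩ := boot
  obtain ⟨R0, hR0, hsm⟩ := small_ev (min (1 / 40000) (1 / (12 * C0))) (by positivity)
  refine ⟨R0, 2 * C0 + 2, hR0, by positivity, ?_⟩
  intro f R δ s1 hf h0 hR hδ hCδ hHM hb hJ s hs
  have hR80 : 80 ≤ R := hR0.trans hR
  have hG := hsm R hR
  have hG1 : (3 * (R + 1)) ^ 2 * exp (-(R / 40)) ≤ 1 / 40000 := hG.trans (min_le_left _ _)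
  have hG2 : (3 * (R + 1)) ^ 2 * exp (-(R / 40)) ≤ 1 / (12 * C0) := hG.trans (min_le_right _ _)
  have hE := err_E' hR80 hG1
  have hσ := exp_pos (-(R / 4))
  have h3e := three_exp_le hR80
  have hbb : exp R ≤ TM f s := hb.trans (TM_mono hf hs)
  have hW : Win f s R (3 * exp (-(R / 4))) := win_of_J hf h0 hR80 hJ hs hbb
  obtain ⟨n, x, y, h, A, ψ, hD⟩ := exists_dip hW
  have hn1 := near hW hD (t := 1) (by norm_num) (by linarith)
  have hn0 := near hW hD (t := 0) (by norm_num) (by linarith)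
  set E : ℝ := 5000 * ((R + 1) * (3 * exp (-(R / 4))) + exp (-(R / 2))) with hEdef
  have hE0 : 0 ≤ E := by positivity
  rw [add_zero, exp_zero, mul_one, mul_one] at hn0
  have hTs := TM_nonneg f s
  constructor
  · have a1 := (abs_le.1 hn0).1
    have a2 := (abs_le.1 hn1).2
    have h1 : TM f (s + 1) ≤ exp 1 * ((1 + 2 * E) * TM f s) := by
      have : exp 1 * (2 * A) ≤ exp 1 * (TM f s + E * TM f s) :=
        mul_le_mul_of_nonneg_left (by linarith) (exp_pos 1).le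
      nlinarith
    have h2 : 1 + 2 * E ≤ exp (1 / (R + 1 + 8)) := by
      have h3 := add_one_le_exp (1 / (R + 1 + 8))
      have h4 : 2 * E ≤ 1 / (R + 1 + 8) := by
        have e5 : 1 / (R + 1 + 8) = 4 * (1 / (4 * (R + 9))) := by
          have : R + 1 + 8 = R + 9 := by ring
          rw [this]; field_simp
        have h5 : 0 ≤ 1 / (4 * (R + 9)) := by positivity
        rw [e5]
        linarith
      linarith
    calc TM f (s + 1) ≤ exp 1 * ((1 + 2 * E) * TM f s) := h1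
      _ ≤ exp 1 * (exp (1 / (R + 1 + 8)) * TM f s) :=
          mul_le_mul_of_nonneg_left (mul_le_mul_of_nonneg_right h2 hTs) (exp_pos 1).le
      _ = exp (1 + 1 / (R + 1 + 8)) * TM f s := by rw [exp_add]; ring
  · have hle : exp (-((R + 1) / 4)) ≤ exp (-(R / 4)) := exp_le_exp.2 (by linarith)
    have hge : exp (-(R / 4)) ≤ 2 * exp (-((R + 1) / 4)) := by
      have h1 : exp (-(R / 4)) = exp (1 / 4) * exp (-((R + 1) / 4)) := by
        rw [← exp_add]; congr 1; ring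
      have h2 : exp (1 / 4 : ℝ) ≤ 2 := by
        have := exp_bound_div_one_sub_of_interval (x := 1 / 4) (by norm_num) (by norm_num)
        norm_num at this ⊢
        linarith
      rw [h1]
      exact mul_le_mul_of_nonneg_right h2 (exp_pos _).le
    have hδ2 : δ ≤ 1 / 2 := by
      nlinarith [exp_pos (-((R + 1) / 4))]
    have hE6 : E ≤ 1 / 6 := by
      refine hE.trans ?_
      rw [div_le_div_iff₀ (by linarith) (by norm_num)]
      linarith
    have hHM' : HM f δ s := fun t ht => hHM t (hs.trans ht)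
    have hB := hboot f s R (3 * exp (-(R / 4))) δ hW hR80 hδ hδ2 hHM' hE6
    refine hB.trans ?_
    apply mul_le_mul_of_nonneg_right _ hTs
    have hB2 := err_B hR80
    have hB3 : C0 * (((R + 1) * (3 * exp (-(R / 4)))) ^ (5 / 4 : ℝ) +
        (R + 1) * (3 * exp (-(R / 4))) * exp (-(R / 40)) + exp (-(R / 2))) ≤ exp (-(R / 4)) / 4 := by
      calc C0 * (((R + 1) * (3 * exp (-(R / 4)))) ^ (5 / 4 : ℝ) +
        (R + 1) * (3 * exp (-(R / 4))) * exp (-(R / 40)) + exp (-(R / 2)))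
          ≤ C0 * (3 * ((3 * (R + 1)) ^ 2 * exp (-(R / 40))) * exp (-(R / 4))) :=
            mul_le_mul_of_nonneg_left hB2 hC0.le
        _ ≤ C0 * (3 * (1 / (12 * C0)) * exp (-(R / 4))) := by
            apply mul_le_mul_of_nonneg_left _ hC0.le
            apply mul_le_mul_of_nonneg_right _ hσ.le
            linarith
        _ = exp (-(R / 4)) / 4 := by field_simp; norm_num
    have hB4 : C0 * δ ≤ exp (-((R + 1) / 4)) / 2 := by nlinarith
    calc C0 * (δ + ((R + 1) * (3 * exp (-(R / 4)))) ^ (5 / 4 : ℝ) +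
        (R + 1) * (3 * exp (-(R / 4))) * exp (-(R / 40)) + exp (-(R / 2)))
        = C0 * δ + C0 * (((R + 1) * (3 * exp (-(R / 4)))) ^ (5 / 4 : ℝ) +
        (R + 1) * (3 * exp (-(R / 4))) * exp (-(R / 40)) + exp (-(R / 2))) := by ring
      _ ≤ 3 * exp (-((R + 1) / 4)) := by
          have := exp_pos (-((R + 1) / 4))
          linarith

end Pool.Agent.TX1
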