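import Pool.Agent.TX1.Defs

/-!
# TX1, module LogInt (proved): `log |f|` is integrable on circles; notation bridges

* `li_circle : pt s θ = circleMap 0 (exp s) θ`; `li_Fe : Fe f 1 s t = f (pt s t)`; `li_per : pt s (θ + 2π) = pt s θ`.
* `log_ii`: `θ ↦ log ‖f (pt s θ)‖` is interval integrable on every interval (`f` entire; also if `f = 0`).
* `log_ii_on`: the same for `f` analytic near the circle.
* `li_TN`: `TN f s` is the integral over any period.
-/

set_option autoImplicit false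

namespace Pool.Agent.TX1

open Real MeasureTheory Set Filter Topology
open Pool.Agent.MML (Fe Ue mN)

theorem li_circle (s θ : ℝ) : pt s θ = circleMap 0 (exp s) θ := by
  unfold pt
  rw [circleMap, Complex.exp_add, zero_add, Complex.ofReal_exp]

theorem li_Fe (f : ℂ → ℂ) (s t : ℝ) : Fe f 1 s t = f (pt s t) := by
  unfold Pool.Agent.MML.Fe pt
  simp

theorem li_per (s θ : ℝ) : pt s (θ + 2 * π) = pt s θ := by
  rw [li_circle, li_circle]
  exact periodic_circleMap 0 (exp s) θ

theorem li_cont (s : ℝ) : Continuous (fun θ => pt s θ) := by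
  unfold pt
  fun_prop

/-- a function of `pt s θ` which is circle integrable is interval integrable on every interval -/
theorem li_ii {F : ℂ → ℝ} {s : ℝ} (h : CircleIntegrable F 0 (exp s)) (a b : ℝ) :
    IntervalIntegrable (fun θ => F (pt s θ)) volume a b := by
  have h1 : IntervalIntegrable (fun θ => F (pt s θ)) volume 0 (2 * π) := by
    have := h
    unfold CircleIntegrable at this
    refine this.congr ?_
    intro θ _
    show F (circleMap 0 (exp s) θ) = F (pt s θ)
    rw [li_circle]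
  have hp : Function.Periodic (fun θ => F (pt s θ)) (2 * π) := by
    intro θ
    show F (pt s (θ + 2 * π)) = F (pt s θ)
    rw [li_per]
  exact hp.intervalIntegrable₀ two_pi_pos.ne' h1 a b

theorem log_ii_on {f : ℂ → ℂ} {s : ℝ} (hf : AnalyticOnNhd ℂ f (Metric.sphere 0 (exp s))) (a b : ℝ) :
    IntervalIntegrable (fun θ => log ‖f (pt s θ)‖) volume a b := by
  apply li_ii (F := fun z => log ‖f z‖)
  apply MeromorphicOn.circleIntegrable_log_norm
  rw [abs_of_pos (exp_pos s)]
  exact hf.meromorphicOn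

theorem log_ii {f : ℂ → ℂ} (hf : Differentiable ℂ f) (s a b : ℝ) :
    IntervalIntegrable (fun θ => log ‖f (pt s θ)‖) volume a b :=
  log_ii_on (fun z _ => hf.analyticAt z) a b

theorem li_TN (f : ℂ → ℂ) (s a : ℝ) : ∫ θ in a..(a + 2 * π), log ‖f (pt s θ)‖ = TN f s := by
  have hp : Function.Periodic (fun θ => log ‖f (pt s θ)‖) (2 * π) := by
    intro θ
    show log ‖f (pt s (θ + 2 * π))‖ = log ‖f (pt s θ)‖
    rw [li_per]
  unfold TN
  have h := hp.intervalIntegral_add_eq a (-π)
  rw [h]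
  congr 1
  ring

/-- `f` has almost no zeros on a circle -/
theorem li_ae {f : ℂ → ℂ} (hf : Differentiable ℂ f) (hne : ∃ z, f z ≠ 0) (s : ℝ) :
    ∀ᵐ θ ∂(volume : Measure ℝ), f (pt s θ) ≠ 0 := by
  obtain ⟨z, hz⟩ := hne
  have h1 : f ⁻¹' {0}ᶜ ∈ codiscrete ℂ :=
    AnalyticOnNhd.preimage_zero_mem_codiscrete (fun z _ => hf.analyticAt z) hz
  have h2 : f ⁻¹' {0}ᶜ ∈ codiscreteWithin (Metric.sphere (0 : ℂ) |exp s|) :=
    codiscreteWithin_mono (by simp only [Set.subset_univ]) h1
  have h3 := circleMap_preimage_codiscrete (exp_pos s).ne' h2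
  have h4 : circleMap 0 (exp s) ⁻¹' (f ⁻¹' {0}ᶜ) ∈ codiscrete ℝ := h3
  have h5 := ae_restrict_le_codiscreteWithin (μ := volume) MeasurableSet.univ h4
  rw [Measure.restrict_univ] at h5
  filter_upwards [h5] with θ hθ
  rw [li_circle]
  exact hθ

/-- `TN` is at most the regularised mean -/
theorem TN_le_mN {f : ℂ → ℂ} (hf : Differentiable ℂ f) {η : ℝ} (hη : 0 < η) (s : ℝ)
    (hne : ∀ᵐ θ ∂volume, f (pt s θ) ≠ 0) : TN f s ≤ mN (π * 1) (Ue f 1 η) s := by
  unfold TN mN
  rw [mul_one]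
  obtain ⟨Uss, Ut, Utt, hS⟩ := Pool.Agent.MML.SH_eta hf one_pos hη
  apply intervalIntegral.integral_mono_ae (by linarith [pi_pos]) (log_ii hf s _ _)
  · exact (hS.c2.c0.comp (by fun_prop : Continuous (fun t : ℝ => (s, t)))).intervalIntegrable _ _
  · filter_upwards [hne] with θ hθ
    show log ‖f (pt s θ)‖ ≤ Ue f 1 η s θ
    unfold Ue
    rw [li_Fe]
    have h0 : 0 < ‖f (pt s θ)‖ := norm_pos_iff.2 hθ
    have h1 : log ‖f (pt s θ)‖ = 1 / 2 * log (‖f (pt s θ)‖ ^ 2) := by
      rw [Real.log_pow]; push_cast; ring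
    rw [h1]
    have h2 : log (‖f (pt s θ)‖ ^ 2) ≤ log (‖f (pt s θ)‖ ^ 2 + η ^ 2) :=
      Real.log_le_log (by positivity) (by nlinarith)
    linarith

end Pool.Agent.TX1
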