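import Pool.Agent.TX1.Near
import Pool.Agent.TX1.LogInt

/-!
# TX1, module Near1: the characteristic and the dipole at its own radius

`cT = deriv h 0 - ∑_{x i > b+t} 1/pt (x i) (y i)`.  `u = Re (cT z) + [∑_{x i ≤ b+t} ell + ∑_{x i > b+t} (ell (b+t-x i) (θ-y i) + Re (z/a i)) + (Re h z - Re (deriv h 0 z))]`.
`∫ |ell τ| ≤ 2π max τ 0 + 4π log 2` for `τ ≥ 0`; for `τ < 0`: `∫ |ell τ β + exp τ cos β| dβ ≤ 100 exp (-2|τ|)` (power series, or for `τ ≥ -1` crude);
sum: `TN f (b+t)`, `cnt`, and the layer cake for `∑_{x i > b+t} exp (-2(x i - b - t)) ≤ C σ exp t TM f b` (as `sum_two`).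
`∫ max (Re (cT z)) 0 = 2 ‖cT‖ exp (b+t)`, `|½ log (|f|²+1) - max u 0| ≤ ½ log 2`, `|max u 0 - max v 0| ≤ |u - v|`.
-/

set_option autoImplicit false

namespace Pool.Agent.TX1

open Real MeasureTheory Set Filter Topology

/-- the coefficient of the dipole at the radius `exp s` -/
noncomputable def cT {n : ℕ} (x y : Fin n → ℝ) (h : ℂ → ℂ) (s : ℝ) : ℂ :=
  deriv h 0 - ∑ i ∈ Finset.univ.filter (fun i => s < x i), 1 / pt (x i) (y i)

namespace Near1Aux

theorem pt_re (τ β : ℝ) : (pt τ β).re = exp τ * cos β := by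
  unfold pt
  rw [Complex.exp_re]
  simp

theorem int_abs_ell_le (τ a : ℝ) :
    ∫ β in a..(a + 2 * π), |ell τ β| ≤ 2 * π * max τ 0 + 4 * π * exp (-|τ|) := by
  have hi := ell_ii τ a (a + 2 * π)
  have hia := hi.abs
  have h1 : ∫ β in a..(a + 2 * π), max (ell τ β) 0
      = 1 / 2 * ((∫ β in a..(a + 2 * π), ell τ β) + ∫ β in a..(a + 2 * π), |ell τ β|) := by
    rw [← intervalIntegral.integral_add hi hia, ← intervalIntegral.integral_const_mul]
    apply intervalIntegral.integral_congr
    intro β _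
    simp only
    rcases le_total 0 (ell τ β) with h | h
    · rw [max_eq_left h, abs_of_nonneg h]; ring
    · rw [max_eq_right h, abs_of_nonpos h]; ring
  have h2 := ell_pos_int τ a
  have h3 := ell_int τ a
  have h4 := log_one_add_exp_sub_max τ
  have h5 : 2 * π * log (1 + exp τ) ≤ 2 * π * (max τ 0 + exp (-|τ|)) :=
    mul_le_mul_of_nonneg_left (by linarith) (by positivity)
  rw [h1, h3] at h2
  nlinarith [pi_pos]

theorem abs_ell_add_le {τ : ℝ} (hτ : τ ≤ -1) (β : ℝ) :
    |ell τ β + exp τ * cos β| ≤ exp (2 * τ) := by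
  have h1 : exp τ ≤ 2 / 5 := by
    have h2 : exp τ ≤ exp (-1) := exp_le_exp.mpr hτ
    have h3 : exp (-1) ≤ 2 / 5 := by
      have := Real.exp_neg_one_lt_d9
      linarith
    linarith
  have hn : ‖-pt τ β‖ < 1 := by
    rw [norm_neg, pt_norm]
    linarith
  have h2 := Complex.norm_log_one_add_sub_self_le hn
  rw [norm_neg, pt_norm] at h2
  have h3 : (Complex.log (1 + -pt τ β) - -pt τ β).re = ell τ β + exp τ * cos β := by
    rw [Complex.sub_re, Complex.neg_re, Complex.log_re, pt_re]
    unfold ell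
    rw [← sub_eq_add_neg]
    ring
  rw [← h3]
  refine (Complex.abs_re_le_norm _).trans (h2.trans ?_)
  have h4 : (1 - exp τ)⁻¹ ≤ 2 := by
    rw [inv_le_comm₀ (by linarith) (by norm_num)]
    linarith
  have h5 : exp (2 * τ) = exp τ ^ 2 := by
    rw [← Real.exp_nat_mul]
    norm_num
  rw [h5]
  have h6 : exp τ ^ 2 * (1 - exp τ)⁻¹ ≤ exp τ ^ 2 * 2 :=
    mul_le_mul_of_nonneg_left h4 (by positivity)
  linarith

theorem int_ell_add_le {τ : ℝ} (hτ : τ < 0) (a : ℝ) :
    ∫ β in a..(a + 2 * π), |ell τ β + exp τ * cos β| ≤ 150 * exp (2 * τ) := by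
  have hle : a ≤ a + 2 * π := by linarith [pi_pos]
  have hi := ell_ii τ a (a + 2 * π)
  have hc : IntervalIntegrable (fun β => exp τ * cos β) volume a (a + 2 * π) :=
    (by fun_prop : Continuous (fun β : ℝ => exp τ * cos β)).intervalIntegrable _ _
  have hs := (hi.add hc).abs
  rcases le_or_gt τ (-1) with h | h
  · have h1 : ∫ β in a..(a + 2 * π), |ell τ β + exp τ * cos β|
        ≤ ∫ _ in a..(a + 2 * π), exp (2 * τ) := by
      apply intervalIntegral.integral_mono_on hle hs (by simp)
      intro β _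
      exact abs_ell_add_le h β
    rw [intervalIntegral.integral_const, smul_eq_mul] at h1
    refine h1.trans ?_
    have h2 : a + 2 * π - a ≤ 150 := by linarith [pi_lt_four]
    exact mul_le_mul_of_nonneg_right h2 (exp_pos _).le
  · have h1 : ∫ β in a..(a + 2 * π), |ell τ β + exp τ * cos β|
        ≤ ∫ β in a..(a + 2 * π), (|ell τ β| + 1) := by
      apply intervalIntegral.integral_mono_on hle hs (hi.abs.add (by simp))
      intro β _
      refine (abs_add_le _ _).trans ?_
      have h2 : |exp τ * cos β| ≤ 1 := by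
        rw [abs_mul, abs_of_pos (exp_pos _)]
        exact mul_le_one₀ (exp_le_one_iff.mpr hτ.le) (abs_nonneg _) (abs_cos_le_one _)
      linarith
    rw [intervalIntegral.integral_add hi.abs (by simp), intervalIntegral.integral_const, smul_eq_mul,
      mul_one] at h1
    have h3 := int_abs_ell_le τ a
    rw [max_eq_right hτ.le] at h3
    have h4 : exp (-|τ|) ≤ 1 := exp_le_one_iff.mpr (by simp)
    have h5 : 4 * π * exp (-|τ|) ≤ 4 * π * 1 := mul_le_mul_of_nonneg_left h4 (by positivity)
    have h6 : exp (-2) ≤ exp (2 * τ) := exp_le_exp.mpr (by linarith)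
    have h7 : (0.135 : ℝ) ≤ exp (-2) := by
      have h8 : exp (-2) = exp (-1) * exp (-1) := by rw [← Real.exp_add]; norm_num
      rw [h8]
      have := Real.exp_neg_one_gt_d9
      nlinarith
    have h8 : π ≤ 3.15 := by linarith [pi_lt_d2]
    linarith

theorem int_cos_pos : ∫ θ in (-π)..π, max (cos θ) 0 = 2 := by
  have hc : Continuous (fun θ : ℝ => max (cos θ) 0) := continuous_cos.max continuous_const
  rw [← intervalIntegral.integral_add_adjacent_intervals (b := -(π / 2))
    (hc.intervalIntegrable _ _) (hc.intervalIntegrable _ _),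
    ← intervalIntegral.integral_add_adjacent_intervals (a := -(π / 2)) (b := π / 2)
    (hc.intervalIntegrable _ _) (hc.intervalIntegrable _ _)]
  have h1 : ∫ θ in (-π)..(-(π / 2)), max (cos θ) 0 = ∫ _ in (-π)..(-(π / 2)), (0 : ℝ) := by
    apply intervalIntegral.integral_congr
    intro θ hθ
    rw [uIcc_of_le (by linarith [pi_pos])] at hθ
    simp only
    apply max_eq_right
    rw [← cos_neg]
    exact cos_nonpos_of_pi_div_two_le_of_le (by linarith [hθ.2]) (by linarith [hθ.1, pi_pos])
  have h2 : ∫ θ in (-(π / 2))..(π / 2), max (cos θ) 0 = ∫ θ in (-(π / 2))..(π / 2), cos θ := by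
    apply intervalIntegral.integral_congr
    intro θ hθ
    rw [uIcc_of_le (by linarith [pi_pos])] at hθ
    simp only
    exact max_eq_left (cos_nonneg_of_mem_Icc hθ)
  have h3 : ∫ θ in (π / 2)..π, max (cos θ) 0 = ∫ _ in (π / 2)..π, (0 : ℝ) := by
    apply intervalIntegral.integral_congr
    intro θ hθ
    rw [uIcc_of_le (by linarith [pi_pos])] at hθ
    simp only
    apply max_eq_right
    exact cos_nonpos_of_pi_div_two_le_of_le hθ.1 (by linarith [hθ.2, pi_pos])
  rw [h1, h2, h3, integral_cos, sin_neg, sin_pi_div_two]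
  simp
  norm_num

theorem int_cos_pos_shift (α : ℝ) : ∫ θ in (-π)..(-π + 2 * π), max (cos (θ + α)) 0 = 2 := by
  have hp : Function.Periodic (fun θ : ℝ => max (cos θ) 0) (2 * π) := by
    intro θ
    simp only [cos_add_two_pi]
  have h1 : ∫ θ in (-π)..(-π + 2 * π), max (cos (θ + α)) 0
      = ∫ θ in (-π + α)..(-π + 2 * π + α), max (cos θ) 0 :=
    intervalIntegral.integral_comp_add_right (fun θ => max (cos θ) 0) α
  have h2 : -π + 2 * π + α = (-π + α) + 2 * π := by ring
  rw [h1, h2, hp.intervalIntegral_add_eq (-π + α) (-π)]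
  have h3 : -π + 2 * π = π := by ring
  rw [h3]
  exact int_cos_pos

theorem re_mul_pt (c : ℂ) (s θ : ℝ) : (c * pt s θ).re = ‖c‖ * exp s * cos (θ + c.arg) := by
  have h1 : c = pt 0 c.arg * ‖c‖ := by
    unfold pt
    rw [Complex.ofReal_zero, zero_add, mul_comm]
    exact (Complex.norm_mul_exp_arg_mul_I c).symm
  have h2 : pt 0 c.arg * pt s θ = pt s (θ + c.arg) := by
    unfold pt
    rw [← Complex.exp_add]
    congr 1
    push_cast
    ring
  calc (c * pt s θ).re = ((‖c‖ : ℂ) * (pt 0 c.arg * pt s θ)).re := by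
        conv_lhs => rw [h1]
        congr 1
        ring
    _ = ‖c‖ * exp s * cos (θ + c.arg) := by
        rw [h2, Complex.re_ofReal_mul, pt_re]
        ring

theorem int_dip (c : ℂ) (s : ℝ) :
    ∫ θ in (-π)..(-π + 2 * π), max (c * pt s θ).re 0 = 2 * ‖c‖ * exp s := by
  have h1 : ∀ θ, max (c * pt s θ).re 0 = ‖c‖ * exp s * max (cos (θ + c.arg)) 0 := by
    intro θ
    rw [re_mul_pt, mul_max_of_nonneg _ _ (by positivity), mul_zero]
  simp_rw [h1]
  rw [intervalIntegral.integral_const_mul, int_cos_pos_shift]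
  ring

theorem log_sq_sub {w : ℝ} (hw : 0 < w) :
    |1 / 2 * log (w ^ 2 + 1) - max (log w) 0| ≤ 1 / 2 * log 2 := by
  rcases le_total 1 w with h | h
  · rw [max_eq_left (log_nonneg h)]
    have h1 : log w = 1 / 2 * log (w ^ 2) := by rw [Real.log_pow]; push_cast; ring
    have h2 : log (w ^ 2) ≤ log (w ^ 2 + 1) := log_le_log (by positivity) (by linarith)
    have h3 : log (w ^ 2 + 1) ≤ log 2 + log (w ^ 2) := by
      rw [← Real.log_mul (by norm_num) (by positivity)]
      apply log_le_log (by positivity)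
      nlinarith
    rw [abs_le]
    constructor <;> linarith
  · rw [max_eq_right (log_nonpos hw.le h)]
    have h2 : 0 ≤ log (w ^ 2 + 1) := log_nonneg (by nlinarith)
    have h3 : log (w ^ 2 + 1) ≤ log 2 := log_le_log (by positivity) (by nlinarith)
    rw [abs_le]
    constructor <;> linarith

theorem log_fac_ae {f : ℂ → ℂ} {S : ℝ} {n : ℕ} {x y : Fin n → ℝ} {h : ℂ → ℂ} (hF : Fac f S n x y h)
    {s θ : ℝ} (hs : s ≤ S) (hne : f (pt s θ) ≠ 0) :
    log ‖f (pt s θ)‖ = (∑ i, ell (s - x i) (θ - y i)) + (h (pt s θ)).re := by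
  have h1 := hF.hf (pt s θ) (by rw [pt_norm]; exact exp_le_exp.mpr hs)
  have h2 : ∀ i, 1 - pt s θ / pt (x i) (y i) = 1 - pt (s - x i) (θ - y i) := by
    intro i
    rw [pt_div]
  simp_rw [h2] at h1
  have h3 : ∀ i, 1 - pt (s - x i) (θ - y i) ≠ 0 := by
    intro i hi
    apply hne
    rw [h1, Finset.prod_eq_zero (Finset.mem_univ i) hi, zero_mul]
  rw [h1, norm_mul, norm_prod, Complex.norm_exp, Real.log_mul, Real.log_exp, Real.log_prod]
  · rfl
  · intro i _
    exact norm_ne_zero_iff.mpr (h3 i)
  · exact Finset.prod_ne_zero_iff.mpr fun i _ => norm_ne_zero_iff.mpr (h3 i)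
  · exact (exp_pos _).ne'

end Near1Aux

open Near1Aux in
theorem near1 : ∃ C : ℝ, 0 < C ∧ ∀ {f : ℂ → ℂ} {b R σ : ℝ} {n : ℕ} {x y : Fin n → ℝ} {h : ℂ → ℂ} {A ψ : ℝ},
    Win f b R σ → Dip f b R n x y h A ψ → ∀ t, 0 ≤ t → t ≤ R / 4 →
    |TM f (b + t) - 2 * ‖cT x y h (b + t)‖ * exp (b + t)| ≤ C * (σ + exp (-(R / 2))) * exp t * TM f b := by
  refine ⟨16000, by norm_num, ?_⟩
  intro f b R σ n x y h A ψ hW hD t ht htR
  set s := b + t with hs
  have hR := hW.hR
  have hsS : s ≤ b + R := by rw [hs]; linarith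
  set c := cT x y h s with hc
  set TB := TM f b with hTB
  have hTB0 : 0 ≤ TB := TM_nonneg f b
  -- the error function
  set e : Fin n → ℝ → ℝ := fun i θ =>
    if s < x i then |ell (s - x i) (θ - y i) + exp (s - x i) * cos (θ - y i)|
    else |ell (s - x i) (θ - y i)| with he
  set K : ℝ := 60 * exp (2 * t - R) * TB + 1 / 2 * log 2 with hK
  have hei : ∀ i, IntervalIntegrable (e i) volume (-π) (-π + 2 * π) := by
    intro i
    have h1 : IntervalIntegrable (fun θ => ell (s - x i) (θ - y i)) volume (-π) (-π + 2 * π) := by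
      have h2 := ell_ii (s - x i) (-π - y i) (-π + 2 * π - y i)
      have h3 := h2.comp_sub_right (y i)
      simpa using h3
    have h2 : IntervalIntegrable (fun θ => exp (s - x i) * cos (θ - y i)) volume (-π) (-π + 2 * π) :=
      (by fun_prop : Continuous (fun θ : ℝ => exp (s - x i) * cos (θ - y i))).intervalIntegrable _ _
    rw [he]
    by_cases hx : s < x i
    · simp only [if_pos hx]
      exact (h1.add h2).abs
    · simp only [if_neg hx]
      exact h1.abs
  have hpt : ∀ᵐ θ ∂(volume : Measure ℝ),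
      |1 / 2 * log (‖f (pt s θ)‖ ^ 2 + 1) - max (c * pt s θ).re 0| ≤ (∑ i, e i θ) + K := by
    filter_upwards [li_ae hW.hf ⟨0, by rw [hW.f0]; exact one_ne_zero⟩ s] with θ hθ
    have hlog := log_fac_ae hD.fac hsS hθ
    have h1 := log_sq_sub (norm_pos_iff.mpr hθ)
    have h2 : |max (log ‖f (pt s θ)‖) 0 - max (c * pt s θ).re 0|
        ≤ |log ‖f (pt s θ)‖ - (c * pt s θ).re| := by
      have := abs_max_sub_max_le_abs (log ‖f (pt s θ)‖) (c * pt s θ).re 0
      exact this
    have h3 : |(h (pt s θ)).re - (deriv h 0 * pt s θ).re| ≤ 60 * exp (2 * t - R) * TB := by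
      have h4 := hD.err t θ (by linarith)
      have h5 := hD.hdip s θ
      have h6 : s - b = t := by rw [hs]; ring
      rw [h6] at h5
      rw [h5, sub_neg_eq_add]
      exact h4
    have h4 : (c * pt s θ).re = (deriv h 0 * pt s θ).re
        - ∑ i ∈ Finset.univ.filter (fun i => s < x i), exp (s - x i) * cos (θ - y i) := by
      rw [hc]
      unfold cT
      rw [sub_mul, Complex.sub_re, Finset.sum_mul, Complex.re_sum]
      congr 1
      apply Finset.sum_congr rfl
      intro i _
      rw [div_mul_eq_mul_div, one_mul, pt_div, pt_re]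
    have h5 : log ‖f (pt s θ)‖ - (c * pt s θ).re
        = (∑ i, if s < x i then ell (s - x i) (θ - y i) + exp (s - x i) * cos (θ - y i)
            else ell (s - x i) (θ - y i)) + ((h (pt s θ)).re - (deriv h 0 * pt s θ).re) := by
      rw [hlog, h4, Finset.sum_filter]
      have h6 : ∀ i, (if s < x i then ell (s - x i) (θ - y i) + exp (s - x i) * cos (θ - y i)
            else ell (s - x i) (θ - y i))
          = ell (s - x i) (θ - y i) + (if s < x i then exp (s - x i) * cos (θ - y i) else 0) := by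
        intro i
        split_ifs
        · rfl
        · rw [add_zero]
      simp_rw [h6]
      rw [Finset.sum_add_distrib]
      ring
    have h6 : |∑ i, if s < x i then ell (s - x i) (θ - y i) + exp (s - x i) * cos (θ - y i)
            else ell (s - x i) (θ - y i)| ≤ ∑ i, e i θ := by
      refine (Finset.abs_sum_le_sum_abs _ _).trans (le_of_eq ?_)
      apply Finset.sum_congr rfl
      intro i _
      rw [he]
      simp only
      split_ifs <;> rfl
    have h7 : |log ‖f (pt s θ)‖ - (c * pt s θ).re| ≤ (∑ i, e i θ) + 60 * exp (2 * t - R) * TB := by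
      rw [h5]
      exact (abs_add_le _ _).trans (add_le_add h6 h3)
    have h8 : 1 / 2 * log (‖f (pt s θ)‖ ^ 2 + 1) - max (c * pt s θ).re 0
        = (1 / 2 * log (‖f (pt s θ)‖ ^ 2 + 1) - max (log ‖f (pt s θ)‖) 0)
          + (max (log ‖f (pt s θ)‖) 0 - max (c * pt s θ).re 0) := by ring
    rw [h8]
    refine (abs_add_le _ _).trans ?_
    rw [hK]
    linarith
  -- integrate
  have hGi : IntervalIntegrable (fun θ => 1 / 2 * log (‖f (pt s θ)‖ ^ 2 + 1)) volume (-π)
      (-π + 2 * π) := by
    apply Continuous.intervalIntegrable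
    have h1 : Continuous (fun θ => f (pt s θ)) := hW.hf.continuous.comp (li_cont s)
    refine continuous_const.mul (Continuous.log ((h1.norm.pow 2).add continuous_const) ?_)
    intro θ
    positivity
  have hVi : IntervalIntegrable (fun θ => max (c * pt s θ).re 0) volume (-π) (-π + 2 * π) := by
    apply Continuous.intervalIntegrable
    exact (Complex.continuous_re.comp (continuous_const.mul (li_cont s))).max continuous_const
  have hSi : IntervalIntegrable (fun θ => (∑ i, e i θ) + K) volume (-π) (-π + 2 * π) := by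
    refine IntervalIntegrable.add ?_ (by simp)
    have h1 := IntervalIntegrable.sum (Finset.univ : Finset (Fin n)) (f := e) (fun i _ => hei i)
    have h2 : (fun θ => ∑ i, e i θ) = ∑ i, e i := by
      ext θ
      rw [Finset.sum_apply]
    rw [h2]
    exact h1
  have hle : -π ≤ -π + 2 * π := by linarith [pi_pos]
  have hmain : |TM f s - 2 * ‖c‖ * exp s| ≤ (∑ i, ∫ θ in (-π)..(-π + 2 * π), e i θ) + 2 * π * K := by
    rw [TM_eq f s (-π), ← int_dip c s, ← intervalIntegral.integral_sub hGi hVi]
    have h1 : |∫ θ in (-π)..(-π + 2 * π),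
          (1 / 2 * log (‖f (pt s θ)‖ ^ 2 + 1) - max (c * pt s θ).re 0)|
        ≤ ∫ θ in (-π)..(-π + 2 * π),
          |1 / 2 * log (‖f (pt s θ)‖ ^ 2 + 1) - max (c * pt s θ).re 0| :=
      intervalIntegral.abs_integral_le_integral_abs hle
    refine h1.trans ?_
    have h2 : ∫ θ in (-π)..(-π + 2 * π),
          |1 / 2 * log (‖f (pt s θ)‖ ^ 2 + 1) - max (c * pt s θ).re 0|
        ≤ ∫ θ in (-π)..(-π + 2 * π), ((∑ i, e i θ) + K) := by
      apply intervalIntegral.integral_mono_ae hle (hGi.sub hVi).abs hSi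
      exact hpt
    refine h2.trans (le_of_eq ?_)
    have h3 : IntervalIntegrable (fun θ => ∑ i, e i θ) volume (-π) (-π + 2 * π) := by
      have h1 := IntervalIntegrable.sum (Finset.univ : Finset (Fin n)) (f := e) (fun i _ => hei i)
      have h2 : (fun θ => ∑ i, e i θ) = ∑ i, e i := by
        ext θ
        rw [Finset.sum_apply]
      rw [h2]
      exact h1
    rw [intervalIntegral.integral_add h3 (by simp),
      intervalIntegral.integral_finsetSum (fun i _ => hei i), intervalIntegral.integral_const,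
      smul_eq_mul]
    ring
  -- the single integrals
  have hone : ∀ i, ∫ θ in (-π)..(-π + 2 * π), e i θ
      ≤ (if s < x i then 150 * exp (2 * (s - x i)) else 0)
        + (2 * π * max (s - x i) 0 + if x i ≤ s then 4 * π else 0) := by
    intro i
    by_cases hx : s < x i
    · have h1 : ∀ θ, e i θ = |ell (s - x i) (θ - y i) + exp (s - x i) * cos (θ - y i)| := by
        intro θ; rw [he]; simp only [if_pos hx]
      simp_rw [h1]
      rw [intervalIntegral.integral_comp_sub_right
        (fun β => |ell (s - x i) β + exp (s - x i) * cos β|) (y i)]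
      have h2 : -π + 2 * π - y i = (-π - y i) + 2 * π := by ring
      rw [h2, if_pos hx, if_neg (not_le.mpr hx)]
      have h3 := int_ell_add_le (τ := s - x i) (by linarith) (-π - y i)
      have h4 : 0 ≤ 2 * π * max (s - x i) 0 := by positivity
      linarith
    · have h1 : ∀ θ, e i θ = |ell (s - x i) (θ - y i)| := by
        intro θ; rw [he]; simp only [if_neg hx]
      simp_rw [h1]
      rw [intervalIntegral.integral_comp_sub_right (fun β => |ell (s - x i) β|) (y i)]
      have h2 : -π + 2 * π - y i = (-π - y i) + 2 * π := by ring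
      rw [h2, if_neg hx, if_pos (not_lt.mp hx)]
      have h3 := int_abs_ell_le (s - x i) (-π - y i)
      have h4 : exp (-|s - x i|) ≤ 1 := exp_le_one_iff.mpr (by simp)
      have h5 : 4 * π * exp (-|s - x i|) ≤ 4 * π * 1 := mul_le_mul_of_nonneg_left h4 (by positivity)
      linarith
  have hsum : ∑ i, ∫ θ in (-π)..(-π + 2 * π), e i θ
      ≤ 150 * (100 * σ * exp t * TB) + (σ * (9 * exp t * TB) + 4 * π * (11 * σ * exp t * TB)) := by
    refine (Finset.sum_le_sum fun i _ => hone i).trans ?_
    rw [Finset.sum_add_distrib, Finset.sum_add_distrib]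
    refine add_le_add ?_ (add_le_add ?_ ?_)
    · have h1 := sum_far1 hW hD.fac ht (by linarith : t ≤ R)
      have h2 : (∑ i, if s < x i then 150 * exp (2 * (s - x i)) else 0)
          = 150 * (exp t * ∑ i ∈ Finset.univ.filter (fun i => b + t < x i),
              exp (-(x i - b)) * exp (-(x i - b - t))) := by
        rw [← Finset.sum_filter, Finset.mul_sum, Finset.mul_sum]
        apply Finset.sum_congr rfl
        intro i _
        rw [← Real.exp_add, ← Real.exp_add]
        congr 2
        rw [hs]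
        ring
      rw [h2]
      have h3 := mul_le_mul_of_nonneg_left h1 (exp_pos t).le
      nlinarith
    · have h1 := TN_fac hD.fac hsS
      rw [← Finset.mul_sum, ← h1]
      have h2 := hW.ze t ht (by linarith)
      have h3 := hW.gr t ht (by linarith)
      exact h2.trans (mul_le_mul_of_nonneg_left h3 hW.hσ.le)
    · rw [← Finset.sum_filter, Finset.sum_const, nsmul_eq_mul, mul_comm]
      exact mul_le_mul_of_nonneg_left (cnt hW hD.fac ht (by linarith)) (by positivity)
  -- constants
  have hb := hW.big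
  have hE1 : exp (2 * t - R) ≤ exp (-(R / 2)) * exp t := by
    rw [← Real.exp_add]
    apply exp_le_exp.mpr
    linarith
  have hE2 : 1 ≤ exp (-(R / 2)) * exp t * TB := by
    have h1 : exp (-R) * TB ≥ 1 := by
      have h2 := mul_le_mul_of_nonneg_left hb (exp_pos (-R)).le
      rw [← Real.exp_add, neg_add_cancel, Real.exp_zero] at h2
      exact h2
    have h2 : exp (-R) ≤ exp (-(R / 2)) * exp t := by
      rw [← Real.exp_add]
      apply exp_le_exp.mpr
      linarith
    have h3 := mul_le_mul_of_nonneg_right h2 hTB0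
    linarith
  have hpi : π ≤ 3.15 := by linarith [pi_lt_d2]
  have hlog2 : log 2 ≤ 0.7 := by linarith [Real.log_two_lt_d9]
  have hlog0 : 0 ≤ log 2 := (Real.log_pos (by norm_num)).le
  set Q := exp (-(R / 2)) * exp t * TB with hQ
  set P := σ * exp t * TB with hP
  have hP0 : 0 ≤ P := by have := hW.hσ; positivity
  have hQ0 : 0 ≤ Q := by positivity
  have hK' : 2 * π * K ≤ 400 * Q := by
    have h1 : 60 * exp (2 * t - R) * TB ≤ 60 * Q := by
      have h2 := mul_le_mul_of_nonneg_right hE1 hTB0
      rw [hQ]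
      linarith
    have h2 : K ≤ 60 * Q + 0.35 * Q := by
      rw [hK]
      nlinarith
    have h3 : 2 * π * K ≤ 2 * π * (60 * Q + 0.35 * Q) :=
      mul_le_mul_of_nonneg_left h2 (by positivity)
    nlinarith [mul_nonneg (sub_nonneg.mpr hpi) hQ0]
  have hfin : 4 * π * (11 * σ * exp t * TB) ≤ 140 * P := by
    have h1 : 4 * π * (11 * σ * exp t * TB) = 44 * π * P := by rw [hP]; ring
    rw [h1]
    nlinarith [mul_nonneg (sub_nonneg.mpr hpi) hP0]
  have hgoal : 16000 * (σ + exp (-(R / 2))) * exp t * TB = 16000 * P + 16000 * Q := by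
    rw [hP, hQ]; ring
  rw [hgoal]
  have hA1 : 150 * (100 * σ * exp t * TB) = 15000 * P := by rw [hP]; ring
  have hA2 : σ * (9 * exp t * TB) = 9 * P := by rw [hP]; ring
  rw [hA1, hA2] at hsum
  linarith

end Pool.Agent.TX1
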