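import Pool.Agent.TX1.FacEx
import Pool.Agent.TX1.LogInt

/-!
# TX1, module Jens: `log |f|` and `TN` through the factorisation

* `log_formula`: `1 - pt s θ / pt (x i) (y i) = 1 - pt (s - x i) (θ - y i) ≠ 0` for `s ≠ x i`.
* `TN_fac`: integrate (`ell_int`, mean value property of `Re h`, `h 0 = 0`); at the radii `s = x i` the formula for `log |f|` still holds
  for all but finitely many `θ` (a.e. is enough for the integral).
* `TN_nonneg`, `TN_mono`, `TN_cont`: from `exists_fac` with `S` large and `TN_fac` (a finite sum of `max (s - x i) 0`).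
* `TN_le_TM`: `log ‖w‖ ≤ ½ log (‖w‖² + 1)` (`Fe f 1 s t = f (pt s t)`), `log |f|` is integrable on circles.
* `TM_mono`, `TM_cont`, `TM_nonneg`: library `MML` (`mN_Ue_mono`, `mainG_cont`, `mainG_nonneg`).
-/

set_option autoImplicit false

namespace Pool.Agent.TX1

open Real MeasureTheory Set Filter Topology

theorem TM_mono {f : ℂ → ℂ} (hf : Differentiable ℂ f) : Monotone (TM f) :=
  Pool.Agent.MML.mN_Ue_mono hf one_pos one_pos

theorem TM_cont {f : ℂ → ℂ} (hf : Differentiable ℂ f) : Continuous (TM f) :=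
  Pool.Agent.MML.mainG_cont hf one_pos

theorem TM_nonneg (f : ℂ → ℂ) (s : ℝ) : 0 ≤ TM f s :=
  Pool.Agent.MML.mainG_nonneg one_pos s

/-- `TM` as an integral of `½ log (|f|² + 1)` over any period -/
theorem TM_eq (f : ℂ → ℂ) (s a : ℝ) :
    TM f s = ∫ θ in a..(a + 2 * π), 1 / 2 * log (‖f (pt s θ)‖ ^ 2 + 1) := by
  have hp : Function.Periodic (fun θ => 1 / 2 * log (‖f (pt s θ)‖ ^ 2 + 1)) (2 * π) := by
    intro θ
    show 1 / 2 * log (‖f (pt s (θ + 2 * π))‖ ^ 2 + 1) = 1 / 2 * log (‖f (pt s θ)‖ ^ 2 + 1)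
    rw [li_per]
  rw [hp.intervalIntegral_add_eq a (-π)]
  unfold TM Pool.Agent.MML.mN
  rw [mul_one, show -π + 2 * π = π by ring]
  apply intervalIntegral.integral_congr
  intro θ _
  show Pool.Agent.MML.Ue f 1 1 s θ = 1 / 2 * log (‖f (pt s θ)‖ ^ 2 + 1)
  unfold Pool.Agent.MML.Ue
  rw [li_Fe, one_pow]

/-- the formula at a point where no factor vanishes -/
theorem jens_formula {f : ℂ → ℂ} {S : ℝ} {n : ℕ} {x y : Fin n → ℝ} {h : ℂ → ℂ} (hF : Fac f S n x y h)
    {s : ℝ} (hs : s ≤ S) (θ : ℝ) (hne : ∀ i, (1 : ℂ) - pt s θ / pt (x i) (y i) ≠ 0) :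
    f (pt s θ) ≠ 0 ∧ log ‖f (pt s θ)‖ = (∑ i, ell (s - x i) (θ - y i)) + (h (pt s θ)).re := by
  have hz : ‖pt s θ‖ ≤ exp S := by
    rw [pt_norm]
    exact exp_le_exp.2 hs
  have h1 := hF.hf (pt s θ) hz
  have h2 : (∏ i, (1 - pt s θ / pt (x i) (y i))) ≠ 0 :=
    Finset.prod_ne_zero_iff.2 (fun i _ => hne i)
  refine ⟨by rw [h1]; exact mul_ne_zero h2 (Complex.exp_ne_zero _), ?_⟩
  rw [h1, norm_mul, Complex.norm_exp, Real.log_mul (norm_ne_zero_iff.2 h2) (exp_pos _).ne',
    Real.log_exp, norm_prod, Real.log_prod (fun i _ => norm_ne_zero_iff.2 (hne i))]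
  congr 1
  apply Finset.sum_congr rfl
  intro i _
  rw [pt_div]
  rfl

theorem log_formula {f : ℂ → ℂ} {S : ℝ} {n : ℕ} {x y : Fin n → ℝ} {h : ℂ → ℂ} (hF : Fac f S n x y h)
    {s : ℝ} (hs : s ≤ S) (hne : ∀ i, s ≠ x i) (θ : ℝ) :
    f (pt s θ) ≠ 0 ∧ log ‖f (pt s θ)‖ = (∑ i, ell (s - x i) (θ - y i)) + (h (pt s θ)).re := by
  apply jens_formula hF hs θ
  intro i
  rw [pt_div]
  exact norm_ne_zero_iff.1 (one_sub_pt_ne (sub_ne_zero.2 (hne i)) _)

theorem jens_h_cont {f : ℂ → ℂ} {S : ℝ} {n : ℕ} {x y : Fin n → ℝ} {h : ℂ → ℂ} (hF : Fac f S n x y h)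
    {s : ℝ} (hs : s ≤ S) : Continuous (fun θ => (h (pt s θ)).re) := by
  obtain ⟨ρ, hρ, hd⟩ := hF.hd
  have h1 : Continuous (fun θ => h (pt s θ)) := by
    refine hd.continuousOn.comp_continuous (li_cont s) (fun θ => ?_)
    rw [Metric.mem_ball, dist_zero_right, pt_norm]
    exact lt_of_le_of_lt (exp_le_exp.2 hs) hρ
  exact Complex.continuous_re.comp h1

theorem jens_h_int {f : ℂ → ℂ} {S : ℝ} {n : ℕ} {x y : Fin n → ℝ} {h : ℂ → ℂ} (hF : Fac f S n x y h)
    {s : ℝ} (hs : s ≤ S) : ∫ θ in (-π)..π, (h (pt s θ)).re = 0 := by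
  obtain ⟨ρ, hρ, hd⟩ := hF.hd
  have hsub : Metric.closedBall (0 : ℂ) |exp s| ⊆ Metric.ball 0 ρ := by
    apply Metric.closedBall_subset_ball
    rw [abs_of_pos (exp_pos s)]
    exact lt_of_le_of_lt (exp_le_exp.2 hs) hρ
  have hdc : DiffContOnCl ℂ h (Metric.ball 0 |exp s|) := by
    apply DifferentiableOn.diffContOnCl
    apply hd.mono
    refine subset_trans ?_ hsub
    exact Metric.closure_ball_subset_closedBall
  have h1 := hdc.circleAverage
  rw [hF.h0, Real.circleAverage_def] at h1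
  have h2 : ∫ θ in (0 : ℝ)..(2 * π), h (circleMap 0 (exp s) θ) = 0 := by
    rcases smul_eq_zero.1 h1 with h3 | h3
    · exact absurd h3 (by positivity)
    · exact h3
  have hp : Function.Periodic (fun θ => (h (pt s θ)).re) (2 * π) := by
    intro θ
    show (h (pt s (θ + 2 * π))).re = (h (pt s θ)).re
    rw [li_per]
  have h3 := hp.intervalIntegral_add_eq (-π) 0
  rw [show -π + 2 * π = π by ring, zero_add] at h3
  rw [h3]
  have hc : Continuous (fun θ => h (pt s θ)) := by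
    refine hd.continuousOn.comp_continuous (li_cont s) (fun θ => ?_)
    rw [Metric.mem_ball, dist_zero_right, pt_norm]
    exact lt_of_le_of_lt (exp_le_exp.2 hs) hρ
  have h4 := Complex.reCLM.intervalIntegral_comp_comm (hc.intervalIntegrable (μ := volume) 0 (2 * π))
  have h5 : ∫ θ in (0 : ℝ)..(2 * π), h (pt s θ) = 0 := by
    rw [← h2]
    apply intervalIntegral.integral_congr
    intro θ _
    show h (pt s θ) = h (circleMap 0 (exp s) θ)
    rw [li_circle]
  rw [h5] at h4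
  simpa using h4

theorem TN_fac {f : ℂ → ℂ} {S : ℝ} {n : ℕ} {x y : Fin n → ℝ} {h : ℂ → ℂ} (hF : Fac f S n x y h)
    {s : ℝ} (hs : s ≤ S) : TN f s = 2 * π * ∑ i, max (s - x i) 0 := by
  have hae : ∀ᵐ θ ∂(volume : Measure ℝ), ∀ i, (1 : ℂ) - pt s θ / pt (x i) (y i) ≠ 0 := by
    rw [ae_all_iff]
    intro i
    exact li_ae (f := fun z => 1 - z / pt (x i) (y i)) (by fun_prop) ⟨0, by simp⟩ s
  have h1 : TN f s = ∫ θ in (-π)..π, ((∑ i, ell (s - x i) (θ - y i)) + (h (pt s θ)).re) := by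
    unfold TN
    apply intervalIntegral.integral_congr_ae
    filter_upwards [hae] with θ hθ _
    exact (jens_formula hF hs θ hθ).2
  have hi : ∀ i, IntervalIntegrable (fun θ => ell (s - x i) (θ - y i)) volume (-π) π := by
    intro i
    have := (ell_ii (s - x i) (-π - y i) (π - y i)).comp_sub_right (y i)
    simpa using this
  rw [h1, intervalIntegral.integral_add, jens_h_int hF hs, add_zero,
    intervalIntegral.integral_finsetSum (fun i _ => hi i), Finset.mul_sum]
  · apply Finset.sum_congr rfl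
    intro i _
    rw [intervalIntegral.integral_comp_sub_right (fun θ => ell (s - x i) θ) (y i),
      show π - y i = (-π - y i) + 2 * π by ring, ell_int]
  · have := IntervalIntegrable.sum Finset.univ (fun i _ => hi i)
    simpa [Finset.sum_fn] using this
  · exact (jens_h_cont hF hs).intervalIntegrable _ _

theorem TN_nonneg {f : ℂ → ℂ} (hf : Differentiable ℂ f) (h0 : f 0 = 1) (s : ℝ) : 0 ≤ TN f s := by
  obtain ⟨n, x, y, h, hF⟩ := exists_fac hf h0 s
  rw [TN_fac hF le_rfl]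
  have := pi_pos
  exact mul_nonneg (by positivity) (Finset.sum_nonneg (fun i _ => le_max_right _ _))

theorem TN_mono {f : ℂ → ℂ} (hf : Differentiable ℂ f) (h0 : f 0 = 1) : Monotone (TN f) := by
  intro s t hst
  obtain ⟨n, x, y, h, hF⟩ := exists_fac hf h0 t
  rw [TN_fac hF le_rfl, TN_fac hF hst]
  have := pi_pos
  refine mul_le_mul_of_nonneg_left (Finset.sum_le_sum (fun i _ => ?_)) (by positivity)
  exact max_le_max (by linarith) le_rfl

theorem TN_cont {f : ℂ → ℂ} (hf : Differentiable ℂ f) (h0 : f 0 = 1) : Continuous (TN f) := by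
  rw [continuous_iff_continuousAt]
  intro s
  obtain ⟨n, x, y, h, hF⟩ := exists_fac hf h0 (s + 1)
  have h1 : ContinuousAt (fun t => 2 * π * ∑ i, max (t - x i) 0) s := by
    apply Continuous.continuousAt
    fun_prop
  refine h1.congr ?_
  filter_upwards [Iio_mem_nhds (show s < s + 1 by linarith)] with t ht
  exact (TN_fac hF (le_of_lt ht)).symm

theorem TN_le_TM {f : ℂ → ℂ} (hf : Differentiable ℂ f) (h0 : f 0 = 1) (s : ℝ) : TN f s ≤ TM f s :=
  TN_le_mN hf one_pos s (li_ae hf ⟨0, by simp [h0]⟩ s)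

theorem jens_pointwise {w : ℝ} (hw : 0 ≤ w) : |log w| ≤ 2 * (1 / 2 * log (w ^ 2 + 1)) - log w := by
  have h0 : 0 ≤ log (w ^ 2 + 1) := log_nonneg (by nlinarith)
  rcases le_total 0 (log w) with h | h
  · rw [abs_of_nonneg h]
    rcases hw.eq_or_lt with h1 | h1
    · rw [← h1] at h ⊢
      simp
    · have h2 : log (w ^ 2) ≤ log (w ^ 2 + 1) := log_le_log (by positivity) (by linarith)
      rw [log_pow] at h2
      push_cast at h2
      linarith
  · rw [abs_of_nonpos h]
    linarith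

/-- `∫ |log |f|| ≤ 2 TM - TN` -/
theorem abs_log_int {f : ℂ → ℂ} (hf : Differentiable ℂ f) (h0 : f 0 = 1) (s : ℝ) :
    ∫ θ in (-π)..π, |log ‖f (pt s θ)‖| ≤ 2 * TM f s - TN f s := by
  have hc : Continuous (fun θ => 1 / 2 * log (‖f (pt s θ)‖ ^ 2 + 1)) := by
    have h1 : Continuous (fun θ => ‖f (pt s θ)‖ ^ 2 + 1) :=
      ((hf.continuous.comp (li_cont s)).norm.pow 2).add continuous_const
    exact continuous_const.mul (h1.log (fun θ => by positivity))
  have h1 := TM_eq f s (-π)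
  rw [show -π + 2 * π = π by ring] at h1
  rw [h1]
  unfold TN
  have hc2 : IntervalIntegrable (fun θ => 2 * (1 / 2 * log (‖f (pt s θ)‖ ^ 2 + 1))) volume (-π) π :=
    (continuous_const.mul hc).intervalIntegrable _ _
  rw [← intervalIntegral.integral_const_mul, ← intervalIntegral.integral_sub hc2 (log_ii hf s _ _)]
  apply intervalIntegral.integral_mono_on (by linarith [pi_pos]) (log_ii hf s _ _).abs
    (hc2.sub (log_ii hf s _ _))
  intro θ _
  exact jens_pointwise (norm_nonneg _)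

theorem count {f : ℂ → ℂ} {S : ℝ} {n : ℕ} {x y : Fin n → ℝ} {h : ℂ → ℂ} (hF : Fac f S n x y h)
    {s : ℝ} (hs : s + 1 ≤ S) :
    2 * π * ((Finset.univ.filter (fun i => x i ≤ s)).card : ℝ) ≤ TN f (s + 1) := by
  rw [TN_fac hF hs]
  have := pi_pos
  refine mul_le_mul_of_nonneg_left ?_ (by positivity)
  calc ((Finset.univ.filter (fun i => x i ≤ s)).card : ℝ)
      = ∑ i ∈ Finset.univ.filter (fun i => x i ≤ s), (1 : ℝ) := by simp
    _ ≤ ∑ i ∈ Finset.univ.filter (fun i => x i ≤ s), max (s + 1 - x i) 0 := by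
        apply Finset.sum_le_sum
        intro i hi
        have h1 : x i ≤ s := (Finset.mem_filter.1 hi).2
        exact le_max_of_le_left (by linarith)
    _ ≤ ∑ i, max (s + 1 - x i) 0 :=
        Finset.sum_le_sum_of_subset_of_nonneg (Finset.filter_subset _ _)
          (fun i _ _ => le_max_right _ _)

end Pool.Agent.TX1
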