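import Pool.Agent.TX1.Defs

/-!
# TX1, module GInt: the function `GG` and its integrals

`GG x = 2 g (exp (-x))`, `g r = -log (1-r) - r + r^3/9 = ∑_{k≥2} r^k/k + r^3/9`.
* `GG_int_neg` (`a ≥ 1`): it is enough to treat `a = 1` (`exp (-(a x)) ≤ exp (-x)`); `∫_0^∞ exp (-x) GG x dx = 2 ∫_0^1 g r dr = 2(1/2 + 1/36)`
  (antiderivative in `x` for `a = 1`: with `r = exp (-x)`, `-2[(1-r) log (1-r) + r - r^2/2 + r^4/36]`).
* `GG_int_pos` (`a ≤ 11/10`): `∫_0^1 g(r) r^{-2} (r^{-1/10} - 10/9) dr ≤ 0` since `g(r) r^{-2}` is increasing.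
* `GG_tail`: antiderivative of `exp x * GG x`.
-/

set_option autoImplicit false

namespace Pool.Agent.TX1

open Real MeasureTheory Set Filter Topology

theorem gint_exp_lt {x : ℝ} (hx : 0 < x) : exp (-x) < 1 := by
  rw [Real.exp_lt_one_iff]
  linarith

theorem gint_exp3 (x : ℝ) : exp (-(3 * x)) = exp (-x) ^ 3 := by
  rw [← Real.exp_nat_mul]
  congr 1
  push_cast
  ring

theorem GG_eq (x : ℝ) : GG x = 2 * (-log (1 - exp (-x)) - exp (-x) + exp (-x) ^ 3 / 9) := by
  unfold GG
  rw [gint_exp3]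

theorem GG_nonneg {x : ℝ} (hx : 0 < x) : 0 ≤ GG x := by
  have h1 := gint_exp_lt hx
  have h2 := Real.log_le_sub_one_of_pos (show 0 < 1 - exp (-x) by linarith)
  have h3 := Real.exp_pos (-x)
  rw [GG_eq]
  have h4 : 0 ≤ exp (-x) ^ 3 / 9 := by positivity
  linarith

theorem GG_anti : AntitoneOn GG (Ioi 0) := by
  intro x hx y hy hxy
  rw [mem_Ioi] at hx hy
  rw [GG_eq, GG_eq]
  have hr := gint_exp_lt hx
  have hs := gint_exp_lt hy
  have hsr : exp (-y) ≤ exp (-x) := Real.exp_le_exp.2 (by linarith)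
  have hs0 := Real.exp_pos (-y)
  have h1 : log (1 - exp (-x)) - log (1 - exp (-y)) ≤ exp (-y) - exp (-x) := by
    rw [← Real.log_div (by linarith) (by linarith)]
    refine (Real.log_le_sub_one_of_pos (div_pos (by linarith) (by linarith))).trans ?_
    have h2 : (1 - exp (-x)) / (1 - exp (-y)) ≤ 1 + (exp (-y) - exp (-x)) := by
      rw [div_le_iff₀ (by linarith)]
      nlinarith
    linarith
  have h3 : exp (-y) ^ 3 ≤ exp (-x) ^ 3 := pow_le_pow_left₀ hs0.le hsr 3
  linarith

theorem GG_le {x : ℝ} (hx : 1 ≤ x) : GG x ≤ 3 * exp (-(2 * x)) := by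
  have h0 : exp (-(2 * x)) = exp (-x) ^ 2 := by
    rw [← Real.exp_nat_mul]
    congr 1
    push_cast
    ring
  rw [h0, GG_eq]
  obtain ⟨r, hr⟩ : ∃ r, r = exp (-x) := ⟨_, rfl⟩
  rw [← hr]
  have hr0 : 0 < r := hr ▸ Real.exp_pos _
  have hr1 : r ≤ 37 / 100 := by
    have h1 : exp (-x) ≤ exp (-1) := Real.exp_le_exp.2 (by linarith)
    have h2 := Real.exp_neg_one_lt_d9
    rw [hr]
    linarith
  have h3 := Real.abs_log_sub_add_sum_range_le (show |r| < 1 by rw [abs_of_pos hr0]; linarith) 2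
  rw [abs_of_pos hr0] at h3
  have h4 := (abs_le.1 h3).1
  simp only [Finset.sum_range_succ, Finset.sum_range_zero] at h4
  norm_num at h4
  have h5 : r ^ 3 / (1 - r) ≤ (37 / 63) * r ^ 2 := by
    rw [div_le_iff₀ (by linarith)]
    have : 0 ≤ r ^ 2 := by positivity
    nlinarith
  have h6 : r ^ 3 ≤ r ^ 2 := by nlinarith [sq_nonneg r]
  nlinarith [sq_nonneg r]

theorem GG_contOn : ContinuousOn GG (Ioi 0) := by
  unfold GG
  have h1 : ContinuousOn (fun x : ℝ => log (1 - exp (-x))) (Ioi 0) := by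
    refine ContinuousOn.log (by fun_prop) fun x hx => ?_
    have := gint_exp_lt hx
    linarith
  fun_prop

theorem gint_log_ii (z y : ℝ) : IntervalIntegrable (fun x => log (1 - exp (-x))) volume z y := by
  have h1 : MeromorphicOn (fun x : ℝ => 1 - exp (-x)) (uIcc z y) := by
    intro x _
    refine AnalyticAt.meromorphicAt ?_
    fun_prop
  have h2 := h1.intervalIntegrable_log_norm
  simpa only [Real.norm_eq_abs, Real.log_abs] using h2

theorem GG_ii (a z y : ℝ) (hz : 0 ≤ z) (hy : z ≤ y) : IntervalIntegrable (fun x => exp (a * x) * GG x) volume z y := by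
  have h1 : IntervalIntegrable GG volume z y := by
    have h2 : Continuous fun x : ℝ => exp (-x) := by fun_prop
    have h3 : Continuous fun x : ℝ => exp (-(3 * x)) / 9 := by fun_prop
    exact (((gint_log_ii z y).neg.sub (h2.intervalIntegrable z y)).add
      (h3.intervalIntegrable z y)).const_mul 2
  have h4 : Continuous fun x : ℝ => exp (a * x) := by fun_prop
  exact h1.continuousOn_mul h4.continuousOn

/-- `log t ≥ (t - 1/t)/2` for `t ≤ 1` -/
theorem gint_log {t : ℝ} (h0 : 0 < t) (h1 : t ≤ 1) : 0 ≤ 1 / t - t + 2 * log t := by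
  have hd : ∀ x ∈ Ioi (0 : ℝ), HasDerivAt (fun x : ℝ => x⁻¹ - x + 2 * log x) (-(x⁻¹ - 1) ^ 2) x := by
    intro x hx
    have hx0 : x ≠ 0 := (mem_Ioi.1 hx).ne'
    have h := ((hasDerivAt_inv hx0).sub (hasDerivAt_id x)).add ((Real.hasDerivAt_log hx0).const_mul 2)
    refine h.congr_deriv ?_
    rw [← inv_pow]
    ring
  have hanti : AntitoneOn (fun x : ℝ => x⁻¹ - x + 2 * log x) (Ioi 0) := by
    refine antitoneOn_of_deriv_nonpos (convex_Ioi 0) ?_ ?_ ?_
    · exact fun x hx => (hd x hx).continuousAt.continuousWithinAt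
    · rw [interior_Ioi]
      exact fun x hx => (hd x hx).differentiableAt.differentiableWithinAt
    · rw [interior_Ioi]
      intro x hx
      rw [(hd x hx).deriv]
      have := sq_nonneg (x⁻¹ - 1)
      linarith
  have h := hanti (mem_Ioi.2 h0) (mem_Ioi.2 one_pos) h1
  simp only [Real.log_one] at h
  rw [one_div]
  linarith

theorem gint_log' {t : ℝ} (h0 : 0 ≤ t) (h1 : t ≤ 1) : 0 ≤ t * log t + 1 / 2 - t ^ 2 / 2 := by
  rcases h0.eq_or_lt with rfl | h0
  · norm_num
  · have h := gint_log h0 h1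
    have h2 : t * log t + 1 / 2 - t ^ 2 / 2 = t / 2 * (1 / t - t + 2 * log t) := by
      field_simp
      ring
    rw [h2]
    positivity

theorem gint_one_exp (x : ℝ) (hx : 0 < x) : HasDerivAt (fun x : ℝ => log (1 - exp (-x)))
    (exp (-x) / (1 - exp (-x))) x := by
  have h1 := gint_exp_lt hx
  have h2 : HasDerivAt (fun x : ℝ => exp (-x)) (-exp (-x)) x := by
    have := (hasDerivAt_neg x).exp
    simpa using this
  have h3 : HasDerivAt (fun x : ℝ => 1 - exp (-x)) (exp (-x)) x := by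
    have := h2.const_sub 1
    simpa using this
  exact h3.log (by linarith)

theorem gint_exp_neg (x : ℝ) : HasDerivAt (fun x : ℝ => exp (-x)) (-exp (-x)) x := by
  have := (hasDerivAt_neg x).exp
  simpa using this

theorem gint_F1 {y : ℝ} (hy : 0 ≤ y) : ∫ x in (0 : ℝ)..y, exp (-x) * GG x ≤ 19 / 18 := by
  obtain ⟨F, hF⟩ : ∃ F : ℝ → ℝ, ∀ x, F x = -2 * ((1 - exp (-x)) * log (1 - exp (-x)) + exp (-x) -
    exp (-x) ^ 2 / 2 + exp (-x) ^ 4 / 36) := ⟨_, fun _ => rfl⟩
  have hFe : F = fun x => -2 * ((1 - exp (-x)) * log (1 - exp (-x)) + exp (-x) -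
    exp (-x) ^ 2 / 2 + exp (-x) ^ 4 / 36) := funext hF
  have hc : Continuous F := by
    rw [hFe]
    have h1 : Continuous fun x : ℝ => (1 - exp (-x)) * log (1 - exp (-x)) :=
      Real.continuous_mul_log.comp (by fun_prop : Continuous fun x : ℝ => 1 - exp (-x))
    fun_prop
  have hd : ∀ x ∈ Ioo 0 y, HasDerivAt F (exp (-x) * GG x) x := by
    intro x hx
    have hlt := gint_exp_lt hx.1
    have h2 := gint_exp_neg x
    have h3 : HasDerivAt (fun x : ℝ => 1 - exp (-x)) (exp (-x)) x := by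
      have := h2.const_sub 1
      simpa using this
    have h4 := ((((h3.mul (gint_one_exp x hx.1)).add h2).sub ((h2.pow 2).div_const 2)).add
      ((h2.pow 4).div_const 36)).const_mul (-2)
    rw [hFe]
    refine h4.congr_deriv ?_
    rw [GG_eq]
    have hne : 1 - exp (-x) ≠ 0 := by linarith
    field_simp
    push_cast
    ring
  have hint : IntervalIntegrable (fun x => exp (-x) * GG x) volume 0 y := by
    have := GG_ii (-1) 0 y le_rfl hy
    simpa using this
  rw [intervalIntegral.integral_eq_sub_of_hasDerivAt_of_le hy hc.continuousOn hd hint, hF, hF]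
  have hr0 := Real.exp_pos (-y)
  have hr1 : exp (-y) ≤ 1 := by
    rw [Real.exp_le_one_iff]
    linarith
  have h5 := gint_log' (show 0 ≤ 1 - exp (-y) by linarith) (by linarith)
  have h6 : 0 ≤ exp (-y) ^ 4 / 36 := by positivity
  simp only [neg_zero, Real.exp_zero, sub_self, zero_mul]
  nlinarith

theorem GG_int_neg {a y : ℝ} (ha : 1 ≤ a) (hy : 0 ≤ y) :
    ∫ x in (0 : ℝ)..y, exp (-(a * x)) * GG x ≤ 53 / 50 := by
  have h1 : ∫ x in (0 : ℝ)..y, exp (-(a * x)) * GG x ≤ ∫ x in (0 : ℝ)..y, exp (-x) * GG x := by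
    refine intervalIntegral.integral_mono_on_of_le_Ioo hy ?_ ?_ fun x hx => ?_
    · have := GG_ii (-a) 0 y le_rfl hy
      simpa using this
    · have := GG_ii (-1) 0 y le_rfl hy
      simpa using this
    · refine mul_le_mul_of_nonneg_right (Real.exp_le_exp.2 ?_) (GG_nonneg hx.1)
      nlinarith [hx.1]
  have h2 := gint_F1 hy
  linarith

/-- antiderivative of `exp x * GG x` -/
noncomputable def gF (x : ℝ) : ℝ := -2 * ((exp x - 1) * log (1 - exp (-x)) + exp (-x) ^ 2 / 18)

theorem gF_cont : Continuous gF := by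
  have h1 : (fun x : ℝ => (exp x - 1) * log (1 - exp (-x))) =
      fun x : ℝ => exp x * ((1 - exp (-x)) * log (1 - exp (-x))) := by
    funext x
    have h2 : exp x * exp (-x) = 1 := by rw [← Real.exp_add]; simp
    have h3 : exp x - 1 = exp x * (1 - exp (-x)) := by rw [mul_sub, h2, mul_one]
    rw [h3, mul_assoc]
  have h2 : Continuous fun x : ℝ => (exp x - 1) * log (1 - exp (-x)) := by
    rw [h1]
    have h1 : Continuous fun x : ℝ => (1 - exp (-x)) * log (1 - exp (-x)) :=
      Real.continuous_mul_log.comp (by fun_prop : Continuous fun x : ℝ => 1 - exp (-x))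
    exact Real.continuous_exp.mul h1
  unfold gF
  fun_prop

theorem gF_deriv {x : ℝ} (hx : 0 < x) : HasDerivAt gF (exp x * GG x) x := by
  have hlt := gint_exp_lt hx
  have h2 := gint_exp_neg x
  have h4 := ((((Real.hasDerivAt_exp x).sub_const 1).mul (gint_one_exp x hx)).add
    ((h2.pow 2).div_const 18)).const_mul (-2)
  have h5 : exp x * exp (-x) = 1 := by rw [← Real.exp_add]; simp
  unfold gF
  refine h4.congr_deriv ?_
  rw [GG_eq]
  have hne : 1 - exp (-x) ≠ 0 := by linarith
  have h6 : (exp x - 1) * (exp (-x) / (1 - exp (-x))) = 1 := by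
    rw [mul_div_assoc', div_eq_one_iff_eq hne, sub_mul, h5, one_mul]
  rw [h6]
  push_cast
  have e1 : exp x * (2 * (-log (1 - exp (-x)) - exp (-x) + exp (-x) ^ 3 / 9)) =
    -2 * exp x * log (1 - exp (-x)) - 2 * (exp x * exp (-x)) +
      2 / 9 * (exp x * exp (-x)) * exp (-x) ^ 2 := by ring
  rw [e1, h5]
  ring

theorem gF_int {z y : ℝ} (hz : 0 ≤ z) (hy : z ≤ y) : ∫ x in z..y, exp x * GG x = gF y - gF z := by
  refine intervalIntegral.integral_eq_sub_of_hasDerivAt_of_le hy gF_cont.continuousOn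
    (fun x hx => gF_deriv (hz.trans_lt hx.1)) ?_
  have := GG_ii 1 z y hz hy
  simpa using this

theorem gF_le {y : ℝ} (hy : 0 ≤ y) : gF y ≤ 2 := by
  unfold gF
  have h0 : 0 ≤ exp (-y) ^ 2 / 18 := by positivity
  rcases hy.eq_or_lt with rfl | hy
  · norm_num
  · have hlt := gint_exp_lt hy
    have h1 := Real.one_sub_inv_le_log_of_pos (show 0 < 1 - exp (-y) by linarith)
    have h5 : exp y * exp (-y) = 1 := by rw [← Real.exp_add]; simp
    have h6 : 1 ≤ exp y := Real.one_le_exp hy.le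
    have h7 : (exp y - 1) * (1 - (1 - exp (-y))⁻¹) = -1 := by
      have hne : 1 - exp (-y) ≠ 0 := by linarith
      have : 1 - (1 - exp (-y))⁻¹ = -exp (-y) / (1 - exp (-y)) := by
        field_simp
        ring
      rw [this, mul_div_assoc', div_eq_iff hne, mul_neg, sub_mul, h5]
      ring
    have h8 := mul_le_mul_of_nonneg_left h1 (show 0 ≤ exp y - 1 by linarith)
    rw [h7] at h8
    linarith

theorem gF_ge {z : ℝ} (hz : 0 ≤ z) : 2 - 3 * exp (-z) ≤ gF z := by
  unfold gF
  have h3 : exp (-z) ≤ 1 := by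
    rw [Real.exp_le_one_iff]
    linarith
  have h0 := Real.exp_pos (-z)
  have h2 : exp (-z) ^ 2 ≤ exp (-z) := by nlinarith
  rcases hz.eq_or_lt with rfl | hz
  · norm_num
  · have hlt := gint_exp_lt hz
    have h1 := Real.log_le_sub_one_of_pos (show 0 < 1 - exp (-z) by linarith)
    have h5 : exp z * exp (-z) = 1 := by rw [← Real.exp_add]; simp
    have h6 : 1 ≤ exp z := Real.one_le_exp hz.le
    have h8 := mul_le_mul_of_nonneg_left h1 (show 0 ≤ exp z - 1 by linarith)
    have h9 : (exp z - 1) * (1 - exp (-z) - 1) = -1 + exp (-z) := by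
      have : (exp z - 1) * (1 - exp (-z) - 1) = -(exp z * exp (-z)) + exp (-z) := by ring
      rw [this, h5]
    rw [h9] at h8
    linarith

theorem gint_K_anti : AntitoneOn (fun x => exp (2 * x) * GG x) (Ioi 0) := by
  have hk : MonotoneOn (fun r : ℝ => -(log (1 - r) + r) / r ^ 2) (Ioo 0 1) := by
    have hd : ∀ r ∈ Ioo (0 : ℝ) 1, HasDerivAt (fun r : ℝ => -(log (1 - r) + r) / r ^ 2)
        ((1 / (1 - r) - (1 - r) + 2 * log (1 - r)) / r ^ 3) r := by
      intro r hr
      have h1 : HasDerivAt (fun r : ℝ => 1 - r) (-1) r := by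
        have := (hasDerivAt_id r).const_sub 1
        simpa using this
      have hne : 1 - r ≠ 0 := by linarith [hr.2]
      have hr0 : r ≠ 0 := by linarith [hr.1]
      have h2 := (((h1.log hne).add (hasDerivAt_id r)).neg).div (hasDerivAt_pow 2 r) (pow_ne_zero 2 hr0)
      refine h2.congr_deriv ?_
      simp only [id, Pi.add_apply, Pi.neg_apply]
      field_simp
      push_cast
      ring
    refine monotoneOn_of_deriv_nonneg (convex_Ioo 0 1) ?_ ?_ ?_
    · exact fun x hx => (hd x hx).continuousAt.continuousWithinAt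
    · rw [interior_Ioo]
      exact fun x hx => (hd x hx).differentiableAt.differentiableWithinAt
    · rw [interior_Ioo]
      intro x hx
      rw [(hd x hx).deriv]
      have h1 := gint_log (show 0 < 1 - x by linarith [hx.2]) (by linarith [hx.1])
      have := hx.1
      positivity
  have e : ∀ x : ℝ, exp (2 * x) * GG x =
      2 * (-(log (1 - exp (-x)) + exp (-x)) / exp (-x) ^ 2 + exp (-x) / 9) := by
    intro x
    rw [GG_eq]
    have h1 : exp (2 * x) = (exp (-x) ^ 2)⁻¹ := by
      rw [← Real.exp_nat_mul, ← Real.exp_neg]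
      congr 1
      push_cast
      ring
    have h0 := (Real.exp_pos (-x)).ne'
    rw [h1]
    field_simp
    ring
  intro x hx y hy hxy
  rw [mem_Ioi] at hx hy
  simp only
  rw [e, e]
  have hsr : exp (-y) ≤ exp (-x) := Real.exp_le_exp.2 (by linarith)
  have h1 := hk ⟨Real.exp_pos (-y), gint_exp_lt hy⟩ ⟨Real.exp_pos (-x), gint_exp_lt hx⟩ hsr
  simp only at h1
  linarith

theorem gint_pos_aux {y : ℝ} (hy : 0 ≤ y) :
    ∫ x in (0 : ℝ)..y, exp (11 / 10 * x) * GG x ≤ 10 / 9 * ∫ x in (0 : ℝ)..y, exp x * GG x := by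
  obtain ⟨x0, hx0⟩ : ∃ x0 : ℝ, x0 = 10 * log (10 / 9) := ⟨_, rfl⟩
  have hx0p : 0 < x0 := by
    have := Real.log_pos (show (1 : ℝ) < 10 / 9 by norm_num)
    rw [hx0]
    linarith
  have hexp : exp (x0 / 10) = 10 / 9 := by
    rw [hx0, mul_div_cancel_left₀ _ (by norm_num), Real.exp_log (by norm_num)]
  obtain ⟨K0, hK0⟩ : ∃ K0 : ℝ, K0 = exp (2 * x0) * GG x0 := ⟨_, rfl⟩
  have hK0n : 0 ≤ K0 := by
    rw [hK0]
    have := GG_nonneg hx0p
    positivity
  have i1 : IntervalIntegrable (fun x => exp (11 / 10 * x) * GG x) volume 0 y := GG_ii _ 0 y le_rfl hy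
  have i2 : IntervalIntegrable (fun x => exp x * GG x) volume 0 y := by
    have := GG_ii 1 0 y le_rfl hy
    simpa using this
  have hφc : Continuous fun x : ℝ => exp (-(9 / 10 * x)) - 10 / 9 * exp (-x) := by fun_prop
  have i3 : IntervalIntegrable (fun x : ℝ => exp (-(9 / 10 * x)) - 10 / 9 * exp (-x)) volume 0 y :=
    hφc.intervalIntegrable 0 y
  have hφ : ∫ x in (0 : ℝ)..y, (exp (-(9 / 10 * x)) - 10 / 9 * exp (-x)) ≤ 0 := by
    have hd : ∀ x ∈ uIcc 0 y, HasDerivAt (fun x : ℝ => 10 / 9 * exp (-x) - 10 / 9 * exp (-(9 / 10 * x)))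
        (exp (-(9 / 10 * x)) - 10 / 9 * exp (-x)) x := by
      intro x _
      have h1 : HasDerivAt (fun x : ℝ => -(9 / 10 * x)) (-(9 / 10)) x := by
        refine ((hasDerivAt_id x).const_mul (9 / 10)).neg.congr_deriv ?_
        ring
      refine (((gint_exp_neg x).const_mul (10 / 9)).sub ((h1.exp).const_mul (10 / 9))).congr_deriv ?_
      ring
    rw [intervalIntegral.integral_eq_sub_of_hasDerivAt hd i3]
    have h3 : exp (-y) ≤ exp (-(9 / 10 * y)) := Real.exp_le_exp.2 (by linarith)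
    simp only [mul_zero, neg_zero, Real.exp_zero]
    linarith
  have hle : ∫ x in (0 : ℝ)..y, exp (11 / 10 * x) * GG x ≤
      ∫ x in (0 : ℝ)..y, (10 / 9 * (exp x * GG x) + K0 * (exp (-(9 / 10 * x)) - 10 / 9 * exp (-x))) := by
    refine intervalIntegral.integral_mono_on_of_le_Ioo hy i1 ((i2.const_mul _).add (i3.const_mul _))
      fun x hx => ?_
    have e1 : exp (11 / 10 * x) = exp (2 * x) * exp (-(9 / 10 * x)) := by
      rw [← Real.exp_add]
      congr 1
      ring
    have e2 : exp x = exp (2 * x) * exp (-x) := by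
      rw [← Real.exp_add]
      congr 1
      ring
    have e3 : exp (-(9 / 10 * x)) = exp (-x) * exp (x / 10) := by
      rw [← Real.exp_add]
      congr 1
      ring
    have key : (exp (2 * x) * GG x - K0) * (exp (-x) * (exp (x / 10) - 10 / 9)) ≤ 0 := by
      have hpos := Real.exp_pos (-x)
      rcases le_total x x0 with h | h
      · have h1 := gint_K_anti (mem_Ioi.2 hx.1) (mem_Ioi.2 hx0p) h
        simp only at h1
        rw [← hK0] at h1
        have h2 : exp (x / 10) ≤ 10 / 9 := by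
          rw [← hexp]
          exact Real.exp_le_exp.2 (by linarith)
        refine mul_nonpos_of_nonneg_of_nonpos (by linarith) ?_
        exact mul_nonpos_of_nonneg_of_nonpos hpos.le (by linarith)
      · have h1 := gint_K_anti (mem_Ioi.2 hx0p) (mem_Ioi.2 hx.1) h
        simp only at h1
        rw [← hK0] at h1
        have h2 : 10 / 9 ≤ exp (x / 10) := by
          rw [← hexp]
          exact Real.exp_le_exp.2 (by linarith)
        refine mul_nonpos_of_nonpos_of_nonneg (by linarith) ?_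
        exact mul_nonneg hpos.le (by linarith)
    have e4 : exp (11 / 10 * x) * GG x = (exp (2 * x) * GG x - K0) * (exp (-x) * (exp (x / 10) - 10 / 9)) +
        (10 / 9 * (exp x * GG x) + K0 * (exp (-(9 / 10 * x)) - 10 / 9 * exp (-x))) := by
      rw [e1, e3]
      have : exp x * GG x = exp (2 * x) * exp (-x) * GG x := by rw [← e2]
      rw [this]
      ring
    rw [e4]
    linarith
  refine hle.trans ?_
  rw [intervalIntegral.integral_add (i2.const_mul _) (i3.const_mul _),
    intervalIntegral.integral_const_mul, intervalIntegral.integral_const_mul]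
  have := mul_nonpos_of_nonneg_of_nonpos hK0n hφ
  linarith

theorem GG_int_pos {a y : ℝ} (ha : a ≤ 11 / 10) (hy : 0 ≤ y) :
    ∫ x in (0 : ℝ)..y, exp (a * x) * GG x ≤ 47 / 20 := by
  have h1 : ∫ x in (0 : ℝ)..y, exp (a * x) * GG x ≤ ∫ x in (0 : ℝ)..y, exp (11 / 10 * x) * GG x := by
    refine intervalIntegral.integral_mono_on_of_le_Ioo hy (GG_ii _ 0 y le_rfl hy)
      (GG_ii _ 0 y le_rfl hy) fun x hx => ?_
    refine mul_le_mul_of_nonneg_right (Real.exp_le_exp.2 ?_) (GG_nonneg hx.1)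
    nlinarith [hx.1]
  have h2 := gint_pos_aux hy
  rw [gF_int le_rfl hy] at h2
  have h3 := gF_le hy
  have h4 : gF 0 = -1 / 9 := by
    unfold gF
    norm_num
  rw [h4] at h2
  linarith

theorem GG_tail {z y : ℝ} (hz : 0 ≤ z) (hy : z ≤ y) : ∫ x in z..y, exp x * GG x ≤ 10 * exp (-z) := by
  rw [gF_int hz hy]
  have h1 := gF_le (hz.trans hy)
  have h2 := gF_ge hz
  have := Real.exp_pos (-z)
  linarith

end Pool.Agent.TX1
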