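import Pool.Agent.TX1.Half
import Pool.Agent.TX1.GInt

/-!
# TX1, module Resp: integrated response of one zero at distance `x` from the left end of the window

`hl_bd` gives `hl τ ψ ≥ (π+2) max τ 0 - GG |τ|` for `τ ≠ 0`.
* behind (`x ≤ 0`): `∫_0^T exp (-at) ((π+2)(t-x) - GG (t-x))`, `GG (t-x) ≤ GG t`, `∫_0^T exp(-at) ≥ .9`, `∫_0^T t exp (-at) ≥ .82`.
* mid: part `t < x`: `- exp (-ax) ∫_0^x exp (ay) GG y dy ≥ -(47/20) exp (-ax)`; part `t > x`:
  `exp (-ax) ((π+2)(1/a² - exp (-a(T-x)) ((T-x)/a + 1/a²)) - 53/50)`.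
* far: `- exp (-ax) ∫_{x-T}^x exp (ay) GG y dy`.
* `resp_far1` (`a = 1`): the same with `GG_tail`.
-/

set_option autoImplicit false

namespace Pool.Agent.TX1

open Real MeasureTheory Set Filter Topology

/-! ### integrability -/

theorem rs_gg_ii {y : ℝ} (hy : 0 ≤ y) : IntervalIntegrable GG volume 0 y := by
  have h := GG_ii 0 0 y le_rfl hy
  simpa using h

theorem rs_ggabs_ii0 {y : ℝ} (hy : 0 ≤ y) : IntervalIntegrable (fun t => GG |t|) volume 0 y := by
  refine (rs_gg_ii hy).congr_uIoo fun t ht => ?_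
  rw [uIoo_of_le hy] at ht
  show GG t = GG |t|
  rw [abs_of_pos ht.1]

theorem rs_ggabs_ii (u v : ℝ) : IntervalIntegrable (fun t => GG |t|) volume u v := by
  have key : ∀ y : ℝ, IntervalIntegrable (fun t => GG |t|) volume 0 y := by
    intro y
    rcases le_total 0 y with h | h
    · exact rs_ggabs_ii0 h
    · have h1 := (rs_ggabs_ii0 (y := -y) (by linarith)).comp_sub_left 0
      simpa using h1
  exact (key u).symm.trans (key v)

theorem rs_ggx_ii (x u v : ℝ) : IntervalIntegrable (fun t => GG |t - x|) volume u v := by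
  have h := (rs_ggabs_ii (u - x) (v - x)).comp_sub_right x
  simpa using h

theorem rs_hl_ge {τ : ℝ} (hτ : τ ≠ 0) (ψ : ℝ) : (π + 2) * max τ 0 - GG |τ| ≤ hl τ ψ := by
  have := (abs_le.1 (hl_bd hτ ψ)).1
  linarith

theorem resp_ii (a x ψ T : ℝ) (hT : 0 ≤ T) :
    IntervalIntegrable (fun t => exp (-(a * t)) * hl (t - x) ψ) volume 0 T := by
  have hg : IntervalIntegrable (fun t => exp (-(a * t)) * ((π + 2) * |t - x| + GG |t - x|))
      volume 0 T := by
    refine IntervalIntegrable.continuousOn_mul ?_ (by fun_prop)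
    refine IntervalIntegrable.add ?_ (rs_ggx_ii x 0 T)
    exact Continuous.intervalIntegrable (by fun_prop) _ _
  refine hg.mono_fun' ?_ ?_
  · have h1 : ContinuousOn (fun t => exp (-(a * t)) * hl (t - x) ψ) {t | t ≠ x} := by
      refine ContinuousOn.mul (by fun_prop) ?_
      refine (hl_cont ψ).comp (f := fun t => t - x) (by fun_prop) ?_
      intro t ht
      exact sub_ne_zero.2 ht
    have h2 : MeasurableSet {t : ℝ | t ≠ x} := by
      have : {t : ℝ | t ≠ x} = {x}ᶜ := rfl
      rw [this]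
      exact (measurableSet_singleton x).compl
    have h3 := h1.aestronglyMeasurable (μ := volume) h2
    have h4 : (volume : Measure ℝ).restrict {t : ℝ | t ≠ x} = volume := by
      refine Measure.restrict_eq_self_of_ae_mem ?_
      rw [ae_iff]
      have : {t : ℝ | ¬ t ∈ {t : ℝ | t ≠ x}} = {x} := by
        ext t
        simp
      rw [this]
      exact Real.volume_singleton
    rw [h4] at h3
    exact h3.restrict
  · refine ae_restrict_of_ae ?_
    have hne : ∀ᵐ t : ℝ, t ≠ x := by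
      rw [ae_iff]
      have : {t : ℝ | ¬ t ≠ x} = {x} := by
        ext t
        simp
      rw [this]
      exact Real.volume_singleton
    filter_upwards [hne] with t ht
    rw [norm_mul, Real.norm_of_nonneg (exp_pos _).le, Real.norm_eq_abs]
    refine mul_le_mul_of_nonneg_left ?_ (exp_pos _).le
    have h1 := hl_bd (sub_ne_zero.2 ht) ψ
    have h2 : |hl (t - x) ψ| ≤ |(π + 2) * max (t - x) 0| + GG |t - x| := by
      have h3 : hl (t - x) ψ = (π + 2) * max (t - x) 0 + (hl (t - x) ψ - (π + 2) * max (t - x) 0) := by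
        ring
      calc |hl (t - x) ψ| = |(π + 2) * max (t - x) 0 +
            (hl (t - x) ψ - (π + 2) * max (t - x) 0)| := by rw [← h3]
        _ ≤ |(π + 2) * max (t - x) 0| + |hl (t - x) ψ - (π + 2) * max (t - x) 0| :=
            abs_add_le _ _
        _ ≤ _ := by linarith
    have hpi : (0 : ℝ) ≤ π + 2 := by linarith [Real.pi_pos]
    have h4 : |(π + 2) * max (t - x) 0| ≤ (π + 2) * |t - x| := by
      rw [abs_mul, abs_of_nonneg hpi]
      refine mul_le_mul_of_nonneg_left ?_ hpi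
      rw [abs_of_nonneg (le_max_right _ _)]
      exact max_le (le_abs_self _) (abs_nonneg _)
    linarith

/-! ### elementary integrals -/

/-- `∫_0^U exp (-ay) = (1 - exp (-aU))/a` -/
theorem rs_int_exp {a U : ℝ} (ha : 0 < a) :
    ∫ y in (0 : ℝ)..U, exp (-(a * y)) = (1 - exp (-(a * U))) / a := by
  have h : ∀ y ∈ uIcc (0 : ℝ) U, HasDerivAt (fun y => -exp (-(a * y)) / a) (exp (-(a * y))) y := by
    intro y _
    have h1 : HasDerivAt (fun y => -(a * y)) (-a) y := by
      have := (hasDerivAt_id' y).const_mul (-a)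
      simpa using this
    have h2 := (h1.exp.neg).div_const a
    have e : -(exp (-(a * y)) * -a) / a = exp (-(a * y)) := by
      field_simp
    rw [e] at h2
    exact h2
  rw [intervalIntegral.integral_eq_sub_of_hasDerivAt h
    ((by fun_prop : Continuous fun y => exp (-(a * y))).intervalIntegrable _ _)]
  rw [mul_zero, neg_zero, exp_zero]
  ring

/-- `∫_0^U y exp (-ay)` -/
theorem rs_int_yexp {a U : ℝ} (ha : 0 < a) :
    ∫ y in (0 : ℝ)..U, exp (-(a * y)) * y = 1 / a ^ 2 - exp (-(a * U)) * (U / a + 1 / a ^ 2) := by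
  have h : ∀ y ∈ uIcc (0 : ℝ) U, HasDerivAt (fun y => -(exp (-(a * y)) * (y / a + 1 / a ^ 2)))
      (exp (-(a * y)) * y) y := by
    intro y _
    have h1 : HasDerivAt (fun y => -(a * y)) (-a) y := by
      have := (hasDerivAt_id' y).const_mul (-a)
      simpa using this
    have h3 : HasDerivAt (fun y : ℝ => y / a + 1 / a ^ 2) (1 / a) y :=
      ((hasDerivAt_id y).div_const a).add_const _
    have h2 := (h1.exp.mul h3).neg
    have e : -(exp (-(a * y)) * -a * (y / a + 1 / a ^ 2) + exp (-(a * y)) * (1 / a)) =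
        exp (-(a * y)) * y := by
      field_simp
      ring
    rw [e] at h2
    exact h2
  rw [intervalIntegral.integral_eq_sub_of_hasDerivAt h
    ((by fun_prop : Continuous fun y => exp (-(a * y)) * y).intervalIntegrable _ _)]
  rw [mul_zero, neg_zero, exp_zero]
  ring

/-! ### the part to the right of the zero -/

/-- with `t = x + y` -/
theorem rs_shift (a x T : ℝ) (g : ℝ → ℝ) :
    ∫ t in x..T, exp (-(a * t)) * g (t - x) =
      exp (-(a * x)) * ∫ y in (0 : ℝ)..(T - x), exp (-(a * y)) * g y := by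
  have h := intervalIntegral.integral_comp_sub_right (a := x) (b := T)
    (fun y => exp (-(a * x)) * (exp (-(a * y)) * g y)) x
  rw [sub_self] at h
  rw [← intervalIntegral.integral_const_mul, ← h]
  refine intervalIntegral.integral_congr fun t _ => ?_
  show exp (-(a * t)) * g (t - x) = exp (-(a * x)) * (exp (-(a * (t - x))) * g (t - x))
  rw [← mul_assoc, ← exp_add]
  congr 2
  ring

/-- with `t = x - y` -/
theorem rs_refl (a x u v : ℝ) (g : ℝ → ℝ) :
    ∫ t in u..v, exp (-(a * t)) * g (x - t) =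
      exp (-(a * x)) * ∫ y in (x - v)..(x - u), exp (a * y) * g y := by
  have h := intervalIntegral.integral_comp_sub_left (a := u) (b := v)
    (fun y => exp (-(a * x)) * (exp (a * y) * g y)) x
  rw [← intervalIntegral.integral_const_mul, ← h]
  refine intervalIntegral.integral_congr fun t _ => ?_
  show exp (-(a * t)) * g (x - t) = exp (-(a * x)) * (exp (a * (x - t)) * g (x - t))
  rw [← mul_assoc, ← exp_add]
  congr 2
  ring

theorem rs_pi_lo : (5.14 : ℝ) ≤ π + 2 := by linarith [Real.pi_gt_d2]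
theorem rs_pi_hi : π + 2 ≤ (5.15 : ℝ) := by linarith [Real.pi_lt_d2]

/-- lower bound to the left of the zero -/
theorem rs_left {a x u v ψ : ℝ} (hu : u ≤ v) (hv : v ≤ x) (hu0 : 0 ≤ u) :
    -(exp (-(a * x)) * ∫ y in (x - v)..(x - u), exp (a * y) * GG y) ≤
      ∫ t in u..v, exp (-(a * t)) * hl (t - x) ψ := by
  rw [← rs_refl, ← intervalIntegral.integral_neg]
  have hsub : uIcc u v ⊆ uIcc 0 v := by
    rw [uIcc_of_le hu, uIcc_of_le (hu0.trans hu)]
    exact Icc_subset_Icc_left hu0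
  refine intervalIntegral.integral_mono_on_of_le_Ioo hu ?_ ?_ ?_
  · have h1 : IntervalIntegrable (fun t => exp (-(a * t)) * GG |t - x|) volume u v :=
      (rs_ggx_ii x u v).continuousOn_mul (by fun_prop)
    have h2 : IntervalIntegrable (fun t => exp (-(a * t)) * GG (x - t)) volume u v := by
      refine h1.congr_uIoo fun t ht => ?_
      rw [uIoo_of_le hu] at ht
      show exp (-(a * t)) * GG |t - x| = exp (-(a * t)) * GG (x - t)
      rw [abs_of_neg (by linarith [ht.2]), neg_sub]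
    exact h2.neg
  · exact (resp_ii a x ψ v (hu0.trans hu)).mono_set hsub
  · intro t ht
    have h1 : t - x < 0 := by linarith [ht.2]
    have h2 := rs_hl_ge h1.ne ψ
    rw [max_eq_right h1.le, mul_zero, zero_sub, abs_of_neg h1, neg_sub] at h2
    have h3 := mul_le_mul_of_nonneg_left h2 (exp_pos (-(a * t))).le
    linarith

/-- lower bound to the right of the zero -/
theorem rs_right {a x T ψ : ℝ} (ha : 1 ≤ a) (hxT : x ≤ T) :
    exp (-(a * x)) * ((π + 2) * (1 / a ^ 2 - exp (-(a * (T - x))) * ((T - x) / a + 1 / a ^ 2)) -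
      53 / 50) ≤ ∫ t in x..T, exp (-(a * t)) * hl (t - x) ψ := by
  rw [rs_shift a x T (fun τ => hl τ ψ)]
  refine mul_le_mul_of_nonneg_left ?_ (exp_pos _).le
  have hU : 0 ≤ T - x := by linarith
  have h1 := GG_int_neg ha hU
  rw [← rs_int_yexp (by linarith)]
  have hI1 : IntervalIntegrable (fun y => exp (-(a * y)) * y) volume 0 (T - x) :=
    Continuous.intervalIntegrable (by fun_prop) _ _
  have hI2 : IntervalIntegrable (fun y => exp (-(a * y)) * GG y) volume 0 (T - x) :=
    (rs_gg_ii hU).continuousOn_mul (by fun_prop)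
  have hI3 : IntervalIntegrable (fun y => exp (-(a * y)) * hl y ψ) volume 0 (T - x) := by
    have := resp_ii a 0 ψ (T - x) hU
    simpa using this
  have h2 : (∫ y in (0 : ℝ)..(T - x), ((π + 2) * (exp (-(a * y)) * y) - exp (-(a * y)) * GG y)) ≤
      ∫ y in (0 : ℝ)..(T - x), exp (-(a * y)) * hl y ψ := by
    refine intervalIntegral.integral_mono_on_of_le_Ioo hU ((hI1.const_mul _).sub hI2) hI3 ?_
    intro y hy
    have h3 := rs_hl_ge hy.1.ne' ψ
    rw [max_eq_left hy.1.le, abs_of_pos hy.1] at h3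
    have h4 := mul_le_mul_of_nonneg_left h3 (exp_pos (-(a * y))).le
    calc _ = exp (-(a * y)) * ((π + 2) * y - GG y) := by ring
      _ ≤ _ := h4
  rw [intervalIntegral.integral_sub (hI1.const_mul _) hI2,
    intervalIntegral.integral_const_mul] at h2
  linarith

/-- small terms -/
theorem rs_small {a T : ℝ} (ha : 1 ≤ a) (hT : 20 ≤ T) :
    exp (-(a * T)) ≤ 1 / 1000 ∧ exp (-(a * T)) * (T / a + 1 / a ^ 2) ≤ 1 / 1000 := by
  have h1 : exp (-(a * T)) ≤ exp (-T) := by
    refine exp_le_exp.2 ?_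
    nlinarith
  have h2 : T ^ 5 / 120 ≤ exp T := by
    have := Real.pow_div_factorial_le_exp T (by linarith) 5
    norm_num [Nat.factorial] at this
    exact this
  have h3 : exp (-T) ≤ 120 / T ^ 5 := by
    rw [Real.exp_neg, inv_le_comm₀ (exp_pos _) (by positivity)]
    rw [inv_div]
    exact h2
  have hT0 : 0 < T := by linarith
  have h4 : exp (-T) * (T + 1) ≤ 1 / 1000 := by
    have h5 : 120 / T ^ 5 * (T + 1) ≤ 1 / 1000 := by
      rw [div_mul_eq_mul_div, div_le_div_iff₀ (by positivity) (by norm_num)]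
      have h6 : (160000 : ℝ) ≤ T ^ 4 := by
        calc (160000 : ℝ) = 20 ^ 4 := by norm_num
          _ ≤ T ^ 4 := pow_le_pow_left₀ (by norm_num) hT 4
      have h7 : T ^ 5 = T ^ 4 * T := by ring
      rw [h7]
      nlinarith
    exact (mul_le_mul_of_nonneg_right h3 (by linarith)).trans h5
  have h8 : exp (-T) ≤ 1 / 1000 := by
    refine le_trans ?_ h4
    have := (exp_pos (-T)).le
    nlinarith
  refine ⟨h1.trans h8, le_trans ?_ h4⟩
  have h9 : T / a ≤ T := div_le_self hT0.le ha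
  have h10 : 1 / a ^ 2 ≤ 1 := by
    rw [div_le_one (by positivity)]
    exact one_le_pow₀ ha
  have h11 : 0 ≤ T / a + 1 / a ^ 2 := by positivity
  exact mul_le_mul h1 (by linarith) h11 (exp_pos _).le

theorem resp_behind {a x ψ T : ℝ} (ha : 1 ≤ a) (ha' : a ≤ 11 / 10) (hT : 20 ≤ T) (hx : x ≤ 0) :
    3 + 4 * (-x) ≤ ∫ t in (0 : ℝ)..T, exp (-(a * t)) * hl (t - x) ψ := by
  have hT0 : 0 ≤ T := by linarith
  have ha0 : 0 < a := by linarith
  have hI0 : IntervalIntegrable (fun y => exp (-(a * y))) volume 0 T :=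
    Continuous.intervalIntegrable (by fun_prop) _ _
  have hI1 : IntervalIntegrable (fun y => exp (-(a * y)) * y) volume 0 T :=
    Continuous.intervalIntegrable (by fun_prop) _ _
  have hI2 : IntervalIntegrable (fun y => exp (-(a * y)) * GG y) volume 0 T :=
    (rs_gg_ii hT0).continuousOn_mul (by fun_prop)
  have h2 : (∫ t in (0 : ℝ)..T, ((π + 2) * (exp (-(a * t)) * t) + (π + 2) * (-x) * exp (-(a * t))
      - exp (-(a * t)) * GG t)) ≤ ∫ t in (0 : ℝ)..T, exp (-(a * t)) * hl (t - x) ψ := by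
    refine intervalIntegral.integral_mono_on_of_le_Ioo hT0
      (((hI1.const_mul _).add (hI0.const_mul _)).sub hI2) (resp_ii a x ψ T hT0) ?_
    intro t ht
    have hpos : 0 < t - x := by linarith [ht.1]
    have h3 := rs_hl_ge hpos.ne' ψ
    rw [max_eq_left hpos.le, abs_of_pos hpos] at h3
    have h5 : GG (t - x) ≤ GG t := GG_anti (mem_Ioi.2 ht.1) (mem_Ioi.2 hpos) (by linarith)
    have h4 : exp (-(a * t)) * ((π + 2) * (t - x) - GG t) ≤ exp (-(a * t)) * hl (t - x) ψ :=
      mul_le_mul_of_nonneg_left (by linarith) (exp_pos (-(a * t))).le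
    calc _ = exp (-(a * t)) * ((π + 2) * (t - x) - GG t) := by ring
      _ ≤ _ := h4
  rw [intervalIntegral.integral_sub ((hI1.const_mul _).add (hI0.const_mul _)) hI2,
    intervalIntegral.integral_add (hI1.const_mul _) (hI0.const_mul _),
    intervalIntegral.integral_const_mul, intervalIntegral.integral_const_mul,
    rs_int_yexp ha0, rs_int_exp ha0] at h2
  have h1 := GG_int_neg ha hT0
  obtain ⟨h6, h7⟩ := rs_small ha hT
  have hpi := rs_pi_lo
  -- the coefficient of `π + 2`
  have h8 : (0.82 : ℝ) ≤ 1 / a ^ 2 - exp (-(a * T)) * (T / a + 1 / a ^ 2) := by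
    have h9 : (100 / 121 : ℝ) ≤ 1 / a ^ 2 := by
      calc (100 / 121 : ℝ) = 1 / (11 / 10 : ℝ) ^ 2 := by norm_num
        _ ≤ _ := one_div_le_one_div_of_le (by positivity) (pow_le_pow_left₀ ha0.le ha' 2)
    have h9' : (0.82 : ℝ) ≤ 100 / 121 - 1 / 1000 := by norm_num
    linarith
  have h10 : (0.9 : ℝ) ≤ (1 - exp (-(a * T))) / a := by
    rw [le_div_iff₀ ha0]
    nlinarith
  have h11 : (4.2 : ℝ) ≤ (π + 2) * (1 / a ^ 2 - exp (-(a * T)) * (T / a + 1 / a ^ 2)) := by
    calc (4.2 : ℝ) ≤ 5.14 * 0.82 := by norm_num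
      _ ≤ _ := mul_le_mul hpi h8 (by norm_num) (by linarith)
  have h12 : 4 * (-x) ≤ (π + 2) * (-x) * ((1 - exp (-(a * T))) / a) := by
    have h13 : (4 : ℝ) ≤ (π + 2) * ((1 - exp (-(a * T))) / a) := by
      calc (4 : ℝ) ≤ 5.14 * 0.9 := by norm_num
        _ ≤ _ := mul_le_mul hpi h10 (by norm_num) (by linarith)
    calc 4 * (-x) ≤ (π + 2) * ((1 - exp (-(a * T))) / a) * (-x) :=
          mul_le_mul_of_nonneg_right h13 (by linarith)
      _ = _ := by ring
  linarith

theorem resp_mid {a x ψ T : ℝ} (ha : 1 ≤ a) (ha' : a ≤ 11 / 10) (hx : 0 ≤ x) (hxT : x ≤ T) :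
    4 / 5 * exp (-(a * x)) - 6 * (T + 1) * exp (-(a * T)) ≤
      ∫ t in (0 : ℝ)..T, exp (-(a * t)) * hl (t - x) ψ := by
  have ha0 : 0 < a := by linarith
  have hT0 : 0 ≤ T := hx.trans hxT
  have hI := resp_ii a x ψ T hT0
  have hI1 : IntervalIntegrable (fun t => exp (-(a * t)) * hl (t - x) ψ) volume 0 x :=
    resp_ii a x ψ x hx
  have hI2 : IntervalIntegrable (fun t => exp (-(a * t)) * hl (t - x) ψ) volume x T :=
    hI1.symm.trans hI
  rw [← intervalIntegral.integral_add_adjacent_intervals hI1 hI2]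
  have h1 := rs_left (a := a) (x := x) (ψ := ψ) hx le_rfl le_rfl
  rw [sub_self, sub_zero] at h1
  have h2 := GG_int_pos ha' hx
  have h3 := rs_right (ψ := ψ) ha hxT
  have he : 0 < exp (-(a * x)) := exp_pos _
  have h4 : exp (-(a * x)) * ∫ y in (0 : ℝ)..x, exp (a * y) * GG y ≤ exp (-(a * x)) * (47 / 20) :=
    mul_le_mul_of_nonneg_left h2 he.le
  have hee : exp (-(a * x)) * exp (-(a * (T - x))) = exp (-(a * T)) := by
    rw [← exp_add]
    congr 1
    ring
  have h5 : exp (-(a * x)) * ((π + 2) * (1 / a ^ 2 - exp (-(a * (T - x))) *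
      ((T - x) / a + 1 / a ^ 2)) - 53 / 50) =
      exp (-(a * x)) * ((π + 2) * (1 / a ^ 2) - 53 / 50) -
        (π + 2) * ((T - x) / a + 1 / a ^ 2) * exp (-(a * T)) := by
    rw [← hee]
    ring
  rw [h5] at h3
  have h6 : (4.24 : ℝ) ≤ (π + 2) * (1 / a ^ 2) := by
    have h9 : 1 / (11 / 10 : ℝ) ^ 2 ≤ 1 / a ^ 2 :=
      one_div_le_one_div_of_le (by positivity) (pow_le_pow_left₀ ha0.le ha' 2)
    calc (4.24 : ℝ) ≤ 5.14 * (1 / (11 / 10 : ℝ) ^ 2) := by norm_num
      _ ≤ _ := mul_le_mul rs_pi_lo h9 (by norm_num) (by linarith [rs_pi_lo])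
  have h7 : (π + 2) * ((T - x) / a + 1 / a ^ 2) ≤ 6 * (T + 1) := by
    have h9 : (T - x) / a ≤ T - x := div_le_self (by linarith) ha
    have h10 : 1 / a ^ 2 ≤ 1 := by
      rw [div_le_one (by positivity)]
      exact one_le_pow₀ ha
    have h11 : 0 ≤ (T - x) / a + 1 / a ^ 2 := by
      have : 0 ≤ (T - x) / a := div_nonneg (by linarith) ha0.le
      positivity
    refine mul_le_mul (by linarith [rs_pi_hi]) (by linarith) h11 (by norm_num)
  have h8 := mul_le_mul_of_nonneg_right h7 (exp_pos (-(a * T))).le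
  have h9 : (4 / 5 + 47 / 20) * exp (-(a * x)) ≤
      exp (-(a * x)) * ((π + 2) * (1 / a ^ 2) - 53 / 50) := by
    rw [mul_comm]
    refine mul_le_mul_of_nonneg_left ?_ he.le
    norm_num at h6 ⊢
    linarith
  linarith

/-- monotonicity in the lower end -/
theorem rs_mono {a z y : ℝ} (hz : 0 ≤ z) (hy : z ≤ y) :
    ∫ x in z..y, exp (a * x) * GG x ≤ ∫ x in (0 : ℝ)..y, exp (a * x) * GG x := by
  have h1 := GG_ii a 0 z le_rfl hz
  have h2 := GG_ii a z y hz hy
  rw [← intervalIntegral.integral_add_adjacent_intervals h1 h2]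
  have h3 : 0 ≤ ∫ x in (0 : ℝ)..z, exp (a * x) * GG x := by
    have h4 := intervalIntegral.integral_mono_on_of_le_Ioo (f := fun _ => (0 : ℝ)) hz
      intervalIntegrable_const h1 (fun x hx => mul_nonneg (exp_pos _).le (GG_nonneg hx.1))
    simpa using h4
  linarith

theorem resp_far {a x ψ T : ℝ} (ha : 1 ≤ a) (ha' : a ≤ 11 / 10) (hT : 0 ≤ T) (hx : T ≤ x) :
    -(12 / 5 * exp (-(a * x))) ≤ ∫ t in (0 : ℝ)..T, exp (-(a * t)) * hl (t - x) ψ := by
  have h1 := rs_left (a := a) (x := x) (ψ := ψ) hT hx le_rfl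
  rw [sub_zero] at h1
  have h2 := (rs_mono (a := a) (z := x - T) (y := x) (by linarith) (by linarith)).trans
    (GG_int_pos ha' (hT.trans hx))
  have h3 := mul_le_mul_of_nonneg_left h2 (exp_pos (-(a * x))).le
  have h4 := (exp_pos (-(a * x))).le
  linarith

theorem resp_far1 {x ψ T : ℝ} (hT : 0 ≤ T) (hx : T ≤ x) :
    -(10 * exp (-x) * exp (-(x - T))) ≤ ∫ t in (0 : ℝ)..T, exp (-t) * hl (t - x) ψ := by
  have h1 := rs_left (a := 1) (x := x) (ψ := ψ) hT hx le_rfl
  simp only [one_mul, sub_zero] at h1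
  have h2 := GG_tail (z := x - T) (y := x) (by linarith) (by linarith)
  have h3 := mul_le_mul_of_nonneg_left h2 (exp_pos (-x)).le
  linarith

end Pool.Agent.TX1
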