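import Pool.Agent.TX1.ExcInt
import Pool.Agent.TX1.Resp

/-!
# TX1, module Boot: the bootstrap inequality

`exists_dip`, `T = R/4 ≥ 20`, `a = 11/10`, `F t = HF ψ (fun θ => log ‖f (pt (b+t) θ)‖)`.
Upper bound, for `b + t ≠ x i` (a.e. `t ∈ [0,T]`): the integral over the half circle is `≤ TM f (b+t)` (`log ‖w‖ ≤ ½ log (‖w‖²+1)`, nonnegative on the other half),
and `HM` gives `φ` with `(1/2-δ) TM f (b+t) ≤ -log ‖f (pt (b+t) φ)‖` (the value is not zero), then `excess` with `x0 = √Ω`,
`Ω = 1800 (R+1) σ` (`sum_abs`, `near_A`: `TM f b ≤ 3A`): `F t ≤ 2δ TM f (b+t) + 2 Ex x b A Ω t + 240 exp (2t-R) TM f b`.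
Lower bound: `log_formula`, `HF_add`, `HF_shift`, `HF_cos`, `HF_abs`: `F t ≥ ∑ hl (b+t-x i) (ψ - y i) - 6 * 60 exp (2t-R) TM f b`.
Integrate against `exp (-(at))`: `resp_behind` (sum `≥ 3 n_- + (4/2π) TN f b`, `TN_fac`), `resp_mid` (drop the positive term; `cnt` with `t = T`), `resp_far`, `sum_far`;
`∫ exp (-at) TM f (b+t) ≤ 90 TM f b`; `Ex_int`, `sum_max`; `∫_0^T exp (-at) exp (2t - R) ≤ 2 exp (-R/2)`.
-/

set_option autoImplicit false

namespace Pool.Agent.TX1

open Real MeasureTheory Set Filter Topology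

theorem boot_ptc (s : ℝ) : Continuous fun θ : ℝ => pt s θ := by
  unfold pt
  fun_prop

theorem boot_sum_ii {n : ℕ} (τ y : Fin n → ℝ) (a b : ℝ) :
    IntervalIntegrable (fun θ => ∑ i, ell (τ i) (θ - y i)) volume a b := by
  have h1 : ∀ i ∈ Finset.univ, IntervalIntegrable (fun θ => ell (τ i) (θ - y i)) volume a b := by
    intro i _
    have := (ell_ii (τ i) (a - y i) (b - y i)).comp_sub_right (y i)
    simpa using this
  have h2 := IntervalIntegrable.sum Finset.univ h1
  exact h2.congr fun θ _ => by simp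

theorem boot_HF_sum {n : ℕ} (τ y : Fin n → ℝ) (ψ : ℝ) :
    HF ψ (fun θ => ∑ i, ell (τ i) (θ - y i)) = ∑ i, hl (τ i) (ψ - y i) := by
  have h1 : ∀ i ∈ Finset.univ, IntervalIntegrable (fun θ => ell (τ i) (θ - y i)) volume
      (ψ + π / 2) (ψ + 3 * π / 2) := by
    intro i _
    have := (ell_ii (τ i) (ψ + π / 2 - y i) (ψ + 3 * π / 2 - y i)).comp_sub_right (y i)
    simpa using this
  have h2 : ∀ i, hl (τ i) (ψ - y i) =
      (∫ θ in (ψ + π / 2)..(ψ + 3 * π / 2), ell (τ i) (θ - y i)) + 2 * ell (τ i) (ψ - y i) := by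
    intro i
    rw [← HF_shift]
    rfl
  unfold HF
  rw [intervalIntegral.integral_finsetSum h1, Finset.mul_sum, ← Finset.sum_add_distrib]
  exact Finset.sum_congr rfl fun i _ => (h2 i).symm

variable {f : ℂ → ℂ} {b R σ δ : ℝ} {n : ℕ} {x y : Fin n → ℝ} {h : ℂ → ℂ} {A ψ : ℝ}

theorem boot_up (hf : Differentiable ℂ f) (s ψ : ℝ) (hz : ∀ θ, f (pt s θ) ≠ 0) :
    ∫ θ in (ψ + π / 2)..(ψ + 3 * π / 2), log ‖f (pt s θ)‖ ≤ TM f s := by
  have hpi := Real.pi_pos
  have hfc : Continuous fun θ : ℝ => f (pt s θ) := hf.continuous.comp (boot_ptc s)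
  have hc : Continuous fun θ : ℝ => log ‖f (pt s θ)‖ :=
    hfc.norm.log fun θ => norm_ne_zero_iff.mpr (hz θ)
  have hc2 : Continuous fun θ : ℝ => 1 / 2 * log (‖f (pt s θ)‖ ^ 2 + 1) :=
    continuous_const.mul (((hfc.norm.pow 2).add continuous_const).log fun θ =>
      (add_pos_of_nonneg_of_pos (sq_nonneg ‖f (pt s θ)‖) one_pos).ne')
  rw [TM_eq f s (ψ + π / 2)]
  calc ∫ θ in (ψ + π / 2)..(ψ + 3 * π / 2), log ‖f (pt s θ)‖
      ≤ ∫ θ in (ψ + π / 2)..(ψ + 3 * π / 2), 1 / 2 * log (‖f (pt s θ)‖ ^ 2 + 1) := by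
        apply intervalIntegral.integral_mono_on (by linarith) (hc.intervalIntegrable _ _)
          (hc2.intervalIntegrable _ _)
        intro θ _
        have h1 : 0 < ‖f (pt s θ)‖ := norm_pos_iff.mpr (hz θ)
        have h2 : log (‖f (pt s θ)‖ ^ 2) ≤ log (‖f (pt s θ)‖ ^ 2 + 1) :=
          log_le_log (by positivity) (by linarith)
        rw [log_pow] at h2
        push_cast at h2
        linarith
    _ ≤ _ := by
        apply intervalIntegral.integral_mono_interval le_rfl (by linarith) (by linarith) _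
          (hc2.intervalIntegrable _ _)
        refine Filter.Eventually.of_forall fun θ => ?_
        have : 0 ≤ log (‖f (pt s θ)‖ ^ 2 + 1) := log_nonneg (by nlinarith [sq_nonneg ‖f (pt s θ)‖])
        simp only [Pi.zero_apply]
        positivity

theorem boot_pt (hW : Win f b R σ) (hD : Dip f b R n x y h A ψ) (hA : 0 < A) (hHM : HM f δ b)
    {Ω : ℝ} (hΩ : 0 < Ω) {t : ℝ} (ht : 0 ≤ t) (htR : t ≤ R / 4) (hne : ∀ i, b + t ≠ x i) :
    ∑ i, hl (t - (x i - b)) (ψ - y i) ≤
      2 * δ * TM f (b + t) + 2 * Ex x b A Ω t + 600 * exp (2 * t - R) * TM f b := by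
  have hR := hW.hR
  have hpi := Real.pi_pos
  have hlf := log_formula hD.fac (show b + t ≤ b + R by linarith) hne
  have hz : ∀ θ, f (pt (b + t) θ) ≠ 0 := fun θ => (hlf θ).1
  have hfc : Continuous fun θ : ℝ => f (pt (b + t) θ) := hW.hf.continuous.comp (boot_ptc _)
  have hc : Continuous fun θ : ℝ => log ‖f (pt (b + t) θ)‖ :=
    hfc.norm.log fun θ => norm_ne_zero_iff.mpr (hz θ)
  -- upper bound
  have hTM : 0 ≤ TM f b := TM_nonneg f b
  obtain ⟨φ, hφ⟩ := hHM (b + t) (by linarith)
  have h1 : log ‖f (pt (b + t) φ)‖ ≤ -((1 / 2 - δ) * TM f (b + t)) := by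
    have := log_le_log (norm_pos_iff.mpr (hz φ)) hφ
    rwa [log_exp] at this
  have h2 := excess hD hR htR hne hA (Real.sqrt_pos.mpr hΩ) φ
  have h3 := boot_up hW.hf (b + t) ψ hz
  have hEx : Ex x b A Ω t =
    VV x (√Ω) (b + t) + VV x (√Ω) (b + t) ^ 2 / (4 * (2 / π ^ 2 * A * exp t) * √Ω ^ 2) := rfl
  have hup : HF ψ (fun θ => log ‖f (pt (b + t) θ)‖) ≤
      2 * δ * TM f (b + t) + 2 * Ex x b A Ω t + 240 * exp (2 * t - R) * TM f b := by
    unfold HF
    rw [hEx]
    linarith
  -- lower bound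
  have hS := boot_sum_ii (fun i => b + t - x i) y (ψ + π / 2) (ψ + 3 * π / 2)
  have hre : IntervalIntegrable (fun θ => (h (pt (b + t) θ)).re) volume
      (ψ + π / 2) (ψ + 3 * π / 2) := by
    have h4 := (hc.intervalIntegrable (ψ + π / 2) (ψ + 3 * π / 2)).sub hS
    refine h4.congr fun θ _ => ?_
    have := (hlf θ).2
    simp only [this]
    ring
  have hfe : (fun θ => log ‖f (pt (b + t) θ)‖) =
      fun θ => (∑ i, ell (b + t - x i) (θ - y i)) + (h (pt (b + t) θ)).re :=
    funext fun θ => (hlf θ).2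
  have hcosi : IntervalIntegrable (fun θ => -(A * exp t) * cos (θ - ψ)) volume
      (ψ + π / 2) (ψ + 3 * π / 2) := by
    apply Continuous.intervalIntegrable
    fun_prop
  have herri : IntervalIntegrable (fun θ => (h (pt (b + t) θ)).re + A * exp t * cos (θ - ψ)) volume
      (ψ + π / 2) (ψ + 3 * π / 2) := by
    refine hre.add (Continuous.intervalIntegrable ?_ _ _)
    fun_prop
  have hre2 : (fun θ => (h (pt (b + t) θ)).re) = fun θ => -(A * exp t) * cos (θ - ψ) +
      ((h (pt (b + t) θ)).re + A * exp t * cos (θ - ψ)) := by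
    funext θ
    ring
  have hHFre : HF ψ (fun θ => (h (pt (b + t) θ)).re) =
      HF ψ (fun θ => (h (pt (b + t) θ)).re + A * exp t * cos (θ - ψ)) := by
    conv_lhs => rw [hre2]
    rw [HF_add hcosi herri, HF_mul, HF_cos, mul_zero, zero_add]
  have herr := HF_abs (ψ := ψ) (u := fun θ => (h (pt (b + t) θ)).re + A * exp t * cos (θ - ψ))
    (fun θ => hD.err t θ (by linarith))
  have hlow : ∑ i, hl (t - (x i - b)) (ψ - y i) - 360 * exp (2 * t - R) * TM f b ≤
      HF ψ (fun θ => log ‖f (pt (b + t) θ)‖) := by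
    rw [hfe, HF_add hS hre, boot_HF_sum, hHFre]
    have h5 : ∀ i, b + t - x i = t - (x i - b) := fun i => by ring
    simp only [h5]
    have h6 := (abs_le.1 herr).1
    have h7 : (π + 2) * (60 * exp (2 * t - R) * TM f b) ≤ 360 * exp (2 * t - R) * TM f b := by
      have h8 : π + 2 ≤ 6 := by linarith [Real.pi_lt_d2]
      have h9 : 0 ≤ 60 * exp (2 * t - R) * TM f b := by positivity
      nlinarith
    linarith
  linarith

theorem boot_exp_int {c T : ℝ} (hc : c ≠ 0) :
    ∫ t in (0 : ℝ)..T, exp (c * t) = (exp (c * T) - 1) / c := by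
  rw [intervalIntegral.integral_comp_mul_left (fun t => exp t) hc, integral_exp, mul_zero, exp_zero,
    smul_eq_mul]
  field_simp

theorem boot : ∃ C : ℝ, 0 < C ∧ ∀ (f : ℂ → ℂ) (b R σ δ : ℝ), Win f b R σ → 80 ≤ R → 0 ≤ δ → δ ≤ 1 / 2 →
    HM f δ b → 5000 * ((R + 1) * σ + exp (-(R / 2))) ≤ 1 / 6 →
    TN f b ≤ C * (δ + ((R + 1) * σ) ^ (5 / 4 : ℝ) + (R + 1) * σ * exp (-(R / 40)) + exp (-(R / 2))) * TM f b := by
  refine ⟨1000000, by norm_num, ?_⟩
  intro f b R σ δ hW hR80 hδ0 hδ hHM hs
  obtain ⟨n, x, y, h, A, ψ, hD⟩ := exists_dip hW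
  have hpi := Real.pi_pos
  have hσ := hW.hσ
  have hMpos : 0 < TM f b := lt_of_lt_of_le (exp_pos R) hW.big
  obtain ⟨hA1, hA2⟩ := near_A hW hD hs
  have hApos : 0 < A := by linarith
  set M : ℝ := TM f b with hM
  set u : ℝ := (R + 1) * σ with hu
  have hupos : 0 < u := by positivity
  have hsu : 5000 * u ≤ 1 / 6 := by
    have := (exp_pos (-(R / 2))).le
    linarith
  set Ω : ℝ := 1800 * u with hΩdef
  have hΩ : 0 < Ω := by positivity
  have hΩ1 : Ω ≤ 1 := by linarith
  set T : ℝ := R / 4 with hTdef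
  have hT20 : 20 ≤ T := by linarith
  have hT0 : 0 ≤ T := by linarith
  have hTR : T ≤ R := by linarith
  have hsum : ∀ t, 0 ≤ t → t ≤ T → ∑ i, exp (-|b + t - x i|) ≤ Ω * A * exp t := by
    intro t ht htT
    have h1 := sum_abs hW hD.fac (show -1 ≤ t by linarith) (htT.trans hTR)
    have h2 : 600 * (R + 1) * σ * exp t * TM f b = 600 * u * exp t * M := by rw [hu]; ring
    rw [h2] at h1
    have h3 : 600 * u * exp t * M ≤ 600 * u * exp t * (3 * A) := by
      have : 0 ≤ 600 * u * exp t := by positivity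
      apply mul_le_mul_of_nonneg_left _ this
      linarith
    calc _ ≤ _ := h1
      _ ≤ _ := h3
      _ = _ := by rw [hΩdef]; ring
  -- the integrated inequality
  have hG_ii : ∀ i ∈ (Finset.univ : Finset (Fin n)), IntervalIntegrable
      (fun t => exp (-(11 / 10 * t)) * hl (t - (x i - b)) (ψ - y i)) volume 0 T :=
    fun i _ => resp_ii (11 / 10) (x i - b) (ψ - y i) T hT0
  have hGs_ii : IntervalIntegrable
      (fun t => exp (-(11 / 10 * t)) * ∑ i, hl (t - (x i - b)) (ψ - y i)) volume 0 T := by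
    have h2 := IntervalIntegrable.sum Finset.univ hG_ii
    exact h2.congr fun θ _ => by simp [Finset.mul_sum]
  have hTMc : Continuous (TM f) := TM_cont hW.hf
  have hR1_ii : IntervalIntegrable (fun t => exp (-(11 / 10 * t)) * TM f (b + t)) volume 0 T := by
    apply Continuous.intervalIntegrable
    have : Continuous fun t : ℝ => TM f (b + t) := hTMc.comp (continuous_const.add continuous_id)
    fun_prop
  have hR2_ii := Ex_ii x (b := b) (a := 11 / 10) hApos hΩ hΩ1 hT0
  have hR3_ii : IntervalIntegrable (fun t : ℝ => exp (9 / 10 * t)) volume 0 T := by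
    apply Continuous.intervalIntegrable
    fun_prop
  have hR_ii : IntervalIntegrable (fun t => 2 * δ * (exp (-(11 / 10 * t)) * TM f (b + t)) +
      2 * (exp (-(11 / 10 * t)) * Ex x b A Ω t) + 600 * M * exp (-R) * exp (9 / 10 * t)) volume 0 T :=
    ((hR1_ii.const_mul _).add (hR2_ii.const_mul _)).add (hR3_ii.const_mul _)
  have hmain : ∫ t in (0 : ℝ)..T, exp (-(11 / 10 * t)) * ∑ i, hl (t - (x i - b)) (ψ - y i) ≤
      ∫ t in (0 : ℝ)..T, (2 * δ * (exp (-(11 / 10 * t)) * TM f (b + t)) +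
      2 * (exp (-(11 / 10 * t)) * Ex x b A Ω t) + 600 * M * exp (-R) * exp (9 / 10 * t)) := by
    apply intervalIntegral.integral_mono_ae_restrict hT0 hGs_ii hR_ii
    have hfin : (Set.range fun i => x i - b).Finite := Set.finite_range _
    have hae : ∀ᵐ t ∂(volume.restrict (Icc (0 : ℝ) T)), t ∉ Set.range fun i => x i - b := by
      apply ae_restrict_of_ae
      exact compl_mem_ae_iff.mpr (hfin.measure_zero _)
    filter_upwards [hae, ae_restrict_mem measurableSet_Icc] with t htn htm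
    have hne : ∀ i, b + t ≠ x i := by
      intro i hi
      apply htn
      exact ⟨i, by simp only; linarith⟩
    have h1 := boot_pt hW hD hApos hHM hΩ htm.1 (htm.2.trans_eq hTdef) hne
    have h2 : exp (-(11 / 10 * t)) * exp (2 * t - R) = exp (-R) * exp (9 / 10 * t) := by
      rw [← exp_add, ← exp_add]
      congr 1
      ring
    have h3 := mul_le_mul_of_nonneg_left h1 (exp_pos (-(11 / 10 * t))).le
    calc _ ≤ _ := h3
      _ = 2 * δ * (exp (-(11 / 10 * t)) * TM f (b + t)) + 2 * (exp (-(11 / 10 * t)) * Ex x b A Ω t) +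
          600 * M * (exp (-(11 / 10 * t)) * exp (2 * t - R)) := by ring
      _ = _ := by rw [h2]; ring
  -- right side
  have hRHS : ∫ t in (0 : ℝ)..T, (2 * δ * (exp (-(11 / 10 * t)) * TM f (b + t)) +
      2 * (exp (-(11 / 10 * t)) * Ex x b A Ω t) + 600 * M * exp (-R) * exp (9 / 10 * t)) ≤
      180 * δ * M + 369600 * u ^ (5 / 4 : ℝ) * M + 1200 * exp (-(R / 2)) * M := by
    rw [intervalIntegral.integral_add ((hR1_ii.const_mul _).add (hR2_ii.const_mul _))
      (hR3_ii.const_mul _), intervalIntegral.integral_add (hR1_ii.const_mul _) (hR2_ii.const_mul _),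
      intervalIntegral.integral_const_mul, intervalIntegral.integral_const_mul,
      intervalIntegral.integral_const_mul]
    have e1 : ∫ t in (0 : ℝ)..T, exp (-(11 / 10 * t)) * TM f (b + t) ≤ 90 * M := by
      have h1 : ∫ t in (0 : ℝ)..T, exp (-(11 / 10 * t)) * TM f (b + t) ≤
          ∫ t in (0 : ℝ)..T, 9 * M * exp (-(1 / 10) * t) := by
        apply intervalIntegral.integral_mono_on hT0 hR1_ii
        · apply Continuous.intervalIntegrable
          fun_prop
        · intro t ht
          have h2 := hW.gr t ht.1 (by linarith [ht.2])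
          have h3 := mul_le_mul_of_nonneg_left h2 (exp_pos (-(11 / 10 * t))).le
          have h4 : exp (-(11 / 10 * t)) * exp t = exp (-(1 / 10) * t) := by
            rw [← exp_add]
            congr 1
            ring
          calc _ ≤ _ := h3
            _ = 9 * M * (exp (-(11 / 10 * t)) * exp t) := by ring
            _ = _ := by rw [h4]
      rw [intervalIntegral.integral_const_mul, boot_exp_int (by norm_num)] at h1
      have h5 : (exp (-(1 / 10) * T) - 1) / (-(1 / 10)) ≤ 10 := by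
        have := exp_pos (-(1 / 10) * T)
        rw [div_le_iff_of_neg (by norm_num)]
        linarith
      have h6 : 9 * M * ((exp (-(1 / 10) * T) - 1) / (-(1 / 10))) ≤ 9 * M * 10 :=
        mul_le_mul_of_nonneg_left h5 (by positivity)
      linarith
    have e2 : ∫ t in (0 : ℝ)..T, exp (-(11 / 10 * t)) * Ex x b A Ω t ≤
        184800 * u ^ (5 / 4 : ℝ) * M := by
      have h1 := Ex_int x hApos hΩ hΩ1 hT0 hsum
      have h2 := sum_max hW hD.fac
      have h3 : 80 * (R + 1) * σ * TM f b = 80 * u * M := by rw [hu]; ring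
      rw [h3] at h2
      have h4 : Ω ^ (1 / 4 : ℝ) ≤ 7 * u ^ (1 / 4 : ℝ) := by
        rw [hΩdef, mul_rpow (by norm_num) hupos.le]
        apply mul_le_mul_of_nonneg_right _ (rpow_nonneg hupos.le _)
        have h5 : (1800 : ℝ) ≤ 7 ^ (4 : ℝ) := by norm_num
        calc (1800 : ℝ) ^ (1 / 4 : ℝ) ≤ (7 ^ (4 : ℝ)) ^ (1 / 4 : ℝ) :=
              rpow_le_rpow (by norm_num) h5 (by norm_num)
          _ = 7 := by
              rw [← rpow_mul (by norm_num)]
              norm_num
      have h6 : u ^ (1 / 4 : ℝ) * u = u ^ (5 / 4 : ℝ) := by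
        rw [← rpow_add_one hupos.ne']
        norm_num
      have h7 : 0 ≤ ∑ i, exp (-max (x i - b) 0) := Finset.sum_nonneg fun i _ => (exp_pos _).le
      have h8 : 0 ≤ Ω ^ (1 / 4 : ℝ) := rpow_nonneg hΩ.le _
      have h9 : 0 ≤ u ^ (1 / 4 : ℝ) := rpow_nonneg hupos.le _
      calc _ ≤ _ := h1
        _ ≤ 330 * (7 * u ^ (1 / 4 : ℝ)) * (80 * u * M) := by
            apply mul_le_mul _ h2 h7 (by positivity)
            linarith
        _ = 184800 * (u ^ (1 / 4 : ℝ) * u) * M := by ring
        _ = _ := by rw [h6]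
    have e3 : ∫ t in (0 : ℝ)..T, exp (9 / 10 * t) ≤ 2 * exp (R / 2) := by
      rw [boot_exp_int (by norm_num)]
      have h1 : exp (9 / 10 * T) ≤ exp (R / 2) := exp_le_exp.mpr (by rw [hTdef]; linarith)
      rw [div_le_iff₀ (by norm_num)]
      have := exp_pos (R / 2)
      linarith
    have e4 : exp (-R) * exp (R / 2) = exp (-(R / 2)) := by
      rw [← exp_add]
      congr 1
      ring
    have f1 := mul_le_mul_of_nonneg_left e1 (show 0 ≤ 2 * δ by positivity)
    have f3 := mul_le_mul_of_nonneg_left e3 (show 0 ≤ 600 * M * exp (-R) by positivity)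
    have f4 : 600 * M * exp (-R) * (2 * exp (R / 2)) = 1200 * exp (-(R / 2)) * M := by
      rw [← e4]; ring
    linarith
  -- left side
  have hLHS : 2 / π * TN f b - 1026 * u * exp (-(R / 40)) * M ≤
      ∫ t in (0 : ℝ)..T, exp (-(11 / 10 * t)) * ∑ i, hl (t - (x i - b)) (ψ - y i) := by
    have g1 : ∫ t in (0 : ℝ)..T, exp (-(11 / 10 * t)) * ∑ i, hl (t - (x i - b)) (ψ - y i) =
        ∑ i, ∫ t in (0 : ℝ)..T, exp (-(11 / 10 * t)) * hl (t - (x i - b)) (ψ - y i) := by
      rw [← intervalIntegral.integral_finsetSum hG_ii]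
      congr 1
      funext t
      rw [Finset.mul_sum]
    rw [g1]
    have g2 : ∀ i, 4 * max (b - x i) 0 -
        (if x i ≤ b + T then 6 * (T + 1) * exp (-(11 / 10 * T)) else 0) -
        (if b + T < x i then 12 / 5 * exp (-(11 / 10 * (x i - b))) else 0) ≤
        ∫ t in (0 : ℝ)..T, exp (-(11 / 10 * t)) * hl (t - (x i - b)) (ψ - y i) := by
      intro i
      have hp1 : 0 ≤ 6 * (T + 1) * exp (-(11 / 10 * T)) := by positivity
      rcases le_total (x i - b) 0 with hx | hx
      · have r1 := resp_behind (a := 11 / 10) (ψ := ψ - y i) (by norm_num) le_rfl hT20 hx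
        rw [if_pos (by linarith), if_neg (by linarith), max_eq_left (by linarith)]
        linarith
      · rcases le_or_gt (x i) (b + T) with hxT | hxT
        · have r2 := resp_mid (a := 11 / 10) (ψ := ψ - y i) (T := T) (by norm_num) le_rfl hx
            (by linarith)
          rw [if_pos hxT, if_neg (by linarith), max_eq_right (by linarith)]
          have := exp_pos (-(11 / 10 * (x i - b)))
          linarith
        · have r3 := resp_far (a := 11 / 10) (ψ := ψ - y i) (T := T) (x := x i - b) (by norm_num)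
            le_rfl hT0 (by linarith)
          rw [if_neg (by linarith), if_pos hxT, max_eq_right (by linarith)]
          linarith
    refine le_trans ?_ (Finset.sum_le_sum fun i _ => g2 i)
    rw [Finset.sum_sub_distrib, Finset.sum_sub_distrib, ← Finset.mul_sum]
    have g3 : ∑ i, max (b - x i) 0 = TN f b / (2 * π) := by
      rw [TN_fac hD.fac (by linarith : b ≤ b + R)]
      field_simp
    have g4 : ∑ i, (if x i ≤ b + T then 6 * (T + 1) * exp (-(11 / 10 * T)) else 0) ≤
        66 * u * exp (-(R / 40)) * M := by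
      rw [← Finset.sum_filter, Finset.sum_const, nsmul_eq_mul]
      have c1 := cnt hW hD.fac hT0 hTR
      have c2 : exp (-(11 / 10 * T)) * exp T = exp (-(R / 40)) := by
        rw [← exp_add, hTdef]
        congr 1
        ring
      calc _ ≤ 11 * σ * exp T * TM f b * (6 * (T + 1) * exp (-(11 / 10 * T))) :=
            mul_le_mul_of_nonneg_right c1 (by positivity)
        _ = 66 * ((T + 1) * σ) * (exp (-(11 / 10 * T)) * exp T) * M := by ring
        _ ≤ 66 * u * (exp (-(11 / 10 * T)) * exp T) * M := by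
            have : (T + 1) * σ ≤ u := by
              rw [hu]
              apply mul_le_mul_of_nonneg_right _ hσ.le
              linarith
            have c3 : 0 ≤ (exp (-(11 / 10 * T)) * exp T) * M := by positivity
            nlinarith
        _ = _ := by rw [c2]
    have g5 : ∑ i, (if b + T < x i then 12 / 5 * exp (-(11 / 10 * (x i - b))) else 0) ≤
        960 * u * exp (-(R / 40)) * M := by
      rw [← Finset.sum_filter, ← Finset.mul_sum]
      have c1 := sum_far hW hD.fac hT0 hTR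
      have c2 : exp (-(T / 10)) = exp (-(R / 40)) := by
        rw [hTdef]
        congr 1
        ring
      rw [c2] at c1
      have c3 : σ ≤ u := by
        rw [hu]
        nlinarith
      have c4 : 0 ≤ exp (-(R / 40)) * M := by positivity
      have c5 : 400 * σ * exp (-(R / 40)) * M ≤ 400 * u * exp (-(R / 40)) * M := by nlinarith
      linarith
    rw [g3]
    have g6 : 4 * (TN f b / (2 * π)) = 2 / π * TN f b := by
      field_simp
      ring
    rw [g6]
    linarith
  have hfinal : 2 / π * TN f b ≤ 180 * δ * M + 369600 * u ^ (5 / 4 : ℝ) * M +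
      1200 * exp (-(R / 2)) * M + 1026 * u * exp (-(R / 40)) * M := by linarith
  have hTN : TN f b ≤ 2 * (2 / π * TN f b) := by
    have h1 : 0 ≤ TN f b := TN_nonneg hW.hf hW.f0 b
    have h2 : 1 ≤ 2 * (2 / π) := by
      rw [mul_div_assoc', le_div_iff₀ hpi]
      linarith [Real.pi_le_four]
    nlinarith
  have k1 : 0 ≤ δ * M := by positivity
  have k2 : 0 ≤ u ^ (5 / 4 : ℝ) * M := by positivity
  have k3 : 0 ≤ exp (-(R / 2)) * M := by positivity
  have k4 : 0 ≤ u * exp (-(R / 40)) * M := by positivity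
  have k5 : 1000000 * (δ + u ^ (5 / 4 : ℝ) + u * exp (-(R / 40)) + exp (-(R / 2))) * M =
      1000000 * (δ * M) + 1000000 * (u ^ (5 / 4 : ℝ) * M) + 1000000 * (u * exp (-(R / 40)) * M) +
        1000000 * (exp (-(R / 2)) * M) := by ring
  rw [k5]
  linarith

end Pool.Agent.TX1
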