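import Pool.Agent.MML.MainG

/-!
# TX1, module Defs: definitions

Problem MP_b22b9c_an, minimum modulus, `D(λ)` near `λ = 1`.  Everything is on the cylinder `(s, θ)`,
`z = pt s θ = exp (s + iθ)`.  `TM` is the function `M` of the library `MML` (`mN (π*1) (Ue f 1 1)`, i.e.
`∫ ½ log (|f|² + 1)`), `TN` is the integral of `log |f|`, `ell τ β = log |1 - exp (τ + iβ)|` is the contribution of one zero.
-/

set_option autoImplicit false

namespace Pool.Agent.TX1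

open Real MeasureTheory Set Filter Topology
open Pool.Agent.MML (Fe Ue mN)

/-- the point `exp (s + iθ)` -/
noncomputable def pt (s θ : ℝ) : ℂ := Complex.exp ((s : ℂ) + (θ : ℂ) * Complex.I)

/-- the characteristic: `∫_{-π}^{π} ½ log (|f (pt s θ)|² + 1) dθ` (in the notation of `MML`) -/
noncomputable def TM (f : ℂ → ℂ) (s : ℝ) : ℝ := mN (π * 1) (Ue f 1 1) s

/-- the mean of `log |f|` -/
noncomputable def TN (f : ℂ → ℂ) (s : ℝ) : ℝ := ∫ θ in (-π)..π, log ‖f (pt s θ)‖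

/-- contribution of one zero -/
noncomputable def ell (τ β : ℝ) : ℝ := log ‖1 - pt τ β‖

/-- A factorisation of `f` on the disc `|z| ≤ exp S`: the zeros are `pt (x i) (y i)`. -/
structure Fac (f : ℂ → ℂ) (S : ℝ) (n : ℕ) (x y : Fin n → ℝ) (h : ℂ → ℂ) : Prop where
  hx : ∀ i, x i ≤ S
  hd : ∃ ρ : ℝ, exp S < ρ ∧ DifferentiableOn ℂ h (Metric.ball 0 ρ)
  h0 : h 0 = 0
  hf : ∀ z : ℂ, ‖z‖ ≤ exp S → f z = (∏ i, (1 - z / pt (x i) (y i))) * Complex.exp (h z)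
  hn : 2 * π * n ≤ TN f (S + 1)

/-- The half circle functional with direction `ψ` (the valley): hump integral plus twice the value in the valley. -/
noncomputable def HF (ψ : ℝ) (u : ℝ → ℝ) : ℝ := (∫ θ in (ψ + π / 2)..(ψ + 3 * π / 2), u θ) + 2 * u ψ

/-- the half circle functional of one zero at distance `τ` (`s = x + τ`), relative direction `ψ` -/
noncomputable def hl (τ ψ : ℝ) : ℝ := HF ψ (ell τ)

/-- the error function -/
noncomputable def GG (x : ℝ) : ℝ := 2 * (-log (1 - exp (-x)) - exp (-x) + exp (-(3 * x)) / 9)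

/-- The hypothesis on the minimum modulus from `s0` on. -/
def HM (f : ℂ → ℂ) (δ s0 : ℝ) : Prop :=
  ∀ s, s0 ≤ s → ∃ t, ‖f (pt s t)‖ ≤ exp (-((1 / 2 - δ) * TM f s))

/-- growth: the lower order is `lam` (expressed through `TM`) -/
def Gr (f : ℂ → ℂ) (lam : ℝ) : Prop :=
  (∀ ρ' c : ℝ, lam < ρ' → 0 < c → ¬ ∀ᶠ s in atTop, c * exp (ρ' * s) ≤ TM f s) ∧
  (∀ ρ' C : ℝ, ρ' < lam → ¬ ∀ᶠ s in atTop, TM f s ≤ C * exp (ρ' * s))

/-- A window `[b, b+R]`: growth at most `9 exp t` and few zeros. -/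
structure Win (f : ℂ → ℂ) (b R σ : ℝ) : Prop where
  hf : Differentiable ℂ f
  f0 : f 0 = 1
  hR : 40 ≤ R
  hσ : 0 < σ
  hσ1 : σ ≤ 1
  gr : ∀ t, 0 ≤ t → t ≤ R + 2 → TM f (b + t) ≤ 9 * exp t * TM f b
  ze : ∀ t, 0 ≤ t → t ≤ R + 2 → TN f (b + t) ≤ σ * TM f (b + t)
  big : exp R ≤ TM f b

/-- A factorisation of `f` on the window, with the dipole `-A exp t cos (θ - ψ)`. -/
structure Dip (f : ℂ → ℂ) (b R : ℝ) (n : ℕ) (x y : Fin n → ℝ) (h : ℂ → ℂ) (A ψ : ℝ) : Prop where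
  fac : Fac f (b + R) n x y h
  hA : 0 ≤ A
  hdip : ∀ s θ : ℝ, (deriv h 0 * pt s θ).re = -(A * exp (s - b) * cos (θ - ψ))
  err : ∀ t θ : ℝ, t ≤ R - 1 →
    |(h (pt (b + t) θ)).re + A * exp t * cos (θ - ψ)| ≤ 60 * exp (2 * t - R) * TM f b

end Pool.Agent.TX1
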