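import Pool.Agent.TX1.FirstWin
import Pool.Agent.TX1.Regime

/-!
# TX1, module End: the normalised theorem

`δ = κ ε/2`, `lam = 1+ε`.  `regime2` (for `δ` small), `win_of_J`: `Win f s R (3 exp (-R/4))` for `s ≥ s2`; `σ = 3 exp (-R/4) ≤ 3 C1 δ`, `R ≤ 4 log (C1/δ)`.
`first_win` with a fixed `W`: bracket `≤ 1 + κεW/(π-1) + C'(ε + o(ε))`, `≤ exp (g W)` with `g = κε/(π-1) + C' ε/W + o(ε) < ε` for `W` large (depending on `κ`), then `ε` small.
So `TM f (s+W) ≤ exp ((1+g)W) TM f s` for all `s ≥ s2`, `TM f s ≤ C exp ((1+g)s)`: contradiction with `Gr` (`ρ' = 1+g < lam`).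
-/

set_option autoImplicit false

namespace Pool.Agent.TX1

open Real MeasureTheory Set Filter Topology

private theorem end_large {μ W : ℝ} (hμ : 0 < μ) : ∃ R2 : ℝ, ∀ R, R2 ≤ R →
    3 * (R + 1) * exp (-(R / 4)) ≤ μ ∧
    ((R + 1) * (3 * exp (-(R / 4)))) ^ (5 / 4 : ℝ) ≤ μ * exp (-(R / 4)) ∧ W ≤ R / 4 ∧ 80 ≤ R := by
  have t1 : Tendsto (fun x : ℝ => x ^ (5 / 4 : ℝ) * exp (-(1 / 16) * x)) atTop (𝓝 0) :=
    tendsto_rpow_mul_exp_neg_mul_atTop_nhds_zero _ _ (by norm_num)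
  have t2 : Tendsto (fun x : ℝ => x ^ (1 : ℝ) * exp (-(1 / 4) * x)) atTop (𝓝 0) :=
    tendsto_rpow_mul_exp_neg_mul_atTop_nhds_zero _ _ (by norm_num)
  have hk : (0 : ℝ) < (6 : ℝ) ^ (5 / 4 : ℝ) := by positivity
  have e1 := t1.eventually (ge_mem_nhds (show (0 : ℝ) < μ / (6 : ℝ) ^ (5 / 4 : ℝ) by positivity))
  have e2 := t2.eventually (ge_mem_nhds (show (0 : ℝ) < μ / 6 by positivity))
  obtain ⟨R2, hR2⟩ := eventually_atTop.1 ((e1.and e2).and (eventually_ge_atTop (max 80 (4 * W))))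
  refine ⟨R2, fun R hR => ?_⟩
  obtain ⟨⟨h1, h2⟩, h3⟩ := hR2 R hR
  have h80 : 80 ≤ R := (le_max_left _ _).trans h3
  have hW : 4 * W ≤ R := (le_max_right _ _).trans h3
  rw [rpow_one] at h2
  have hR0 : 0 < R := by linarith
  refine ⟨?_, ?_, by linarith, h80⟩
  · have h4 : R * exp (-(R / 4)) ≤ μ / 6 := by
      have : -(1 / 4) * R = -(R / 4) := by ring
      rwa [this] at h2
    have h5 : 3 * (R + 1) * exp (-(R / 4)) ≤ 6 * (R * exp (-(R / 4))) := by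
      have := exp_pos (-(R / 4))
      nlinarith
    linarith
  · have h5 : (R + 1) * (3 * exp (-(R / 4))) ≤ (6 * R) * exp (-(R / 4)) := by
      have := exp_pos (-(R / 4))
      nlinarith
    have h6 : ((R + 1) * (3 * exp (-(R / 4)))) ^ (5 / 4 : ℝ) ≤
        ((6 * R) * exp (-(R / 4))) ^ (5 / 4 : ℝ) :=
      rpow_le_rpow (by positivity) h5 (by norm_num)
    refine h6.trans ?_
    rw [mul_rpow (by positivity) (exp_pos _).le, mul_rpow (by norm_num) hR0.le, ← exp_mul]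
    have h7 : exp (-(R / 4) * (5 / 4)) = exp (-(1 / 16) * R) * exp (-(R / 4)) := by
      rw [← exp_add]
      congr 1
      ring
    rw [h7]
    have h8 : (6 : ℝ) ^ (5 / 4 : ℝ) * (R ^ (5 / 4 : ℝ) * exp (-(1 / 16) * R)) ≤ μ := by
      calc (6 : ℝ) ^ (5 / 4 : ℝ) * (R ^ (5 / 4 : ℝ) * exp (-(1 / 16) * R))
          ≤ (6 : ℝ) ^ (5 / 4 : ℝ) * (μ / (6 : ℝ) ^ (5 / 4 : ℝ)) :=
            mul_le_mul_of_nonneg_left h1 hk.le
        _ = μ := by field_simp
    calc (6 : ℝ) ^ (5 / 4 : ℝ) * R ^ (5 / 4 : ℝ) * (exp (-(1 / 16) * R) * exp (-(R / 4)))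
        = ((6 : ℝ) ^ (5 / 4 : ℝ) * (R ^ (5 / 4 : ℝ) * exp (-(1 / 16) * R))) * exp (-(R / 4)) := by
          ring
      _ ≤ μ * exp (-(R / 4)) := mul_le_mul_of_nonneg_right h8 (exp_pos _).le

private theorem end_bracket {κ C C1 : ℝ} (h0 : 0 < κ) (h1 : κ < π - 1) (hC : 0 < C)
    (hC1 : 0 < C1) : ∃ W θ ε1 : ℝ, 20 ≤ W ∧ 0 < θ ∧ θ < 1 ∧ 0 < ε1 ∧ ∀ ε R : ℝ, 0 < ε → ε ≤ ε1 →
      exp (-(R / 4)) ≤ C1 * (κ * ε / 2) →
      5000 * ((R + 1) * (3 * exp (-(R / 4))) + exp (-(R / 2))) ≤ 1 / 100 ∧ W ≤ R / 4 ∧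
      1 + 2 * (κ * ε / 2) * W / (π - 1) + C * (3 * exp (-(R / 4)) + W * exp (-(R / 2))
        + W * ((R + 1) * (3 * exp (-(R / 4)))) ^ (5 / 4 : ℝ)
        + (κ * ε / 2) * W * (R + 1) * (3 * exp (-(R / 4)))) ≤ 1 + θ * ε * W := by
  have hπ : 0 < π - 1 := by linarith
  obtain ⟨k', hk'⟩ : ∃ k', k' = κ / (π - 1) := ⟨_, rfl⟩
  have hk0 : 0 < k' := by rw [hk']; positivity
  have hk1 : k' < 1 := by rw [hk', div_lt_one hπ]; exact h1
  obtain ⟨d, hd⟩ : ∃ d, d = (1 - k') / 2 := ⟨_, rfl⟩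
  have hd0 : 0 < d := by rw [hd]; linarith
  obtain ⟨W, hW⟩ : ∃ W, W = 20 + 3 * C * κ * C1 / d := ⟨_, rfl⟩
  have hW20 : 20 ≤ W := by rw [hW]; have : 0 < 3 * C * κ * C1 / d := by positivity
                           linarith
  have hWd : C * (κ / 2) * (3 * C1) ≤ d / 2 * W := by
    have : d * W = 20 * d + 3 * C * κ * C1 := by
      rw [hW]; field_simp
    nlinarith
  have hW0 : 0 < W := by linarith
  obtain ⟨μ, hμ⟩ : ∃ μ, μ = min (1 / 1000000) (d / (C * κ * (2 * C1 + 1))) := ⟨_, rfl⟩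
  have hμ0 : 0 < μ := by rw [hμ]; exact lt_min (by norm_num) (by positivity)
  have hμ1 : μ ≤ 1 / 1000000 := by rw [hμ]; exact min_le_left _ _
  have hμ2 : C * (κ / 2) * (2 * C1 + 1) * μ ≤ d / 2 := by
    have : μ ≤ d / (C * κ * (2 * C1 + 1)) := by rw [hμ]; exact min_le_right _ _
    rw [le_div_iff₀ (by positivity)] at this
    linarith
  obtain ⟨R2, hR2⟩ := end_large (W := W) hμ0
  refine ⟨W, k' + d, exp (-(R2 / 4)) / (C1 * κ), hW20, by linarith, by linarith,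
    by positivity, ?_⟩
  intro ε R hε hε1 hq
  have hR : R2 ≤ R := by
    have h2 : ε * (C1 * κ) ≤ exp (-(R2 / 4)) := by
      rwa [le_div_iff₀ (by positivity)] at hε1
    have h3 : exp (-(R / 4)) ≤ exp (-(R2 / 4)) := by
      have : 0 < C1 * κ * ε := by positivity
      linarith
    have := exp_le_exp.1 h3
    linarith
  obtain ⟨a1, a2, a3, a4⟩ := hR2 R hR
  obtain ⟨q, hqq⟩ : ∃ q, q = exp (-(R / 4)) := ⟨_, rfl⟩
  have hq0 : 0 < q := by rw [hqq]; exact exp_pos _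
  have hq2 : exp (-(R / 2)) = q * q := by
    rw [hqq, ← exp_add]; congr 1; ring
  rw [hq2]
  rw [← hqq] at a1 a2 hq ⊢
  have hqμ : q ≤ μ := by nlinarith
  obtain ⟨δ, hδ⟩ : ∃ δ, δ = κ * ε / 2 := ⟨_, rfl⟩
  have hδ0 : 0 < δ := by rw [hδ]; positivity
  rw [← hδ] at hq ⊢
  refine ⟨?_, a3, ?_⟩
  · have : q * q ≤ μ * 1 := mul_le_mul hqμ (by linarith) hq0.le hμ0.le
    nlinarith
  · obtain ⟨p, hp⟩ : ∃ p, p = ((R + 1) * (3 * q)) ^ (5 / 4 : ℝ) := ⟨_, rfl⟩
    rw [← hp] at a2 ⊢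
    have b1 : q * q ≤ μ * (C1 * δ) := mul_le_mul hqμ hq hq0.le hμ0.le
    have b2 : p ≤ μ * (C1 * δ) := a2.trans (mul_le_mul_of_nonneg_left hq hμ0.le)
    have b3 : δ * W * (R + 1) * (3 * q) ≤ δ * W * μ := by
      have : δ * W * (R + 1) * (3 * q) = δ * W * (3 * (R + 1) * q) := by ring
      rw [this]
      exact mul_le_mul_of_nonneg_left a1 (by positivity)
    have b4 : 3 * q + W * (q * q) + W * p + δ * W * (R + 1) * (3 * q) ≤
        δ * (3 * C1 + W * ((2 * C1 + 1) * μ)) := by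
      have := mul_le_mul_of_nonneg_left b1 hW0.le
      have := mul_le_mul_of_nonneg_left b2 hW0.le
      nlinarith
    have b5 : C * (3 * q + W * (q * q) + W * p + δ * W * (R + 1) * (3 * q)) ≤
        C * (δ * (3 * C1 + W * ((2 * C1 + 1) * μ))) := mul_le_mul_of_nonneg_left b4 hC.le
    have b6 : C * (δ * (3 * C1 + W * ((2 * C1 + 1) * μ))) =
        ε * (C * (κ / 2) * (3 * C1)) + ε * W * (C * (κ / 2) * (2 * C1 + 1) * μ) := by
      rw [hδ]; ring
    have b7 : ε * (C * (κ / 2) * (3 * C1)) ≤ ε * (d / 2 * W) :=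
      mul_le_mul_of_nonneg_left hWd hε.le
    have b8 : ε * W * (C * (κ / 2) * (2 * C1 + 1) * μ) ≤ ε * W * (d / 2) :=
      mul_le_mul_of_nonneg_left hμ2 (by positivity)
    have b9 : 2 * δ * W / (π - 1) = k' * ε * W := by
      rw [hδ, hk']; field_simp
    rw [b9]
    nlinarith

private theorem end_grow {f : ℂ → ℂ} (hf : Differentiable ℂ f) {W g s2 : ℝ} (hW : 0 < W)
    (h : ∀ s, s2 ≤ s → TM f (s + W) ≤ exp W * (1 + g * W) * TM f s) :
    ∃ C' : ℝ, ∀ᶠ s in atTop, TM f s ≤ C' * exp ((1 + g) * s) := by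
  have hb : ∀ s, s2 ≤ s → TM f (s + W) ≤ exp ((1 + g) * W) * TM f s := by
    intro s hs
    refine (h s hs).trans ?_
    have h1 : exp W * (1 + g * W) ≤ exp ((1 + g) * W) := by
      have : (1 + g) * W = W + g * W := by ring
      rw [this, exp_add]
      apply mul_le_mul_of_nonneg_left _ (exp_pos _).le
      have := add_one_le_exp (g * W)
      linarith
    exact mul_le_mul_of_nonneg_right h1 (TM_nonneg f s)
  have hn : ∀ n : ℕ, TM f (s2 + n * W) ≤ exp ((1 + g) * (n * W)) * TM f s2 := by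
    intro n
    induction n with
    | zero => simp
    | succ n ih =>
      have h1 := hb (s2 + n * W) (by have : 0 ≤ (n : ℝ) * W := by positivity
                                     linarith)
      have e1 : s2 + ((n + 1 : ℕ) : ℝ) * W = s2 + n * W + W := by push_cast; ring
      rw [e1]
      refine h1.trans ?_
      calc exp ((1 + g) * W) * TM f (s2 + n * W)
          ≤ exp ((1 + g) * W) * (exp ((1 + g) * (n * W)) * TM f s2) :=
            mul_le_mul_of_nonneg_left ih (exp_pos _).le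
        _ = exp ((1 + g) * (((n + 1 : ℕ) : ℝ) * W)) * TM f s2 := by
            rw [← mul_assoc, ← exp_add]
            congr 2
            push_cast; ring
  refine ⟨exp (|1 + g| * (|s2| + W) + |(1 + g) * s2|) * TM f s2, ?_⟩
  filter_upwards [eventually_ge_atTop s2] with s hs
  obtain ⟨n, hn'⟩ : ∃ n, n = ⌊(s - s2) / W⌋₊ := ⟨_, rfl⟩
  have h1 : (n : ℝ) ≤ (s - s2) / W := by
    rw [hn']; exact Nat.floor_le (div_nonneg (by linarith) hW.le)
  have h2 : (s - s2) / W < n + 1 := by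
    rw [hn']; exact Nat.lt_floor_add_one _
  rw [le_div_iff₀ hW] at h1
  rw [div_lt_iff₀ hW] at h2
  have h3 : TM f s ≤ TM f (s2 + ((n + 1 : ℕ) : ℝ) * W) := by
    apply TM_mono hf
    push_cast
    linarith
  refine (h3.trans (hn (n + 1))).trans ?_
  have h4 : exp (|1 + g| * (|s2| + W) + |(1 + g) * s2|) * TM f s2 * exp ((1 + g) * s) =
      exp (|1 + g| * (|s2| + W) + |(1 + g) * s2| + (1 + g) * s) * TM f s2 := by
    rw [exp_add _ ((1 + g) * s)]; ring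
  rw [h4]
  apply mul_le_mul_of_nonneg_right _ (TM_nonneg f s2)
  apply exp_le_exp.2
  -- `(n+1) W = (s - s2) + r`, `0 ≤ r ≤ W`
  have h5 : (((n + 1 : ℕ) : ℝ) * W) = (s - s2) + (((n : ℝ) + 1) * W - (s - s2)) := by
    push_cast; ring
  obtain ⟨r, hr⟩ : ∃ r, r = ((n : ℝ) + 1) * W - (s - s2) := ⟨_, rfl⟩
  have hr0 : 0 ≤ r := by rw [hr]; linarith
  have hrW : r ≤ W := by rw [hr]; linarith
  rw [h5, ← hr]
  have h6 : (1 + g) * (s - s2 + r) = (1 + g) * s - (1 + g) * s2 + (1 + g) * r := by ring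
  rw [h6]
  have h7 : (1 + g) * r ≤ |1 + g| * (|s2| + W) := by
    calc (1 + g) * r ≤ |1 + g| * r := mul_le_mul_of_nonneg_right (le_abs_self _) hr0
      _ ≤ |1 + g| * (|s2| + W) := mul_le_mul_of_nonneg_left (by
          have := abs_nonneg s2
          linarith) (abs_nonneg _)
  have h8 := neg_abs_le ((1 + g) * s2)
  linarith

theorem core {κ : ℝ} (h0 : 0 < κ) (h1 : κ < π - 1) : ∃ ε0 : ℝ, 0 < ε0 ∧ ∀ (f : ℂ → ℂ) (ε s0 : ℝ),
    Differentiable ℂ f → f 0 = 1 → 0 < ε → ε ≤ ε0 → Gr f (1 + ε) → ¬ HM f (κ * ε / 2) s0 := by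
  obtain ⟨C, hC, hfw⟩ := first_win
  obtain ⟨C1, δ0, ε0', hC1, hδ0, hε0', hreg⟩ := regime2
  obtain ⟨W, θ, ε1, hW20, hθ0, hθ1, hε1, hbr⟩ := end_bracket h0 h1 hC hC1
  refine ⟨min (min ε0' ε1) (min (2 * δ0 / κ) (1 / κ)), ?_, ?_⟩
  · exact lt_min (lt_min hε0' hε1) (lt_min (by positivity) (by positivity))
  intro f ε s0 hf hf0 hε hεle hGr hHM
  have l1 : ε ≤ ε0' := hεle.trans ((min_le_left _ _).trans (min_le_left _ _))
  have l2 : ε ≤ ε1 := hεle.trans ((min_le_left _ _).trans (min_le_right _ _))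
  have l3 : ε ≤ 2 * δ0 / κ := hεle.trans ((min_le_right _ _).trans (min_le_left _ _))
  have l4 : ε ≤ 1 / κ := hεle.trans ((min_le_right _ _).trans (min_le_right _ _))
  rw [le_div_iff₀ h0] at l3 l4
  have hδ : 0 < κ * ε / 2 := by positivity
  obtain ⟨R, s1, hR80, hq, _, hJ⟩ := hreg f (1 + ε) (κ * ε / 2) s0 hf hf0 (by linarith)
    (by linarith) hGr hδ (by linarith) hHM
  obtain ⟨k1, k2, k3⟩ := hbr ε R hε l2 hq
  -- `TM f` is large
  obtain ⟨s2, hs2⟩ : ∃ s2, exp R < TM f s2 := by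
    have h2 := hGr.2 0 (exp R) (by linarith)
    by_contra hcon
    push Not at hcon
    apply h2
    refine Eventually.of_forall fun s => ?_
    rw [zero_mul, exp_zero, mul_one]
    exact hcon s
  have key : ∀ s, max (max s0 s1) s2 ≤ s → TM f (s + W) ≤ exp W * (1 + (θ * ε) * W) * TM f s := by
    intro s hs
    have m0 : s0 ≤ s := ((le_max_left _ _).trans (le_max_left _ _)).trans hs
    have m1 : s1 ≤ s := ((le_max_right _ _).trans (le_max_left _ _)).trans hs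
    have m2 : s2 ≤ s := (le_max_right _ _).trans hs
    have hb : exp R ≤ TM f s := hs2.le.trans (TM_mono hf m2)
    have hw := win_of_J hf hf0 hR80 hJ m1 hb
    have h3 := hfw f s R (3 * exp (-(R / 4))) (κ * ε / 2) W hw hR80 hδ.le (by linarith)
      (fun t ht => hHM t (m0.trans ht)) k1 hW20 k2
    refine h3.trans ?_
    apply mul_le_mul_of_nonneg_right _ (TM_nonneg f s)
    exact mul_le_mul_of_nonneg_left k3 (exp_pos _).le
  obtain ⟨C', hC'⟩ := end_grow hf (by linarith) key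
  refine hGr.2 (1 + θ * ε) C' ?_ hC'
  nlinarith

end Pool.Agent.TX1
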