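import Pool.Agent.TX1.Regime
import Pool.Agent.TX1.Norm
import Pool.Agent.TX1.LogInt

/-!
# TX1, module Entry: from `D` to a normalised function, and the regime in the form for stage 2

* `entry`: if `D lam < -(2π c)`, `c > 0`, then there are `f1` entire, `f1 0 = 1`, of lower order `lam` (`Gr f1 lam`), and `c'' > c` with
  `min |f1| ≤ exp (-(c'' TM f1 s))` on all large circles.
* `regime_sig`: for every `σ > 0` there is `δ1 > 0`: if `lam ∈ [1, 1+δ1]` and `HM f δ s0`, `δ ≤ δ1`, then for all large `s`: `TN f s ≤ σ TM f s`,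
  `TM f (s+1) ≤ exp (1+σ) TM f s`, and `2π # {zeros in |z| ≤ exp s} ≤ σ TM f s` (for every factorisation of `f` on a larger disc).
-/

set_option autoImplicit false

namespace Pool.Agent.TX1

open Real MeasureTheory Set Filter Topology
open Pool.Agent.MML (Fe Ue mN minMod maxMod nevT lowerOrder minRatio grow_up grow_low mN_tendsto
  le_nevT)

/-- the minimum modulus is attained -/
theorem fin_minMod {f : ℂ → ℂ} (hf : Differentiable ℂ f) {r : ℝ} (hr : 0 ≤ r) :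
    ∃ z : ℂ, ‖z‖ = r ∧ ‖f z‖ = minMod f r := by
  have hc : IsCompact ((fun z => ‖f z‖) '' Metric.sphere (0 : ℂ) r) :=
    (isCompact_sphere (0 : ℂ) r).image hf.continuous.norm
  have hne : (Metric.sphere (0 : ℂ) r).Nonempty := NormedSpace.sphere_nonempty.mpr hr
  obtain ⟨z, hz, hz'⟩ := hc.sInf_mem (hne.image _)
  refine ⟨z, ?_, hz'⟩
  simpa using hz

/-- the sign of the ratio -/
theorem fin_ratio {m T x : ℝ} (hT : 0 < T)
    (h : ENNReal.log (ENNReal.ofReal m) / ((T : ℝ) : EReal) < (x : EReal)) :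
    m ≤ exp (x * T) := by
  have hT' : (0 : EReal) < ((T : ℝ) : EReal) := by exact_mod_cast hT
  rw [EReal.div_lt_iff hT' (EReal.coe_ne_top T), ← EReal.coe_mul, ENNReal.log_ofReal] at h
  by_cases hm : m ≤ 0
  · exact le_trans hm (exp_pos _).le
  · rw [if_neg hm] at h
    have h1 : log m < x * T := by exact_mod_cast h
    push Not at hm
    have h2 := (Real.log_lt_iff_lt_exp hm).mp h1
    exact h2.le

/-- from the upper limit of the ratio to a pointwise bound -/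
theorem fin_ev {f : ℂ → ℂ} (hf : Differentiable ℂ f) (hne : ¬ ∃ c, ∀ z, f z = c) {lam : ℝ}
    (hlam : 0 < lam) (hlo : lowerOrder f = ((lam : ℝ) : EReal)) {x c' : ℝ} (hc0 : 0 < c')
    (hx : c' < -x / (2 * π)) (hr : minRatio f < ((x : ℝ) : EReal)) :
    ∀ᶠ s in atTop, ∃ t, ‖f (pt s t)‖ ≤ exp (-(c' * TM f s)) := by
  have hev : ∀ᶠ r : ℝ in atTop,
      ENNReal.log (ENNReal.ofReal (minMod f r)) / ((nevT f r : ℝ) : EReal) < (x : EReal) :=
    Filter.eventually_lt_of_limsup_lt hr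
  have hlo' : lowerOrder f = ((lam * 1 : ℝ) : EReal) := by rw [hlo, mul_one]
  have hpi : 0 < π := Real.pi_pos
  have hM := mN_tendsto hf hne (one_pos) hlam hlo'
  set c2 : ℝ := -x / (2 * π) with hc2
  have htend : Tendsto (fun s : ℝ => exp (s / 1)) atTop atTop :=
    Real.tendsto_exp_atTop.comp (tendsto_id.atTop_div_const one_pos)
  have hlog2 : 0 ≤ log 2 := Real.log_nonneg (by norm_num)
  filter_upwards [htend.eventually hev,
    hM.eventually_ge_atTop ((c2 * (π * 1 * log 2)) / (c2 - c')),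
    hM.eventually_gt_atTop (π * 1 * log 2)] with s hs hs1 hs2
  have hT := le_nevT hf one_pos s
  have hMe : mN (π * 1) (Ue f 1 1) s = TM f s := rfl
  rw [hMe] at hT hs1 hs2
  set M : ℝ := TM f s with hMdef
  have hTpos : 0 < nevT f (exp (s / 1)) := by
    by_contra hn
    push Not at hn
    have : 2 * π * 1 * nevT f (exp (s / 1)) ≤ 0 :=
      mul_nonpos_of_nonneg_of_nonpos (by positivity) hn
    linarith
  have hm := fin_ratio hTpos hs
  obtain ⟨z, hz1, hz2⟩ := fin_minMod hf (exp_pos (s / 1)).le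
  refine ⟨Complex.arg z, ?_⟩
  have hFe : f (pt s (Complex.arg z)) = f z := by
    congr 1
    unfold pt
    rw [div_one] at hz1
    rw [Complex.exp_add, ← Complex.ofReal_exp, ← hz1]
    exact Complex.norm_mul_exp_arg_mul_I z
  rw [hFe, hz2]
  refine le_trans hm (Real.exp_le_exp.mpr ?_)
  have hc2pos : 0 < c2 := by linarith
  have hxT : x * nevT f (exp (s / 1)) = -(c2 * (2 * π * 1 * nevT f (exp (s / 1)))) := by
    rw [hc2]
    field_simp
  have hk : c2 * (π * 1 * log 2) ≤ M * (c2 - c') := by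
    have := (div_le_iff₀ (by linarith : 0 < c2 - c')).mp hs1
    linarith
  have hk2 : c2 * (M - π * 1 * log 2) ≤ c2 * (2 * π * 1 * nevT f (exp (s / 1))) :=
    mul_le_mul_of_nonneg_left (by linarith) hc2pos.le
  rw [hxT]
  nlinarith

/-- the growth condition -/
theorem fin_Gr {f : ℂ → ℂ} (hf : Differentiable ℂ f) (hne : ¬ ∃ c, ∀ z, f z = c) {lam : ℝ}
    (hlam : 0 < lam) (hlo : lowerOrder f = ((lam : ℝ) : EReal)) : Gr f lam := by
  have hlo' : lowerOrder f = ((lam * 1 : ℝ) : EReal) := by rw [hlo, mul_one]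
  constructor
  · intro ρ' c h1 h2
    exact grow_up hf hne one_pos hlam hlo' ρ' c h1 h2
  · intro ρ' C h1
    exact grow_low hf hne one_pos hlam hlo' ρ' C h1

/-- from `D` to a normalised function -/
theorem entry {lam c : ℝ} (hlam : 0 < lam) (hc : 0 < c)
    (hD : Pool.Agent.MML.D lam < ((-(2 * π * c) : ℝ) : EReal)) :
    ∃ (f : ℂ → ℂ) (c'' s0 : ℝ), Differentiable ℂ f ∧ f 0 = 1 ∧ c < c'' ∧ Gr f lam ∧
      ∀ s, s0 ≤ s → ∃ t, ‖f (pt s t)‖ ≤ exp (-(c'' * TM f s)) := by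
  unfold Pool.Agent.MML.D at hD
  simp only [iInf_lt_iff] at hD
  obtain ⟨f, hf, hne, hlo, hr⟩ := hD
  obtain ⟨x, hx1, hx2⟩ := EReal.lt_iff_exists_real_btwn.mp hr
  have hx3 : x < -(2 * π * c) := by exact_mod_cast hx2
  have hne0 : ∃ z, f z ≠ 0 := by
    by_contra hcon
    push Not at hcon
    exact hne ⟨0, hcon⟩
  have hpi : 0 < π := Real.pi_pos
  have hc2 : c < -x / (2 * π) := by
    rw [lt_div_iff₀ (by positivity)]
    nlinarith
  set c1 : ℝ := (c + -x / (2 * π)) / 2 with hc1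
  have h3 : c < c1 := by rw [hc1]; linarith
  have h4 : c1 < -x / (2 * π) := by rw [hc1]; linarith
  set c3 : ℝ := (c + c1) / 2 with hc3
  have h5 : c < c3 := by rw [hc3]; linarith
  have h6 : c3 < c1 := by rw [hc3]; linarith
  have hG := fin_Gr hf hne hlam hlo
  have hH := fin_ev hf hne hlam hlo (by linarith) h4 hx1
  obtain ⟨f1, hf1, hf10, hG1, hH1⟩ := norm_red hf hne0 hlam hG (by linarith : 0 < c3) h6 hH
  obtain ⟨s0, hs0⟩ := eventually_atTop.1 hH1
  exact ⟨f1, c3, s0, hf1, hf10, h5, hG1, fun s hs => hs0 s hs⟩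

theorem regime_sig {σ : ℝ} (hσ : 0 < σ) : ∃ δ1 : ℝ, 0 < δ1 ∧
    ∀ (f : ℂ → ℂ) (lam δ s0 : ℝ), Differentiable ℂ f → f 0 = 1 → 1 ≤ lam → lam ≤ 1 + δ1 → Gr f lam →
      0 ≤ δ → δ ≤ δ1 → HM f δ s0 → ∃ s1, ∀ s, s1 ≤ s → 1 ≤ TM f s ∧ TN f s ≤ σ * TM f s ∧
        TM f (s + 1) ≤ exp (1 + σ) * TM f s ∧
        ∀ (S : ℝ) (n : ℕ) (x y : Fin n → ℝ) (h : ℂ → ℂ), Fac f S n x y h → s + 1 ≤ S →
          2 * π * ((Finset.univ.filter (fun i => x i ≤ s)).card : ℝ) ≤ σ * TM f s := by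
  obtain ⟨R0, hR0, hreg⟩ := regime
  have h1 : Tendsto (fun R : ℝ => 1 / (R + 8)) atTop (𝓝 0) :=
    Tendsto.div_atTop tendsto_const_nhds (tendsto_atTop_add_const_right _ _ tendsto_id)
  have h2 : Tendsto (fun R : ℝ => 9 * exp (-(R / 4))) atTop (𝓝 (9 * 0)) := by
    apply Tendsto.const_mul
    apply Real.tendsto_exp_neg_atTop_nhds_zero.comp
    exact tendsto_id.atTop_div_const (by norm_num)
  rw [mul_zero] at h2
  obtain ⟨R, ⟨⟨h3, h4⟩, h5⟩⟩ := (((h1.eventually (gt_mem_nhds hσ)).and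
    (h2.eventually (gt_mem_nhds hσ))).and (eventually_ge_atTop R0)).exists
  obtain ⟨ε0, δ0, hε0, hδ0, hreg'⟩ := hreg R h5
  have hR80 : 80 ≤ R := hR0.trans h5
  refine ⟨min ε0 δ0, lt_min hε0 hδ0, ?_⟩
  intro f lam δ s0 hf h0 hl1 hl2 hG hδ1 hδ2 hH
  obtain ⟨s1, hJ⟩ := hreg' f lam δ s0 hf h0 hl1
    (hl2.trans (by have := min_le_left ε0 δ0; linarith)) hG hδ1 (hδ2.trans (min_le_right _ _)) hH
  obtain ⟨s2, hs2⟩ := Gr_large hf (by linarith) hG 1
  have hM0 := TM_nonneg f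
  refine ⟨max s1 s2, fun s hs => ?_⟩
  have hsa : s1 ≤ s := (le_max_left _ _).trans hs
  have hsb : s2 ≤ s := (le_max_right _ _).trans hs
  obtain ⟨j1, j2⟩ := hJ s hsa
  obtain ⟨j3, j4⟩ := hJ (s + 1) (by linarith)
  have hE := exp_pos (-(R / 4))
  refine ⟨hs2 s hsb, ?_, ?_, ?_⟩
  · have := hM0 s
    nlinarith
  · refine j1.trans ?_
    apply mul_le_mul_of_nonneg_right _ (hM0 s)
    exact exp_le_exp.2 (by linarith)
  · intro S n x y h hF hS
    have h6 := count hF hS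
    have h7 := reg_exp_le_three hR80
    have h8 : TM f (s + 1) ≤ 3 * TM f s :=
      j1.trans (mul_le_mul_of_nonneg_right h7 (hM0 s))
    calc _ ≤ TN f (s + 1) := h6
      _ ≤ 3 * exp (-(R / 4)) * TM f (s + 1) := j4
      _ ≤ 3 * exp (-(R / 4)) * (3 * TM f s) := by gcongr
      _ = 9 * exp (-(R / 4)) * TM f s := by ring
      _ ≤ σ * TM f s := mul_le_mul_of_nonneg_right h4.le (hM0 s)

end Pool.Agent.TX1
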