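import Pool.Agent.TX1.Near

/-!
# TX1, module Exc: any direction against the valley direction

`-u φ + u ψ = A exp t (cos (φ-ψ) - 1) + ∑ (ell (τ i)(ψ - y i) - ell (τ i)(φ - y i)) + errors`, `τ i = b + t - x i ≠ 0`; by periodicity `|φ-ψ| ≤ π`, `v = |φ-ψ|`:
`cos v - 1 ≤ -(2/π²) v²`, `ell_diff`: difference `≤ log (1 + v/(exp |τ i| - 1))`.  `V v = ∑ log (1 + v/(exp |τ i| - 1))` is nondecreasing in `v` and
`V v ≤ (v/x0) V x0` for `v ≥ x0` (concavity, `log (1+ v c) ≤ (v/x0) log (1 + x0 c)`), so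
`-q v² + V v ≤ V x0 + (V x0)²/(4 q x0²)`, `q = (2/π²) A exp t`.
-/

set_option autoImplicit false

namespace Pool.Agent.TX1

open Real MeasureTheory Set Filter Topology

variable {f : ℂ → ℂ} {b R σ : ℝ} {n : ℕ} {x y : Fin n → ℝ} {h : ℂ → ℂ} {A ψ : ℝ}

/-- the potential of the zeros -/
noncomputable def VV {n : ℕ} (x : Fin n → ℝ) (x0 s : ℝ) : ℝ := ∑ i, log (1 + x0 / (exp |s - x i| - 1))

theorem VV_nonneg {n : ℕ} (x : Fin n → ℝ) {x0 s : ℝ} (h0 : 0 ≤ x0) : 0 ≤ VV x x0 s := by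
  refine Finset.sum_nonneg fun i _ => log_nonneg ?_
  have h1 : 0 ≤ exp |s - x i| - 1 := by
    have := one_le_exp (abs_nonneg (s - x i))
    linarith
  have := div_nonneg h0 h1
  linarith

theorem exc_log_mono {v x0 c : ℝ} (hv : 0 ≤ v) (hvx : v ≤ x0) (hc : 0 ≤ c) :
    log (1 + v / c) ≤ log (1 + x0 / c) := by
  have h1 : 0 ≤ v / c := div_nonneg hv hc
  refine log_le_log (by linarith) ?_
  have := div_le_div_of_nonneg_right hvx hc
  linarith

theorem exc_log_lin {v x0 c : ℝ} (h0 : 0 < x0) (hvx : x0 ≤ v) (hc : 0 ≤ c) :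
    log (1 + v / c) ≤ v / x0 * log (1 + x0 / c) := by
  have h1 : 0 ≤ x0 / c := div_nonneg h0.le hc
  have h2 : 1 ≤ v / x0 := by rw [le_div_iff₀ h0]; linarith
  have h3 := one_add_mul_self_le_rpow_one_add (s := x0 / c) (by linarith) h2
  have h4 : v / x0 * (x0 / c) = v / c := by
    field_simp
  rw [h4] at h3
  have h5 : 0 ≤ v / c := div_nonneg (by linarith) hc
  have h6 := log_le_log (by linarith) h3
  rwa [log_rpow (by linarith)] at h6

/-- `log |f|` on the circle as a sum -/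
theorem log_eq_sum (hD : Dip f b R n x y h A ψ) (hR : 0 ≤ R) {t : ℝ} (htR : t ≤ R / 4)
    (hne : ∀ i, b + t ≠ x i) (θ : ℝ) :
    log ‖f (pt (b + t) θ)‖ = ∑ i, ell (b + t - x i) (θ - y i) + (h (pt (b + t) θ)).re := by
  have hz : ‖pt (b + t) θ‖ ≤ exp (b + R) := by
    rw [pt_norm]
    exact exp_le_exp.2 (by linarith)
  rw [hD.fac.hf _ hz, norm_mul, norm_prod, Complex.norm_exp]
  have hfac : ∀ i, 1 - pt (b + t) θ / pt (x i) (y i) = 1 - pt (b + t - x i) (θ - y i) :=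
    fun i => by rw [pt_div]
  have hne' : ∀ i, ‖1 - pt (b + t - x i) (θ - y i)‖ ≠ 0 := by
    intro i h0
    rw [norm_eq_zero, sub_eq_zero] at h0
    have h1 := congrArg (fun z : ℂ => ‖z‖) h0
    simp only [norm_one, pt_norm] at h1
    have h2 : b + t - x i = 0 := by
      rw [← exp_eq_one_iff]; exact h1.symm
    exact hne i (by linarith)
  rw [log_mul, log_exp, log_prod]
  · congr 1
    refine Finset.sum_congr rfl fun i _ => ?_
    rw [hfac i, ell]
  · intro i _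
    rw [hfac i]
    exact hne' i
  · rw [Finset.prod_ne_zero_iff]
    intro i _
    rw [hfac i]
    exact hne' i
  · exact (exp_pos _).ne'

theorem excess_aux (hD : Dip f b R n x y h A ψ) (hR : 40 ≤ R) {t : ℝ} (htR : t ≤ R / 4)
    (hne : ∀ i, b + t ≠ x i) (hA : 0 < A) {x0 : ℝ} (h0 : 0 < x0) (φ : ℝ) (hφ : |φ - ψ| ≤ π) :
    -log ‖f (pt (b + t) φ)‖ ≤ -log ‖f (pt (b + t) ψ)‖ + VV x x0 (b + t)
      + VV x x0 (b + t) ^ 2 / (4 * (2 / π ^ 2 * A * exp t) * x0 ^ 2) + 120 * exp (2 * t - R) * TM f b := by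
  rw [log_eq_sum hD (by linarith) htR hne, log_eq_sum hD (by linarith) htR hne]
  have e1 := (abs_le.1 (hD.err t ψ (by linarith))).2
  have e2 := (abs_le.1 (hD.err t φ (by linarith))).1
  rw [sub_self, cos_zero, mul_one] at e1
  have hcos := cos_le_one_sub_mul_cos_sq hφ
  set v : ℝ := |φ - ψ| with hv
  have hv0 : 0 ≤ v := abs_nonneg _
  have hv2 : (φ - ψ) ^ 2 = v ^ 2 := by rw [hv, sq_abs]
  rw [hv2] at hcos
  have hq : 0 < 2 / π ^ 2 * A * exp t := by positivity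
  set q : ℝ := 2 / π ^ 2 * A * exp t with hqd
  have hdip : A * exp t * cos (φ - ψ) ≤ A * exp t - q * v ^ 2 := by
    have h1 : 0 < A * exp t := by positivity
    have h2 := mul_le_mul_of_nonneg_left hcos h1.le
    have h3 : A * exp t * (1 - 2 / π ^ 2 * v ^ 2) = A * exp t - q * v ^ 2 := by
      rw [hqd]; ring
    linarith
  have hsum : ∑ i, ell (b + t - x i) (ψ - y i) - ∑ i, ell (b + t - x i) (φ - y i) ≤
      ∑ i, log (1 + v / (exp |b + t - x i| - 1)) := by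
    rw [← Finset.sum_sub_distrib]
    refine Finset.sum_le_sum fun i _ => ?_
    have h1 := ell_diff (τ := b + t - x i) (sub_ne_zero.2 (hne i)) (ψ - y i) (φ - y i)
    have h2 : |ψ - y i - (φ - y i)| = v := by
      rw [hv, abs_sub_comm φ ψ]
      congr 1
      ring
    rwa [h2] at h1
  have hVn : 0 ≤ VV x x0 (b + t) := VV_nonneg x h0.le
  set W : ℝ := VV x x0 (b + t) with hW
  have hmain : ∑ i, log (1 + v / (exp |b + t - x i| - 1)) - q * v ^ 2 ≤
      W + W ^ 2 / (4 * q * x0 ^ 2) := by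
    have hpos : 0 ≤ W ^ 2 / (4 * q * x0 ^ 2) := by positivity
    have hc : ∀ i, 0 ≤ exp |b + t - x i| - 1 := by
      intro i
      have := one_le_exp (abs_nonneg (b + t - x i))
      linarith
    rcases le_total v x0 with hle | hle
    · have h1 : ∑ i, log (1 + v / (exp |b + t - x i| - 1)) ≤ W :=
        Finset.sum_le_sum fun i _ => exc_log_mono hv0 hle (hc i)
      have h2 : 0 ≤ q * v ^ 2 := by positivity
      linarith
    · have h1 : ∑ i, log (1 + v / (exp |b + t - x i| - 1)) ≤ v / x0 * W := by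
        rw [hW, VV, Finset.mul_sum]
        exact Finset.sum_le_sum fun i _ => exc_log_lin h0 hle (hc i)
      have h2 : v / x0 * W ≤ q * v ^ 2 + W ^ 2 / (4 * q * x0 ^ 2) := by
        have h3 : q * v ^ 2 + W ^ 2 / (4 * q * x0 ^ 2) - v / x0 * W =
            (2 * q * x0 * v - W) ^ 2 / (4 * q * x0 ^ 2) := by
          field_simp
          ring
        have h4 : 0 ≤ (2 * q * x0 * v - W) ^ 2 / (4 * q * x0 ^ 2) := by positivity
        linarith
      linarith
  linarith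

theorem exc_per (s θ : ℝ) (k : ℤ) : pt s (θ - k * (2 * π)) = pt s θ := by
  unfold pt
  rw [Complex.exp_eq_exp_iff_exists_int]
  refine ⟨-k, ?_⟩
  push_cast
  ring

theorem exc_reduce (φ ψ : ℝ) : ∃ k : ℤ, |φ - k * (2 * π) - ψ| ≤ π := by
  refine ⟨round ((φ - ψ) / (2 * π)), ?_⟩
  have h1 := abs_sub_round ((φ - ψ) / (2 * π))
  have hpi := pi_pos
  have h2 : φ - (round ((φ - ψ) / (2 * π)) : ℝ) * (2 * π) - ψ =
      ((φ - ψ) / (2 * π) - round ((φ - ψ) / (2 * π))) * (2 * π) := by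
    field_simp
    ring
  rw [h2, abs_mul, abs_of_pos (by positivity : (0 : ℝ) < 2 * π)]
  nlinarith [h1, hpi]

theorem excess (hD : Dip f b R n x y h A ψ) (hR : 40 ≤ R) {t : ℝ} (htR : t ≤ R / 4)
    (hne : ∀ i, b + t ≠ x i) (hA : 0 < A) {x0 : ℝ} (h0 : 0 < x0) (φ : ℝ) :
    -log ‖f (pt (b + t) φ)‖ ≤ -log ‖f (pt (b + t) ψ)‖ + VV x x0 (b + t)
      + VV x x0 (b + t) ^ 2 / (4 * (2 / π ^ 2 * A * exp t) * x0 ^ 2) + 120 * exp (2 * t - R) * TM f b := by
  obtain ⟨k, hk⟩ := exc_reduce φ ψ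
  have := excess_aux hD hR htR hne hA h0 (φ - k * (2 * π)) hk
  rwa [exc_per] at this

end Pool.Agent.TX1
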