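import Pool.Agent.TX1.Exc

/-!
# TX1, module ExcInt: integral of the excess

`Λ τ = log (1 + x0/(exp |τ| - 1))`, `0 < x0 ≤ 1`, kernel `k1 τ = |τ|^{-1/2}` for `0 < |τ| ≤ 1`, plus `2 exp (-|τ|)` for all `τ`:
`Λ ≤ √x0 k1` (`log (1+y) ≤ √y` and `exp |τ| - 1 ≥ |τ|`; for `|τ| ≥ 1`: `Λ ≤ x0/(exp |τ| - 1) ≤ 1.6 x0 exp (-|τ|)`) and
`Λ² exp |τ| ≤ 7 √x0 k1` (`log² (1+y) ≤ 2.25 √y`).  Cauchy-Schwarz: `V² ≤ (∑ exp (-|τ i|)) (∑ Λ(τ i)² exp |τ i|) ≤ Ω A exp t * 7 √x0 ∑ k1 (τ i)`.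
So `V + V²/(4 (2/π²) A exp t x0²) ≤ (√x0 + 9 Ω x0^{-3/2}) ∑ k1 (τ i)`; `x0 = √Ω`: `≤ 10 Ω^{1/4} ∑ k1 (τ i)`.
`∫_0^T exp (-(at)) k1 (t - x) dt ≤ 33 exp (-max x 0)` for `a = 11/10`, `≤ (12 + 2T) exp (-max x 0)` for `a = 1`.
The integrand is measurable, and is continuous off the finite set `t = x i - b`; it is integrable because it is dominated by
a sum of `k1`.
-/

set_option autoImplicit false

namespace Pool.Agent.TX1

open Real MeasureTheory Set Filter Topology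

/-! ### the kernel -/

/-- the local singularity -/
noncomputable def ei_kap (u : ℝ) : ℝ := if |u| ≤ 1 then |u| ^ (-(1 / 2) : ℝ) else 0

/-- the kernel -/
noncomputable def ei_k1 (u : ℝ) : ℝ := ei_kap u + 2 * exp (-|u|)

theorem ei_kap_nonneg (u : ℝ) : 0 ≤ ei_kap u := by
  unfold ei_kap
  split_ifs
  · positivity
  · exact le_rfl

theorem ei_k1_nonneg (u : ℝ) : 0 ≤ ei_k1 u := by
  unfold ei_k1
  have := ei_kap_nonneg u
  positivity

/-- half of the local singularity -/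
noncomputable def ei_kaph (u : ℝ) : ℝ := (Ioc (0 : ℝ) 1).indicator (fun v => v ^ (-(1 / 2) : ℝ)) u

theorem ei_kap_eq (u : ℝ) : ei_kap u = ei_kaph u + ei_kaph (-u) := by
  unfold ei_kap ei_kaph
  rcases lt_trichotomy u 0 with h | h | h
  · rw [abs_of_neg h]
    rw [indicator_of_notMem (fun h' => absurd h'.1 (by linarith))]
    by_cases h1 : -u ≤ 1
    · rw [if_pos h1, indicator_of_mem (show -u ∈ Ioc (0 : ℝ) 1 from ⟨by linarith, h1⟩), zero_add]
    · rw [if_neg h1, indicator_of_notMem (fun h' => h1 h'.2), zero_add]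
  · subst h
    simp
  · rw [abs_of_pos h]
    rw [indicator_of_notMem (s := Ioc (0 : ℝ) 1) (a := -u) (fun h' => absurd h'.1 (by linarith))]
    by_cases h1 : u ≤ 1
    · rw [if_pos h1, indicator_of_mem (show u ∈ Ioc (0 : ℝ) 1 from ⟨h, h1⟩), add_zero]
    · rw [if_neg h1, indicator_of_notMem (fun h' => h1 h'.2), zero_add]

theorem ei_kaph_int : Integrable ei_kaph volume := by
  unfold ei_kaph
  rw [integrable_indicator_iff measurableSet_Ioc]
  have h := intervalIntegral.intervalIntegrable_rpow' (a := 0) (b := 1)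
    (show (-1 : ℝ) < -(1 / 2) by norm_num)
  rwa [intervalIntegrable_iff_integrableOn_Ioc_of_le (by norm_num)] at h

theorem ei_kaph_integral : ∫ u, ei_kaph u = 2 := by
  unfold ei_kaph
  rw [integral_indicator measurableSet_Ioc, ← intervalIntegral.integral_of_le (by norm_num),
    integral_rpow (Or.inl (by norm_num))]
  norm_num

theorem ei_kap_int : Integrable ei_kap volume := by
  have : ei_kap = fun u => ei_kaph u + ei_kaph (-u) := funext ei_kap_eq
  rw [this]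
  exact ei_kaph_int.add ei_kaph_int.comp_neg

theorem ei_kap_integral : ∫ u, ei_kap u = 4 := by
  have : ei_kap = fun u => ei_kaph u + ei_kaph (-u) := funext ei_kap_eq
  rw [this, integral_add ei_kaph_int ei_kaph_int.comp_neg, integral_neg_eq_self, ei_kaph_integral]
  norm_num

theorem ei_kap_ii (x T : ℝ) : IntervalIntegrable (fun t => ei_kap (t - x)) volume 0 T :=
  (ei_kap_int.comp_sub_right x).intervalIntegrable

theorem ei_kap_ile (x : ℝ) {T : ℝ} (hT : 0 ≤ T) : ∫ t in (0 : ℝ)..T, ei_kap (t - x) ≤ 4 := by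
  rw [intervalIntegral.integral_of_le hT]
  refine (setIntegral_le_integral (ei_kap_int.comp_sub_right x)
    (Eventually.of_forall fun t => ei_kap_nonneg _)).trans ?_
  rw [integral_sub_right_eq_self ei_kap x, ei_kap_integral]

/-! ### elementary bounds for the logarithm -/

theorem ei_log_one_add_le_sqrt {y : ℝ} (hy : 0 ≤ y) : log (1 + y) ≤ √y := by
  have hs := Real.sq_sqrt hy
  have hs0 := Real.sqrt_nonneg y
  rw [Real.log_le_iff_le_exp (by positivity)]
  have h3 := Real.sum_le_exp_of_nonneg hs0 5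
  simp only [Finset.sum_range_succ, Finset.sum_range_zero, Nat.factorial] at h3
  norm_num at h3
  set u := √y
  nlinarith [sq_nonneg (u - 1), mul_nonneg hs0 (sq_nonneg (u - 1)), mul_nonneg hs0 (sq_nonneg (u - 2)),
    mul_nonneg hs0 hs0, mul_nonneg hs0 (mul_nonneg hs0 hs0),
    mul_nonneg (mul_nonneg hs0 hs0) (mul_nonneg hs0 hs0)]

theorem ei_one_add_pow_le (u : ℝ) (hu : 0 ≤ u) : 1 + u ^ 4 ≤ exp (8 / 5 * u) := by
  have h3 := Real.sum_le_exp_of_nonneg (show 0 ≤ 8 / 5 * u by positivity) 7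
  simp only [Finset.sum_range_succ, Finset.sum_range_zero, Nat.factorial] at h3
  norm_num at h3
  refine le_trans ?_ h3
  have key : 0 ≤ u * (8 / 5 + 32 / 25 * u + 256 / 375 * u ^ 2 - 1363 / 1875 * u ^ 3
      + 4096 / 46875 * u ^ 4 + 16384 / 703125 * u ^ 5) := by
    apply mul_nonneg hu
    nlinarith [sq_nonneg (u - 2), mul_nonneg hu (sq_nonneg (u - 2)), sq_nonneg (u * (u - 2)),
      mul_nonneg hu (sq_nonneg (u * (u - 2))), mul_nonneg hu (sq_nonneg (u * (u - 3))),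
      mul_nonneg hu hu, mul_nonneg hu (mul_nonneg hu hu), sq_nonneg (u * (u - 3)),
      mul_nonneg hu (sq_nonneg (u - 3))]
  nlinarith [key]

theorem ei_log_sq_le {y : ℝ} (hy : 0 ≤ y) : log (1 + y) ^ 2 ≤ 64 / 25 * √y := by
  set u := √(√y) with hu
  have hu0 : 0 ≤ u := Real.sqrt_nonneg _
  have h2 : u ^ 2 = √y := Real.sq_sqrt (Real.sqrt_nonneg _)
  have h4 : u ^ 4 = y := by
    calc u ^ 4 = (u ^ 2) ^ 2 := by ring
      _ = y := by rw [h2, Real.sq_sqrt hy]
  have h5 := ei_one_add_pow_le u hu0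
  rw [h4] at h5
  have h6 : log (1 + y) ≤ 8 / 5 * u := by
    rw [Real.log_le_iff_le_exp (by positivity)]
    exact h5
  have h7 : 0 ≤ log (1 + y) := Real.log_nonneg (by linarith)
  calc log (1 + y) ^ 2 ≤ (8 / 5 * u) ^ 2 := pow_le_pow_left₀ h7 h6 2
    _ = 64 / 25 * u ^ 2 := by ring
    _ = _ := by rw [h2]

/-! ### the function `Λ` -/

/-- the function `Λ` -/
noncomputable def ei_La (x0 u : ℝ) : ℝ := log (1 + x0 / (exp |u| - 1))

theorem ei_VV_eq {n : ℕ} (x : Fin n → ℝ) (x0 s : ℝ) : VV x x0 s = ∑ i, ei_La x0 (s - x i) := rfl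

theorem ei_exp_abs_sub_nonneg (u : ℝ) : 0 ≤ exp |u| - 1 := by
  have := Real.one_le_exp (abs_nonneg u)
  linarith

theorem ei_La_nonneg {x0 : ℝ} (h0 : 0 ≤ x0) (u : ℝ) : 0 ≤ ei_La x0 u := by
  unfold ei_La
  apply Real.log_nonneg
  have := ei_exp_abs_sub_nonneg u
  have : 0 ≤ x0 / (exp |u| - 1) := by positivity
  linarith

theorem ei_La_bounds {x0 : ℝ} (h0 : 0 ≤ x0) (h1 : x0 ≤ 1) (u : ℝ) :
    ei_La x0 u ≤ √x0 * ei_k1 u ∧ ei_La x0 u ^ 2 * exp |u| ≤ 7 * √x0 * ei_k1 u := by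
  have hk := ei_k1_nonneg u
  have hsx := Real.sqrt_nonneg x0
  have hxs : x0 ≤ √x0 := by
    have := Real.sq_sqrt h0
    have h2 : √x0 ≤ 1 := Real.sqrt_le_one.mpr h1
    nlinarith
  rcases eq_or_ne u 0 with rfl | hu
  · have : ei_La x0 0 = 0 := by simp [ei_La]
    rw [this]
    constructor
    · positivity
    · have : 0 ≤ 7 * √x0 * ei_k1 0 := by positivity
      simpa using this
  have hau : 0 < |u| := abs_pos.mpr hu
  set y := x0 / (exp |u| - 1) with hy
  have hyL : ei_La x0 u = log (1 + y) := rfl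
  have hE : |u| ≤ exp |u| - 1 := by
    have := Real.add_one_le_exp |u|
    linarith
  have hy0 : 0 ≤ y := by
    have := ei_exp_abs_sub_nonneg u
    rw [hy]; positivity
  rcases le_or_gt |u| 1 with h | h
  · have hkap : ei_kap u = |u| ^ (-(1 / 2) : ℝ) := if_pos h
    have hyx : y ≤ x0 / |u| := by
      rw [hy]
      gcongr
    have hsy : √y ≤ √x0 * ei_kap u := by
      calc √y ≤ √(x0 / |u|) := Real.sqrt_le_sqrt hyx
        _ = √x0 * ei_kap u := by
          rw [hkap, Real.sqrt_div h0, Real.rpow_neg hau.le, ← Real.sqrt_eq_rpow, div_eq_mul_inv]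
    have hkk : √x0 * ei_kap u ≤ √x0 * ei_k1 u := by
      apply mul_le_mul_of_nonneg_left _ hsx
      unfold ei_k1
      have := Real.exp_pos (-|u|)
      linarith
    constructor
    · rw [hyL]
      exact (ei_log_one_add_le_sqrt hy0).trans (hsy.trans hkk)
    · rw [hyL]
      have h2 := ei_log_sq_le hy0
      have h3 : exp |u| ≤ 2.7182818286 := by
        calc exp |u| ≤ exp 1 := Real.exp_le_exp.mpr h
          _ ≤ _ := Real.exp_one_lt_d9.le
      calc log (1 + y) ^ 2 * exp |u| ≤ (64 / 25 * (√x0 * ei_k1 u)) * 2.7182818286 := by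
            apply mul_le_mul _ h3 (Real.exp_pos _).le (by positivity)
            refine h2.trans ?_
            gcongr
            exact hsy.trans hkk
        _ ≤ 7 * (√x0 * ei_k1 u) := by
            have : 0 ≤ √x0 * ei_k1 u := by positivity
            nlinarith
        _ = _ := by ring
  · have he : exp 1 ≤ exp |u| := Real.exp_le_exp.mpr h.le
    have he1 := Real.exp_one_gt_d9
    have hD : 5 / 8 * exp |u| ≤ exp |u| - 1 := by linarith
    have hem : exp (-|u|) * exp |u| = 1 := by rw [← Real.exp_add]; simp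
    have hep := Real.exp_pos (-|u|)
    have hep' := Real.exp_pos |u|
    have hyx : y ≤ 8 / 5 * x0 * exp (-|u|) := by
      rw [hy, div_le_iff₀ (by linarith)]
      have h3 : 8 / 5 * x0 * exp (-|u|) * (5 / 8 * exp |u|) ≤
          8 / 5 * x0 * exp (-|u|) * (exp |u| - 1) := by gcongr
      have h4 : 8 / 5 * x0 * exp (-|u|) * (5 / 8 * exp |u|) = x0 := by
        linear_combination x0 * hem
      linarith
    have hk2 : 2 * exp (-|u|) ≤ ei_k1 u := by
      unfold ei_k1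
      have := ei_kap_nonneg u
      linarith
    have hL : ei_La x0 u ≤ y := by
      rw [hyL]
      have := Real.log_le_sub_one_of_pos (show (0 : ℝ) < 1 + y by linarith)
      linarith
    have hL0 := ei_La_nonneg h0 u
    have hb : √x0 * (2 * exp (-|u|)) ≤ √x0 * ei_k1 u := by gcongr
    constructor
    · refine hL.trans (hyx.trans (le_trans ?_ hb))
      nlinarith [mul_le_mul_of_nonneg_right hxs hep.le, mul_nonneg h0 hep.le]
    · have h5 : ei_La x0 u ^ 2 ≤ (8 / 5 * x0 * exp (-|u|)) ^ 2 :=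
        pow_le_pow_left₀ hL0 (hL.trans hyx) 2
      have h6 : x0 ^ 2 ≤ √x0 := by nlinarith
      calc ei_La x0 u ^ 2 * exp |u| ≤ (8 / 5 * x0 * exp (-|u|)) ^ 2 * exp |u| := by gcongr
        _ = 64 / 25 * x0 ^ 2 * exp (-|u|) := by
            linear_combination (64 / 25 * x0 ^ 2 * exp (-|u|)) * hem
        _ ≤ 64 / 25 * √x0 * exp (-|u|) := by gcongr
        _ ≤ 7 * (√x0 * (2 * exp (-|u|))) := by
            nlinarith [mul_nonneg hsx hep.le]
        _ ≤ 7 * (√x0 * ei_k1 u) := by gcongr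
        _ = _ := by ring

/-! ### the excess -/

/-- the excess function with `x0 = √Ω` -/
noncomputable def Ex {n : ℕ} (x : Fin n → ℝ) (b A Ω t : ℝ) : ℝ :=
  VV x (√Ω) (b + t) + VV x (√Ω) (b + t) ^ 2 / (4 * (2 / π ^ 2 * A * exp t) * √Ω ^ 2)

/-- the sum of the kernels -/
noncomputable def ei_KK {n : ℕ} (x : Fin n → ℝ) (b t : ℝ) : ℝ := ∑ i, ei_k1 (b + t - x i)

theorem ei_KK_nonneg {n : ℕ} (x : Fin n → ℝ) (b t : ℝ) : 0 ≤ ei_KK x b t :=
  Finset.sum_nonneg fun _ _ => ei_k1_nonneg _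

theorem ei_VV_le {n : ℕ} (x : Fin n → ℝ) {x0 : ℝ} (b t : ℝ) (h0 : 0 ≤ x0) (h1 : x0 ≤ 1) :
    VV x x0 (b + t) ≤ √x0 * ei_KK x b t := by
  rw [ei_VV_eq, ei_KK, Finset.mul_sum]
  exact Finset.sum_le_sum fun i _ => (ei_La_bounds h0 h1 _).1

theorem ei_La_sq_sum {n : ℕ} (x : Fin n → ℝ) {x0 : ℝ} (b t : ℝ) (h0 : 0 ≤ x0) (h1 : x0 ≤ 1) :
    ∑ i, ei_La x0 (b + t - x i) ^ 2 * exp |b + t - x i| ≤ 7 * √x0 * ei_KK x b t := by
  rw [ei_KK, Finset.mul_sum]
  exact Finset.sum_le_sum fun i _ => (ei_La_bounds h0 h1 _).2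

theorem ei_VV0 {n : ℕ} (x : Fin n → ℝ) {x0 s : ℝ} (h0 : 0 ≤ x0) : 0 ≤ VV x x0 s := by
  rw [ei_VV_eq]
  exact Finset.sum_nonneg fun _ _ => ei_La_nonneg h0 _

theorem ei_VV_sq_le {n : ℕ} (x : Fin n → ℝ) {x0 : ℝ} (b t : ℝ) (h0 : 0 ≤ x0) (h1 : x0 ≤ 1) :
    VV x x0 (b + t) ^ 2 ≤ (∑ i, exp (-|b + t - x i|)) * (7 * √x0 * ei_KK x b t) := by
  have h := Finset.sum_sq_le_sum_mul_sum_of_sq_le_mul (Finset.univ : Finset (Fin n))
    (r := fun i => ei_La x0 (b + t - x i)) (f := fun i => exp (-|b + t - x i|))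
    (g := fun i => ei_La x0 (b + t - x i) ^ 2 * exp |b + t - x i|)
    (fun i _ => (Real.exp_pos _).le) (fun i _ => by positivity)
    (fun i _ => by
      have : exp (-|b + t - x i|) * exp |b + t - x i| = 1 := by rw [← Real.exp_add]; simp
      apply le_of_eq
      linear_combination (-(ei_La x0 (b + t - x i)) ^ 2) * this)
  rw [ei_VV_eq]
  refine h.trans ?_
  apply mul_le_mul_of_nonneg_left (ei_La_sq_sum x b t h0 h1)
  exact Finset.sum_nonneg fun _ _ => (Real.exp_pos _).le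

theorem ei_sqrt_sqrt_eq {Ω : ℝ} (hΩ : 0 < Ω) : √(√Ω) = Ω ^ (1 / 4 : ℝ) := by
  rw [Real.sqrt_eq_rpow, Real.sqrt_eq_rpow, ← Real.rpow_mul hΩ.le]
  norm_num

theorem ei_Ex_nonneg {n : ℕ} (x : Fin n → ℝ) {b A Ω t : ℝ} (hA : 0 < A) (hΩ : 0 < Ω) :
    0 ≤ Ex x b A Ω t := by
  unfold Ex
  have h1 := ei_VV0 x (s := b + t) (Real.sqrt_nonneg Ω)
  have h2 : 0 < √Ω := Real.sqrt_pos.mpr hΩ
  positivity

theorem ei_Ex_le {n : ℕ} (x : Fin n → ℝ) {b A Ω t : ℝ} (hA : 0 < A) (hΩ : 0 < Ω) (hΩ1 : Ω ≤ 1)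
    (hs : ∑ i, exp (-|b + t - x i|) ≤ Ω * A * exp t) :
    Ex x b A Ω t ≤ 10 * Ω ^ (1 / 4 : ℝ) * ei_KK x b t := by
  have h0 : 0 < √Ω := Real.sqrt_pos.mpr hΩ
  have h1 : √Ω ≤ 1 := Real.sqrt_le_one.mpr hΩ1
  have hV := ei_VV_le x b t h0.le h1
  have hV2 := ei_VV_sq_le x b t h0.le h1
  have hK := ei_KK_nonneg x b t
  rw [ei_sqrt_sqrt_eq hΩ] at hV hV2
  set w := Ω ^ (1 / 4 : ℝ) with hw
  have hw0 : 0 < w := Real.rpow_pos_of_pos hΩ _
  have he := Real.exp_pos t
  have hpi := Real.pi_pos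
  have hpi2 := Real.pi_lt_d2
  unfold Ex
  rw [Real.sq_sqrt hΩ.le]
  have h3 : VV x (√Ω) (b + t) ^ 2 ≤ Ω * A * exp t * (7 * w * ei_KK x b t) := by
    refine hV2.trans ?_
    gcongr
  have h4 : VV x (√Ω) (b + t) ^ 2 / (4 * (2 / π ^ 2 * A * exp t) * Ω) ≤ 9 * w * ei_KK x b t := by
    rw [div_le_iff₀ (by positivity)]
    refine h3.trans ?_
    have h5 : π ^ 2 ≤ 9.9225 := by nlinarith
    have h6 : (7 : ℝ) ≤ 72 / π ^ 2 := by
      rw [le_div_iff₀ (by positivity)]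
      linarith
    have h7 : 9 * w * ei_KK x b t * (4 * (2 / π ^ 2 * A * exp t) * Ω) =
        (72 / π ^ 2) * (Ω * A * exp t * (w * ei_KK x b t)) := by ring
    have h8 : Ω * A * exp t * (7 * w * ei_KK x b t) = 7 * (Ω * A * exp t * (w * ei_KK x b t)) := by ring
    rw [h7, h8]
    gcongr
  linarith

theorem ei_Ex_le' {n : ℕ} (x : Fin n → ℝ) {b A Ω t : ℝ} (hA : 0 < A) (hΩ : 0 < Ω) (hΩ1 : Ω ≤ 1)
    (ht : 0 ≤ t) :
    Ex x b A Ω t ≤ (1 + n * 7 / (4 * (2 / π ^ 2 * A) * Ω)) * ei_KK x b t := by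
  have h0 : 0 < √Ω := Real.sqrt_pos.mpr hΩ
  have h1 : √Ω ≤ 1 := Real.sqrt_le_one.mpr hΩ1
  have hV := ei_VV_le x b t h0.le h1
  have hV2 := ei_VV_sq_le x b t h0.le h1
  have hK := ei_KK_nonneg x b t
  have hs1 : √(√Ω) ≤ 1 := Real.sqrt_le_one.mpr h1
  have hs0 := Real.sqrt_nonneg (√Ω)
  have he : 1 ≤ exp t := Real.one_le_exp ht
  have hpi := Real.pi_pos
  unfold Ex
  rw [Real.sq_sqrt hΩ.le]
  have hsum : ∑ i, exp (-|b + t - x i|) ≤ (n : ℝ) := by
    calc ∑ i, exp (-|b + t - x i|) ≤ ∑ i : Fin n, (1 : ℝ) := by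
          refine Finset.sum_le_sum fun i _ => ?_
          rw [Real.exp_le_one_iff]
          have := abs_nonneg (b + t - x i)
          linarith
      _ = n := by simp
  have h3 : VV x (√Ω) (b + t) ^ 2 ≤ n * (7 * ei_KK x b t) := by
    refine hV2.trans ?_
    have h4 : 7 * √(√Ω) * ei_KK x b t ≤ 7 * ei_KK x b t := by nlinarith [mul_nonneg hs0 hK]
    exact mul_le_mul hsum h4 (by positivity) (by positivity)
  have h4 : VV x (√Ω) (b + t) ≤ ei_KK x b t := by nlinarith [mul_nonneg hs0 hK]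
  have h5 : VV x (√Ω) (b + t) ^ 2 / (4 * (2 / π ^ 2 * A * exp t) * Ω) ≤
      n * (7 * ei_KK x b t) / (4 * (2 / π ^ 2 * A) * Ω) := by
    apply div_le_div₀ (by positivity) h3 (by positivity)
    have : 2 / π ^ 2 * A ≤ 2 / π ^ 2 * A * exp t := by
      have : 0 < 2 / π ^ 2 * A := by positivity
      nlinarith
    gcongr
  have h6 : (1 + n * 7 / (4 * (2 / π ^ 2 * A) * Ω)) * ei_KK x b t =
      ei_KK x b t + n * (7 * ei_KK x b t) / (4 * (2 / π ^ 2 * A) * Ω) := by ring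
  rw [h6]
  linarith

theorem ei_Ex_meas {n : ℕ} (x : Fin n → ℝ) (b A Ω : ℝ) : Measurable fun t => Ex x b A Ω t := by
  unfold Ex VV
  fun_prop

theorem ei_ii_sum {n : ℕ} {T : ℝ} (f : Fin n → ℝ → ℝ) (h : ∀ i, IntervalIntegrable (f i) volume 0 T) :
    IntervalIntegrable (fun t => ∑ i, f i t) volume 0 T := by
  have h1 := IntervalIntegrable.sum Finset.univ (f := f) (fun i _ => h i)
  have e : (∑ i, f i) = fun t => ∑ i, f i t := by
    funext t
    simp
  rwa [e] at h1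

theorem ei_KK_ii {n : ℕ} (x : Fin n → ℝ) (b T : ℝ) : IntervalIntegrable (fun t => ei_KK x b t) volume 0 T := by
  have h : (fun t => ei_KK x b t) = fun t => ∑ i, (ei_kap (t - (x i - b)) + 2 * exp (-|t - (x i - b)|)) := by
    funext t
    unfold ei_KK ei_k1
    refine Finset.sum_congr rfl fun i _ => ?_
    have : b + t - x i = t - (x i - b) := by ring
    rw [this]
  rw [h]
  refine ei_ii_sum (fun i t => ei_kap (t - (x i - b)) + 2 * exp (-|t - (x i - b)|)) fun i => ?_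
  refine (ei_kap_ii _ _).add ?_
  apply Continuous.intervalIntegrable
  fun_prop

theorem Ex_ii {n : ℕ} (x : Fin n → ℝ) {b A Ω a T : ℝ} (hA : 0 < A) (hΩ : 0 < Ω) (hΩ1 : Ω ≤ 1) (hT : 0 ≤ T) :
    IntervalIntegrable (fun t => exp (-(a * t)) * Ex x b A Ω t) volume 0 T := by
  set C : ℝ := 1 + n * 7 / (4 * (2 / π ^ 2 * A) * Ω) with hC
  have hC0 : 0 ≤ C := by
    have := Real.pi_pos
    rw [hC]; positivity
  have h1 : IntervalIntegrable (fun t => exp (|a| * T) * (C * ei_KK x b t)) volume 0 T :=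
    ((ei_KK_ii x b T).const_mul C).const_mul _
  refine h1.mono_fun ?_ ?_
  · apply Measurable.aestronglyMeasurable
    have := ei_Ex_meas x b A Ω
    fun_prop
  · rw [EventuallyLE, ae_restrict_iff' measurableSet_uIoc]
    refine Eventually.of_forall fun t ht => ?_
    rw [uIoc_of_le hT] at ht
    have hE := ei_Ex_le' x (b := b) hA hΩ hΩ1 ht.1.le
    have hE0 := ei_Ex_nonneg x (b := b) (t := t) hA hΩ
    have hK := ei_KK_nonneg x b t
    rw [Real.norm_eq_abs, Real.norm_eq_abs, abs_of_nonneg (by positivity),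
      abs_of_nonneg (by positivity)]
    have h2 : exp (-(a * t)) ≤ exp (|a| * T) := by
      rw [Real.exp_le_exp]
      have h3 : -a ≤ |a| := neg_le_abs a
      have h4 : 0 ≤ |a| := abs_nonneg a
      nlinarith [ht.1, ht.2, mul_le_mul_of_nonneg_right h3 ht.1.le,
        mul_le_mul_of_nonneg_left ht.2 h4]
    exact mul_le_mul h2 hE hE0 (Real.exp_pos _).le

theorem ei_kernel_pt {a t y : ℝ} (ha : 1 ≤ a) (ht : 0 ≤ t) :
    exp (-(a * t)) * ei_k1 (t - y) ≤
      exp (-max y 0) * (exp 1 * ei_kap (t - y) + 2 * exp (-((a - 1) * t))) := by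
  have h1 : exp (-(a * t)) * ei_kap (t - y) ≤ exp (-max y 0) * (exp 1 * ei_kap (t - y)) := by
    rcases le_or_gt |t - y| 1 with h | h
    · have hm : max y 0 ≤ t + 1 := by
        apply max_le
        · have := (abs_le.mp h).1
          linarith
        · linarith
      have h2 : exp (-(a * t)) ≤ exp (-max y 0) * exp 1 := by
        rw [← Real.exp_add, Real.exp_le_exp]
        nlinarith
      have := ei_kap_nonneg (t - y)
      calc exp (-(a * t)) * ei_kap (t - y) ≤ (exp (-max y 0) * exp 1) * ei_kap (t - y) := by gcongr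
        _ = _ := by ring
    · have : ei_kap (t - y) = 0 := if_neg (not_le.mpr h)
      rw [this]
      simp
  have h2 : exp (-(a * t)) * exp (-|t - y|) ≤ exp (-max y 0) * exp (-((a - 1) * t)) := by
    rw [← Real.exp_add, ← Real.exp_add, Real.exp_le_exp]
    have hm : max y 0 ≤ t + |t - y| := by
      apply max_le
      · have := neg_abs_le (t - y)
        linarith
      · positivity
    nlinarith
  unfold ei_k1
  nlinarith

theorem ei_Ex_gen {n : ℕ} (x : Fin n → ℝ) {b A Ω a T J : ℝ} (hA : 0 < A) (hΩ : 0 < Ω) (hΩ1 : Ω ≤ 1)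
    (hT : 0 ≤ T) (ha : 1 ≤ a) (hJ : ∫ t in (0 : ℝ)..T, exp (-((a - 1) * t)) ≤ J)
    (hs : ∀ t, 0 ≤ t → t ≤ T → ∑ i, exp (-|b + t - x i|) ≤ Ω * A * exp t) :
    ∫ t in (0 : ℝ)..T, exp (-(a * t)) * Ex x b A Ω t ≤
      10 * (12 + 2 * J) * Ω ^ (1 / 4 : ℝ) * ∑ i, exp (-max (x i - b) 0) := by
  set w := Ω ^ (1 / 4 : ℝ) with hw
  have hw0 : 0 < w := Real.rpow_pos_of_pos hΩ _
  have hii : ∀ i, IntervalIntegrable (fun t => exp 1 * ei_kap (t - (x i - b)) +
      2 * exp (-((a - 1) * t))) volume 0 T := fun i => by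
    refine ((ei_kap_ii _ _).const_mul _).add ?_
    apply Continuous.intervalIntegrable
    fun_prop
  have hF : IntervalIntegrable (fun t => 10 * w * ∑ i, exp (-max (x i - b) 0) *
      (exp 1 * ei_kap (t - (x i - b)) + 2 * exp (-((a - 1) * t)))) volume 0 T := by
    apply IntervalIntegrable.const_mul
    exact ei_ii_sum (fun i t => exp (-max (x i - b) 0) *
      (exp 1 * ei_kap (t - (x i - b)) + 2 * exp (-((a - 1) * t)))) fun i => (hii i).const_mul _
  refine (intervalIntegral.integral_mono_on hT (Ex_ii x hA hΩ hΩ1 hT) hF ?_).trans ?_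
  · intro t ht
    have h1 := ei_Ex_le x hA hΩ hΩ1 (hs t ht.1 ht.2)
    calc exp (-(a * t)) * Ex x b A Ω t ≤ exp (-(a * t)) * (10 * w * ei_KK x b t) := by gcongr
      _ = 10 * w * ∑ i, exp (-(a * t)) * ei_k1 (t - (x i - b)) := by
          unfold ei_KK
          rw [Finset.mul_sum, Finset.mul_sum, Finset.mul_sum]
          refine Finset.sum_congr rfl fun i _ => ?_
          have : b + t - x i = t - (x i - b) := by ring
          rw [this]
          ring
      _ ≤ _ := by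
          apply mul_le_mul_of_nonneg_left _ (by positivity)
          exact Finset.sum_le_sum fun i _ => ei_kernel_pt ha ht.1
  · rw [intervalIntegral.integral_const_mul,
      intervalIntegral.integral_finsetSum (fun i _ => (hii i).const_mul _)]
    simp only [intervalIntegral.integral_const_mul]
    have h2 : ∀ i ∈ (Finset.univ : Finset (Fin n)), exp (-max (x i - b) 0) *
        (∫ t in (0 : ℝ)..T, (exp 1 * ei_kap (t - (x i - b)) + 2 * exp (-((a - 1) * t)))) ≤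
        exp (-max (x i - b) 0) * (12 + 2 * J) := by
      intro i _
      gcongr
      rw [intervalIntegral.integral_add ((ei_kap_ii _ _).const_mul _)
        (by apply Continuous.intervalIntegrable; fun_prop),
        intervalIntegral.integral_const_mul, intervalIntegral.integral_const_mul]
      have h3 := ei_kap_ile (x i - b) hT
      have h4 := Real.exp_one_lt_d9
      have h5 : exp 1 * ∫ t in (0 : ℝ)..T, ei_kap (t - (x i - b)) ≤ exp 1 * 4 := by gcongr
      linarith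
    calc 10 * w * ∑ i, exp (-max (x i - b) 0) *
        (∫ t in (0 : ℝ)..T, (exp 1 * ei_kap (t - (x i - b)) + 2 * exp (-((a - 1) * t))))
        ≤ 10 * w * ∑ i, exp (-max (x i - b) 0) * (12 + 2 * J) := by
          gcongr 10 * w * ?_
          exact Finset.sum_le_sum h2
      _ = _ := by
          rw [← Finset.sum_mul]
          ring

theorem Ex_int {n : ℕ} (x : Fin n → ℝ) {b A Ω T : ℝ} (hA : 0 < A) (hΩ : 0 < Ω) (hΩ1 : Ω ≤ 1) (hT : 0 ≤ T)
    (hs : ∀ t, 0 ≤ t → t ≤ T → ∑ i, exp (-|b + t - x i|) ≤ Ω * A * exp t) :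
    ∫ t in (0 : ℝ)..T, exp (-(11 / 10 * t)) * Ex x b A Ω t ≤
      330 * Ω ^ (1 / 4 : ℝ) * ∑ i, exp (-max (x i - b) 0) := by
  have hJ : ∫ t in (0 : ℝ)..T, exp (-((11 / 10 - 1) * t)) ≤ 10 := by
    have h1 : ∀ t : ℝ, HasDerivAt (fun t => -10 * exp (-((11 / 10 - 1) * t)))
        (exp (-((11 / 10 - 1) * t))) t := by
      intro t
      have h2 : HasDerivAt (fun t : ℝ => -((11 / 10 - 1) * t)) (-((11 / 10 - 1) * 1)) t :=
        ((hasDerivAt_id t).const_mul _).neg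
      have h3 := (h2.exp).const_mul (-10 : ℝ)
      have h4 : -10 * (exp (-((11 / 10 - 1) * t)) * -((11 / 10 - 1) * 1)) =
          exp (-((11 / 10 - 1) * t)) := by ring
      rw [h4] at h3
      exact h3
    rw [intervalIntegral.integral_eq_sub_of_hasDerivAt (fun t _ => h1 t)
      (by apply Continuous.intervalIntegrable; fun_prop)]
    have := Real.exp_pos (-((11 / 10 - 1) * T))
    simp only [mul_zero, neg_zero, Real.exp_zero]
    linarith
  have h := ei_Ex_gen x hA hΩ hΩ1 hT (by norm_num) hJ hs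
  refine h.trans ?_
  have h0 : 0 < Ω ^ (1 / 4 : ℝ) := Real.rpow_pos_of_pos hΩ _
  have h1 : 0 ≤ ∑ i, exp (-max (x i - b) 0) := Finset.sum_nonneg fun _ _ => (Real.exp_pos _).le
  have h2 : 0 ≤ Ω ^ (1 / 4 : ℝ) * ∑ i, exp (-max (x i - b) 0) := by positivity
  calc 10 * (12 + 2 * 10) * Ω ^ (1 / 4 : ℝ) * ∑ i, exp (-max (x i - b) 0)
      = 320 * (Ω ^ (1 / 4 : ℝ) * ∑ i, exp (-max (x i - b) 0)) := by ring
    _ ≤ 330 * (Ω ^ (1 / 4 : ℝ) * ∑ i, exp (-max (x i - b) 0)) := by gcongr; norm_num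
    _ = _ := by ring

theorem Ex_int1 {n : ℕ} (x : Fin n → ℝ) {b A Ω T : ℝ} (hA : 0 < A) (hΩ : 0 < Ω) (hΩ1 : Ω ≤ 1) (hT : 0 ≤ T)
    (hs : ∀ t, 0 ≤ t → t ≤ T → ∑ i, exp (-|b + t - x i|) ≤ Ω * A * exp t) :
    ∫ t in (0 : ℝ)..T, exp (-t) * Ex x b A Ω t ≤
      10 * (12 + 2 * T) * Ω ^ (1 / 4 : ℝ) * ∑ i, exp (-max (x i - b) 0) := by
  have hJ : ∫ t in (0 : ℝ)..T, exp (-((1 - 1) * t)) ≤ T := by simp
  have h := ei_Ex_gen x hA hΩ hΩ1 hT le_rfl hJ hs
  simpa only [one_mul] using h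

end Pool.Agent.TX1
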