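import Pool.Agent.TX1.Ell

/-!
# TX1, module FacEx: existence of the factorisation

`f` entire, `f 0 = 1`, any `S`.  Let `Z` be the (finite) multiset of the zeros of `f` in `|z| ≤ exp (S+1)` (with multiplicity); then
`f z = (∏_{a ∈ Z} (1 - z/a)) * exp (h z)` with `h` holomorphic in a disc `|z| < ρ'`, `ρ' > exp (S+1)`, `h 0 = 0`
(take `ρ'` such that there is no further zero in `|z| < ρ'`; `g = f/∏` extends to an entire function without zeros in `|z| < ρ'`, and has a
holomorphic logarithm there).  Move the factors with `exp S < |a| ≤ exp (S+1)` into `h` (`log (1 - z/a)` is holomorphic for `|z| < |a|`).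
`hn`: `TN f (S+1) = 2π ∑_{a ∈ Z} (S + 1 - log |a|) ≥ 2π #{a ∈ Z : |a| ≤ exp S}` (`ell_int`, mean value of `Re h`; finitely many `θ` with `f (pt (S+1) θ) = 0` do not matter).
The proof below: the number of factors `1 - z/a` with `|a| ≤ exp S` which can be split off is bounded by the mean of
`log |f|` at `S + 1` (Jensen), so a maximal number can be split off, and the remaining factor has no zero.
-/

set_option autoImplicit false

namespace Pool.Agent.TX1

open Real MeasureTheory Set Filter Topology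

theorem fx_pt_circle (s θ : ℝ) : pt s θ = circleMap 0 (exp s) θ := by
  simp [pt, circleMap, Complex.exp_add]

theorem fx_pt_log_arg {u : ℂ} (hu : u ≠ 0) : pt (log ‖u‖) (Complex.arg u) = u := by
  have h := Complex.exp_log hu
  rw [Complex.log] at h
  exact h

theorem fx_TN_avg (f : ℂ → ℂ) (s : ℝ) :
    TN f s = 2 * π * circleAverage (fun z => log ‖f z‖) 0 (exp s) := by
  have hper : Function.Periodic (fun θ : ℝ => log ‖f (circleMap 0 (exp s) θ)‖) (2 * π) := by
    intro θ
    simp only
    rw [periodic_circleMap 0 (exp s) θ]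
  have h1 := hper.intervalIntegral_add_eq (-π) 0
  rw [Real.circleAverage_def, smul_eq_mul, ← mul_assoc, mul_inv_cancel₀ (by positivity), one_mul, TN]
  simp only [fx_pt_circle]
  rw [show -π + 2 * π = π by ring, zero_add] at h1
  exact h1

theorem fx_avg_nonneg {g : ℂ → ℂ} (hg : Differentiable ℂ g) (h0 : g 0 = 1) {R : ℝ} (hR : 0 < R) :
    0 ≤ circleAverage (fun z => log ‖g z‖) 0 R := by
  have ha : AnalyticOnNhd ℂ g (Metric.closedBall 0 |R|) := fun z _ => hg.analyticAt z
  rw [ha.circleAverage_log_norm hR.ne' (by simp [h0])]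
  simp only [h0, norm_one, log_one, add_zero, zero_sub, norm_neg]
  apply finsum_nonneg
  intro u
  by_cases hu : u ∈ Metric.closedBall (0 : ℂ) |R|
  · apply mul_nonneg
    · exact_mod_cast MeromorphicOn.AnalyticOnNhd.divisor_nonneg ha u
    · by_cases hu0 : u = 0
      · simp [hu0]
      · apply log_nonneg
        rw [← div_eq_mul_inv, le_div_iff₀ (norm_pos_iff.2 hu0)]
        simpa [abs_of_pos hR] using hu
  · rw [Function.locallyFinsuppWithin.apply_eq_zero_of_notMem _ hu]
    simp

theorem fx_nz_codisc {g : ℂ → ℂ} (hg : Differentiable ℂ g) (h0 : g 0 ≠ 0) (R : ℝ) :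
    {z | g z ≠ 0} ∈ codiscreteWithin (Metric.sphere (0 : ℂ) |R|) := by
  have ha : AnalyticOnNhd ℂ g univ := fun z _ => hg.analyticAt z
  have h1 := ha.preimage_zero_mem_codiscrete (x := 0) h0
  exact codiscreteWithin_mono (subset_univ _) h1

theorem fx_ci_log {g : ℂ → ℂ} (hg : Differentiable ℂ g) (R : ℝ) :
    CircleIntegrable (fun z => log ‖g z‖) 0 R := by
  have ha : AnalyticOnNhd ℂ g (Metric.sphere (0 : ℂ) |R|) := fun z _ => hg.analyticAt z
  exact ha.meromorphicOn.circleIntegrable_log_norm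

theorem fx_avg_mul {p g : ℂ → ℂ} (hp : Differentiable ℂ p) (hg : Differentiable ℂ g) (hp0 : p 0 ≠ 0)
    (h0 : g 0 ≠ 0) {R : ℝ} (hR : 0 < R) :
    circleAverage (fun z => log ‖p z * g z‖) 0 R =
      circleAverage (fun z => log ‖p z‖) 0 R + circleAverage (fun z => log ‖g z‖) 0 R := by
  rw [← circleAverage_fun_add (fx_ci_log hp R) (fx_ci_log hg R)]
  apply circleAverage_congr_codiscreteWithin _ hR.ne'
  filter_upwards [fx_nz_codisc hp hp0 R, fx_nz_codisc hg h0 R] with z h1 h2
  rw [norm_mul, log_mul (norm_ne_zero_iff.2 h1) (norm_ne_zero_iff.2 h2)]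

theorem fx_avg_fac {u : ℂ} (hu : u ≠ 0) {R : ℝ} (hR : ‖u‖ < R) :
    circleAverage (fun z => log ‖1 - z / u‖) 0 R = log R - log ‖u‖ := by
  have hR0 : 0 < R := (norm_nonneg u).trans_lt hR
  have hu' : ‖u‖ ≠ 0 := norm_ne_zero_iff.2 hu
  have h1 : circleAverage (fun z => log ‖1 - z / u‖) 0 R =
      circleAverage (fun z => log ‖z - u‖ + (-log ‖u‖)) 0 R := by
    apply circleAverage_congr_sphere
    intro z hz
    have hz' : ‖z‖ = R := by simpa [abs_of_pos hR0] using hz
    have hne : z - u ≠ 0 := by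
      intro h
      rw [sub_eq_zero] at h
      rw [h] at hz'
      exact absurd hz' hR.ne
    have : ‖1 - z / u‖ = ‖z - u‖ / ‖u‖ := by
      rw [← norm_div, ← norm_neg]
      congr 1
      field_simp
      ring
    simp only [this]
    rw [log_div (norm_ne_zero_iff.2 hne) hu']
    ring
  rw [h1, circleAverage_fun_add (circleIntegrable_log_norm_sub_const R) (circleIntegrable_const _ _ _),
    circleAverage_const, circleAverage_log_norm_sub_const_of_mem_closedBall]
  · ring
  · simpa [abs_of_pos hR0] using hR.le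

theorem fx_diff_prod (l : List ℂ) {g : ℂ → ℂ} (hg : Differentiable ℂ g) :
    Differentiable ℂ (fun z => (l.map (fun u => 1 - z / u)).prod * g z) := by
  induction l with
  | nil => simpa using hg
  | cons a l ih =>
    have h1 : Differentiable ℂ (fun z : ℂ => 1 - z / a) := by fun_prop
    have h2 : Differentiable ℂ (fun z => (1 - z / a) * ((l.map (fun u => 1 - z / u)).prod * g z)) :=
      h1.mul ih
    have h3 : (fun z => ((a :: l).map (fun u => 1 - z / u)).prod * g z) =
        (fun z => (1 - z / a) * ((l.map (fun u => 1 - z / u)).prod * g z)) := by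
      funext z
      simp [mul_assoc]
    rw [h3]
    exact h2

theorem fx_prod_zero (l : List ℂ) : (l.map (fun u => 1 - (0 : ℂ) / u)).prod = 1 := by
  induction l with
  | nil => simp
  | cons a l ih =>
    rw [List.map_cons, List.prod_cons, ih]
    simp

theorem fx_count (l : List ℂ) {S : ℝ} {g : ℂ → ℂ} (hg : Differentiable ℂ g) (h0 : g 0 = 1)
    (hl : ∀ u ∈ l, u ≠ 0 ∧ ‖u‖ ≤ exp S) :
    (l.length : ℝ) ≤
      circleAverage (fun z => log ‖(l.map (fun u => 1 - z / u)).prod * g z‖) 0 (exp (S + 1)) := by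
  induction l with
  | nil => simpa using fx_avg_nonneg hg h0 (exp_pos (S + 1))
  | cons a l ih =>
    have ih' := ih (fun u hu => hl u (List.mem_cons_of_mem _ hu))
    obtain ⟨ha0, haS⟩ := hl a List.mem_cons_self
    have h1 : Differentiable ℂ (fun z : ℂ => 1 - z / a) := by fun_prop
    have hS : exp S < exp (S + 1) := exp_lt_exp.2 (by linarith)
    have h3 : (fun z => log ‖((a :: l).map (fun u => 1 - z / u)).prod * g z‖) =
        (fun z => log ‖(1 - z / a) * ((l.map (fun u => 1 - z / u)).prod * g z)‖) := by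
      funext z
      simp only [List.map_cons, List.prod_cons, mul_assoc]
    rw [h3, fx_avg_mul h1 (fx_diff_prod l hg) (by simp) (by simp only [fx_prod_zero, h0]; simp) (exp_pos _),
      fx_avg_fac ha0 (haS.trans_lt hS), log_exp, List.length_cons]
    have h4 : log ‖a‖ ≤ S := by
      rw [← log_exp S]
      exact log_le_log (norm_pos_iff.2 ha0) haS
    push_cast
    linarith

theorem fx_exists_log_ball {g : ℂ → ℂ} {ρ : ℝ} (hρ : 0 < ρ) (hg : Differentiable ℂ g) (h0 : g 0 = 1)
    (hz : ∀ z ∈ Metric.ball (0 : ℂ) ρ, g z ≠ 0) :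
    ∃ h : ℂ → ℂ, DifferentiableOn ℂ h (Metric.ball 0 ρ) ∧ h 0 = 0 ∧
      ∀ z ∈ Metric.ball (0 : ℂ) ρ, g z = Complex.exp (h z) := by
  have hd : DifferentiableOn ℂ (fun z => deriv g z / g z) (Metric.ball 0 ρ) := by
    apply DifferentiableOn.div _ hg.differentiableOn hz
    exact (hg.contDiff (n := 2)).differentiable_deriv_two.differentiableOn
  obtain ⟨h, hh0, hh⟩ := hd.isExactOn_ball.with_val_at 0 0
  refine ⟨h, fun z hz' => (hh z hz').differentiableAt.differentiableWithinAt, hh0, ?_⟩
  intro z hz'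
  have hF : ∀ w ∈ Metric.ball (0 : ℂ) ρ, HasDerivAt (fun w => g w * Complex.exp (-h w)) 0 w := by
    intro w hw
    have h1 : HasDerivAt (fun w => g w * Complex.exp (-h w))
        (deriv g w * Complex.exp (-h w) + g w * (Complex.exp (-h w) * -(deriv g w / g w))) w :=
      (hg w).hasDerivAt.mul ((hh w hw).neg.cexp)
    have h2 : deriv g w * Complex.exp (-h w) + g w * (Complex.exp (-h w) * -(deriv g w / g w)) = 0 := by
      have := hz w hw
      field_simp
      ring
    rw [h2] at h1
    exact h1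
  have hconst := (convex_ball (0 : ℂ) ρ).is_const_of_fderivWithin_eq_zero (𝕜 := ℂ)
    (f := fun w => g w * Complex.exp (-h w))
    (fun w hw => (hF w hw).differentiableAt.differentiableWithinAt)
    (fun w hw => by
      rw [fderivWithin_of_isOpen Metric.isOpen_ball hw]
      ext
      simp [(hF w hw).hasFDerivAt.fderiv])
    hz' (Metric.mem_ball_self hρ)
  simp only [h0, hh0, neg_zero, Complex.exp_zero, mul_one] at hconst
  rw [Complex.exp_neg] at hconst
  field_simp at hconst
  exact hconst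

theorem fx_split {g : ℂ → ℂ} (hg : Differentiable ℂ g) (h0 : g 0 = 1) {a : ℂ} (ha : g a = 0) :
    a ≠ 0 ∧ ∃ g1 : ℂ → ℂ, Differentiable ℂ g1 ∧ g1 0 = 1 ∧ ∀ z, g z = (1 - z / a) * g1 z := by
  have ha0 : a ≠ 0 := by
    rintro rfl
    rw [h0] at ha
    exact one_ne_zero ha
  have hd : Differentiable ℂ (dslope g a) := by
    rw [← differentiableOn_univ, Complex.differentiableOn_dslope univ_mem]
    exact hg.differentiableOn
  have hs : ∀ z, g z = (z - a) * dslope g a z := by
    intro z
    have := sub_smul_dslope g a z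
    rw [ha, sub_zero, smul_eq_mul] at this
    exact this.symm
  refine ⟨ha0, fun z => -a * dslope g a z, hd.const_mul _, ?_, ?_⟩
  · have := hs 0
    rw [h0] at this
    rw [zero_sub] at this
    exact this.symm
  · intro z
    rw [hs z]
    field_simp
    ring

theorem exists_fac {f : ℂ → ℂ} (hf : Differentiable ℂ f) (h0 : f 0 = 1) (S : ℝ) :
    ∃ (n : ℕ) (x y : Fin n → ℝ) (h : ℂ → ℂ), Fac f S n x y h := by
  let P : ℕ → Prop := fun n => ∃ (l : List ℂ) (g : ℂ → ℂ), l.length = n ∧
    (∀ u ∈ l, u ≠ 0 ∧ ‖u‖ ≤ exp S) ∧ Differentiable ℂ g ∧ g 0 = 1 ∧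
    ∀ z, f z = (l.map (fun u => 1 - z / u)).prod * g z
  have hP0 : P 0 := ⟨[], f, rfl, by simp, hf, h0, by simp⟩
  have hB : ∀ n, P n → 2 * π * n ≤ TN f (S + 1) := by
    rintro n ⟨l, g, hn, hl, hg, hg0, hfg⟩
    have h1 := fx_count l hg hg0 hl
    rw [fx_TN_avg, ← hn]
    have h2 : (fun z => log ‖f z‖) =
        (fun z => log ‖(l.map (fun u => 1 - z / u)).prod * g z‖) := by
      funext z
      rw [hfg z]
    rw [h2]
    exact mul_le_mul_of_nonneg_left h1 (by positivity)
  have hmax : ∃ n, P n ∧ ¬ P (n + 1) := by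
    by_contra hcon
    push Not at hcon
    have hall : ∀ n, P n := fun n => Nat.rec hP0 (fun k hk => hcon k hk) n
    obtain ⟨n, hn⟩ := exists_nat_gt (TN f (S + 1) / (2 * π))
    have h1 := hB n (hall n)
    rw [div_lt_iff₀ (by positivity)] at hn
    linarith
  obtain ⟨n, hPn, hPn1⟩ := hmax
  have hTN := hB n hPn
  obtain ⟨l, g, hn, hl, hg, hg0, hfg⟩ := hPn
  have hnz : ∀ z ∈ Metric.closedBall (0 : ℂ) (exp S), g z ≠ 0 := by
    intro a ha hga
    obtain ⟨ha0, g1, hg1, hg10, hs⟩ := fx_split hg hg0 hga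
    apply hPn1
    refine ⟨a :: l, g1, by simp [hn], ?_, hg1, hg10, ?_⟩
    · intro u hu
      rcases List.mem_cons.1 hu with rfl | hu
      · exact ⟨ha0, by simpa using ha⟩
      · exact hl u hu
    · intro z
      rw [hfg z, hs z, List.map_cons, List.prod_cons]
      ring
  have hopen : IsOpen {z | g z ≠ 0} := isOpen_ne_fun hg.continuous continuous_const
  obtain ⟨δ, hδ, hsub⟩ := (isCompact_closedBall (0 : ℂ) (exp S)).exists_thickening_subset_open hopen
    hnz
  rw [thickening_closedBall hδ (exp_pos S).le] at hsub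
  obtain ⟨h, hd, hh0, hh⟩ := fx_exists_log_ball (by positivity) hg hg0 (fun z hz => hsub hz)
  subst hn
  refine ⟨l.length, fun i => log ‖l.get i‖, fun i => Complex.arg (l.get i), h, ?_, ?_, hh0, ?_, hTN⟩
  · intro i
    obtain ⟨h1, h2⟩ := hl _ (List.get_mem l i)
    have h5 := log_le_log (norm_pos_iff.2 h1) h2
    rwa [log_exp] at h5
  · exact ⟨δ + exp S, by linarith, hd⟩
  · intro z hz
    have hz' : z ∈ Metric.ball (0 : ℂ) (δ + exp S) := by
      simp only [Metric.mem_ball, dist_zero_right]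
      linarith
    rw [hfg z, ← hh z hz']
    congr 1
    have h3 : ∀ i : Fin l.length, (1 - z / pt (log ‖l.get i‖) (Complex.arg (l.get i))) =
        1 - z / l.get i := by
      intro i
      rw [fx_pt_log_arg (hl _ (List.get_mem l i)).1]
    rw [Finset.prod_congr rfl (fun i _ => h3 i)]
    conv_lhs => rw [← List.ofFn_get l]
    rw [List.map_ofFn, List.prod_ofFn]
    rfl

end Pool.Agent.TX1
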