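import Pool.Agent.TX1.End
import Pool.Agent.TX1.Entry

/-!
# TX1, module Fin: the right derivative of `D` at `1`

As `MML.final_gen` (FinG.lean) with `μ = 1`: if `D lam < -π(1-κ(lam-1))` there are `f` and `x` real with `minRatio f < x < -π(1-κ(lam-1))`, hence for large `s` there is `t` with
`‖f (pt s t)‖ ≤ exp (-(c' TM f s))`, `c' > (1-κ(lam-1))/2`.  `grow_up`, `grow_low` give `Gr f lam`.  `norm_red`, `core` (a larger constant `c''` implies the hypothesis with `1/2 - κε/2`).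
For `κ ≤ 0` use the result for a small positive `κ` (`D lam ≥ -π(1-κ'(lam-1)) ≥ -π(1-κ(lam-1))`).
-/

set_option autoImplicit false

namespace Pool.Agent.TX1

open Real MeasureTheory Set Filter Topology
open Pool.Agent.MML (Fe Ue mN minMod maxMod nevT lowerOrder minRatio grow_up grow_low mN_tendsto
  le_nevT)

theorem fin_pos {κ : ℝ} (h0 : 0 < κ) (h1 : κ < π - 1) : ∃ ε0 : ℝ, 0 < ε0 ∧ ∀ lam : ℝ, 1 < lam →
    lam ≤ 1 + ε0 → ((-(π * (1 - κ * (lam - 1))) : ℝ) : EReal) ≤ Pool.Agent.MML.D lam := by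
  obtain ⟨ε0, hε0, hcore⟩ := core h0 h1
  refine ⟨min ε0 (1 / (2 * κ)), lt_min hε0 (by positivity), ?_⟩
  intro lam hl1 hl2
  set ε := lam - 1 with hε
  have hεp : 0 < ε := by rw [hε]; linarith
  have hεa : ε ≤ ε0 := by
    have := hl2.trans (add_le_add le_rfl (min_le_left _ _)); rw [hε]; linarith
  have hεb : κ * ε ≤ 1 / 2 := by
    have h3 := hl2.trans (add_le_add le_rfl (min_le_right _ _))
    have h4 : ε ≤ 1 / (2 * κ) := by rw [hε]; linarith
    calc κ * ε ≤ κ * (1 / (2 * κ)) := by gcongr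
      _ = 1 / 2 := by field_simp
  unfold Pool.Agent.MML.D
  refine le_iInf fun f => le_iInf fun hf => le_iInf fun hne => le_iInf fun hlo => ?_
  by_contra hcon
  rw [not_le] at hcon
  obtain ⟨x, hx1, hx2⟩ := EReal.lt_iff_exists_real_btwn.mp hcon
  have hx3 : x < -(π * (1 - κ * ε)) := by exact_mod_cast hx2
  have hne0 : ∃ z, f z ≠ 0 := by
    by_contra hcon
    push Not at hcon
    exact hne ⟨0, hcon⟩
  have hpi : 0 < π := Real.pi_pos
  have hlam : 0 < lam := by linarith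
  set c'' : ℝ := 1 / 2 - κ * ε / 2 with hc''
  have hc0 : 0 < c'' := by rw [hc'']; linarith
  have hc2 : c'' < -x / (2 * π) := by
    rw [lt_div_iff₀ (by positivity), hc'']
    nlinarith
  set c' : ℝ := (c'' + -x / (2 * π)) / 2 with hc'
  have h3 : c'' < c' := by rw [hc']; linarith
  have h4 : c' < -x / (2 * π) := by rw [hc']; linarith
  have hG := fin_Gr hf hne hlam hlo
  have hH := fin_ev hf hne hlam hlo (by linarith) h4 hx1
  obtain ⟨f1, hf1, hf10, hG1, hH1⟩ := norm_red hf hne0 hlam hG hc0 h3 hH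
  obtain ⟨s0, hs0⟩ := eventually_atTop.1 hH1
  have hlam' : lam = 1 + ε := by rw [hε]; ring
  rw [hlam'] at hG1
  exact hcore f1 ε s0 hf1 hf10 hεp hεa hG1 (fun s hs => hs0 s hs)

theorem fin {κ : ℝ} (h1 : κ < π - 1) : ∃ ε0 : ℝ, 0 < ε0 ∧ ∀ lam : ℝ, 1 < lam → lam ≤ 1 + ε0 →
    ((-(π * (1 - κ * (lam - 1))) : ℝ) : EReal) ≤ Pool.Agent.MML.D lam := by
  have hpi := pi_gt_three
  have hκ' : max κ 1 < π - 1 := max_lt h1 (by linarith)
  obtain ⟨ε0, hε0, h⟩ := fin_pos (lt_of_lt_of_le one_pos (le_max_right κ 1)) hκ'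
  refine ⟨ε0, hε0, fun lam hl1 hl2 => le_trans ?_ (h lam hl1 hl2)⟩
  have h2 : κ * (lam - 1) ≤ max κ 1 * (lam - 1) :=
    mul_le_mul_of_nonneg_right (le_max_left _ _) (by linarith)
  have h3 : -(π * (1 - κ * (lam - 1))) ≤ -(π * (1 - max κ 1 * (lam - 1))) := by
    have := mul_le_mul_of_nonneg_left h2 pi_pos.le
    nlinarith
  exact_mod_cast h3

end Pool.Agent.TX1
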