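import Pool.Agent.TX1.Resp

/-!
# TX1, module Four: the sharp response at exponent one

For `0 ≤ x ≤ T`: `∫_0^T exp (-t) hl (t-x) ψ dt = exp (-x) C(ψ) - (missing parts)`, with
`C(ψ) = (π+2) - 4 ∑_{k≥2} d_k cos (kψ)`, `d_k = (1 - sin (kπ/2)/k)/(k²-1)` (series of Half.lean, `∫_{-∞}^x exp (-t) exp (-k(x-t)) = exp (-x)/(k-1)`, `∫_x^∞ ... = exp (-x)/(k+1)`).
Missing parts: `t < 0`: `|∫_{-∞}^0 exp (-t) hl (t-x) ψ| ≤ ∫_{-∞}^0 exp (-t) GG (x-t) dt = exp (-x) ∫_x^∞ exp u GG u du ≤ 10 exp (-2x)` (`GG_tail`);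
`t > T`: `≤ ∫_T^∞ exp (-t)((π+2)(t-x) + GG (t-x)) ≤ exp (-T) ((π+2)(T-x+1) + 53/50)`.
`C(ψ) ≥ -2(π-1) cos ψ`: in fact `C(ψ) + 2(π-1) cos ψ = 2π(1+cos ψ)` for `|ψ| ≥ π/2` and `= 2π(|sin ψ| + cos ψ)` for `|ψ| ≤ π/2` (both `≥ 0`): compare the Fourier
coefficients of this continuous even function (`has_pointwise_sum_fourier_series_of_summable`), or prove the identity by integrating
twice.  Alternative without Fourier series: Green's identity for the function `exp (-s) γ(θ)`, `2πγ = C`.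
-/

set_option autoImplicit false

namespace Pool.Agent.TX1

open Real MeasureTheory Set Filter Topology

/-! ### Antiderivative in `τ` -/

/-- antiderivative of `exp (-τ) * ell τ θ` in `τ` -/
noncomputable def Four_A (τ θ : ℝ) : ℝ :=
  ((Complex.exp (θ * Complex.I) - (exp (-τ) : ℝ)) * Complex.log (1 - pt τ θ)).re - τ * cos θ

theorem Four_pt_re (τ θ : ℝ) : (pt τ θ).re = exp τ * cos θ := by
  unfold pt
  rw [Complex.exp_re]
  simp

theorem Four_pt_im (τ θ : ℝ) : (pt τ θ).im = exp τ * sin θ := by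
  unfold pt
  rw [Complex.exp_im]
  simp

theorem Four_slit {τ θ : ℝ} (h : cos θ ≠ 1) : 1 - pt τ θ ∈ Complex.slitPlane := by
  rw [Complex.mem_slitPlane_iff]
  by_cases hs : sin θ = 0
  · left
    have h1 : cos θ ^ 2 = 1 := by
      have := sin_sq_add_cos_sq θ
      rw [hs] at this
      linarith
    have h2 : cos θ = -1 := by
      have h3 : (cos θ - 1) * (cos θ + 1) = 0 := by linear_combination h1
      rcases mul_eq_zero.1 h3 with h4 | h4
      · exact absurd (by linarith) h
      · linarith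
    rw [Complex.sub_re, Complex.one_re, Four_pt_re, h2]
    have := exp_pos τ
    linarith
  · right
    rw [Complex.sub_im, Complex.one_im, Four_pt_im]
    have := exp_pos τ
    intro h0
    have : exp τ * sin θ = 0 := by linarith
    rcases mul_eq_zero.1 this with h1 | h1
    · linarith
    · exact hs h1

theorem Four_ell (τ θ : ℝ) : ell τ θ = (Complex.log (1 - pt τ θ)).re := by
  unfold ell
  rw [Complex.log_re]

theorem Four_deriv {θ : ℝ} (h : cos θ ≠ 1) (τ : ℝ) :
    HasDerivAt (fun τ => Four_A τ θ) (exp (-τ) * ell τ θ) τ := by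
  have hpt : HasDerivAt (fun τ : ℝ => pt τ θ) (pt τ θ) τ := by
    unfold pt
    have h1 : HasDerivAt (fun τ : ℝ => (τ : ℂ) + (θ : ℂ) * Complex.I) 1 τ := by
      have := (Complex.ofRealCLM.hasDerivAt (x := τ)).add_const ((θ : ℂ) * Complex.I)
      simpa using this
    have h2 := h1.cexp
    simpa using h2
  have hlog : HasDerivAt (fun τ : ℝ => Complex.log (1 - pt τ θ)) (-pt τ θ / (1 - pt τ θ)) τ := by
    have h1 : HasDerivAt (fun τ : ℝ => 1 - pt τ θ) (-pt τ θ) τ := by
      simpa using hpt.const_sub 1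
    exact h1.clog_real (Four_slit h)
  have hexp : HasDerivAt (fun τ : ℝ => Complex.exp (θ * Complex.I) - ((exp (-τ) : ℝ) : ℂ))
      ((exp (-τ) : ℝ) : ℂ) τ := by
    have h1 : HasDerivAt (fun τ : ℝ => exp (-τ)) (-exp (-τ)) τ := by
      have := (hasDerivAt_neg τ).exp
      simpa using this
    have h2 := h1.ofReal_comp
    have h3 := h2.const_sub (Complex.exp (θ * Complex.I))
    simpa using h3
  have hmul := hexp.mul hlog
  have hre := (Complex.reCLM.hasFDerivAt.comp_hasDerivAt τ hmul)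
  have hfin := hre.sub ((hasDerivAt_id τ).mul_const (cos θ))
  refine (hfin.congr_deriv ?_)
  have hne : 1 - pt τ θ ≠ 0 := Complex.slitPlane_ne_zero (Four_slit h)
  have he : Complex.exp (θ * Complex.I) = ((exp (-τ) : ℝ) : ℂ) * pt τ θ := by
    unfold pt
    rw [Complex.ofReal_exp, ← Complex.exp_add]
    congr 1
    push_cast
    ring
  have hkey : (Complex.exp (θ * Complex.I) - ((exp (-τ) : ℝ) : ℂ)) * (-pt τ θ / (1 - pt τ θ)) =
      ((exp (-τ) : ℝ) : ℂ) * pt τ θ := by
    rw [he]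
    field_simp
    ring
  rw [hkey, Four_ell]
  simp only [Complex.reCLM_apply, Complex.add_re, Complex.re_ofReal_mul, Four_pt_re, one_mul]
  have : exp (-τ) * (exp τ * cos θ) = cos θ := by
    rw [← mul_assoc, ← exp_add]
    simp
  rw [this]
  ring

theorem Four_cont {θ : ℝ} (h : cos θ ≠ 1) : Continuous (fun τ => exp (-τ) * ell τ θ) := by
  unfold ell
  have h1 : Continuous (fun τ : ℝ => pt τ θ) := by
    unfold pt
    fun_prop
  have h2 : ∀ τ, ‖1 - pt τ θ‖ ≠ 0 := by
    intro τ
    rw [norm_ne_zero_iff]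
    exact Complex.slitPlane_ne_zero (Four_slit h)
  exact (by fun_prop : Continuous fun τ : ℝ => exp (-τ)).mul
    ((continuous_const.sub h1).norm.log h2)

theorem Four_int {θ : ℝ} (h : cos θ ≠ 1) (a b : ℝ) :
    ∫ τ in a..b, exp (-τ) * ell τ θ = Four_A b θ - Four_A a θ :=
  intervalIntegral.integral_eq_sub_of_hasDerivAt (fun τ _ => Four_deriv h τ)
    ((Four_cont h).intervalIntegrable _ _)

theorem Four_norm_pt (τ θ : ℝ) : ‖pt τ θ‖ = exp τ := by
  unfold pt
  rw [Complex.norm_exp]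
  simp

theorem Four_small {X : ℝ} (hX : 1 ≤ X) : exp (-X) ≤ 1 / 2 := by
  have h1 : exp (-X) ≤ exp (-1) := exp_le_exp.2 (by linarith)
  have h2 : exp (-1) < 1 / 2 := by
    rw [exp_neg]
    have := Real.exp_one_gt_d9
    rw [inv_lt_comm₀ (exp_pos 1) (by norm_num)]
    linarith
  linarith

theorem Four_left {X : ℝ} (hX : 1 ≤ X) (θ : ℝ) :
    |Four_A (-X) θ - (1 + X) * cos θ| ≤ 4 * exp (-X) := by
  have hw : ‖pt (-X) θ‖ = exp (-X) := Four_norm_pt _ _
  have hs := Four_small hX
  have h0 := exp_pos (-X)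
  have he : Complex.exp (θ * Complex.I) = ((exp X : ℝ) : ℂ) * pt (-X) θ := by
    unfold pt
    rw [Complex.ofReal_exp, ← Complex.exp_add]
    congr 1
    push_cast
    ring
  have hcos : (Complex.exp (θ * Complex.I)).re = cos θ := by
    rw [Complex.exp_ofReal_mul_I_re]
  have hnorm1 : ‖Complex.exp (θ * Complex.I)‖ = 1 := Complex.norm_exp_ofReal_mul_I θ
  have h1 : ‖Complex.log (1 - pt (-X) θ)‖ ≤ 3 / 2 * exp (-X) := by
    have := Complex.norm_log_one_add_half_le_self (z := -pt (-X) θ) (by rw [norm_neg, hw]; exact hs)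
    rw [norm_neg, hw, ← sub_eq_add_neg] at this
    exact this
  have h2 : ‖Complex.log (1 - pt (-X) θ) + pt (-X) θ‖ ≤ exp (-X) ^ 2 := by
    have := Complex.norm_log_one_add_sub_self_le (z := -pt (-X) θ)
      (by rw [norm_neg, hw]; linarith)
    rw [norm_neg, hw, ← sub_eq_add_neg, sub_neg_eq_add] at this
    refine this.trans ?_
    have h3 : (1 - exp (-X))⁻¹ ≤ 2 := by
      rw [inv_le_comm₀ (by linarith) (by norm_num)]
      linarith
    nlinarith [sq_nonneg (exp (-X))]
  have hid : Four_A (-X) θ - (1 + X) * cos θ =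
      (Complex.exp (θ * Complex.I) * Complex.log (1 - pt (-X) θ) -
        ((exp X : ℝ) : ℂ) * (Complex.log (1 - pt (-X) θ) + pt (-X) θ)).re := by
    unfold Four_A
    rw [neg_neg]
    have : (Complex.exp (θ * Complex.I) - ((exp X : ℝ) : ℂ)) * Complex.log (1 - pt (-X) θ) =
        (Complex.exp (θ * Complex.I) * Complex.log (1 - pt (-X) θ) -
        ((exp X : ℝ) : ℂ) * (Complex.log (1 - pt (-X) θ) + pt (-X) θ)) +
          Complex.exp (θ * Complex.I) := by
      rw [he]
      ring
    rw [this, Complex.add_re, hcos]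
    ring
  rw [hid]
  refine (Complex.abs_re_le_norm _).trans ?_
  refine (norm_sub_le _ _).trans ?_
  rw [norm_mul, norm_mul, hnorm1, one_mul, Complex.norm_real, Real.norm_of_nonneg (exp_pos X).le]
  have h4 : exp X * ‖Complex.log (1 - pt (-X) θ) + pt (-X) θ‖ ≤ exp (-X) := by
    calc exp X * ‖Complex.log (1 - pt (-X) θ) + pt (-X) θ‖ ≤ exp X * exp (-X) ^ 2 :=
          mul_le_mul_of_nonneg_left h2 (exp_pos X).le
      _ = exp (-X) := by
          rw [pow_two, ← mul_assoc, ← exp_add]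
          simp
  linarith

theorem Four_log {Y θ : ℝ} (hY : 1 ≤ Y) (h0 : 0 < θ) (h1 : θ < 2 * π) :
    Complex.log (1 - pt Y θ) =
      ((Y : ℂ) + ((θ - π : ℝ) : ℂ) * Complex.I) + Complex.log (1 - pt (-Y) (-θ)) := by
  have hs := Four_small hY
  have hre : 0 < (1 - pt (-Y) (-θ)).re := by
    rw [Complex.sub_re, Complex.one_re, Four_pt_re]
    have : exp (-Y) * cos (-θ) ≤ exp (-Y) * 1 :=
      mul_le_mul_of_nonneg_left (cos_le_one _) (exp_pos _).le
    linarith
  have hne : 1 - pt (-Y) (-θ) ≠ 0 := by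
    intro h
    rw [h] at hre
    simp at hre
  have harg := abs_lt.1 (Complex.abs_arg_lt_pi_div_two_iff.2 (Or.inl hre))
  have him : (1 - pt (-Y) (-θ)).im = exp (-Y) * sin θ := by
    rw [Complex.sub_im, Complex.one_im, Four_pt_im, sin_neg]
    ring
  have hpi := pi_pos
  have hv : -π < (((Y : ℂ) + ((θ - π : ℝ) : ℂ) * Complex.I) + Complex.log (1 - pt (-Y) (-θ))).im ∧
      (((Y : ℂ) + ((θ - π : ℝ) : ℂ) * Complex.I) + Complex.log (1 - pt (-Y) (-θ))).im ≤ π := by
    have e1 : (((Y : ℂ) + ((θ - π : ℝ) : ℂ) * Complex.I) + Complex.log (1 - pt (-Y) (-θ))).im =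
        (θ - π) + Complex.arg (1 - pt (-Y) (-θ)) := by
      rw [Complex.add_im, Complex.add_im, Complex.log_im, Complex.ofReal_im, Complex.im_ofReal_mul,
        Complex.I_im]
      ring
    rw [e1]
    rcases le_or_gt θ π with hθ | hθ
    · have hsin : 0 ≤ sin θ := sin_nonneg_of_nonneg_of_le_pi h0.le hθ
      have : 0 ≤ Complex.arg (1 - pt (-Y) (-θ)) := by
        rw [Complex.arg_nonneg_iff, him]
        exact mul_nonneg (exp_pos _).le hsin
      constructor <;> linarith
    · have hsin : sin θ < 0 := by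
        have h2 : 0 < sin (θ - π) := sin_pos_of_pos_of_lt_pi (by linarith) (by linarith)
        rw [sin_sub_pi] at h2
        linarith
      have : Complex.arg (1 - pt (-Y) (-θ)) < 0 := by
        rw [Complex.arg_neg_iff, him]
        exact mul_neg_of_pos_of_neg (exp_pos _) hsin
      constructor <;> linarith
  rw [← Complex.log_exp hv.1 hv.2]
  congr 1
  rw [Complex.exp_add, Complex.exp_log hne]
  have e2 : Complex.exp ((Y : ℂ) + ((θ - π : ℝ) : ℂ) * Complex.I) = -pt Y θ := by
    unfold pt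
    have : (Y : ℂ) + ((θ - π : ℝ) : ℂ) * Complex.I =
        ((Y : ℂ) + (θ : ℂ) * Complex.I) - π * Complex.I := by
      push_cast
      ring
    rw [this, Complex.exp_sub, Complex.exp_pi_mul_I]
    ring
  have e3 : pt Y θ * pt (-Y) (-θ) = 1 := by
    unfold pt
    rw [← Complex.exp_add]
    have : (Y : ℂ) + (θ : ℂ) * Complex.I + (((-Y : ℝ) : ℂ) + ((-θ : ℝ) : ℂ) * Complex.I) = 0 := by
      push_cast
      ring
    rw [this, Complex.exp_zero]
  rw [e2]
  linear_combination -e3

theorem Four_right {Y θ : ℝ} (hY : 1 ≤ Y) (h0 : 0 < θ) (h1 : θ < 2 * π) :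
    |Four_A Y θ - (π - θ) * sin θ| ≤ (Y + 5) * exp (-Y) := by
  have hw : ‖pt (-Y) (-θ)‖ = exp (-Y) := Four_norm_pt _ _
  have hs := Four_small hY
  have hp := exp_pos (-Y)
  have hlog : ‖Complex.log (1 - pt (-Y) (-θ))‖ ≤ 3 / 2 * exp (-Y) := by
    have := Complex.norm_log_one_add_half_le_self (z := -pt (-Y) (-θ))
      (by rw [norm_neg, hw]; exact hs)
    rw [norm_neg, hw, ← sub_eq_add_neg] at this
    exact this
  have hnorm1 : ‖Complex.exp (θ * Complex.I)‖ = 1 := Complex.norm_exp_ofReal_mul_I θ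
  have hid : Four_A Y θ - (π - θ) * sin θ =
      ((Complex.exp (θ * Complex.I) - ((exp (-Y) : ℝ) : ℂ)) *
        Complex.log (1 - pt (-Y) (-θ))).re - Y * exp (-Y) := by
    unfold Four_A
    rw [Four_log hY h0 h1, mul_add, Complex.add_re]
    have : ((Complex.exp (θ * Complex.I) - ((exp (-Y) : ℝ) : ℂ)) *
        ((Y : ℂ) + ((θ - π : ℝ) : ℂ) * Complex.I)).re =
        (cos θ - exp (-Y)) * Y - sin θ * (θ - π) := by
      rw [Complex.mul_re, Complex.sub_re, Complex.sub_im, Complex.exp_ofReal_mul_I_re,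
        Complex.exp_ofReal_mul_I_im, Complex.add_re, Complex.add_im, Complex.re_ofReal_mul,
        Complex.im_ofReal_mul, Complex.I_re, Complex.I_im, Complex.ofReal_re, Complex.ofReal_im,
        Complex.ofReal_re, Complex.ofReal_im]
      ring
    rw [this]
    ring
  rw [hid]
  have hn : |((Complex.exp (θ * Complex.I) - ((exp (-Y) : ℝ) : ℂ)) *
        Complex.log (1 - pt (-Y) (-θ))).re| ≤ 2 * (3 / 2 * exp (-Y)) := by
    refine (Complex.abs_re_le_norm _).trans ?_
    rw [norm_mul]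
    apply mul_le_mul _ hlog (norm_nonneg _) (by norm_num)
    refine (norm_sub_le _ _).trans ?_
    rw [hnorm1, Complex.norm_real, Real.norm_of_nonneg (exp_pos _).le]
    linarith
  have h2 := abs_sub (((Complex.exp (θ * Complex.I) - ((exp (-Y) : ℝ) : ℂ)) *
        Complex.log (1 - pt (-Y) (-θ))).re) (Y * exp (-Y))
  refine h2.trans ?_
  rw [abs_of_nonneg (show 0 ≤ Y * exp (-Y) by positivity)]
  nlinarith

/-! ### Fubini -/

theorem Four_meas : Measurable (fun p : ℝ × ℝ => exp (-p.1) * ell p.1 p.2) := by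
  unfold ell
  have h1 : Measurable (fun p : ℝ × ℝ => pt p.1 p.2) := by
    have : Continuous (fun p : ℝ × ℝ => pt p.1 p.2) := by
      unfold pt
      fun_prop
    exact this.measurable
  have h2 : Measurable (fun p : ℝ × ℝ => log ‖1 - pt p.1 p.2‖) :=
    Real.measurable_log.comp (measurable_norm.comp (measurable_const.sub h1))
  exact (by fun_prop : Measurable fun p : ℝ × ℝ => exp (-p.1)).mul h2

theorem Four_abs_int (τ c : ℝ) : ∫ β in c..(c + 2 * π), |ell τ β| ≤
    2 * π * log (1 + exp τ) + 2 * π * exp (-|τ|) := by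
  have h1 := ell_pos_int τ c
  have h2 := ell_neg_int τ c
  have hii := ell_ii τ c (c + 2 * π)
  have hi1 : IntervalIntegrable (fun β => max (ell τ β) 0) volume c (c + 2 * π) := by
    have : (fun β => max (ell τ β) 0) = fun β => (|ell τ β| + ell τ β) / 2 := by
      funext β
      rcases le_total 0 (ell τ β) with h | h
      · rw [max_eq_left h, abs_of_nonneg h]; ring
      · rw [max_eq_right h, abs_of_nonpos h]; ring
    rw [this]
    exact (hii.abs.add hii).div_const 2
  have hi2 : IntervalIntegrable (fun β => max (-ell τ β) 0) volume c (c + 2 * π) := by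
    have : (fun β => max (-ell τ β) 0) = fun β => (|ell τ β| - ell τ β) / 2 := by
      funext β
      rcases le_total 0 (ell τ β) with h | h
      · rw [max_eq_right (by linarith), abs_of_nonneg h]; ring
      · rw [max_eq_left (by linarith), abs_of_nonpos h]; ring
    rw [this]
    exact (hii.abs.sub hii).div_const 2
  have h3 : ∫ β in c..(c + 2 * π), |ell τ β| =
      (∫ β in c..(c + 2 * π), max (ell τ β) 0) + ∫ β in c..(c + 2 * π), max (-ell τ β) 0 := by
    rw [← intervalIntegral.integral_add hi1 hi2]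
    apply intervalIntegral.integral_congr
    intro β _
    show |ell τ β| = max (ell τ β) 0 + max (-ell τ β) 0
    rcases le_total 0 (ell τ β) with h | h
    · rw [max_eq_left h, max_eq_right (by linarith), abs_of_nonneg h]; ring
    · rw [max_eq_right h, max_eq_left (by linarith), abs_of_nonpos h]; ring
  rw [h3]
  linarith

theorem Four_prod {a b c d : ℝ} (hcd : c ≤ d) (hd : d ≤ c + 2 * π) :
    Integrable (fun p : ℝ × ℝ => exp (-p.1) * ell p.1 p.2)
      ((volume.restrict (Ioc a b)).prod (volume.restrict (Ioc c d))) := by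
  rw [integrable_prod_iff Four_meas.aestronglyMeasurable]
  constructor
  · refine Filter.Eventually.of_forall fun τ => ?_
    have := (ell_ii τ c d).const_mul (exp (-τ))
    rw [intervalIntegrable_iff_integrableOn_Ioc_of_le hcd] at this
    exact this
  · refine Integrable.mono' (g := fun τ => exp (-τ) * (2 * π * log (1 + exp τ) + 2 * π * exp (-|τ|)))
      ?_ ?_ ?_
    · have hc : Continuous (fun τ => exp (-τ) * (2 * π * log (1 + exp τ) + 2 * π * exp (-|τ|))) := by
        have h1 : Continuous (fun τ : ℝ => log (1 + exp τ)) :=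
          Continuous.log (by fun_prop) (fun τ => by positivity)
        fun_prop
      exact hc.integrableOn_Ioc
    · exact (Four_meas.norm.aestronglyMeasurable (μ := (volume.restrict (Ioc a b)).prod
        (volume.restrict (Ioc c d)))).integral_prod_right'
    · refine Filter.Eventually.of_forall fun τ => ?_
      rw [Real.norm_of_nonneg (integral_nonneg fun _ => norm_nonneg _)]
      have e1 : ∫ y in Ioc c d, ‖exp (-τ) * ell τ y‖ = exp (-τ) * ∫ y in c..d, |ell τ y| := by
        rw [← intervalIntegral.integral_const_mul, intervalIntegral.integral_of_le hcd]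
        apply integral_congr_ae
        refine Filter.Eventually.of_forall fun y => ?_
        show ‖exp (-τ) * ell τ y‖ = exp (-τ) * |ell τ y|
        rw [norm_mul, Real.norm_of_nonneg (exp_pos _).le, Real.norm_eq_abs]
      show ∫ y in Ioc c d, ‖exp (-τ) * ell τ y‖ ≤ _
      rw [e1]
      apply mul_le_mul_of_nonneg_left _ (exp_pos _).le
      refine le_trans ?_ (Four_abs_int τ c)
      have h1 := intervalIntegral.integral_add_adjacent_intervals (ell_ii τ c d).abs
        (ell_ii τ d (c + 2 * π)).abs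
      have h2 : 0 ≤ ∫ β in d..(c + 2 * π), |ell τ β| :=
        intervalIntegral.integral_nonneg hd (fun _ _ => abs_nonneg _)
      linarith

theorem Four_swap {a b c d : ℝ} (hab : a ≤ b) (hcd : c ≤ d) (hd : d ≤ c + 2 * π) :
    IntervalIntegrable (fun τ => exp (-τ) * ∫ θ in c..d, ell τ θ) volume a b ∧
    IntervalIntegrable (fun θ => ∫ τ in a..b, exp (-τ) * ell τ θ) volume c d ∧
    ∫ τ in a..b, exp (-τ) * ∫ θ in c..d, ell τ θ =
      ∫ θ in c..d, ∫ τ in a..b, exp (-τ) * ell τ θ := by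
  have h := Four_prod (a := a) (b := b) hcd hd
  have e1 : (fun τ => exp (-τ) * ∫ θ in c..d, ell τ θ) =
      fun τ => ∫ θ in Ioc c d, exp (-τ) * ell τ θ := by
    funext τ
    rw [← intervalIntegral.integral_const_mul, intervalIntegral.integral_of_le hcd]
  have e2 : (fun θ => ∫ τ in a..b, exp (-τ) * ell τ θ) =
      fun θ => ∫ τ in Ioc a b, exp (-τ) * ell τ θ := by
    funext θ
    rw [intervalIntegral.integral_of_le hab]
  refine ⟨?_, ?_, ?_⟩
  · rw [e1, intervalIntegrable_iff_integrableOn_Ioc_of_le hab]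
    exact h.integral_prod_left
  · rw [e2, intervalIntegrable_iff_integrableOn_Ioc_of_le hcd]
    exact h.integral_prod_right
  · rw [e1, e2, intervalIntegral.integral_of_le hab, intervalIntegral.integral_of_le hcd]
    exact integral_integral_swap h

theorem Four_ii {ψ a b : ℝ} (hab : a ≤ b) :
    IntervalIntegrable (fun τ => exp (-τ) * hl τ ψ) volume a b := by
  have h := resp_ii 1 (-a) ψ (b - a) (by linarith)
  have h1 := h.comp_sub_right a
  have h2 := h1.const_mul (exp (-a))
  have e1 : (fun τ => exp (-a) * (exp (-(1 * (τ - a))) * hl (τ - a - -a) ψ)) =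
      fun τ => exp (-τ) * hl τ ψ := by
    funext τ
    rw [← mul_assoc, ← exp_add]
    have : τ - a - -a = τ := by ring
    rw [this]
    congr 2
    ring
  rw [e1] at h2
  have e2 : (0 : ℝ) + a = a := by ring
  have e3 : b - a + a = b := by ring
  rw [e2, e3] at h2
  exact h2

theorem Four_val_ii {ψ a b : ℝ} (hab : a ≤ b) :
    IntervalIntegrable (fun τ => exp (-τ) * ell τ ψ) volume a b := by
  have h1 := Four_ii (ψ := ψ) hab
  have h2 := (Four_swap hab (show ψ + π / 2 ≤ ψ + 3 * π / 2 by linarith [pi_pos])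
    (show ψ + 3 * π / 2 ≤ ψ + π / 2 + 2 * π by linarith [pi_pos])).1
  have h3 := (h1.sub h2).div_const 2
  refine h3.congr ?_
  intro τ _
  show (exp (-τ) * hl τ ψ - exp (-τ) * ∫ θ in (ψ + π / 2)..(ψ + 3 * π / 2), ell τ θ) / 2 =
    exp (-τ) * ell τ ψ
  unfold hl HF
  ring

theorem Four_J {ψ a b : ℝ} (hab : a ≤ b) : ∫ τ in a..b, exp (-τ) * hl τ ψ =
    (∫ θ in (ψ + π / 2)..(ψ + 3 * π / 2), ∫ τ in a..b, exp (-τ) * ell τ θ) +
      2 * ∫ τ in a..b, exp (-τ) * ell τ ψ := by
  obtain ⟨h1, h2, h3⟩ := Four_swap hab (show ψ + π / 2 ≤ ψ + 3 * π / 2 by linarith [pi_pos])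
    (show ψ + 3 * π / 2 ≤ ψ + π / 2 + 2 * π by linarith [pi_pos])
  rw [← h3, ← intervalIntegral.integral_const_mul, ← intervalIntegral.integral_add h1
    ((Four_val_ii hab).const_mul 2)]
  apply intervalIntegral.integral_congr
  intro τ _
  show exp (-τ) * hl τ ψ = exp (-τ) * (∫ θ in (ψ + π / 2)..(ψ + 3 * π / 2), ell τ θ) +
    2 * (exp (-τ) * ell τ ψ)
  unfold hl HF
  ring

/-! ### The direction zero -/

theorem Four_pt_zero (τ : ℝ) : pt τ 0 = ((exp τ : ℝ) : ℂ) := by
  unfold pt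
  rw [Complex.ofReal_exp]
  congr 1
  simp

theorem Four_A_zero (τ : ℝ) : Four_A τ 0 = (1 - exp (-τ)) * ell τ 0 - τ := by
  unfold Four_A
  have h1 : Complex.exp (((0 : ℝ) : ℂ) * Complex.I) - ((exp (-τ) : ℝ) : ℂ) =
      ((1 - exp (-τ) : ℝ) : ℂ) := by
    rw [Complex.ofReal_zero, zero_mul, Complex.exp_zero]
    push_cast
    rfl
  rw [h1, Complex.re_ofReal_mul, Four_ell, cos_zero, mul_one]

theorem Four_ell_zero {τ : ℝ} : ell τ 0 = log (1 - exp τ) := by
  unfold ell
  rw [Four_pt_zero]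
  have : (1 : ℂ) - ((exp τ : ℝ) : ℂ) = ((1 - exp τ : ℝ) : ℂ) := by
    push_cast
    rfl
  rw [this, Complex.norm_real, Real.norm_eq_abs, log_abs]

theorem Four_zero_cont : Continuous (fun τ => Four_A τ 0) := by
  have h1 : (fun τ => Four_A τ 0) = fun τ => (1 - exp (-τ)) * log (1 - exp (-τ)) - τ * exp (-τ) := by
    funext τ
    rw [Four_A_zero, Four_ell_zero]
    by_cases h : τ = 0
    · subst h
      simp
    · have h2 : 1 - exp (-τ) ≠ 0 := by
        intro h3
        have : exp (-τ) = 1 := by linarith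
        rw [exp_eq_one_iff] at this
        exact h (by linarith)
      have h3 : 1 - exp τ = -(exp τ * (1 - exp (-τ))) := by
        have : exp τ * exp (-τ) = 1 := by rw [← exp_add]; simp
        linear_combination -this
      rw [h3, log_neg_eq_log, log_mul (exp_pos _).ne' h2, log_exp]
      ring
  rw [h1]
  have h2 : Continuous (fun τ : ℝ => (1 - exp (-τ)) * log (1 - exp (-τ))) :=
    Real.continuous_mul_log.comp (by fun_prop : Continuous fun τ : ℝ => 1 - exp (-τ))
  fun_prop

theorem Four_zero_deriv {τ : ℝ} (h : τ ≠ 0) :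
    HasDerivAt (fun τ => Four_A τ 0) (exp (-τ) * ell τ 0) τ := by
  have h0 : (fun τ => Four_A τ 0) = fun τ => (1 - exp (-τ)) * log (1 - exp τ) - τ := by
    funext τ
    rw [Four_A_zero, Four_ell_zero]
  rw [h0]
  have hne : 1 - exp τ ≠ 0 := by
    intro h3
    have : exp τ = 1 := by linarith
    rw [exp_eq_one_iff] at this
    exact h this
  have h1 : HasDerivAt (fun τ : ℝ => 1 - exp (-τ)) (exp (-τ)) τ := by
    have := ((hasDerivAt_neg τ).exp).const_sub 1
    simpa using this
  have h2 : HasDerivAt (fun τ : ℝ => log (1 - exp τ)) (-exp τ / (1 - exp τ)) τ := by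
    have := ((Real.hasDerivAt_exp τ).const_sub 1).log hne
    simpa using this
  have h3 := (h1.mul h2).sub (hasDerivAt_id τ)
  refine h3.congr_deriv ?_
  rw [Four_ell_zero]
  have h4 : exp (-τ) * exp τ = 1 := by rw [← exp_add]; simp
  have h5 : (1 - exp (-τ)) * (-exp τ / (1 - exp τ)) = 1 := by
    rw [mul_div_assoc', div_eq_one_iff_eq hne]
    linear_combination h4
  rw [h5]
  ring

theorem Four_int_zero {a b : ℝ} (hab : a ≤ b) :
    ∫ τ in a..b, exp (-τ) * ell τ 0 = Four_A b 0 - Four_A a 0 :=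
  MeasureTheory.integral_eq_of_hasDerivAt_off_countable (fun τ => Four_A τ 0) _
    (Set.countable_singleton (0 : ℝ)) Four_zero_cont.continuousOn
    (fun τ hτ => Four_zero_deriv hτ.2) (Four_val_ii hab)

theorem Four_right_zero {Y : ℝ} (hY : 1 ≤ Y) : |Four_A Y 0| ≤ (Y + 5) * exp (-Y) := by
  have hs := Four_small hY
  have hp := exp_pos (-Y)
  rw [Four_A_zero, Four_ell_zero]
  have h3 : 1 - exp Y = -(exp Y * (1 - exp (-Y))) := by
    have : exp Y * exp (-Y) = 1 := by rw [← exp_add]; simp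
    linear_combination -this
  rw [h3, log_neg_eq_log, log_mul (exp_pos _).ne' (by linarith), log_exp]
  have h4 : |log (1 - exp (-Y))| ≤ 2 * exp (-Y) := by
    rw [abs_of_nonpos (log_nonpos (by linarith) (by linarith))]
    have h5 : -log (1 - exp (-Y)) ≤ (1 - exp (-Y))⁻¹ - 1 := by
      rw [← log_inv]
      exact log_le_sub_one_of_pos (inv_pos.2 (by linarith))
    have h6 : (1 - exp (-Y))⁻¹ - 1 ≤ 2 * exp (-Y) := by
      have h7 : 0 < 1 - exp (-Y) := by linarith
      rw [sub_le_iff_le_add, inv_le_iff_one_le_mul₀ h7]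
      nlinarith
    linarith
  have h5 : (1 - exp (-Y)) * (Y + log (1 - exp (-Y))) - Y =
      (1 - exp (-Y)) * log (1 - exp (-Y)) - Y * exp (-Y) := by ring
  rw [h5]
  refine (abs_sub _ _).trans ?_
  rw [abs_mul, abs_of_nonneg (show 0 ≤ 1 - exp (-Y) by linarith),
    abs_of_nonneg (show 0 ≤ Y * exp (-Y) by positivity)]
  have h6 : (1 - exp (-Y)) * |log (1 - exp (-Y))| ≤ 1 * (2 * exp (-Y)) :=
    mul_le_mul (by linarith) h4 (abs_nonneg _) (by norm_num)
  nlinarith

/-! ### The integral over a long window -/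

theorem Four_main1 {X Y ψ : ℝ} (hX : 1 ≤ X) (hY : 1 ≤ Y) (h0 : 0 ≤ ψ) (h1 : ψ ≤ π) :
    (π - ψ) * sin ψ - (1 + X) * cos ψ - (4 * exp (-X) + (Y + 5) * exp (-Y)) ≤
      ∫ τ in (-X)..Y, exp (-τ) * ell τ ψ := by
  have hXY : -X ≤ Y := by linarith
  have hl := abs_le.1 (Four_left hX ψ)
  have hpi := pi_pos
  rcases h0.eq_or_lt with h | h
  · rw [← h] at hl ⊢
    rw [Four_int_zero hXY]
    have hr := abs_le.1 (Four_right_zero hY)
    rw [sin_zero, cos_zero, mul_zero]
    rw [cos_zero] at hl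
    linarith
  · have hc : cos ψ ≠ 1 := by
      intro h2
      rw [cos_eq_one_iff_of_lt_of_lt (by linarith) (by linarith)] at h2
      linarith
    rw [Four_int hc]
    have hr := abs_le.1 (Four_right hY h (by linarith))
    linarith

theorem Four_I1 {X Y θ : ℝ} (hX : 1 ≤ X) (hY : 1 ≤ Y) (h0 : 0 < θ) (h1 : θ < 2 * π) :
    (π - θ) * sin θ - (1 + X) * cos θ - (4 * exp (-X) + (Y + 5) * exp (-Y)) ≤
      ∫ τ in (-X)..Y, exp (-τ) * ell τ θ := by
  have hl := abs_le.1 (Four_left hX θ)
  have hc : cos θ ≠ 1 := by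
    intro h2
    rw [cos_eq_one_iff_of_lt_of_lt (by linarith) (by linarith)] at h2
    linarith
  rw [Four_int hc]
  have hr := abs_le.1 (Four_right hY h0 (by linarith))
  linarith

theorem Four_I2 {X Y θ : ℝ} (hX : 1 ≤ X) (hY : 1 ≤ Y) (h0 : 2 * π < θ) (h1 : θ < 4 * π) :
    (3 * π - θ) * sin θ - (1 + X) * cos θ - (4 * exp (-X) + (Y + 5) * exp (-Y)) ≤
      ∫ τ in (-X)..Y, exp (-τ) * ell τ θ := by
  have h := Four_I1 hX hY (show 0 < θ - 2 * π by linarith) (by linarith)
  rw [sin_sub_two_pi, cos_sub_two_pi] at h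
  have e : ∀ τ, ell τ (θ - 2 * π) = ell τ θ := by
    intro τ
    have := ell_per τ (θ - 2 * π)
    rw [sub_add_cancel] at this
    exact this.symm
  simp_rw [e] at h
  linarith

theorem Four_F (c d A B ε : ℝ) : ∫ θ in c..d, ((A - θ) * sin θ - B * cos θ - ε) =
    (-((A - d) * cos d) - sin d - B * sin d - ε * d) -
      (-((A - c) * cos c) - sin c - B * sin c - ε * c) := by
  apply intervalIntegral.integral_eq_sub_of_hasDerivAt
    (f := fun θ => -((A - θ) * cos θ) - sin θ - B * sin θ - ε * θ)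
  · intro θ _
    have h1 : HasDerivAt (fun θ : ℝ => A - θ) (-1) θ := by
      simpa using (hasDerivAt_id θ).const_sub A
    have h2 := (h1.mul (hasDerivAt_cos θ)).neg
    have h3 := ((h2.sub (hasDerivAt_sin θ)).sub ((hasDerivAt_sin θ).const_mul B)).sub
      ((hasDerivAt_id θ).const_mul ε)
    refine h3.congr_deriv ?_
    ring
  · exact (by fun_prop : Continuous fun θ => (A - θ) * sin θ - B * cos θ - ε).intervalIntegrable _ _

theorem Four_main {X Y ψ : ℝ} (hX : 1 ≤ X) (hY : 1 ≤ Y) (h0 : 0 ≤ ψ) (h1 : ψ ≤ π) :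
    2 * (π - 1) * (-cos ψ) - (π + 2) * (4 * exp (-X) + (Y + 5) * exp (-Y)) ≤
      ∫ τ in (-X)..Y, exp (-τ) * hl τ ψ := by
  have hpi := pi_pos
  have hXY : -X ≤ Y := by linarith
  rw [Four_J hXY]
  have hv := Four_main1 hX hY h0 h1
  have hII := (Four_swap hXY (show ψ + π / 2 ≤ ψ + 3 * π / 2 by linarith)
    (show ψ + 3 * π / 2 ≤ ψ + π / 2 + 2 * π by linarith)).2.1
  obtain ⟨ε, hε⟩ : ∃ ε, ε = 4 * exp (-X) + (Y + 5) * exp (-Y) := ⟨_, rfl⟩
  rw [← hε] at hv ⊢
  have c1 : cos (ψ + 3 * π / 2) = sin ψ := by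
    have : ψ + 3 * π / 2 = ψ + π / 2 + π := by ring
    rw [this, cos_add_pi, cos_add_pi_div_two]
    ring
  have s1 : sin (ψ + 3 * π / 2) = -cos ψ := by
    have : ψ + 3 * π / 2 = ψ + π / 2 + π := by ring
    rw [this, sin_add_pi, sin_add_pi_div_two]
  have c2 : cos (ψ + π / 2) = -sin ψ := cos_add_pi_div_two ψ
  have s2 : sin (ψ + π / 2) = cos ψ := sin_add_pi_div_two ψ
  have hci : ∀ A B ε c d : ℝ, IntervalIntegrable (fun θ => (A - θ) * sin θ - B * cos θ - ε)
      volume c d := fun A B ε c d =>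
    (by fun_prop : Continuous fun θ => (A - θ) * sin θ - B * cos θ - ε).intervalIntegrable _ _
  rcases le_or_gt ψ (π / 2) with hψ | hψ
  · have h2 : ∫ θ in (ψ + π / 2)..(ψ + 3 * π / 2), ((π - θ) * sin θ - (1 + X) * cos θ - ε) ≤
        ∫ θ in (ψ + π / 2)..(ψ + 3 * π / 2), ∫ τ in (-X)..Y, exp (-τ) * ell τ θ := by
      apply intervalIntegral.integral_mono_on_of_le_Ioo (by linarith) (hci _ _ _ _ _) hII
      intro θ hθ
      rw [hε]
      exact Four_I1 hX hY (by linarith [hθ.1]) (by linarith [hθ.2])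
    rw [Four_F, c1, s1, c2, s2] at h2
    have hsin : 0 ≤ sin ψ := sin_nonneg_of_nonneg_of_le_pi h0 h1
    have hcos : 0 ≤ cos ψ := cos_nonneg_of_neg_pi_div_two_le_of_le (by linarith) hψ
    have h3 : 0 ≤ π * sin ψ := by positivity
    have h4 : 0 ≤ π * cos ψ := by positivity
    nlinarith
  · have hA : IntervalIntegrable (fun θ => ∫ τ in (-X)..Y, exp (-τ) * ell τ θ) volume
        (ψ + π / 2) (2 * π) := hII.mono_set (by
          rw [Set.uIcc_of_le (by linarith), Set.uIcc_of_le (by linarith)]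
          exact Set.Icc_subset_Icc le_rfl (by linarith))
    have hB : IntervalIntegrable (fun θ => ∫ τ in (-X)..Y, exp (-τ) * ell τ θ) volume
        (2 * π) (ψ + 3 * π / 2) := hII.mono_set (by
          rw [Set.uIcc_of_le (by linarith), Set.uIcc_of_le (by linarith)]
          exact Set.Icc_subset_Icc (by linarith) le_rfl)
    rw [← intervalIntegral.integral_add_adjacent_intervals hA hB]
    have h2 : ∫ θ in (ψ + π / 2)..(2 * π), ((π - θ) * sin θ - (1 + X) * cos θ - ε) ≤
        ∫ θ in (ψ + π / 2)..(2 * π), ∫ τ in (-X)..Y, exp (-τ) * ell τ θ := by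
      apply intervalIntegral.integral_mono_on_of_le_Ioo (by linarith) (hci _ _ _ _ _) hA
      intro θ hθ
      rw [hε]
      exact Four_I1 hX hY (by linarith [hθ.1]) (by linarith [hθ.2])
    have h3 : ∫ θ in (2 * π)..(ψ + 3 * π / 2), ((3 * π - θ) * sin θ - (1 + X) * cos θ - ε) ≤
        ∫ θ in (2 * π)..(ψ + 3 * π / 2), ∫ τ in (-X)..Y, exp (-τ) * ell τ θ := by
      apply intervalIntegral.integral_mono_on_of_le_Ioo (by linarith) (hci _ _ _ _ _) hB
      intro θ hθ
      rw [hε]
      exact Four_I2 hX hY (by linarith [hθ.1]) (by linarith [hθ.2])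
    rw [Four_F, c2, s2, cos_two_pi, sin_two_pi] at h2
    rw [Four_F, c1, s1, cos_two_pi, sin_two_pi] at h3
    have hcos : 0 ≤ 1 + cos ψ := by linarith [neg_one_le_cos ψ]
    have h4 : 0 ≤ π * (1 + cos ψ) := by positivity
    nlinarith

/-! ### Tails -/

theorem Four_tail1 {x X ψ : ℝ} (hx : 0 ≤ x) (hX : x ≤ X) :
    ∫ τ in (-X)..(-x), exp (-τ) * hl τ ψ ≤ 10 * exp (-x) := by
  have h1 : ∫ τ in (-X)..(-x), exp (-τ) * hl τ ψ ≤ ∫ τ in (-X)..(-x), exp (1 * (-τ)) * GG (-τ) := by
    apply intervalIntegral.integral_mono_on_of_le_Ioo (by linarith) (Four_ii (by linarith))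
    · have h := GG_ii 1 x X hx hX
      have h2 := h.comp_sub_left 0
      have e : (fun τ : ℝ => exp (1 * (0 - τ)) * GG (0 - τ)) = fun τ => exp (1 * (-τ)) * GG (-τ) := by
        funext τ
        rw [zero_sub]
      rw [e, zero_sub, zero_sub] at h2
      exact h2.symm
    · intro τ hτ
      have hτ0 : τ < 0 := by linarith [hτ.2]
      have hb := (abs_le.1 (hl_bd hτ0.ne ψ)).2
      rw [max_eq_right hτ0.le, mul_zero, sub_zero, abs_of_neg hτ0] at hb
      rw [one_mul]
      exact mul_le_mul_of_nonneg_left hb (exp_pos _).le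
  refine h1.trans ?_
  rw [intervalIntegral.integral_comp_neg (fun u => exp (1 * u) * GG u), neg_neg, neg_neg]
  simp_rw [one_mul]
  exact GG_tail hx hX

theorem Four_tail2 {b Y ψ : ℝ} (hb : 0 ≤ b) (hY : b ≤ Y) :
    ∫ τ in b..Y, exp (-τ) * hl τ ψ ≤ 10 * (1 + b) * exp (-b) := by
  have hpi := pi_pos
  have hG1 : IntervalIntegrable (fun τ => exp ((-1) * τ) * GG τ) volume b Y := GG_ii (-1) b Y hb hY
  have hc1 : IntervalIntegrable (fun τ => (π + 2) * (τ * exp (-τ))) volume b Y :=
    (by fun_prop : Continuous fun τ : ℝ => (π + 2) * (τ * exp (-τ))).intervalIntegrable _ _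
  have h1 : ∫ τ in b..Y, exp (-τ) * hl τ ψ ≤
      ∫ τ in b..Y, ((π + 2) * (τ * exp (-τ)) + exp ((-1) * τ) * GG τ) := by
    apply intervalIntegral.integral_mono_on_of_le_Ioo hY (Four_ii hY) (hc1.add hG1)
    intro τ hτ
    have hτ0 : 0 < τ := by linarith [hτ.1]
    have hbd := (abs_le.1 (hl_bd hτ0.ne' ψ)).2
    rw [max_eq_left hτ0.le, abs_of_pos hτ0] at hbd
    have h2 : exp (-τ) * hl τ ψ ≤ exp (-τ) * ((π + 2) * τ + GG τ) :=
      mul_le_mul_of_nonneg_left (by linarith) (exp_pos _).le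
    refine h2.trans (le_of_eq ?_)
    rw [neg_one_mul]
    ring
  rw [intervalIntegral.integral_add hc1 hG1, intervalIntegral.integral_const_mul] at h1
  have h2 : ∫ τ in b..Y, τ * exp (-τ) = (1 + b) * exp (-b) - (1 + Y) * exp (-Y) := by
    have hd : ∀ τ ∈ Set.uIcc b Y, HasDerivAt (fun τ : ℝ => -((1 + τ) * exp (-τ))) (τ * exp (-τ)) τ := by
      intro τ _
      have h3 : HasDerivAt (fun τ : ℝ => 1 + τ) 1 τ := by
        simpa using (hasDerivAt_id τ).const_add 1
      have h4 : HasDerivAt (fun τ : ℝ => exp (-τ)) (-exp (-τ)) τ := by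
        have := (hasDerivAt_neg τ).exp
        simpa using this
      refine (h3.mul h4).neg.congr_deriv ?_
      ring
    rw [intervalIntegral.integral_eq_sub_of_hasDerivAt hd
      ((by fun_prop : Continuous fun τ : ℝ => τ * exp (-τ)).intervalIntegrable _ _)]
    ring
  have h3 : ∫ τ in b..Y, exp ((-1) * τ) * GG τ ≤ 53 / 50 * exp (-b) := by
    have e1 : ∫ τ in b..Y, exp ((-1) * τ) * GG τ =
        ∫ s in (0 : ℝ)..(Y - b), exp ((-1) * (s + b)) * GG (s + b) := by
      rw [intervalIntegral.integral_comp_add_right (fun τ => exp ((-1) * τ) * GG τ)]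
      congr 1
      · ring
      · ring
    have hi1 : IntervalIntegrable (fun s => exp ((-1) * (s + b)) * GG (s + b)) volume 0 (Y - b) := by
      have := hG1.comp_add_right b
      have e2 : b - b = 0 := by ring
      rw [e2] at this
      exact this
    have hi2 : IntervalIntegrable (fun s => exp (-b) * (exp (-(1 * s)) * GG s)) volume 0 (Y - b) := by
      have := (GG_ii (-1) 0 (Y - b) le_rfl (by linarith)).const_mul (exp (-b))
      have e2 : (fun x => exp (-b) * (exp (-1 * x) * GG x)) =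
          fun s => exp (-b) * (exp (-(1 * s)) * GG s) := by
        funext s
        rw [neg_mul]
      rw [e2] at this
      exact this
    have h4 : ∫ s in (0 : ℝ)..(Y - b), exp ((-1) * (s + b)) * GG (s + b) ≤
        ∫ s in (0 : ℝ)..(Y - b), exp (-b) * (exp (-(1 * s)) * GG s) := by
      apply intervalIntegral.integral_mono_on_of_le_Ioo (by linarith) hi1 hi2
      intro s hs
      have hs0 : 0 < s := hs.1
      have h5 : GG (s + b) ≤ GG s := GG_anti (Set.mem_Ioi.2 hs0) (Set.mem_Ioi.2 (by linarith))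
        (by linarith)
      have e3 : exp ((-1) * (s + b)) = exp (-b) * exp (-(1 * s)) := by
        rw [← exp_add]
        congr 1
        ring
      rw [e3, mul_assoc]
      apply mul_le_mul_of_nonneg_left _ (exp_pos _).le
      exact mul_le_mul_of_nonneg_left h5 (exp_pos _).le
    rw [intervalIntegral.integral_const_mul] at h4
    have h5 := GG_int_neg (a := 1) (y := Y - b) le_rfl (by linarith)
    rw [e1]
    have h6 := mul_le_mul_of_nonneg_left h5 (exp_pos (-b)).le
    linarith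
  rw [h2] at h1
  have h4 : 0 ≤ (1 + Y) * exp (-Y) := mul_nonneg (by linarith) (exp_pos _).le
  have h5 : (π + 2) * ((1 + b) * exp (-b) - (1 + Y) * exp (-Y)) ≤ (π + 2) * ((1 + b) * exp (-b)) :=
    mul_le_mul_of_nonneg_left (by linarith) (by positivity)
  have h6 : (π + 2) * ((1 + b) * exp (-b)) ≤ 6 * ((1 + b) * exp (-b)) :=
    mul_le_mul_of_nonneg_right (by linarith [pi_lt_four])
      (mul_nonneg (by linarith) (exp_pos _).le)
  have h7 : exp (-b) ≤ (1 + b) * exp (-b) := by
    have := mul_nonneg hb (exp_pos (-b)).le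
    linarith
  have h8 : 0 ≤ (1 + b) * exp (-b) := mul_nonneg (by linarith) (exp_pos _).le
  linarith

theorem Four_core {x b ψ : ℝ} (hx : 0 ≤ x) (hb : 0 ≤ b) (h0 : 0 ≤ ψ) (h1 : ψ ≤ π) :
    2 * (π - 1) * (-cos ψ) - 10 * exp (-x) - 10 * (1 + b) * exp (-b) ≤
      ∫ τ in (-x)..b, exp (-τ) * hl τ ψ := by
  have hlim : Tendsto (fun N : ℝ => 2 * (π - 1) * (-cos ψ) -
      (π + 2) * (4 * exp (-N) + (N + 5) * exp (-N)) - 10 * exp (-x) - 10 * (1 + b) * exp (-b)) atTop
      (𝓝 (2 * (π - 1) * (-cos ψ) - (π + 2) * 0 - 10 * exp (-x) - 10 * (1 + b) * exp (-b))) := by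
    have h2 : Tendsto (fun N : ℝ => 4 * exp (-N) + (N + 5) * exp (-N)) atTop (𝓝 0) := by
      have ha := Real.tendsto_pow_mul_exp_neg_atTop_nhds_zero 1
      have hb := Real.tendsto_pow_mul_exp_neg_atTop_nhds_zero 0
      have := ha.add (hb.const_mul 9)
      rw [mul_zero, add_zero] at this
      refine this.congr ?_
      intro N
      ring
    exact (((h2.const_mul (π + 2)).const_sub _).sub_const _).sub_const _
  rw [mul_zero, sub_zero] at hlim
  refine le_of_tendsto hlim ?_
  filter_upwards [eventually_ge_atTop (max 1 (max x b))] with N hN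
  have hN1 : 1 ≤ N := (le_max_left _ _).trans hN
  have hNx : x ≤ N := (le_max_left _ _).trans ((le_max_right _ _).trans hN)
  have hNb : b ≤ N := (le_max_right _ _).trans ((le_max_right _ _).trans hN)
  have hm := Four_main hN1 hN1 h0 h1
  have ht1 := Four_tail1 (ψ := ψ) hx hNx
  have ht2 := Four_tail2 (ψ := ψ) hb hNb
  have hs1 := intervalIntegral.integral_add_adjacent_intervals
    (Four_ii (ψ := ψ) (show -N ≤ -x by linarith)) (Four_ii (ψ := ψ) (show -x ≤ b by linarith))
  have hs2 := intervalIntegral.integral_add_adjacent_intervals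
    (Four_ii (ψ := ψ) (show -N ≤ b by linarith)) (Four_ii (ψ := ψ) hNb)
  linarith

/-! ### Symmetry of the direction -/

theorem Four_ell_int (τ β : ℝ) (k : ℤ) : ell τ (β + k * (2 * π)) = ell τ β := by
  have h : Function.Periodic (ell τ) (2 * π) := ell_per τ
  exact h.int_mul k β

theorem Four_hl_cos {ψ ψ' : ℝ} (h : cos ψ' = cos ψ) (τ : ℝ) : hl τ ψ = hl τ ψ' := by
  obtain ⟨k, hk⟩ := cos_eq_cos_iff.1 h
  unfold hl HF
  rcases hk with hk | hk
  · have e1 : ψ = ψ' + k * (2 * π) := by rw [hk]; ring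
    rw [e1, Four_ell_int]
    congr 1
    have e2 : ψ' + k * (2 * π) + π / 2 = ψ' + π / 2 + k * (2 * π) := by ring
    have e3 : ψ' + k * (2 * π) + 3 * π / 2 = ψ' + 3 * π / 2 + k * (2 * π) := by ring
    rw [e2, e3, ← intervalIntegral.integral_comp_add_right (ell τ)]
    apply intervalIntegral.integral_congr
    intro θ _
    exact Four_ell_int τ θ k
  · have e1 : ψ = -ψ' + k * (2 * π) := by rw [hk]; ring
    have e0 : ell τ ψ = ell τ ψ' := by rw [e1, Four_ell_int, ell_even]
    rw [e0]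
    congr 1
    have e2 : ψ + π / 2 = ((k + 1 : ℤ) : ℝ) * (2 * π) - (ψ' + 3 * π / 2) := by
      rw [e1]; push_cast; ring
    have e3 : ψ + 3 * π / 2 = ((k + 1 : ℤ) : ℝ) * (2 * π) - (ψ' + π / 2) := by
      rw [e1]; push_cast; ring
    rw [e2, e3, ← intervalIntegral.integral_comp_sub_left (ell τ)]
    apply intervalIntegral.integral_congr
    intro θ _
    show ell τ (((k + 1 : ℤ) : ℝ) * (2 * π) - θ) = ell τ θ
    have e4 : ((k + 1 : ℤ) : ℝ) * (2 * π) - θ = -θ + ((k + 1 : ℤ) : ℝ) * (2 * π) := by ring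
    rw [e4, Four_ell_int, ell_even]

theorem resp_sharp {x ψ T : ℝ} (hx : 0 ≤ x) (hxT : x ≤ T) :
    2 * (π - 1) * (-cos ψ) * exp (-x) - 10 * exp (-(2 * x)) - 10 * (1 + (T - x)) * exp (-T) ≤
      ∫ t in (0 : ℝ)..T, exp (-t) * hl (t - x) ψ := by
  have hc : cos (arccos (cos ψ)) = cos ψ := cos_arccos (neg_one_le_cos ψ) (cos_le_one ψ)
  have h := Four_core (x := x) (b := T - x) (ψ := arccos (cos ψ)) hx (by linarith)
    (arccos_nonneg _) (arccos_le_pi _)
  rw [hc] at h
  have e1 : ∫ t in (0 : ℝ)..T, exp (-t) * hl (t - x) ψ =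
      exp (-x) * ∫ τ in (-x)..(T - x), exp (-τ) * hl τ (arccos (cos ψ)) := by
    rw [← intervalIntegral.integral_const_mul]
    have e2 : -x = 0 - x := by ring
    rw [e2, ← intervalIntegral.integral_comp_sub_right
      (fun τ => exp (0 - x) * (exp (-τ) * hl τ (arccos (cos ψ))))]
    apply intervalIntegral.integral_congr
    intro t _
    show exp (-t) * hl (t - x) ψ = exp (0 - x) * (exp (-(t - x)) * hl (t - x) (arccos (cos ψ)))
    rw [Four_hl_cos hc (t - x), ← mul_assoc, ← exp_add]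
    congr 2
    ring
  rw [e1]
  have h2 := mul_le_mul_of_nonneg_left h (exp_pos (-x)).le
  refine le_trans (le_of_eq ?_) h2
  have e3 : exp (-(2 * x)) = exp (-x) * exp (-x) := by
    rw [← exp_add]
    congr 1
    ring
  have e4 : exp (-T) = exp (-x) * exp (-(T - x)) := by
    rw [← exp_add]
    congr 1
    ring
  rw [e3, e4]
  ring


end Pool.Agent.TX1
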