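import Pool.Agent.TX1.Key
import Pool.Agent.TX1.Near1
import Pool.Agent.TX1.Four

/-!
# TX1, module FirstWin: growth over a long window

As `Boot`, with `a = 1`, `T = W`, `20 ≤ W ≤ R/4`: `∫_0^W exp (-t) F t dt ≤ 2δ ∫ exp (-t) TM f (b+t) + 2 ∫ exp (-t) Ex + ...`, `exp (-t) TM f (b+t) ≤ (1 + 2η) TM f b`, `η = 5000((R+1)σ + exp (-R/2))` (`near`),
`Ex_int1`, `sum_max`, `Ω = 1800 (R+1)σ`.  Lower bound: zeros with `x i ≤ b`: `≥ 0` (`resp_behind`); `b < x i ≤ b+W`: `resp_sharp` (`sum_two`, and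
`∑_{b < x i ≤ b+W} (1 + (W-(x i-b))) exp (-W) ≤ exp (-W) (# + TN f (b+W)/2π)`, `cnt`, `Win.ze`); `x i > b+W`: `resp_far1`, `sum_far1`.
So `D = ∑_{b<x i≤b+W} exp (-(x i-b)) (-cos (y i-ψ)) ≤ (δ W (1+2η)/(π-1) + C(...)) TM f b`.
`cT (b+W) = cT b + ∑_{b<x i≤b+W} 1/a i`, `ω = -exp (-iψ)`: `Re (conj ω cT (b+W)) ≤ ‖cT b‖ + exp (-b) D`; `|Im (conj ω cT (b+W))| ≤ ∑_{x i>b+W} exp (-x i) ≤ exp (-b) 80 (R+1)σ TM f b` (`sum_max`),
`Re ≥ exp (-b) TM f b/4`, `‖w‖ ≤ Re + Im²/(2 Re)`.  Then `near1` at `t = W` and `t = 0`.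
-/

set_option autoImplicit false

namespace Pool.Agent.TX1

open Real MeasureTheory Set Filter Topology

variable {f : ℂ → ℂ} {b R σ : ℝ} {n : ℕ} {x y : Fin n → ℝ} {h : ℂ → ℂ} {A ψ : ℝ}

/-- the sum over the zeros of the window -/
noncomputable def fwD {n : ℕ} (x y : Fin n → ℝ) (b W ψ : ℝ) : ℝ :=
  ∑ i, if b < x i ∧ x i ≤ b + W then exp (-(x i - b)) * (-cos (ψ - y i)) else 0

/-- growth inside the window -/
theorem fw_grow (hW : Win f b R σ) (hD : Dip f b R n x y h A ψ) {t : ℝ} (ht : 0 ≤ t)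
    (htR : t ≤ R / 4) :
    TM f (b + t) ≤ (1 + 2 * (5000 * ((R + 1) * σ + exp (-(R / 2))))) * exp t * TM f b := by
  have h1 := (abs_le.1 (near hW hD (by linarith : (-1 : ℝ) ≤ t) htR)).2
  have hR := hW.hR
  have h2 := (abs_le.1 (near hW hD (by norm_num : (-1 : ℝ) ≤ 0) (by linarith : (0 : ℝ) ≤ R / 4))).1
  rw [add_zero, exp_zero, mul_one] at h2
  have h3 : 2 * A ≤ TM f b + 5000 * ((R + 1) * σ + exp (-(R / 2))) * 1 * TM f b := by linarith
  have h4 := mul_le_mul_of_nonneg_right h3 (exp_pos t).le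
  nlinarith

theorem fw_upper (hW : Win f b R σ) (hD : Dip f b R n x y h A ψ) (hR : 80 ≤ R) {δ : ℝ} (hδ : 0 ≤ δ)
    (hM : HM f δ b) (hs : 5000 * ((R + 1) * σ + exp (-(R / 2))) ≤ 1 / 100) {W : ℝ}
    (hW20 : 20 ≤ W) (hWR : W ≤ R / 4) :
    ∑ i, ∫ t in (0 : ℝ)..W, exp (-(1 * t)) * hl (t - (x i - b)) (ψ - y i) ≤
      (2 * δ * W * (1 + 2 * (5000 * ((R + 1) * σ + exp (-(R / 2))))) +
        29120 * W * ((R + 1) * σ) ^ (5 / 4 : ℝ) + 1000 * exp (-(R / 2))) * TM f b := by
  have hTMb : 0 < TM f b := (exp_pos R).trans_le hW.big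
  have hs6 : 5000 * ((R + 1) * σ + exp (-(R / 2))) ≤ 1 / 6 := by linarith
  obtain ⟨hA1, hA2⟩ := near_A hW hD hs6
  have hA : 0 < A := by linarith
  have hσ := hW.hσ
  obtain ⟨s, hsdef⟩ : ∃ s : ℝ, s = (R + 1) * σ := ⟨_, rfl⟩
  have hs0 : 0 < s := by rw [hsdef]; positivity
  have hE := exp_pos (-(R / 2))
  have hΩe : 1800 * (R + 1) * σ = 1800 * s := by rw [hsdef]; ring
  have hs1 : s ≤ 1 / 500000 := by
    rw [← hsdef] at hs; linarith
  have hkey := key hW hD hR hM hs6 (a := 1) (T := W) (by linarith) hWR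
  rw [hΩe] at hkey
  have hTMc := TM_cont hW.hf
  -- first term
  have h1 : ∫ t in (0 : ℝ)..W, exp (-(1 * t)) * TM f (b + t) ≤
      W * ((1 + 2 * (5000 * ((R + 1) * σ + exp (-(R / 2))))) * TM f b) := by
    calc ∫ t in (0 : ℝ)..W, exp (-(1 * t)) * TM f (b + t)
        ≤ ∫ t in (0 : ℝ)..W, (1 + 2 * (5000 * ((R + 1) * σ + exp (-(R / 2))))) * TM f b := by
          apply intervalIntegral.integral_mono_on (by linarith)
            (Continuous.intervalIntegrable (by fun_prop) _ _) (by simp)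
          intro t ht
          have e1 := mul_le_mul_of_nonneg_left (fw_grow hW hD ht.1 (by linarith [ht.2]))
            (exp_pos (-(1 * t))).le
          have e2 : exp (-(1 * t)) * exp t = 1 := by
            rw [← exp_add, one_mul, neg_add_cancel, exp_zero]
          calc exp (-(1 * t)) * TM f (b + t) ≤ _ := e1
            _ = (exp (-(1 * t)) * exp t) *
                ((1 + 2 * (5000 * ((R + 1) * σ + exp (-(R / 2))))) * TM f b) := by ring
            _ = _ := by rw [e2, one_mul]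
      _ = _ := by
          rw [intervalIntegral.integral_const, smul_eq_mul, sub_zero]
  -- second term
  have h2 : ∫ t in (0 : ℝ)..W, exp (-(1 * t)) * Ex x b A (1800 * s) t ≤
      14560 * W * s ^ (5 / 4 : ℝ) * TM f b := by
    have e0 : ∀ t, 0 ≤ t → t ≤ W → ∑ i, exp (-|b + t - x i|) ≤ (1800 * s) * A * exp t := by
      intro t ht htW
      have e1 := sum_abs hW hD.fac (t := t) (by linarith) (by linarith)
      have e2 : TM f b ≤ 3 * A := by linarith
      calc ∑ i, exp (-|b + t - x i|) ≤ 600 * (R + 1) * σ * exp t * TM f b := e1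
        _ = (600 * s * exp t) * TM f b := by rw [hsdef]; ring
        _ ≤ (600 * s * exp t) * (3 * A) := mul_le_mul_of_nonneg_left e2 (by positivity)
        _ = _ := by ring
    have e1 := Ex_int1 x (b := b) hA (by positivity : (0 : ℝ) < 1800 * s) (by linarith)
      (by linarith : (0 : ℝ) ≤ W) e0
    have e2 := sum_max hW hD.fac
    have e3 : (1800 * s) ^ (1 / 4 : ℝ) ≤ 7 * s ^ (1 / 4 : ℝ) := by
      rw [mul_rpow (by norm_num) hs0.le]
      refine mul_le_mul_of_nonneg_right ?_ (by positivity)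
      calc (1800 : ℝ) ^ (1 / 4 : ℝ) ≤ (7 ^ (4 : ℕ) : ℝ) ^ (1 / 4 : ℝ) :=
            rpow_le_rpow (by norm_num) (by norm_num) (by norm_num)
        _ = 7 := by
            rw [← rpow_natCast, ← rpow_mul (by norm_num)]
            norm_num
    have e4 : s ^ (1 / 4 : ℝ) * s = s ^ (5 / 4 : ℝ) := by
      rw [← rpow_add_one hs0.ne']
      norm_num
    have e5 : 0 < s ^ (1 / 4 : ℝ) := rpow_pos_of_pos hs0 _
    have e6 : ∫ t in (0 : ℝ)..W, exp (-(1 * t)) * Ex x b A (1800 * s) t =
        ∫ t in (0 : ℝ)..W, exp (-t) * Ex x b A (1800 * s) t := by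
      refine intervalIntegral.integral_congr fun t _ => ?_
      simp only [one_mul]
    rw [e6]
    have e7 : 80 * (R + 1) * σ * TM f b = 80 * s * TM f b := by rw [hsdef]; ring
    rw [e7] at e2
    calc ∫ t in (0 : ℝ)..W, exp (-t) * Ex x b A (1800 * s) t
        ≤ 10 * (12 + 2 * W) * (1800 * s) ^ (1 / 4 : ℝ) * ∑ i, exp (-max (x i - b) 0) := e1
      _ ≤ 10 * (12 + 2 * W) * (7 * s ^ (1 / 4 : ℝ)) * (80 * s * TM f b) := by
          refine mul_le_mul ?_ e2 (Finset.sum_nonneg fun i _ => (exp_pos _).le) (by positivity)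
          exact mul_le_mul_of_nonneg_left e3 (by positivity)
      _ = 5600 * (12 + 2 * W) * (s ^ (1 / 4 : ℝ) * s) * TM f b := by ring
      _ = 5600 * (12 + 2 * W) * s ^ (5 / 4 : ℝ) * TM f b := by rw [e4]
      _ ≤ 14560 * W * s ^ (5 / 4 : ℝ) * TM f b := by
          refine mul_le_mul_of_nonneg_right ?_ hTMb.le
          refine mul_le_mul_of_nonneg_right ?_ (by positivity)
          linarith
  -- third term
  have h3 : ∫ t in (0 : ℝ)..W, exp (-(1 * t)) * exp (2 * t - R) ≤ exp (-(R / 2)) := by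
    have e1 : ∫ t in (0 : ℝ)..W, exp (-(1 * t)) * exp (2 * t - R) =
        ∫ t in (0 : ℝ)..W, exp (-R) * exp t := by
      refine intervalIntegral.integral_congr fun t _ => ?_
      rw [← exp_add, ← exp_add]
      congr 1
      ring
    rw [e1, intervalIntegral.integral_const_mul, integral_exp, exp_zero]
    have e2 : exp (-R) * (exp W - 1) ≤ exp (-R) * exp W :=
      mul_le_mul_of_nonneg_left (by linarith) (exp_pos _).le
    have e3 : exp (-R) * exp W ≤ exp (-(R / 2)) := by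
      rw [← exp_add]
      exact exp_le_exp.2 (by linarith)
    linarith
  have h4 := mul_le_mul_of_nonneg_left h1 (by positivity : (0 : ℝ) ≤ 2 * δ)
  have h5 : 1000 * (∫ t in (0 : ℝ)..W, exp (-(1 * t)) * exp (2 * t - R)) * TM f b ≤
      1000 * exp (-(R / 2)) * TM f b :=
    mul_le_mul_of_nonneg_right (by linarith) hTMb.le
  rw [← hsdef] at h4 ⊢
  nlinarith

theorem fw_lower (hW : Win f b R σ) (hD : Dip f b R n x y h A ψ)
    (hs : 5000 * ((R + 1) * σ + exp (-(R / 2))) ≤ 1 / 100) {W : ℝ}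
    (hW20 : 20 ≤ W) (hWR : W ≤ R / 4) :
    2 * (π - 1) * fwD x y b W ψ - 2120 * σ * TM f b ≤
      ∑ i, ∫ t in (0 : ℝ)..W, exp (-(1 * t)) * hl (t - (x i - b)) (ψ - y i) := by
  have hTMb : 0 < TM f b := (exp_pos R).trans_le hW.big
  have hσ := hW.hσ
  have hR := hW.hR
  have hpt : ∀ i, 2 * (π - 1) * (if b < x i ∧ x i ≤ b + W then
        exp (-(x i - b)) * (-cos (ψ - y i)) else 0)
      - 10 * (if b < x i then exp (-(2 * (x i - b))) else 0)
      - 10 * exp (-W) * ((if x i ≤ b + W then 1 else 0) + max (b + W - x i) 0)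
      - 10 * (if b + W < x i then exp (-(x i - b)) * exp (-(x i - b - W)) else 0) ≤
      ∫ t in (0 : ℝ)..W, exp (-(1 * t)) * hl (t - (x i - b)) (ψ - y i) := by
    intro i
    have hEW := exp_pos (-W)
    have hmax : 0 ≤ max (b + W - x i) 0 := le_max_right _ _
    rcases le_or_gt (x i) b with h1 | h1
    · have e1 := resp_behind (a := 1) (x := x i - b) (ψ := ψ - y i) (T := W) le_rfl (by norm_num)
        hW20 (by linarith)
      rw [if_neg (by intro h; linarith [h.1]), if_neg (by linarith), if_pos (by linarith),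
        if_neg (by linarith)]
      have e2 : 0 ≤ 10 * exp (-W) * (1 + max (b + W - x i) 0) := by positivity
      linarith
    · rcases le_or_gt (x i) (b + W) with h2 | h2
      · have e1 := resp_sharp (x := x i - b) (ψ := ψ - y i) (T := W) (by linarith) (by linarith)
        rw [if_pos ⟨h1, h2⟩, if_pos h1, if_pos h2, if_neg (by linarith),
          max_eq_left (by linarith : (0 : ℝ) ≤ b + W - x i)]
        have e2 : ∫ t in (0 : ℝ)..W, exp (-(1 * t)) * hl (t - (x i - b)) (ψ - y i) =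
            ∫ t in (0 : ℝ)..W, exp (-t) * hl (t - (x i - b)) (ψ - y i) := by
          refine intervalIntegral.integral_congr fun t _ => ?_
          simp only [one_mul]
        rw [e2]
        have e3 : W - (x i - b) = b + W - x i := by ring
        rw [e3] at e1
        nlinarith
      · have e1 := resp_far1 (x := x i - b) (ψ := ψ - y i) (T := W) (by linarith) (by linarith)
        rw [if_neg (by intro h; linarith [h.2]), if_pos h1, if_neg (by linarith), if_pos h2,
          max_eq_right (by linarith : b + W - x i ≤ 0)]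
        have e2 : ∫ t in (0 : ℝ)..W, exp (-(1 * t)) * hl (t - (x i - b)) (ψ - y i) =
            ∫ t in (0 : ℝ)..W, exp (-t) * hl (t - (x i - b)) (ψ - y i) := by
          refine intervalIntegral.integral_congr fun t _ => ?_
          simp only [one_mul]
        rw [e2]
        have e3 := exp_pos (-(2 * (x i - b)))
        linarith
  have hsum := Finset.sum_le_sum fun i (_ : i ∈ Finset.univ) => hpt i
  simp only [Finset.sum_sub_distrib, ← Finset.mul_sum, Finset.sum_add_distrib] at hsum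
  have c1 : ∑ i, (if b < x i then exp (-(2 * (x i - b))) else 0) ≤ 100 * σ * TM f b := by
    rw [← Finset.sum_filter]
    exact sum_two hW hD.fac
  have c2 : ∑ i, (if x i ≤ b + W then (1 : ℝ) else 0) ≤ 11 * σ * exp W * TM f b := by
    rw [← Finset.sum_filter, Finset.sum_const, nsmul_eq_mul, mul_one]
    exact cnt hW hD.fac (by linarith) (by linarith)
  have c3 : ∑ i, max (b + W - x i) 0 ≤ σ * exp W * TM f b := by
    have e1 := TN_fac hD.fac (s := b + W) (by linarith)
    have e2 := hW.ze W (by linarith) (by linarith)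
    have e3 := fw_grow hW hD (t := W) (by linarith) hWR
    have e4 : TM f (b + W) ≤ 2 * exp W * TM f b := by
      refine e3.trans ?_
      refine mul_le_mul_of_nonneg_right ?_ hTMb.le
      exact mul_le_mul_of_nonneg_right (by linarith) (exp_pos _).le
    have e5 := mul_le_mul_of_nonneg_left e4 hσ.le
    have e6 : 2 * π * ∑ i, max (b + W - x i) 0 ≤ 2 * (σ * exp W * TM f b) := by
      rw [← e1]; linarith
    have e7 : 0 ≤ ∑ i, max (b + W - x i) 0 := Finset.sum_nonneg fun i _ => le_max_right _ _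
    nlinarith [pi_gt_three]
  have c4 : ∑ i, (if b + W < x i then exp (-(x i - b)) * exp (-(x i - b - W)) else 0) ≤
      100 * σ * TM f b := by
    rw [← Finset.sum_filter]
    exact sum_far1 hW hD.fac (by linarith) (by linarith)
  have c5 : 10 * exp (-W) * (∑ i, (if x i ≤ b + W then (1 : ℝ) else 0) +
      ∑ i, max (b + W - x i) 0) ≤ 120 * σ * TM f b := by
    have e1 : exp (-W) * exp W = 1 := by rw [← exp_add, neg_add_cancel, exp_zero]
    have e2 : ∑ i, (if x i ≤ b + W then (1 : ℝ) else 0) + ∑ i, max (b + W - x i) 0 ≤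
        12 * σ * exp W * TM f b := by linarith
    calc 10 * exp (-W) * (∑ i, (if x i ≤ b + W then (1 : ℝ) else 0) + ∑ i, max (b + W - x i) 0)
        ≤ 10 * exp (-W) * (12 * σ * exp W * TM f b) :=
          mul_le_mul_of_nonneg_left e2 (by positivity)
      _ = 120 * σ * TM f b * (exp (-W) * exp W) := by ring
      _ = _ := by rw [e1, mul_one]
  unfold fwD
  linarith

theorem fw_norm_le {w : ℂ} (hw : 0 < w.re) : ‖w‖ ≤ w.re + w.im ^ 2 / (2 * w.re) := by
  have h1 : ‖w‖ ^ 2 = w.re ^ 2 + w.im ^ 2 := by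
    rw [Complex.sq_norm, Complex.normSq_apply]; ring
  have h2 : 0 ≤ w.im ^ 2 / (2 * w.re) := by positivity
  refine abs_le_of_sq_le_sq' ?_ (by linarith) |>.2
  have h3 : (w.re + w.im ^ 2 / (2 * w.re)) ^ 2 =
      w.re ^ 2 + w.im ^ 2 + (w.im ^ 2 / (2 * w.re)) ^ 2 := by
    field_simp
    ring
  rw [h1, h3]
  have h4 : 0 ≤ (w.im ^ 2 / (2 * w.re)) ^ 2 := by positivity
  linarith

theorem fw_cT (hW : Win f b R σ) (hD : Dip f b R n x y h A ψ)
    (hs : 5000 * ((R + 1) * σ + exp (-(R / 2))) ≤ 1 / 100) {W : ℝ} (hW0 : 0 ≤ W) :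
    ‖cT x y h (b + W)‖ ≤ ‖cT x y h b‖ + exp (-b) * fwD x y b W ψ +
      exp (-b) * (12800 * ((R + 1) * σ) ^ 2 * TM f b) := by
  have hTMb : 0 < TM f b := (exp_pos R).trans_le hW.big
  obtain ⟨hA1, hA2⟩ := near_A hW hD (by linarith)
  have hσ := hW.hσ
  have hR := hW.hR
  obtain ⟨s, hsdef⟩ : ∃ s : ℝ, s = (R + 1) * σ := ⟨_, rfl⟩
  have hs0 : 0 < s := by rw [hsdef]; positivity
  have hE := exp_pos (-(R / 2))
  have hs1 : s ≤ 1 / 500000 := by
    rw [← hsdef] at hs; linarith
  have hb := exp_pos (-b)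
  -- the unit vector
  obtain ⟨ν, hν⟩ : ∃ ν : ℂ, ν = -pt 0 ψ := ⟨_, rfl⟩
  have hνn : ‖ν‖ = 1 := by rw [hν, norm_neg, pt_norm, exp_zero]
  have hνu : ∀ i, ν * (1 / pt (x i) (y i)) = -pt (-(x i)) (ψ - y i) := by
    intro i
    have e1 := pt_div 0 ψ (x i) (y i)
    rw [zero_sub] at e1
    rw [hν, ← e1]
    ring
  have hptre : ∀ s θ : ℝ, (pt s θ).re = exp s * cos θ := by
    intro s θ
    unfold pt
    rw [Complex.exp_re]
    simp
  have hptim : ∀ s θ : ℝ, (pt s θ).im = exp s * sin θ := by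
    intro s θ
    unfold pt
    rw [Complex.exp_im]
    simp
  have hc0re : (ν * deriv h 0).re = A * exp (-b) := by
    have e1 := hD.hdip 0 ψ
    rw [sub_self, cos_zero, zero_sub, mul_one] at e1
    have e2 : ν * deriv h 0 = -(deriv h 0 * pt 0 ψ) := by rw [hν]; ring
    rw [e2, Complex.neg_re, e1]
    ring
  have hc0im : (ν * deriv h 0).im = 0 := by
    have e1 := hD.hdip 0 (ψ + π / 2)
    rw [add_sub_cancel_left, cos_pi_div_two, mul_zero, neg_zero] at e1
    have e3 : pt 0 (ψ + π / 2) = pt 0 ψ * Complex.I := by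
      refine Complex.ext ?_ ?_
      · rw [hptre, Complex.mul_I_re, hptim, cos_add_pi_div_two]
        ring
      · rw [hptim, Complex.mul_I_im, hptre, sin_add_pi_div_two]
    rw [e3, ← mul_assoc, Complex.mul_I_re] at e1
    have e2 : ν * deriv h 0 = -(deriv h 0 * pt 0 ψ) := by rw [hν]; ring
    rw [e2, Complex.neg_im]
    exact e1
  -- sum over the far zeros
  have hfar : ∑ i, (if b + W < x i then exp (-(x i)) else 0) ≤ exp (-b) * (80 * s * TM f b) := by
    have e1 := sum_max hW hD.fac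
    have e7 : 80 * (R + 1) * σ * TM f b = 80 * s * TM f b := by rw [hsdef]; ring
    rw [e7] at e1
    calc ∑ i, (if b + W < x i then exp (-(x i)) else 0)
        ≤ ∑ i, exp (-b) * exp (-max (x i - b) 0) := by
          refine Finset.sum_le_sum fun i _ => ?_
          split_ifs with h1
          · rw [max_eq_left (by linarith : (0 : ℝ) ≤ x i - b), ← exp_add]
            refine exp_le_exp.2 (by linarith)
          · positivity
      _ = exp (-b) * ∑ i, exp (-max (x i - b) 0) := by rw [Finset.mul_sum]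
      _ ≤ _ := mul_le_mul_of_nonneg_left e1 hb.le
  obtain ⟨w, hw⟩ : ∃ w : ℂ, w = ν * cT x y h (b + W) := ⟨_, rfl⟩
  have hwn : ‖cT x y h (b + W)‖ = ‖w‖ := by rw [hw, norm_mul, hνn, one_mul]
  have hw1 : w = ν * deriv h 0 + ∑ i, (if b + W < x i then pt (-(x i)) (ψ - y i) else 0) := by
    rw [hw, cT, mul_sub, Finset.mul_sum, Finset.sum_filter, sub_eq_add_neg, ← Finset.sum_neg_distrib]
    congr 1
    refine Finset.sum_congr rfl fun i _ => ?_
    split_ifs
    · rw [hνu, neg_neg]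
    · simp
  have hw2 : w = ν * cT x y h b -
      ∑ i, (if b < x i ∧ x i ≤ b + W then pt (-(x i)) (ψ - y i) else 0) := by
    rw [hw1, cT, mul_sub, Finset.mul_sum, Finset.sum_filter, sub_sub, sub_eq_add_neg]
    congr 1
    rw [← Finset.sum_add_distrib, ← Finset.sum_neg_distrib]
    refine Finset.sum_congr rfl fun i _ => ?_
    by_cases h1 : b < x i
    · by_cases h2 : x i ≤ b + W
      · rw [if_neg (by linarith), if_pos h1, if_pos ⟨h1, h2⟩, hνu]
        ring
      · rw [if_pos (by linarith), if_pos h1, if_neg (by intro h; exact h2 h.2), hνu]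
        ring
    · rw [if_neg (by intro h; linarith), if_neg h1, if_neg (by intro h; exact h1 h.1)]
      simp
  have him : |w.im| ≤ exp (-b) * (80 * s * TM f b) := by
    rw [hw1, Complex.add_im, hc0im, zero_add, Complex.im_sum]
    refine (Finset.abs_sum_le_sum_abs _ _).trans (le_trans (Finset.sum_le_sum fun i _ => ?_) hfar)
    split_ifs
    · rw [hptim, abs_mul, abs_of_pos (exp_pos _)]
      exact mul_le_of_le_one_right (exp_pos _).le (abs_sin_le_one _)
    · simp
  have hre : exp (-b) * (TM f b / 4) ≤ w.re := by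
    have e1 : |∑ i, (if b + W < x i then pt (-(x i)) (ψ - y i) else 0).re| ≤
        exp (-b) * (80 * s * TM f b) := by
      refine (Finset.abs_sum_le_sum_abs _ _).trans
        (le_trans (Finset.sum_le_sum fun i _ => ?_) hfar)
      split_ifs
      · rw [hptre, abs_mul, abs_of_pos (exp_pos _)]
        exact mul_le_of_le_one_right (exp_pos _).le (abs_cos_le_one _)
      · simp
    rw [hw1, Complex.add_re, hc0re, Complex.re_sum]
    have e2 := (abs_le.1 e1).1
    have e3 : exp (-b) * (80 * s * TM f b) ≤ exp (-b) * (TM f b / 12) := by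
      refine mul_le_mul_of_nonneg_left ?_ hb.le
      nlinarith
    have e4 : exp (-b) * (TM f b / 3) ≤ A * exp (-b) := by
      rw [mul_comm A]
      exact mul_le_mul_of_nonneg_left hA1 hb.le
    linarith
  have hre0 : 0 < w.re := lt_of_lt_of_le (by positivity) hre
  have hre2 : w.re ≤ ‖cT x y h b‖ + exp (-b) * fwD x y b W ψ := by
    rw [hw2, Complex.sub_re, Complex.re_sum]
    have e1 : (ν * cT x y h b).re ≤ ‖cT x y h b‖ := by
      refine (Complex.re_le_norm _).trans ?_
      rw [norm_mul, hνn, one_mul]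
    have e2 : ∑ i, (if b < x i ∧ x i ≤ b + W then pt (-(x i)) (ψ - y i) else 0).re =
        -(exp (-b) * fwD x y b W ψ) := by
      rw [fwD, Finset.mul_sum, ← Finset.sum_neg_distrib]
      refine Finset.sum_congr rfl fun i _ => ?_
      split_ifs
      · rw [hptre]
        have e3 : exp (-(x i)) = exp (-b) * exp (-(x i - b)) := by
          rw [← exp_add]; congr 1; ring
        rw [e3]
        ring
      · simp
    rw [e2]
    linarith
  have hq : w.im ^ 2 / (2 * w.re) ≤ exp (-b) * (12800 * s ^ 2 * TM f b) := by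
    rw [div_le_iff₀ (by positivity)]
    have e1 : w.im ^ 2 ≤ (exp (-b) * (80 * s * TM f b)) ^ 2 := by
      rw [← sq_abs]
      exact pow_le_pow_left₀ (abs_nonneg _) him 2
    have e2 : exp (-b) * (12800 * s ^ 2 * TM f b) * (2 * (exp (-b) * (TM f b / 4))) ≤
        exp (-b) * (12800 * s ^ 2 * TM f b) * (2 * w.re) :=
      mul_le_mul_of_nonneg_left (by linarith) (by positivity)
    have e3 : exp (-b) * (12800 * s ^ 2 * TM f b) * (2 * (exp (-b) * (TM f b / 4))) =
        (exp (-b) * (80 * s * TM f b)) ^ 2 := by ring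
    linarith
  have hfin := fw_norm_le hre0
  rw [hwn, ← hsdef]
  linarith

theorem first_win : ∃ C : ℝ, 0 < C ∧ ∀ (f : ℂ → ℂ) (b R σ δ W : ℝ), Win f b R σ → 80 ≤ R → 0 ≤ δ → δ ≤ 1 / 2 →
    HM f δ b → 5000 * ((R + 1) * σ + exp (-(R / 2))) ≤ 1 / 100 → 20 ≤ W → W ≤ R / 4 →
    TM f (b + W) ≤ exp W * (1 + 2 * δ * W / (π - 1)
      + C * (σ + W * exp (-(R / 2)) + W * ((R + 1) * σ) ^ (5 / 4 : ℝ) + δ * W * (R + 1) * σ)) * TM f b := by
  obtain ⟨C, hC, hnear⟩ := near1
  refine ⟨2 * C + 100000, by linarith, ?_⟩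
  intro f b R σ δ W hWin hR hδ hδ2 hM hs hW20 hWR
  obtain ⟨n, x, y, h, A, ψ, hD⟩ := exists_dip hWin
  have hTMb : 0 < TM f b := (exp_pos R).trans_le hWin.big
  have hσ := hWin.hσ
  have h1 := fw_upper hWin hD hR hδ hM hs hW20 hWR
  have h2 := fw_lower hWin hD hs hW20 hWR
  have h3 := fw_cT hWin hD hs (W := W) (by linarith)
  have n1 := (abs_le.1 (hnear hWin hD W (by linarith) hWR)).2
  have n2 := (abs_le.1 (hnear hWin hD 0 le_rfl (by linarith))).1
  rw [add_zero, exp_zero, mul_one] at n2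
  obtain ⟨s, hsdef⟩ : ∃ s : ℝ, s = (R + 1) * σ := ⟨_, rfl⟩
  have hs0 : 0 < s := by rw [hsdef]; positivity
  obtain ⟨E, hEdef⟩ : ∃ E : ℝ, E = exp (-(R / 2)) := ⟨_, rfl⟩
  have hE : 0 < E := by rw [hEdef]; exact exp_pos _
  obtain ⟨q, hq⟩ : ∃ q : ℝ, q = s ^ (5 / 4 : ℝ) := ⟨_, rfl⟩
  obtain ⟨M, hMdef⟩ : ∃ M : ℝ, M = TM f b := ⟨_, rfl⟩
  obtain ⟨D, hDdef⟩ : ∃ D : ℝ, D = fwD x y b W ψ := ⟨_, rfl⟩
  have hδWs : δ * W * (R + 1) * σ = δ * W * s := by rw [hsdef]; ring
  rw [← hsdef, ← hEdef, ← hq, ← hMdef] at h1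
  rw [← hDdef, ← hMdef] at h2
  rw [← hsdef, ← hDdef, ← hMdef] at h3
  rw [← hEdef, ← hMdef] at n1 n2
  rw [hδWs, ← hsdef, ← hEdef, ← hq, ← hMdef]
  rw [← hsdef, ← hEdef] at hs
  rw [← hMdef] at hTMb
  have hs1 : s ≤ 1 / 500000 := by linarith
  have hq0 : 0 < q := by rw [hq]; exact rpow_pos_of_pos hs0 _
  have hsq : s ^ 2 ≤ q := by
    rw [hq, ← rpow_natCast]
    exact rpow_le_rpow_of_exponent_ge hs0 (by linarith) (by norm_num)
  -- the bound for `D`
  have hDb : 2 * D ≤ (2 * δ * W / (π - 1) + (10000 * (δ * W * s) + 5000 * (W * E) +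
      14560 * (W * q) + 500 * E + 1060 * σ)) * M := by
    have hpi : 2 < π - 1 := by linarith [pi_gt_three]
    have e1 : 2 * (π - 1) * D ≤ (2 * δ * W * (1 + 2 * (5000 * (s + E))) + 29120 * W * q + 1000 * E
        + 2120 * σ) * M := by
      rw [add_mul _ (2120 * σ)]
      linarith
    have e2 : 2 * D = (2 * (π - 1) * D) / (π - 1) := by
      field_simp
    rw [e2, div_le_iff₀ (by linarith)]
    have e3 : (2 * δ * W / (π - 1) + (10000 * (δ * W * s) + 5000 * (W * E) +
        14560 * (W * q) + 500 * E + 1060 * σ)) * M * (π - 1) =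
        (2 * δ * W + (10000 * (δ * W * s) + 5000 * (W * E) +
        14560 * (W * q) + 500 * E + 1060 * σ) * (π - 1)) * M := by
      field_simp
    rw [e3]
    refine e1.trans ?_
    refine mul_le_mul_of_nonneg_right ?_ hTMb.le
    have p1 : 0 ≤ δ * W * s := by positivity
    have p2 : 0 ≤ W * E := by positivity
    have p3 : 0 ≤ W * q := by positivity
    have p4 : δ * W * E ≤ 1 / 2 * (W * E) := by
      have := mul_le_mul_of_nonneg_right hδ2 p2
      linarith
    have p5 : (10000 * (δ * W * s) + 5000 * (W * E) + 14560 * (W * q) + 500 * E + 1060 * σ) * 2 ≤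
        (10000 * (δ * W * s) + 5000 * (W * E) + 14560 * (W * q) + 500 * E + 1060 * σ) * (π - 1) :=
      mul_le_mul_of_nonneg_left hpi.le (by positivity)
    nlinarith
  -- assembly
  have eW : exp (b + W) = exp b * exp W := exp_add b W
  have eb : exp b * exp (-b) = 1 := by rw [← exp_add, add_neg_cancel, exp_zero]
  have hEW := exp_pos W
  have a1 : 2 * ‖cT x y h (b + W)‖ * exp (b + W) ≤
      exp W * (2 * ‖cT x y h b‖ * exp b + 2 * D + 25600 * s ^ 2 * M) := by
    have e1 := mul_le_mul_of_nonneg_left h3 (by positivity : (0 : ℝ) ≤ 2 * (exp b * exp W))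
    have e2 : 2 * (exp b * exp W) * (‖cT x y h b‖ + exp (-b) * D + exp (-b) * (12800 * s ^ 2 * M)) =
        exp W * (2 * ‖cT x y h b‖ * exp b + (exp b * exp (-b)) * (2 * D) +
          (exp b * exp (-b)) * (25600 * s ^ 2 * M)) := by ring
    rw [e2, eb, one_mul, one_mul] at e1
    rw [eW]
    linarith
  have a2 : 2 * ‖cT x y h b‖ * exp b ≤ M + C * (σ + E) * M := by linarith
  have a3 : 2 * ‖cT x y h b‖ * exp b + 2 * D + 25600 * s ^ 2 * M + C * (σ + E) * M ≤
      (1 + 2 * δ * W / (π - 1) + (2 * C + 100000) * (σ + W * E + W * q + δ * W * s)) * M := by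
    have p1 : 0 ≤ δ * W * s := by positivity
    have p2 : E ≤ W * E := by nlinarith
    have p3 : s ^ 2 ≤ W * q := by nlinarith
    have p4 : 0 < W * q := by positivity
    have e1 : (M + C * (σ + E) * M) + (2 * δ * W / (π - 1) + (10000 * (δ * W * s) + 5000 * (W * E) +
        14560 * (W * q) + 500 * E + 1060 * σ)) * M + 25600 * s ^ 2 * M + C * (σ + E) * M =
        (1 + 2 * δ * W / (π - 1) + (2 * C * (σ + E) + 10000 * (δ * W * s) + 5000 * (W * E) +
        14560 * (W * q) + 500 * E + 1060 * σ + 25600 * s ^ 2)) * M := by ring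
    have e2 : 2 * C * (σ + E) + 10000 * (δ * W * s) + 5000 * (W * E) +
        14560 * (W * q) + 500 * E + 1060 * σ + 25600 * s ^ 2 ≤
        (2 * C + 100000) * (σ + W * E + W * q + δ * W * s) := by
      have c1 : C * E ≤ C * (W * E) := mul_le_mul_of_nonneg_left p2 hC.le
      have c2 : 0 ≤ C * (W * q) := by positivity
      have c3 : 0 ≤ C * (δ * W * s) := by positivity
      nlinarith
    have e3 : (1 + 2 * δ * W / (π - 1) + (2 * C * (σ + E) + 10000 * (δ * W * s) + 5000 * (W * E) +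
        14560 * (W * q) + 500 * E + 1060 * σ + 25600 * s ^ 2)) * M ≤
        (1 + 2 * δ * W / (π - 1) + (2 * C + 100000) * (σ + W * E + W * q + δ * W * s)) * M :=
      mul_le_mul_of_nonneg_right (by linarith) hTMb.le
    linarith
  have a4 := mul_le_mul_of_nonneg_left a3 hEW.le
  have a5 : TM f (b + W) ≤ exp W * (2 * ‖cT x y h b‖ * exp b + 2 * D + 25600 * s ^ 2 * M +
      C * (σ + E) * M) := by
    have e1 : exp W * (2 * ‖cT x y h b‖ * exp b + 2 * D + 25600 * s ^ 2 * M + C * (σ + E) * M) =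
        exp W * (2 * ‖cT x y h b‖ * exp b + 2 * D + 25600 * s ^ 2 * M) +
          C * (σ + E) * exp W * M := by ring
    linarith
  calc TM f (b + W) ≤ _ := a5
    _ ≤ _ := a4
    _ = _ := by ring

end Pool.Agent.TX1
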