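import Pool.Agent.TX1.Ell

/-!
# TX1, module Half: the half circle functional of one zero

For `τ < 0`, `r = exp τ < 1`: `ell τ θ = -∑_{k≥1} r^k cos (kθ) / k` (`Complex.hasSum_taylorSeries_neg_log`, real part), and
`∫_{ψ+π/2}^{ψ+3π/2} cos (kθ) dθ = (2/k) (-1)^k cos (kψ) sin (kπ/2)`, so
`hl τ ψ = -∑_{k≥1} (2 r^k/k) (1 - sin (kπ/2)/k) cos (kψ)` (for odd `k`, `(-1)^k sin (kπ/2) = - sin (kπ/2)`, for even `k` it is `0`); the term
`k = 1` is zero, the coefficients are `≥ 0`, so `|hl τ ψ| ≤ ∑_{k≥2} (2 r^k/k)(1 - sin (kπ/2)/k) = 2(-log(1-r) - r + r^3/9 - r^5/25 + ...) ≤ GG |τ|`.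
For `τ > 0`: `ell τ θ = τ + ell (-τ) θ`, `HF ψ (const) = (π+2) const`.
(Termwise integration: `intervalIntegral.hasSum_integral_of_summable_norm` or similar, the bound `r^k/k` is summable.)
-/

set_option autoImplicit false

namespace Pool.Agent.TX1

open Real MeasureTheory Set Filter Topology

theorem HF_cos (ψ φ : ℝ) : HF ψ (fun θ => cos (θ - φ)) = 0 := by
  rw [HF, intervalIntegral.integral_comp_sub_right (fun θ => cos θ), integral_cos]
  have e1 : ψ + 3 * π / 2 - φ = (ψ - φ) + π / 2 + π := by ring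
  have e2 : ψ + π / 2 - φ = (ψ - φ) + π / 2 := by ring
  rw [e1, e2, Real.sin_add_pi, Real.sin_add_pi_div_two]
  ring

theorem HF_const (ψ c : ℝ) : HF ψ (fun _ => c) = (π + 2) * c := by
  rw [HF, intervalIntegral.integral_const, smul_eq_mul]
  ring

theorem HF_add {ψ : ℝ} {u v : ℝ → ℝ} (hu : IntervalIntegrable u volume (ψ + π / 2) (ψ + 3 * π / 2))
    (hv : IntervalIntegrable v volume (ψ + π / 2) (ψ + 3 * π / 2)) :
    HF ψ (fun θ => u θ + v θ) = HF ψ u + HF ψ v := by
  rw [HF, intervalIntegral.integral_add hu hv, HF, HF]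
  ring

theorem HF_mul (ψ c : ℝ) (u : ℝ → ℝ) : HF ψ (fun θ => c * u θ) = c * HF ψ u := by
  rw [HF, intervalIntegral.integral_const_mul, HF]
  ring

theorem HF_abs {ψ c : ℝ} {u : ℝ → ℝ} (h : ∀ θ, |u θ| ≤ c) : |HF ψ u| ≤ (π + 2) * c := by
  have h1 : ‖∫ θ in (ψ + π / 2)..(ψ + 3 * π / 2), u θ‖ ≤ c * |ψ + 3 * π / 2 - (ψ + π / 2)| :=
    intervalIntegral.norm_integral_le_of_norm_le_const (fun x _ => h x)
  have e1 : ψ + 3 * π / 2 - (ψ + π / 2) = π := by ring
  rw [e1, abs_of_pos Real.pi_pos, Real.norm_eq_abs] at h1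
  rw [HF]
  calc |(∫ θ in (ψ + π / 2)..(ψ + 3 * π / 2), u θ) + 2 * u ψ|
      ≤ |∫ θ in (ψ + π / 2)..(ψ + 3 * π / 2), u θ| + |2 * u ψ| := abs_add_le _ _
    _ ≤ c * π + 2 * c := by
        rw [abs_mul, abs_two]
        have := h ψ
        linarith
    _ = (π + 2) * c := by ring

theorem HF_shift (ψ y τ : ℝ) : HF ψ (fun θ => ell τ (θ - y)) = hl τ (ψ - y) := by
  rw [hl, HF, HF, intervalIntegral.integral_comp_sub_right (fun θ => ell τ θ)]
  have e1 : ψ + π / 2 - y = ψ - y + π / 2 := by ring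
  have e2 : ψ + 3 * π / 2 - y = ψ - y + 3 * π / 2 := by ring
  rw [e1, e2]

/-- the Fourier series of `ell` -/
lemma ell_hasSum {τ : ℝ} (hτ : τ < 0) (θ : ℝ) :
    HasSum (fun k : ℕ => -(exp τ ^ k / k * cos (k * θ))) (ell τ θ) := by
  have hz : ‖pt τ θ‖ < 1 := by
    rw [pt_norm, ← Real.exp_zero]; exact Real.exp_lt_exp.2 hτ
  have h1 := Complex.hasSum_re (Complex.hasSum_taylorSeries_neg_log hz)
  have h2 : (-Complex.log (1 - pt τ θ)).re = -(ell τ θ) := by
    rw [Complex.neg_re, Complex.log_re, ell]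
  rw [h2] at h1
  have h3 := h1.neg
  rw [neg_neg] at h3
  convert h3 using 2 with k
  congr 1
  have e1 : pt τ θ ^ k = Complex.exp (((k * τ : ℝ) : ℂ) + ((k * θ : ℝ) : ℂ) * Complex.I) := by
    rw [pt, ← Complex.exp_nat_mul]
    congr 1
    push_cast
    ring
  have e2 : (pt τ θ ^ k / (k : ℂ)).re = (pt τ θ ^ k).re / k := by
    rw [show ((k : ℕ) : ℂ) = ((k : ℝ) : ℂ) by push_cast; rfl, Complex.div_ofReal_re]
  rw [e2, e1, Complex.exp_re]
  simp only [Complex.add_re, Complex.ofReal_re, Complex.mul_re, Complex.I_re, mul_zero,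
    Complex.ofReal_im, Complex.I_im, mul_one, sub_self, add_zero, Complex.add_im, Complex.mul_im,
    zero_add]
  rw [← Real.exp_nat_mul]
  ring

/-- the functional of `cos (k θ)` -/
lemma HF_cosk (ψ : ℝ) (k : ℕ) (hk : k ≠ 0) :
    HF ψ (fun θ => cos (k * θ)) = 2 * cos (k * ψ) * (1 + (-1) ^ k * sin (k * (π / 2)) / k) := by
  have hkr : (k : ℝ) ≠ 0 := by exact_mod_cast hk
  rw [HF, intervalIntegral.integral_comp_mul_left (fun θ => cos θ) hkr, integral_cos, smul_eq_mul]
  have e1 : (k : ℝ) * (ψ + 3 * π / 2) = (k * ψ + k * π) + k * (π / 2) := by ring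
  have e2 : (k : ℝ) * (ψ + π / 2) = (k * ψ + k * π) - k * (π / 2) := by ring
  have e3 : cos ((k : ℝ) * ψ + k * π) = (-1) ^ k * cos (k * ψ) := by
    rw [Real.cos_add_nat_mul_pi]
  rw [e1, e2, Real.sin_add, Real.sin_sub, e3]
  field_simp
  ring

lemma coef_nonneg (k : ℕ) : 0 ≤ 1 + (-1 : ℝ) ^ k * sin (k * (π / 2)) / k := by
  rcases Nat.eq_zero_or_pos k with rfl | hk
  · simp
  · have hkr : (1 : ℝ) ≤ k := by exact_mod_cast hk
    have h1 : |(-1 : ℝ) ^ k * sin (k * (π / 2)) / k| ≤ 1 := by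
      rw [abs_div, abs_mul, abs_pow, abs_neg, abs_one, one_pow, one_mul,
        abs_of_pos (by linarith : (0:ℝ) < k), div_le_one (by linarith)]
      exact (Real.abs_sin_le_one _).trans hkr
    have := (abs_le.1 h1).1
    linarith

lemma sin_series_ge {r : ℝ} (hr0 : 0 < r) (hr1 : r < 1) :
    ∃ l : ℝ, HasSum (fun k : ℕ => r ^ k / k * ((-1) ^ k * sin (k * (π / 2)) / k)) l ∧
      l ≤ -r + r ^ 3 / 9 := by
  set g : ℕ → ℝ := fun k => r ^ k / k * ((-1) ^ k * sin (k * (π / 2)) / k) with hg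
  have hgb : ∀ k, ‖g k‖ ≤ r ^ k := by
    intro k
    rcases Nat.eq_zero_or_pos k with rfl | hk
    · simp [hg]
    · have hkr : (1 : ℝ) ≤ k := by exact_mod_cast hk
      have hk0 : (0 : ℝ) < k := by linarith
      rw [hg, Real.norm_eq_abs, abs_mul, abs_div, abs_div, abs_mul, abs_pow, abs_pow, abs_neg, abs_one,
        one_pow, one_mul, abs_of_pos hr0, abs_of_pos hk0]
      have h1 : |sin (k * (π / 2))| / k ≤ 1 := by
        rw [div_le_one hk0]; exact (Real.abs_sin_le_one _).trans hkr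
      have h2 : r ^ k / k ≤ r ^ k := div_le_self (by positivity) hkr
      calc r ^ k / k * (|sin (k * (π / 2))| / k) ≤ r ^ k * 1 :=
            mul_le_mul h2 h1 (by positivity) (by positivity)
        _ = r ^ k := mul_one _
  have hsum : Summable g := Summable.of_norm_bounded (summable_geometric_of_lt_one hr0.le hr1) hgb
  refine ⟨∑' k, g k, hsum.hasSum, ?_⟩
  -- even terms vanish
  have hev : ∀ k, g (2 * k) = 0 := by
    intro k
    have : sin (((2 * k : ℕ) : ℝ) * (π / 2)) = 0 := by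
      have e : ((2 * k : ℕ) : ℝ) * (π / 2) = k * π := by push_cast; ring
      rw [e, Real.sin_nat_mul_pi]
    simp only [hg, this]
    simp
  have hodd : ∀ k, g (2 * k + 1) = -((-1) ^ k * (r ^ (2 * k + 1) / ((2 * k + 1 : ℕ) : ℝ) ^ 2)) := by
    intro k
    have e1 : sin (((2 * k + 1 : ℕ) : ℝ) * (π / 2)) = (-1) ^ k := by
      have e : ((2 * k + 1 : ℕ) : ℝ) * (π / 2) = π / 2 + k * π := by push_cast; ring
      rw [e, Real.sin_add_nat_mul_pi, Real.sin_pi_div_two, mul_one]
    have e2 : (-1 : ℝ) ^ (2 * k + 1) = -1 := by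
      rw [pow_succ, pow_mul]; simp
    simp only [hg, e1, e2]
    have : ((2 * k + 1 : ℕ) : ℝ) ≠ 0 := by positivity
    field_simp
  have hse : Summable (fun k => g (2 * k)) := by
    simp only [hev]; exact summable_zero
  have hso : Summable (fun k => g (2 * k + 1)) :=
    hsum.comp_injective (i := fun k : ℕ => 2 * k + 1) (fun a b h => by
      simp only at h; omega)
  have htot : ∑' k, g k = ∑' k, g (2 * k + 1) := by
    rw [← tsum_even_add_odd hse hso]
    simp [hev]
  set f : ℕ → ℝ := fun k => r ^ (2 * k + 1) / ((2 * k + 1 : ℕ) : ℝ) ^ 2 with hf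
  have hfa : Antitone f := by
    apply antitone_nat_of_succ_le
    intro k
    simp only [hf]
    apply div_le_div₀ (by positivity)
    · exact pow_le_pow_of_le_one hr0.le hr1.le (by omega)
    · positivity
    · apply pow_le_pow_left₀ (by positivity)
      push_cast; linarith
  have hlim : Tendsto (fun n => ∑ i ∈ Finset.range n, (-1 : ℝ) ^ i * f i) atTop
      (𝓝 (-∑' k, g (2 * k + 1))) := by
    have h1 := hso.hasSum.neg.tendsto_sum_nat
    refine h1.congr (fun n => Finset.sum_congr rfl (fun i _ => ?_))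
    rw [hodd]; ring
  have h2 := hfa.alternating_series_le_tendsto hlim 1
  have h3 : ∑ i ∈ Finset.range (2 * 1), (-1 : ℝ) ^ i * f i = r - r ^ 3 / 9 := by
    rw [Finset.sum_range_succ, Finset.sum_range_one]
    simp only [hf]
    norm_num
    ring
  rw [h3] at h2
  rw [htot]
  linarith

lemma hl_bd_neg {τ : ℝ} (hτ : τ < 0) (ψ : ℝ) : |hl τ ψ| ≤ GG |τ| := by
  set r := exp τ with hr
  have hr0 : 0 < r := Real.exp_pos _
  have hr1 : r < 1 := by rw [hr, ← Real.exp_zero]; exact Real.exp_lt_exp.2 hτ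
  have hbd : ∀ (k : ℕ) (θ : ℝ), ‖-(r ^ k / k * cos (k * θ))‖ ≤ r ^ k := by
    intro k θ
    rw [norm_neg, Real.norm_eq_abs, abs_mul]
    rcases Nat.eq_zero_or_pos k with rfl | hk
    · simp
    · have hkr : (1 : ℝ) ≤ k := by exact_mod_cast hk
      have hk0 : (0 : ℝ) < k := by linarith
      rw [abs_of_nonneg (by positivity : 0 ≤ r ^ k / k)]
      calc r ^ k / k * |cos (k * θ)| ≤ r ^ k * 1 :=
            mul_le_mul (div_le_self (by positivity) hkr) (Real.abs_cos_le_one _) (abs_nonneg _)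
              (by positivity)
        _ = r ^ k := mul_one _
  have hgeo : Summable (fun k : ℕ => r ^ k) := summable_geometric_of_lt_one hr0.le hr1
  have hint : HasSum (fun k : ℕ => ∫ θ in (ψ + π / 2)..(ψ + 3 * π / 2), -(r ^ k / k * cos (k * θ)))
      (∫ θ in (ψ + π / 2)..(ψ + 3 * π / 2), ell τ θ) := by
    refine intervalIntegral.hasSum_integral_of_dominated_convergence (fun k _ => r ^ k) ?_ ?_ ?_ ?_ ?_
    · intro k
      exact (by fun_prop : Continuous (fun θ : ℝ => -(r ^ k / k * cos (k * θ)))).aestronglyMeasurable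
    · intro k
      exact Eventually.of_forall (fun θ _ => hbd k θ)
    · exact Eventually.of_forall (fun θ _ => hgeo)
    · exact intervalIntegrable_const
    · exact Eventually.of_forall (fun θ _ => ell_hasSum hτ θ)
  have hHF : HasSum (fun k : ℕ => HF ψ (fun θ => -(r ^ k / k * cos (k * θ)))) (hl τ ψ) := by
    have h1 := hint.add ((ell_hasSum hτ ψ).mul_left 2)
    exact h1
  -- the terms
  have hterm : ∀ k : ℕ, ‖HF ψ (fun θ => -(r ^ k / k * cos (k * θ)))‖
      ≤ 2 * (r ^ k / k) + 2 * (r ^ k / k * ((-1) ^ k * sin (k * (π / 2)) / k)) := by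
    intro k
    have e0 : HF ψ (fun θ => -(r ^ k / k * cos (k * θ)))
        = -(r ^ k / k) * HF ψ (fun θ => cos (k * θ)) := by
      rw [← HF_mul]
      congr 1
      funext θ
      ring
    rw [e0]
    rcases Nat.eq_zero_or_pos k with rfl | hk
    · simp
    · rw [HF_cosk ψ k hk.ne', Real.norm_eq_abs, abs_mul, abs_neg, abs_mul, abs_mul, abs_two,
        abs_of_nonneg (by positivity : 0 ≤ r ^ k / k), abs_of_nonneg (coef_nonneg k)]
      have h1 : |cos ((k : ℝ) * ψ)| ≤ 1 := Real.abs_cos_le_one _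
      calc r ^ k / k * (2 * |cos (k * ψ)| * (1 + (-1) ^ k * sin (k * (π / 2)) / k))
          ≤ r ^ k / k * (2 * 1 * (1 + (-1) ^ k * sin (k * (π / 2)) / k)) := by
            apply mul_le_mul_of_nonneg_left _ (by positivity)
            apply mul_le_mul_of_nonneg_right _ (coef_nonneg k)
            linarith
        _ = _ := by ring
  obtain ⟨l, hl1, hl2⟩ := sin_series_ge hr0 hr1
  have hlog : HasSum (fun k : ℕ => r ^ k / k) (-log (1 - r)) := by
    have h1 := ell_hasSum hτ 0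
    have h2 : ell τ 0 = log (1 - r) := by
      rw [ell, pt]
      have : (1 : ℂ) - Complex.exp ((τ : ℂ) + ((0 : ℝ) : ℂ) * Complex.I) = ((1 - r : ℝ) : ℂ) := by
        rw [hr]; push_cast; simp
      rw [this, Complex.norm_real, Real.norm_eq_abs, abs_of_pos (by linarith)]
    rw [h2] at h1
    have h3 := h1.neg
    simpa using h3
  have hB := (hlog.mul_left 2).add (hl1.mul_left 2)
  have h5 : ‖hl τ ψ‖ ≤ 2 * -log (1 - r) + 2 * l := by
    rw [← hHF.tsum_eq]
    have := tsum_of_norm_bounded hB hterm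
    exact this
  rw [Real.norm_eq_abs] at h5
  refine h5.trans ?_
  rw [GG, abs_of_neg hτ, neg_neg]
  have e3 : exp (-(3 * -τ)) = r ^ 3 := by
    rw [hr, ← Real.exp_nat_mul]; congr 1; push_cast; ring
  rw [e3, ← hr]
  linarith

theorem hl_bd {τ : ℝ} (hτ : τ ≠ 0) (ψ : ℝ) : |hl τ ψ - (π + 2) * max τ 0| ≤ GG |τ| := by
  rcases lt_or_gt_of_ne hτ with h | h
  · rw [max_eq_right h.le, mul_zero, sub_zero]
    exact hl_bd_neg h ψ
  · rw [max_eq_left h.le]
    have h1 : hl τ ψ = (π + 2) * τ + hl (-τ) ψ := by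
      have e : ell τ = fun θ => τ + ell (-τ) θ := by
        funext θ; exact ell_neg τ θ
      rw [hl, e, HF_add intervalIntegrable_const (ell_ii _ _ _), HF_const]
      rfl
    rw [h1, add_sub_cancel_left]
    have := hl_bd_neg (neg_lt_zero.2 h) ψ
    rwa [abs_neg] at this

theorem hl_cont (ψ : ℝ) : ContinuousOn (fun τ => hl τ ψ) {τ | τ ≠ 0} := by
  -- a cut-off version
  have key : ∀ φ : ℝ → ℝ, Continuous φ → (∀ τ, φ τ ≠ 0) → Continuous (fun τ => hl (φ τ) ψ) := by
    intro φ hφ hφ0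
    have h1 : Continuous (fun p : ℝ × ℝ => ell (φ p.1) p.2) := by
      have h2 : Continuous (fun p : ℝ × ℝ => ((φ p.1, p.2) : ℝ × ℝ)) := by fun_prop
      exact ell_cont2.comp_continuous h2 (fun p => hφ0 p.1)
    have h3 : Continuous (fun τ => ∫ θ in (ψ + π / 2)..(ψ + 3 * π / 2), ell (φ τ) θ) :=
      intervalIntegral.continuous_parametric_intervalIntegral_of_continuous' (f := fun τ θ => ell (φ τ) θ) h1 _ _
    have h4 : Continuous (fun τ => ell (φ τ) ψ) := by
      have h2 : Continuous (fun τ : ℝ => ((τ, ψ) : ℝ × ℝ)) := by fun_prop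
      exact h1.comp h2
    exact h3.add (continuous_const.mul h4)
  intro τ0 hτ0
  apply ContinuousAt.continuousWithinAt
  rcases lt_or_gt_of_ne (show τ0 ≠ 0 from hτ0) with h | h
  · have h1 := key (fun τ => min τ (τ0 / 2)) (by fun_prop) (fun τ => by
      have : min τ (τ0 / 2) ≤ τ0 / 2 := min_le_right _ _
      have : min τ (τ0 / 2) < 0 := by linarith
      exact this.ne)
    refine h1.continuousAt.congr ?_
    filter_upwards [Iio_mem_nhds (show τ0 < τ0 / 2 by linarith)] with τ hτ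
    rw [min_eq_left (le_of_lt hτ)]
  · have h1 := key (fun τ => max τ (τ0 / 2)) (by fun_prop) (fun τ => by
      have : τ0 / 2 ≤ max τ (τ0 / 2) := le_max_right _ _
      have : 0 < max τ (τ0 / 2) := by linarith
      exact this.ne')
    refine h1.continuousAt.congr ?_
    filter_upwards [Ioi_mem_nhds (show τ0 / 2 < τ0 by linarith)] with τ hτ
    rw [max_eq_left (le_of_lt hτ)]

end Pool.Agent.TX1
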