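import Pool.Agent.TX1.ExcInt
import Pool.Agent.TX1.Resp

/-!
# TX1, module Key: the integrated half circle inequality

Common part of `Boot` and `FirstWin`.  `F t = HF ψ (fun θ => log ‖f (pt (b+t) θ)‖)`.
Upper bound: `F t ≤ 2δ TM f (b+t) + 2 Ex x b A Ω t + 240 exp (2t-R) TM f b` (the integral over the half circle
is at most `TM f (b+t)`, the value in the valley by `HM` and `excess`).  Lower bound:
`F t ≥ ∑ hl (b+t-x i) (ψ - y i) - 6 * 60 exp (2t-R) TM f b`.
-/

set_option autoImplicit false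

namespace Pool.Agent.TX1

open Real MeasureTheory Set Filter Topology

variable {f : ℂ → ℂ} {b R σ : ℝ} {n : ℕ} {x y : Fin n → ℝ} {h : ℂ → ℂ} {A ψ : ℝ}

theorem key_re_cont (hD : Dip f b R n x y h A ψ) {s : ℝ} (hs : s ≤ b + R) :
    Continuous fun θ => (h (pt s θ)).re := by
  obtain ⟨ρ, hρ, hd⟩ := hD.fac.hd
  refine Complex.continuous_re.comp ?_
  refine hd.continuousOn.comp_continuous ?_ ?_
  · exact pt_cont.comp (by fun_prop : Continuous fun θ : ℝ => (s, θ))
  · intro θ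
    rw [Metric.mem_ball, dist_zero_right, pt_norm]
    exact (exp_le_exp.2 hs).trans_lt hρ

theorem key_sum (ψ : ℝ) {n : ℕ} (τ y : Fin n → ℝ) {w : ℝ → ℝ} (hw : Continuous w) :
    HF ψ (fun θ => ∑ i, ell (τ i) (θ - y i) + w θ) = ∑ i, hl (τ i) (ψ - y i) + HF ψ w := by
  have hi : ∀ i : Fin n, IntervalIntegrable (fun θ => ell (τ i) (θ - y i)) volume
      (ψ + π / 2) (ψ + 3 * π / 2) := by
    intro i
    have h1 := (ell_ii (τ i) (ψ + π / 2 - y i) (ψ + 3 * π / 2 - y i)).comp_sub_right (y i)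
    simpa using h1
  have h1 : ∀ i, hl (τ i) (ψ - y i) =
      (∫ θ in (ψ + π / 2)..(ψ + 3 * π / 2), ell (τ i) (θ - y i)) + 2 * ell (τ i) (ψ - y i) := by
    intro i
    rw [← HF_shift]
    rfl
  have h2 : ∫ θ in (ψ + π / 2)..(ψ + 3 * π / 2), (∑ i, ell (τ i) (θ - y i) + w θ) =
      (∑ i, ∫ θ in (ψ + π / 2)..(ψ + 3 * π / 2), ell (τ i) (θ - y i)) +
        ∫ θ in (ψ + π / 2)..(ψ + 3 * π / 2), w θ := by
    rw [intervalIntegral.integral_add _ (hw.intervalIntegrable _ _),
      intervalIntegral.integral_finsetSum]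
    · intro i _
      exact hi i
    · have h3 := IntervalIntegrable.sum Finset.univ (f := fun i θ => ell (τ i) (θ - y i))
        (fun i _ => hi i)
      have h4 : (∑ i, fun θ => ell (τ i) (θ - y i)) = fun θ => ∑ i, ell (τ i) (θ - y i) := by
        funext θ
        rw [Finset.sum_apply]
      rwa [h4] at h3
  unfold HF
  rw [h2]
  simp only [h1, Finset.sum_add_distrib, mul_add, Finset.mul_sum]
  ring

/-- the upper bound for the half circle functional -/
theorem key_upper (hD : Dip f b R n x y h A ψ) (hR : 80 ≤ R) {δ : ℝ}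
    (hM : HM f δ b) (hA : 0 < A) {Ω : ℝ} (hΩ : 0 < Ω) (hdf : Differentiable ℂ f)
    {t : ℝ} (ht : 0 ≤ t) (htR : t ≤ R / 4) (hne : ∀ i, b + t ≠ x i) :
    HF ψ (fun θ => log ‖f (pt (b + t) θ)‖) ≤
      2 * δ * TM f (b + t) + 2 * Ex x b A Ω t + 240 * exp (2 * t - R) * TM f b := by
  have hnz : ∀ θ, f (pt (b + t) θ) ≠ 0 := fun θ =>
    (log_formula hD.fac (by linarith) hne θ).1
  have hcont : Continuous fun θ => f (pt (b + t) θ) :=
    hdf.continuous.comp (pt_cont.comp (by fun_prop : Continuous fun θ : ℝ => (b + t, θ)))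
  have hlc : Continuous fun θ => log ‖f (pt (b + t) θ)‖ :=
    hcont.norm.log fun θ => norm_ne_zero_iff.2 (hnz θ)
  have hlc2 : Continuous fun θ => 1 / 2 * log (‖f (pt (b + t) θ)‖ ^ 2 + 1) := by
    refine continuous_const.mul (Continuous.log ((hcont.norm.pow 2).add continuous_const) fun θ => ?_)
    positivity
  have hpt : ∀ θ, log ‖f (pt (b + t) θ)‖ ≤ 1 / 2 * log (‖f (pt (b + t) θ)‖ ^ 2 + 1) := by
    intro θ
    have h1 : 0 < ‖f (pt (b + t) θ)‖ := norm_pos_iff.2 (hnz θ)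
    have h2 : log (‖f (pt (b + t) θ)‖ ^ 2) ≤ log (‖f (pt (b + t) θ)‖ ^ 2 + 1) :=
      log_le_log (by positivity) (by linarith)
    rw [log_pow] at h2
    push_cast at h2
    linarith
  have hint : ∫ θ in (ψ + π / 2)..(ψ + 3 * π / 2), log ‖f (pt (b + t) θ)‖ ≤ TM f (b + t) := by
    rw [TM_eq f (b + t) (ψ + π / 2)]
    have e1 : ∫ θ in (ψ + π / 2)..(ψ + π / 2 + 2 * π), 1 / 2 * log (‖f (pt (b + t) θ)‖ ^ 2 + 1) =
        (∫ θ in (ψ + π / 2)..(ψ + 3 * π / 2), 1 / 2 * log (‖f (pt (b + t) θ)‖ ^ 2 + 1)) +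
        ∫ θ in (ψ + 3 * π / 2)..(ψ + π / 2 + 2 * π), 1 / 2 * log (‖f (pt (b + t) θ)‖ ^ 2 + 1) :=
      (intervalIntegral.integral_add_adjacent_intervals (hlc2.intervalIntegrable _ _)
        (hlc2.intervalIntegrable _ _)).symm
    have e2 : 0 ≤ ∫ θ in (ψ + 3 * π / 2)..(ψ + π / 2 + 2 * π),
        1 / 2 * log (‖f (pt (b + t) θ)‖ ^ 2 + 1) := by
      refine intervalIntegral.integral_nonneg (by linarith [pi_pos]) fun θ _ => ?_
      have : 0 ≤ log (‖f (pt (b + t) θ)‖ ^ 2 + 1) :=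
        log_nonneg (by nlinarith [sq_nonneg ‖f (pt (b + t) θ)‖])
      linarith
    have e3 : ∫ θ in (ψ + π / 2)..(ψ + 3 * π / 2), log ‖f (pt (b + t) θ)‖ ≤
        ∫ θ in (ψ + π / 2)..(ψ + 3 * π / 2), 1 / 2 * log (‖f (pt (b + t) θ)‖ ^ 2 + 1) :=
      intervalIntegral.integral_mono_on (by linarith [pi_pos]) (hlc.intervalIntegrable _ _)
        (hlc2.intervalIntegrable _ _) fun θ _ => hpt θ
    linarith
  obtain ⟨φ, hφ⟩ := hM (b + t) (by linarith)
  have hφ2 : log ‖f (pt (b + t) φ)‖ ≤ -((1 / 2 - δ) * TM f (b + t)) := by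
    have h1 := log_le_log (norm_pos_iff.2 (hnz φ)) hφ
    rwa [log_exp] at h1
  have hex := excess hD (by linarith) htR hne hA (sqrt_pos.2 hΩ) φ
  unfold HF
  have hEx : Ex x b A Ω t = VV x (√Ω) (b + t) +
      VV x (√Ω) (b + t) ^ 2 / (4 * (2 / π ^ 2 * A * exp t) * √Ω ^ 2) := rfl
  rw [hEx]
  linarith

/-- the lower bound for the half circle functional -/
theorem key_lower (hD : Dip f b R n x y h A ψ) (hR : 80 ≤ R)
    {t : ℝ} (htR : t ≤ R / 4) (hne : ∀ i, b + t ≠ x i) (hTM : 0 ≤ TM f b) :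
    ∑ i, hl (b + t - x i) (ψ - y i) - 360 * exp (2 * t - R) * TM f b ≤
      HF ψ (fun θ => log ‖f (pt (b + t) θ)‖) := by
  have hc := key_re_cont hD (s := b + t) (by linarith)
  have h1 : (fun θ => log ‖f (pt (b + t) θ)‖) =
      fun θ => ∑ i, ell (b + t - x i) (θ - y i) + (h (pt (b + t) θ)).re := by
    funext θ
    exact (log_formula hD.fac (by linarith) hne θ).2
  rw [h1, key_sum ψ (fun i => b + t - x i) y hc]
  have h2 : (fun θ => (h (pt (b + t) θ)).re) =
      fun θ => (-(A * exp t)) * cos (θ - ψ) + ((h (pt (b + t) θ)).re + A * exp t * cos (θ - ψ)) := by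
    funext θ
    ring
  have hc1 : Continuous fun θ : ℝ => (-(A * exp t)) * cos (θ - ψ) := by fun_prop
  have hc2 : Continuous fun θ : ℝ => (h (pt (b + t) θ)).re + A * exp t * cos (θ - ψ) :=
    hc.add (by fun_prop)
  have h3 : HF ψ (fun θ => (h (pt (b + t) θ)).re) =
      HF ψ (fun θ => (h (pt (b + t) θ)).re + A * exp t * cos (θ - ψ)) := by
    rw [h2, HF_add (hc1.intervalIntegrable _ _) (hc2.intervalIntegrable _ _), HF_mul, HF_cos,
      mul_zero, zero_add]
  have h4 := HF_abs (ψ := ψ) (u := fun θ => (h (pt (b + t) θ)).re + A * exp t * cos (θ - ψ))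
    (c := 60 * exp (2 * t - R) * TM f b) (fun θ => hD.err t θ (by linarith))
  rw [h3]
  have h5 := (abs_le.1 h4).1
  have h6 : (π + 2) * (60 * exp (2 * t - R) * TM f b) ≤ 6 * (60 * exp (2 * t - R) * TM f b) :=
    mul_le_mul_of_nonneg_right (by linarith [pi_lt_four])
      (mul_nonneg (by positivity) hTM)
  linarith

theorem key (hW : Win f b R σ) (hD : Dip f b R n x y h A ψ) (hR : 80 ≤ R) {δ : ℝ}
    (hM : HM f δ b) (hs : 5000 * ((R + 1) * σ + exp (-(R / 2))) ≤ 1 / 6) {a T : ℝ}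
    (hT : 0 ≤ T) (hTR : T ≤ R / 4) :
    ∑ i, ∫ t in (0 : ℝ)..T, exp (-(a * t)) * hl (t - (x i - b)) (ψ - y i) ≤
      2 * δ * (∫ t in (0 : ℝ)..T, exp (-(a * t)) * TM f (b + t)) +
      2 * (∫ t in (0 : ℝ)..T, exp (-(a * t)) * Ex x b A (1800 * (R + 1) * σ) t) +
      1000 * (∫ t in (0 : ℝ)..T, exp (-(a * t)) * exp (2 * t - R)) * TM f b := by
  have hTMb : 0 < TM f b := (exp_pos R).trans_le hW.big
  obtain ⟨hA1, hA2⟩ := near_A hW hD hs
  have hA : 0 < A := by linarith
  have hσ := hW.hσ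
  have hΩ : 0 < 1800 * (R + 1) * σ := by positivity
  have hΩ1 : 1800 * (R + 1) * σ ≤ 1 := by
    have := exp_pos (-(R / 2))
    nlinarith
  have hTMc := TM_cont hW.hf
  have i1 : IntervalIntegrable (fun t => exp (-(a * t)) * TM f (b + t)) volume 0 T :=
    Continuous.intervalIntegrable (by fun_prop) _ _
  have i2 : IntervalIntegrable (fun t => exp (-(a * t)) * Ex x b A (1800 * (R + 1) * σ) t)
      volume 0 T := Ex_ii x hA hΩ hΩ1 hT
  have i3 : IntervalIntegrable (fun t => exp (-(a * t)) * exp (2 * t - R)) volume 0 T :=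
    Continuous.intervalIntegrable (by fun_prop) _ _
  have i4 : ∀ i, IntervalIntegrable (fun t => exp (-(a * t)) * hl (t - (x i - b)) (ψ - y i))
      volume 0 T := fun i => resp_ii a (x i - b) (ψ - y i) T hT
  have e1 : ∑ i, ∫ t in (0 : ℝ)..T, exp (-(a * t)) * hl (t - (x i - b)) (ψ - y i) =
      ∫ t in (0 : ℝ)..T, ∑ i, exp (-(a * t)) * hl (t - (x i - b)) (ψ - y i) := by
    rw [intervalIntegral.integral_finsetSum]
    intro i _
    exact i4 i
  have e2 : 2 * δ * (∫ t in (0 : ℝ)..T, exp (-(a * t)) * TM f (b + t)) +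
      2 * (∫ t in (0 : ℝ)..T, exp (-(a * t)) * Ex x b A (1800 * (R + 1) * σ) t) +
      1000 * (∫ t in (0 : ℝ)..T, exp (-(a * t)) * exp (2 * t - R)) * TM f b =
      ∫ t in (0 : ℝ)..T, ((2 * δ * (exp (-(a * t)) * TM f (b + t)) +
        2 * (exp (-(a * t)) * Ex x b A (1800 * (R + 1) * σ) t)) +
        1000 * TM f b * (exp (-(a * t)) * exp (2 * t - R))) := by
    rw [intervalIntegral.integral_add ((i1.const_mul _).add (i2.const_mul _)) (i3.const_mul _),
      intervalIntegral.integral_add (i1.const_mul _) (i2.const_mul _),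
      intervalIntegral.integral_const_mul, intervalIntegral.integral_const_mul,
      intervalIntegral.integral_const_mul]
    ring
  rw [e1, e2]
  have i5 : IntervalIntegrable (fun t => ∑ i, exp (-(a * t)) * hl (t - (x i - b)) (ψ - y i))
      volume 0 T := by
    have h3 := IntervalIntegrable.sum Finset.univ
      (f := fun i t => exp (-(a * t)) * hl (t - (x i - b)) (ψ - y i)) (fun i _ => i4 i)
    have h4 : (∑ i, fun t => exp (-(a * t)) * hl (t - (x i - b)) (ψ - y i)) =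
        fun t => ∑ i, exp (-(a * t)) * hl (t - (x i - b)) (ψ - y i) := by
      funext θ
      rw [Finset.sum_apply]
    rwa [h4] at h3
  refine intervalIntegral.integral_mono_ae_restrict hT i5
    (((i1.const_mul _).add (i2.const_mul _)).add (i3.const_mul _)) ?_
  have hfin : (Set.range fun i => x i - b).Finite := Set.finite_range _
  have hae : ∀ᵐ t ∂(volume.restrict (Icc (0 : ℝ) T)), t ∉ Set.range fun i => x i - b := by
    refine ae_restrict_of_ae ?_
    exact hfin.countable.ae_notMem volume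
  filter_upwards [hae, ae_restrict_mem measurableSet_Icc] with t ht1 ht2
  have hne : ∀ i, b + t ≠ x i := by
    intro i hi
    exact ht1 ⟨i, by simp only []; linarith⟩
  have hup := key_upper hD hR hM hA hΩ hW.hf ht2.1 (by linarith [ht2.2]) hne
  have hlo := key_lower hD hR (t := t) (by linarith [ht2.2]) hne hTMb.le
  have hsum : ∑ i, hl (t - (x i - b)) (ψ - y i) ≤
      2 * δ * TM f (b + t) + 2 * Ex x b A (1800 * (R + 1) * σ) t +
        1000 * TM f b * exp (2 * t - R) := by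
    have e3 : ∑ i, hl (t - (x i - b)) (ψ - y i) = ∑ i, hl (b + t - x i) (ψ - y i) := by
      refine Finset.sum_congr rfl fun i _ => ?_
      congr 1
      ring
    rw [e3]
    have e4 : 0 ≤ exp (2 * t - R) * TM f b := mul_nonneg (exp_pos _).le hTMb.le
    linarith
  have hexp := exp_pos (-(a * t))
  calc ∑ i, exp (-(a * t)) * hl (t - (x i - b)) (ψ - y i)
      = exp (-(a * t)) * ∑ i, hl (t - (x i - b)) (ψ - y i) := by rw [Finset.mul_sum]
    _ ≤ exp (-(a * t)) * (2 * δ * TM f (b + t) + 2 * Ex x b A (1800 * (R + 1) * σ) t +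
        1000 * TM f b * exp (2 * t - R)) := mul_le_mul_of_nonneg_left hsum hexp.le
    _ = _ := by ring

end Pool.Agent.TX1
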