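import Pool.Agent.TX1.Sums

/-!
# TX1, module Near: near a dipole

By continuity of `TM f` it is enough to treat `t` with `b + t ≠ x i` for all `i` (dense).  `u θ = log |f (pt (b+t) θ)| = ∑ ell (b+t-x i)(θ - y i) + Re h`.
Upper bound: `½ log (|f|²+1) ≤ max u 0 + ½ log 2`, `max u 0 ≤ A exp t max (-cos (θ-ψ)) 0 + ∑ max (ell) 0 + 60 exp (2t-R) TM f b`,
`∫ max (-cos) 0 = 2`, `ell_pos_int`, `log (1 + exp τ) ≤ max τ 0 + exp (-|τ|)` (`∑ 2π max (b+t-x i) 0 = TN f (b+t)`), `sum_abs`, `Win.ze`; for `t < 0` use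
`TN f (b+t) ≤ TN f b`.  `exp (2t-R) ≤ exp t exp (-3R/4)`; `π log 2 ≤ 3 ≤ 3 exp (-R) TM f b` (`Win.big`).
Lower bound: `½ log (|f|²+1) ≥ 0` and `≥ u`, so `TM f (b+t) ≥ ∫_{ψ+π/2}^{ψ+3π/2} u ≥ 2 A exp t - ∑ ∫ max (-ell) 0 - π 60 exp (2t-R) TM f b`, `ell_neg_int`, `sum_abs`.
-/

set_option autoImplicit false

namespace Pool.Agent.TX1

open Real MeasureTheory Set Filter Topology

variable {f : ℂ → ℂ} {b R σ : ℝ} {n : ℕ} {x y : Fin n → ℝ} {h : ℂ → ℂ} {A ψ : ℝ}

private theorem nearMaxII {g : ℝ → ℝ} {a c : ℝ} (hg : IntervalIntegrable g volume a c) :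
    IntervalIntegrable (fun β => max (g β) 0) volume a c := by
  have h2 : (fun β => max (g β) 0) = fun β => (g β + |g β|) / 2 := by
    funext β
    rcases le_total (g β) 0 with h | h
    · rw [max_eq_right h, abs_of_nonpos h]; ring
    · rw [max_eq_left h, abs_of_nonneg h]; ring
  rw [h2]
  exact (hg.add hg.abs).div_const 2

private theorem nearEllII (τ y a c : ℝ) :
    IntervalIntegrable (fun θ => ell τ (θ - y)) volume a c := by
  have h1 := (ell_ii τ (a - y) (c - y)).comp_sub_right y
  simpa using h1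

private theorem nearPosInt (τ y a : ℝ) :
    ∫ θ in a..(a + 2 * π), max (ell τ (θ - y)) 0 ≤ 2 * π * log (1 + exp τ) := by
  rw [intervalIntegral.integral_comp_sub_right (fun β => max (ell τ β) 0) y]
  have e : a + 2 * π - y = (a - y) + 2 * π := by ring
  rw [e]
  exact ell_pos_int τ (a - y)

private theorem nearNegInt (τ y a : ℝ) :
    ∫ θ in a..(a + 2 * π), max (-ell τ (θ - y)) 0 ≤ 2 * π * exp (-|τ|) := by
  rw [intervalIntegral.integral_comp_sub_right (fun β => max (-ell τ β) 0) y]
  have e : a + 2 * π - y = (a - y) + 2 * π := by ring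
  rw [e]
  exact ell_neg_int τ (a - y)

private theorem nearCosInt (ψ : ℝ) :
    ∫ θ in (ψ - π / 2)..(ψ - π / 2 + 2 * π), max (-cos (θ - ψ)) 0 = 2 := by
  have hpi := Real.pi_pos
  rw [intervalIntegral.integral_comp_sub_right (fun β => max (-cos β) 0) ψ]
  have e1 : ψ - π / 2 - ψ = -(π / 2) := by ring
  have e2 : ψ - π / 2 + 2 * π - ψ = π / 2 + π := by ring
  rw [e1, e2]
  have hc : Continuous (fun β : ℝ => max (-cos β) 0) := by fun_prop
  rw [← intervalIntegral.integral_add_adjacent_intervals (b := π / 2)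
    (hc.intervalIntegrable _ _) (hc.intervalIntegrable _ _)]
  have h1 : ∫ β in (-(π / 2))..(π / 2), max (-cos β) 0 = 0 := by
    rw [intervalIntegral.integral_congr (g := fun _ => (0 : ℝ))]
    · simp
    · intro β hβ
      rw [uIcc_of_le (by linarith)] at hβ
      have := Real.cos_nonneg_of_neg_pi_div_two_le_of_le hβ.1 hβ.2
      exact max_eq_right (by linarith)
  have h2 : ∫ β in (π / 2)..(π / 2 + π), max (-cos β) 0 = 2 := by
    rw [intervalIntegral.integral_congr (g := fun β => -cos β)]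
    · rw [intervalIntegral.integral_neg, integral_cos, Real.sin_add_pi, Real.sin_pi_div_two]
      norm_num
    · intro β hβ
      rw [uIcc_of_le (by linarith)] at hβ
      have := Real.cos_nonpos_of_pi_div_two_le_of_le hβ.1 (by linarith [hβ.2])
      exact max_eq_left (by linarith)
  rw [h1, h2, zero_add]

/-- pointwise bounds -/
private theorem nearPt {w cc A' E : ℝ} (hw : 0 < w) {k : ℕ} (e : Fin k → ℝ) (hr : ℝ)
    (hu : log w = (∑ i, e i) + hr) (hA : 0 ≤ A') (hE : |hr + A' * cc| ≤ E) :
    1 / 2 * log (w ^ 2 + 1) ≤ A' * max (-cc) 0 + (∑ i, max (e i) 0) + E + 1 / 2 * log 2 ∧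
    A' * max (-cc) 0 - (∑ i, max (-e i) 0) - E ≤ 1 / 2 * log (w ^ 2 + 1) := by
  have hE0 : 0 ≤ E := (abs_nonneg _).trans hE
  rw [abs_le] at hE
  have hs1 : ∑ i, e i ≤ ∑ i, max (e i) 0 := Finset.sum_le_sum fun i _ => le_max_left _ _
  have hs2 : 0 ≤ ∑ i, max (e i) 0 := Finset.sum_nonneg fun i _ => le_max_right _ _
  have hs3 : -(∑ i, e i) ≤ ∑ i, max (-e i) 0 := by
    rw [← Finset.sum_neg_distrib]
    exact Finset.sum_le_sum fun i _ => le_max_left _ _
  have hs4 : 0 ≤ ∑ i, max (-e i) 0 := Finset.sum_nonneg fun i _ => le_max_right _ _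
  have hm1 : 0 ≤ A' * max (-cc) 0 := mul_nonneg hA (le_max_right _ _)
  have hm2 : A' * (-cc) ≤ A' * max (-cc) 0 := mul_le_mul_of_nonneg_left (le_max_left _ _) hA
  have hl2 : 0 ≤ log 2 := Real.log_nonneg (by norm_num)
  constructor
  · rcases le_total w 1 with h1 | h1
    · have : log (w ^ 2 + 1) ≤ log 2 := by
        apply Real.log_le_log (by positivity)
        nlinarith
      linarith
    · have : log (w ^ 2 + 1) ≤ log 2 + 2 * log w := by
        have e1 : log 2 + 2 * log w = log (2 * w ^ 2) := by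
          rw [Real.log_mul (by norm_num) (by positivity), Real.log_pow]
          norm_num
        rw [e1]
        apply Real.log_le_log (by positivity)
        nlinarith
      rw [hu] at this
      linarith
  · have hF0 : 0 ≤ 1 / 2 * log (w ^ 2 + 1) := by
      have : 0 ≤ log (w ^ 2 + 1) := Real.log_nonneg (by nlinarith [sq_nonneg w])
      linarith
    have hF1 : log w ≤ 1 / 2 * log (w ^ 2 + 1) := by
      have : 2 * log w ≤ log (w ^ 2 + 1) := by
        have e1 : 2 * log w = log (w ^ 2) := by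
          rw [Real.log_pow]; norm_num
        rw [e1]
        apply Real.log_le_log (by positivity)
        linarith
      linarith
    rcases le_total (-cc) 0 with h1 | h1
    · rw [max_eq_right h1, mul_zero]
      linarith
    · rw [max_eq_left h1]
      rw [hu] at hF1
      linarith

private theorem near_aux (hW : Win f b R σ) (hD : Dip f b R n x y h A ψ) {t : ℝ} (ht : -1 ≤ t)
    (htR : t ≤ R / 4) (hne : ∀ i, b + t ≠ x i) :
    |TM f (b + t) - 2 * A * exp t| ≤ 5000 * ((R + 1) * σ + exp (-(R / 2))) * exp t * TM f b := by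
  have hpi := Real.pi_pos
  have hpi2 := Real.pi_lt_d2
  have hR := hW.hR
  have hTb : 0 < TM f b := (exp_pos R).trans_le hW.big
  have hA := hD.hA
  set s := b + t with hs
  set E : ℝ := 60 * exp (2 * t - R) * TM f b with hE
  have hE0 : 0 ≤ E := by positivity
  set a := ψ - π / 2 with ha
  have hab : a ≤ a + 2 * π := by linarith
  have hsS : s ≤ b + R := by rw [hs]; linarith
  -- pointwise bounds
  have hpt : ∀ θ : ℝ,
      1 / 2 * log (‖f (pt s θ)‖ ^ 2 + 1) ≤ A * exp t * max (-cos (θ - ψ)) 0 +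
        (∑ i, max (ell (s - x i) (θ - y i)) 0) + E + 1 / 2 * log 2 ∧
      A * exp t * max (-cos (θ - ψ)) 0 - (∑ i, max (-ell (s - x i) (θ - y i)) 0) - E ≤
        1 / 2 * log (‖f (pt s θ)‖ ^ 2 + 1) := by
    intro θ
    obtain ⟨h1, h2⟩ := log_formula hD.fac hsS hne θ
    refine nearPt (norm_pos_iff.2 h1) (fun i => ell (s - x i) (θ - y i)) _ h2
      (mul_nonneg hA (exp_pos t).le) ?_
    exact hD.err t θ (by linarith)
  -- integrability
  have hfc : Continuous (fun θ : ℝ => 1 / 2 * log (‖f (pt s θ)‖ ^ 2 + 1)) := by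
    have h1 : Continuous (fun θ : ℝ => pt s θ) :=
      pt_cont.comp (by fun_prop : Continuous (fun θ : ℝ => ((s, θ) : ℝ × ℝ)))
    have h2 : Continuous (fun θ : ℝ => ‖f (pt s θ)‖ ^ 2 + 1) :=
      ((hW.hf.continuous.comp h1).norm.pow 2).add continuous_const
    refine continuous_const.mul (h2.log fun θ => ?_)
    positivity
  have hcc : Continuous (fun θ : ℝ => A * exp t * max (-cos (θ - ψ)) 0) := by fun_prop
  have hi1 : ∀ i, IntervalIntegrable (fun θ => max (ell (s - x i) (θ - y i)) 0) volume a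
      (a + 2 * π) := fun i => nearMaxII (nearEllII _ _ _ _)
  have hi2 : ∀ i, IntervalIntegrable (fun θ => max (-ell (s - x i) (θ - y i)) 0) volume a
      (a + 2 * π) := fun i => nearMaxII (nearEllII _ _ _ _).neg
  have hI1 : IntervalIntegrable (fun θ => ∑ i, max (ell (s - x i) (θ - y i)) 0) volume a
      (a + 2 * π) := by
    have := IntervalIntegrable.sum Finset.univ (fun i _ => hi1 i)
    simpa [Finset.sum_fn] using this
  have hI2 : IntervalIntegrable (fun θ => ∑ i, max (-ell (s - x i) (θ - y i)) 0) volume a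
      (a + 2 * π) := by
    have := IntervalIntegrable.sum Finset.univ (fun i _ => hi2 i)
    simpa [Finset.sum_fn] using this
  have hJ1 : ∫ θ in a..(a + 2 * π), ∑ i, max (ell (s - x i) (θ - y i)) 0 ≤
      ∑ i, 2 * π * log (1 + exp (s - x i)) := by
    rw [intervalIntegral.integral_finsetSum (fun i _ => hi1 i)]
    exact Finset.sum_le_sum fun i _ => nearPosInt _ _ _
  have hJ2 : ∫ θ in a..(a + 2 * π), ∑ i, max (-ell (s - x i) (θ - y i)) 0 ≤
      ∑ i, 2 * π * exp (-|s - x i|) := by
    rw [intervalIntegral.integral_finsetSum (fun i _ => hi2 i)]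
    exact Finset.sum_le_sum fun i _ => nearNegInt _ _ _
  have hJ3 : ∫ θ in a..(a + 2 * π), A * exp t * max (-cos (θ - ψ)) 0 = A * exp t * 2 := by
    rw [intervalIntegral.integral_const_mul, ha, nearCosInt]
  -- upper and lower bound
  have hup : TM f s ≤ A * exp t * 2 + (∑ i, 2 * π * log (1 + exp (s - x i))) +
      2 * π * (E + 1 / 2 * log 2) := by
    rw [TM_eq f s a]
    calc ∫ θ in a..(a + 2 * π), 1 / 2 * log (‖f (pt s θ)‖ ^ 2 + 1)
        ≤ ∫ θ in a..(a + 2 * π), (A * exp t * max (-cos (θ - ψ)) 0 +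
          (∑ i, max (ell (s - x i) (θ - y i)) 0)) + (E + 1 / 2 * log 2) := by
          apply intervalIntegral.integral_mono_on hab (hfc.intervalIntegrable _ _)
            (((hcc.intervalIntegrable _ _).add hI1).add intervalIntegrable_const)
          intro θ _
          have := (hpt θ).1
          linarith
      _ = A * exp t * 2 + (∫ θ in a..(a + 2 * π), ∑ i, max (ell (s - x i) (θ - y i)) 0) +
          2 * π * (E + 1 / 2 * log 2) := by
          rw [intervalIntegral.integral_add ((hcc.intervalIntegrable _ _).add hI1)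
            intervalIntegrable_const, intervalIntegral.integral_add (hcc.intervalIntegrable _ _) hI1,
            hJ3, intervalIntegral.integral_const, smul_eq_mul]
          ring
      _ ≤ _ := by linarith
  have hlo : A * exp t * 2 - (∑ i, 2 * π * exp (-|s - x i|)) - 2 * π * E ≤ TM f s := by
    rw [TM_eq f s a]
    calc A * exp t * 2 - (∑ i, 2 * π * exp (-|s - x i|)) - 2 * π * E
        ≤ A * exp t * 2 - (∫ θ in a..(a + 2 * π), ∑ i, max (-ell (s - x i) (θ - y i)) 0) -
          2 * π * E := by linarith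
      _ = ∫ θ in a..(a + 2 * π), (A * exp t * max (-cos (θ - ψ)) 0 -
          (∑ i, max (-ell (s - x i) (θ - y i)) 0)) - E := by
          rw [intervalIntegral.integral_sub ((hcc.intervalIntegrable _ _).sub hI2)
            intervalIntegrable_const, intervalIntegral.integral_sub (hcc.intervalIntegrable _ _) hI2,
            hJ3, intervalIntegral.integral_const, smul_eq_mul]
          ring
      _ ≤ _ := by
          apply intervalIntegral.integral_mono_on hab
            (((hcc.intervalIntegrable _ _).sub hI2).sub intervalIntegrable_const)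
            (hfc.intervalIntegrable _ _)
          intro θ _
          exact (hpt θ).2
  -- the sums
  have hab1 : ∑ i, exp (-|s - x i|) ≤ 600 * (R + 1) * σ * exp t * TM f b :=
    sum_abs hW hD.fac ht (by linarith)
  have hsum1 : ∑ i, 2 * π * exp (-|s - x i|) = 2 * π * ∑ i, exp (-|s - x i|) := by
    rw [Finset.mul_sum]
  have hsum2 : ∑ i, 2 * π * log (1 + exp (s - x i)) ≤ TN f s + 2 * π * ∑ i, exp (-|s - x i|) := by
    rw [TN_fac hD.fac hsS, ← mul_add, ← Finset.sum_add_distrib, Finset.mul_sum]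
    refine Finset.sum_le_sum fun i _ => mul_le_mul_of_nonneg_left ?_ (by positivity)
    have := log_one_add_exp_sub_max (s - x i)
    linarith
  have het : exp (-1) ≤ exp t := Real.exp_le_exp.2 ht
  have he1 : 1 / 9 ≤ exp (-1 : ℝ) := by
    have h1 := Real.exp_one_lt_d9
    rw [Real.exp_neg]
    rw [one_div]
    exact inv_anti₀ (exp_pos 1) (by linarith)
  have hσ := hW.hσ
  have hTN : TN f s ≤ 9 * σ * exp t * TM f b := by
    rcases le_total 0 t with h0 | h0
    · have h1 := hW.ze t h0 (by linarith)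
      have h2 := hW.gr t h0 (by linarith)
      calc TN f s ≤ σ * TM f (b + t) := h1
        _ ≤ σ * (9 * exp t * TM f b) := mul_le_mul_of_nonneg_left h2 hσ.le
        _ = _ := by ring
    · have h1 := hW.ze 0 le_rfl (by linarith)
      rw [add_zero] at h1
      have h2 : TN f s ≤ TN f b := TN_mono hW.hf hW.f0 (by rw [hs]; linarith)
      have h3 : 1 ≤ 9 * exp t := by linarith
      have h4 : σ * TM f b * 1 ≤ σ * TM f b * (9 * exp t) :=
        mul_le_mul_of_nonneg_left h3 (by positivity)
      linarith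
  -- the error terms
  set P := exp t * TM f b with hP
  have hP0 : 0 < P := by positivity
  have hq : exp (-R) ≤ exp (-(R / 2)) * exp t := by
    rw [← Real.exp_add]
    exact Real.exp_le_exp.2 (by linarith)
  have hE1 : E ≤ 60 * exp (-(R / 2)) * P := by
    have h1 : exp (2 * t - R) ≤ exp (-(R / 2)) * exp t := by
      rw [← Real.exp_add]
      exact Real.exp_le_exp.2 (by linarith)
    rw [hE, hP]
    calc 60 * exp (2 * t - R) * TM f b ≤ 60 * (exp (-(R / 2)) * exp t) * TM f b := by gcongr
      _ = _ := by ring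
  have hL : π * log 2 ≤ 3 * (exp (-(R / 2)) * P) := by
    have h1 : log 2 ≤ 0.6931471808 := Real.log_two_lt_d9.le
    have h2 : π * log 2 ≤ 3 := by nlinarith
    have h3 : 1 ≤ exp (-R) * TM f b := by
      have h4 : exp (-R) * exp R ≤ exp (-R) * TM f b :=
        mul_le_mul_of_nonneg_left hW.big (exp_pos _).le
      rwa [← Real.exp_add, neg_add_cancel, Real.exp_zero] at h4
    have h5 : exp (-R) * TM f b ≤ exp (-(R / 2)) * exp t * TM f b :=
      mul_le_mul_of_nonneg_right hq hTb.le
    rw [hP]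
    nlinarith
  have hq0 := exp_pos (-(R / 2))
  have hX : ∑ i, exp (-|s - x i|) ≤ 600 * ((R + 1) * σ * P) := by
    rw [hP]
    calc _ ≤ _ := hab1
      _ = _ := by ring
  have hX0 : 0 ≤ ∑ i, exp (-|s - x i|) := Finset.sum_nonneg fun i _ => (exp_pos _).le
  have hY : TN f s ≤ 9 * ((R + 1) * σ * P) := by
    have h1 : 9 * σ * exp t * TM f b = 9 * (1 * σ * P) := by rw [hP]; ring
    have h2 : 1 * σ * P ≤ (R + 1) * σ * P := by gcongr; linarith
    linarith
  have hQ0 : 0 ≤ (R + 1) * σ * P := by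
    have : 0 ≤ R + 1 := by linarith
    positivity
  have hgoal : 5000 * ((R + 1) * σ + exp (-(R / 2))) * exp t * TM f b =
      5000 * ((R + 1) * σ * P) + 5000 * (exp (-(R / 2)) * P) := by rw [hP]; ring
  rw [hgoal]
  set Q := (R + 1) * σ * P with hQ
  set V := exp (-(R / 2)) * P with hV
  have hV0 : 0 < V := by positivity
  have hE2 : E ≤ 60 * V := by rw [hV]; linarith
  have h2X : 2 * π * ∑ i, exp (-|s - x i|) ≤ 3780 * Q := by
    calc 2 * π * ∑ i, exp (-|s - x i|) ≤ 2 * π * (600 * Q) :=
          mul_le_mul_of_nonneg_left hX (by positivity)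
      _ ≤ 2 * 3.15 * (600 * Q) := by gcongr
      _ = 3780 * Q := by ring
  have h2E : 2 * π * E ≤ 378 * V := by
    calc 2 * π * E ≤ 2 * π * (60 * V) := mul_le_mul_of_nonneg_left hE2 (by positivity)
      _ ≤ 2 * 3.15 * (60 * V) := by gcongr
      _ = 378 * V := by ring
  rw [abs_le]
  constructor
  · linarith
  · have : 2 * π * (E + 1 / 2 * log 2) = 2 * π * E + π * log 2 := by ring
    linarith

theorem near (hW : Win f b R σ) (hD : Dip f b R n x y h A ψ) {t : ℝ} (ht : -1 ≤ t) (htR : t ≤ R / 4) :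
    |TM f (b + t) - 2 * A * exp t| ≤ 5000 * ((R + 1) * σ + exp (-(R / 2))) * exp t * TM f b := by
  have hR := hW.hR
  have hfin : (Set.range (fun i => x i - b)).Countable := (Set.finite_range _).countable
  have hdense : Dense (Set.range (fun i => x i - b))ᶜ := hfin.dense_compl ℝ
  set C : Set ℝ := {t | |TM f (b + t) - 2 * A * exp t| ≤
    5000 * ((R + 1) * σ + exp (-(R / 2))) * exp t * TM f b} with hC
  have hcl : IsClosed C := by
    have hc := TM_cont hW.hf
    refine isClosed_le ?_ ?_
    · exact ((hc.comp (continuous_const.add continuous_id)).sub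
        (continuous_const.mul Real.continuous_exp)).abs
    · fun_prop
  have hsub : Ioo (-1) (R / 4) ∩ (Set.range (fun i => x i - b))ᶜ ⊆ C := by
    rintro t' ⟨h1, h2⟩
    refine near_aux hW hD h1.1.le h1.2.le fun i hi => h2 ⟨i, ?_⟩
    simp only
    linarith
  have h1 : Ioo (-1) (R / 4) ⊆ closure (Ioo (-1) (R / 4) ∩ (Set.range (fun i => x i - b))ᶜ) :=
    hdense.open_subset_closure_inter isOpen_Ioo
  have h2 : closure (Ioo (-1) (R / 4)) ⊆ C :=
    closure_minimal (h1.trans (closure_minimal hsub hcl)) hcl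
  rw [closure_Ioo (by linarith)] at h2
  exact h2 ⟨ht, htR⟩

theorem near_A (hW : Win f b R σ) (hD : Dip f b R n x y h A ψ)
    (hs : 5000 * ((R + 1) * σ + exp (-(R / 2))) ≤ 1 / 6) : TM f b / 3 ≤ A ∧ A ≤ TM f b := by
  have hR := hW.hR
  have hTb : 0 < TM f b := (exp_pos R).trans_le hW.big
  have h0 := near hW hD (t := 0) (by norm_num) (by linarith)
  rw [add_zero, Real.exp_zero, mul_one, mul_one] at h0
  have h1 : 5000 * ((R + 1) * σ + exp (-(R / 2))) * TM f b ≤ 1 / 6 * TM f b :=
    mul_le_mul_of_nonneg_right hs hTb.le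
  rw [abs_le] at h0
  constructor <;> linarith [h0.1, h0.2]

end Pool.Agent.TX1
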