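import Pool.Agent.TX1.Coef

/-!
# TX1, module Sums: sums over the zeros in a window

`cnt`: for `t ≤ R - 1` by `count` (`2π # ≤ TN f (b+t+1) ≤ σ 9 exp (t+1) TM f b`), for `t > R - 1` all zeros: `2πn ≤ TN f (b+R+1)`.
The other sums: split the zeros with `x i > b + t` according to `b + t + j < x i ≤ b + t + j + 1`, `j = 0, 1, ...` (layer cake); for
`t + j + 1 > R` use all zeros (`cnt` with `t = R`).
(Convenient: `exp (-u) ≤ ∑_{j ≥ 0, j < u... }`; or the pointwise bound, for `u ≥ 0` and `u ≤ J`: `exp (-c u) ≤ ∑_{j=0}^{J} exp (-c j) 1_{u ≤ j+1}`.)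
-/

set_option autoImplicit false

namespace Pool.Agent.TX1

open Real MeasureTheory Set Filter Topology

variable {f : ℂ → ℂ} {b R σ : ℝ} {n : ℕ} {x y : Fin n → ℝ} {h : ℂ → ℂ}

theorem cnt (hW : Win f b R σ) (hF : Fac f (b + R) n x y h) {t : ℝ} (ht : 0 ≤ t) (htR : t ≤ R) :
    ((Finset.univ.filter (fun i => x i ≤ b + t)).card : ℝ) ≤ 11 * σ * exp t * TM f b := by
  have hpi : (3.14 : ℝ) < π := Real.pi_gt_d2
  have hM : 0 < TM f b := lt_of_lt_of_le (exp_pos _) hW.big
  have hσ := hW.hσ
  have he := Real.exp_one_lt_d9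
  have he0 := Real.exp_pos 1
  have het := Real.exp_pos t
  have hX : 0 < σ * exp t * TM f b := by positivity
  rcases le_or_gt t (R - 1) with h1 | h1
  · have h2 := count hF (s := b + t) (by linarith)
    have h3 := hW.ze (t + 1) (by linarith) (by linarith)
    have h4 := hW.gr (t + 1) (by linarith) (by linarith)
    rw [← add_assoc] at h3 h4
    have h5 : TN f (b + t + 1) ≤ σ * (9 * (exp t * exp 1) * TM f b) := by
      rw [← Real.exp_add]
      exact h3.trans (mul_le_mul_of_nonneg_left h4 hσ.le)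
    set c : ℝ := ((Finset.univ.filter (fun i => x i ≤ b + t)).card : ℝ) with hc
    have hc0 : 0 ≤ c := Nat.cast_nonneg _
    have h6 : 2 * 3.14 * c ≤ 9 * exp 1 * (σ * exp t * TM f b) := by
      have : 2 * 3.14 * c ≤ 2 * π * c := by gcongr
      linarith
    have h7 : 9 * exp 1 * (σ * exp t * TM f b) ≤ 9 * 2.7182818286 * (σ * exp t * TM f b) := by
      gcongr
    nlinarith
  · have h2 := hF.hn
    have h3 := hW.ze (R + 1) (by linarith) (by linarith)
    have h4 := hW.gr (R + 1) (by linarith) (by linarith)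
    rw [← add_assoc] at h3 h4
    have h40 : exp (R + 1) ≤ exp t * (exp 1 * exp 1) := by
      rw [← Real.exp_add, ← Real.exp_add]
      exact Real.exp_le_exp.2 (by linarith)
    have h5 : TN f (b + R + 1) ≤ σ * (9 * (exp t * (exp 1 * exp 1)) * TM f b) := by
      refine h3.trans (mul_le_mul_of_nonneg_left (h4.trans ?_) hσ.le)
      gcongr
    have hcard : ((Finset.univ.filter (fun i => x i ≤ b + t)).card : ℝ) ≤ n := by
      have := Finset.card_filter_le (Finset.univ : Finset (Fin n)) (fun i => x i ≤ b + t)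
      simp only [Finset.card_univ, Fintype.card_fin] at this
      exact_mod_cast this
    refine hcard.trans ?_
    have hn0 : (0 : ℝ) ≤ n := Nat.cast_nonneg _
    have h6 : 2 * 3.14 * (n : ℝ) ≤ 9 * (exp 1 * exp 1) * (σ * exp t * TM f b) := by
      have : 2 * 3.14 * (n : ℝ) ≤ 2 * π * n := by gcongr
      linarith
    have h8 : exp 1 * exp 1 ≤ 2.7182818286 * 2.7182818286 := by gcongr
    have h7 : 9 * (exp 1 * exp 1) * (σ * exp t * TM f b) ≤
        9 * (2.7182818286 * 2.7182818286) * (σ * exp t * TM f b) := by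
      gcongr
    nlinarith

/-- `cnt` without the upper restriction. -/
theorem cnt0 (hW : Win f b R σ) (hF : Fac f (b + R) n x y h) {t : ℝ} (ht : 0 ≤ t) :
    ((Finset.univ.filter (fun i => x i ≤ b + t)).card : ℝ) ≤ 11 * σ * exp t * TM f b := by
  have hM : 0 < TM f b := lt_of_lt_of_le (exp_pos _) hW.big
  have hσ := hW.hσ
  have hR := hW.hR
  rcases le_or_gt t R with h1 | h1
  · exact cnt hW hF ht h1
  · have h2 : (Finset.univ.filter (fun i => x i ≤ b + t)) ⊆
        (Finset.univ.filter (fun i => x i ≤ b + R)) := by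
      intro i _
      simp only [Finset.mem_filter, Finset.mem_univ, true_and]
      exact hF.hx i
    have h3 : ((Finset.univ.filter (fun i => x i ≤ b + t)).card : ℝ) ≤
        ((Finset.univ.filter (fun i => x i ≤ b + R)).card : ℝ) := by
      exact_mod_cast Finset.card_le_card h2
    have h4 := cnt hW hF (t := R) (by linarith) le_rfl
    refine h3.trans (h4.trans ?_)
    gcongr

/-- `cnt` for `t ≥ -1`. -/
theorem cnt1 (hW : Win f b R σ) (hF : Fac f (b + R) n x y h) {t : ℝ} (ht : -1 ≤ t) :
    ((Finset.univ.filter (fun i => x i ≤ b + t)).card : ℝ) ≤ 30 * σ * exp t * TM f b := by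
  have hM : 0 < TM f b := lt_of_lt_of_le (exp_pos _) hW.big
  have hσ := hW.hσ
  rcases le_or_gt 0 t with h1 | h1
  · refine (cnt0 hW hF h1).trans ?_
    have : 0 < σ * exp t * TM f b := by positivity
    nlinarith
  · have h2 : (Finset.univ.filter (fun i => x i ≤ b + t)) ⊆
        (Finset.univ.filter (fun i => x i ≤ b + 0)) := by
      intro i hi
      simp only [Finset.mem_filter, Finset.mem_univ, true_and] at hi ⊢
      linarith
    have h3 : ((Finset.univ.filter (fun i => x i ≤ b + t)).card : ℝ) ≤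
        ((Finset.univ.filter (fun i => x i ≤ b + 0)).card : ℝ) := by
      exact_mod_cast Finset.card_le_card h2
    have h4 := cnt0 hW hF (t := 0) le_rfl
    refine h3.trans (h4.trans ?_)
    have h5 : exp 0 ≤ exp 1 * exp t := by
      rw [← Real.exp_add]
      exact Real.exp_le_exp.2 (by linarith)
    have h6 : exp 1 ≤ 2.7182818286 := Real.exp_one_lt_d9.le
    have h7 : exp 0 ≤ 2.7182818286 * exp t := h5.trans (by gcongr)
    have h8 : 11 * σ * exp 0 * TM f b ≤ 11 * σ * (2.7182818286 * exp t) * TM f b := by gcongr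
    refine h8.trans ?_
    have : 0 < σ * exp t * TM f b := by positivity
    nlinarith

/-- Layer cake over unit layers. -/
theorem layer {ι : Type} (F : Finset ι) (u : ι → ℝ) {c : ℝ} (hc : 0 < c) (J : ℕ)
    (hu : ∀ i ∈ F, 0 ≤ u i) (hJ : ∀ i ∈ F, u i < J) :
    ∑ i ∈ F, exp (-(c * u i)) ≤
      ∑ j ∈ Finset.range J, ((F.filter (fun i => u i ≤ (j : ℝ) + 1)).card : ℝ) * exp (-(c * j)) := by
  classical
  have h1 : ∑ i ∈ F, exp (-(c * u i)) ≤ ∑ i ∈ F, exp (-(c * (⌊u i⌋₊ : ℝ))) := by
    refine Finset.sum_le_sum fun i hi => Real.exp_le_exp.2 ?_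
    have := Nat.floor_le (hu i hi)
    have := mul_le_mul_of_nonneg_left this hc.le
    linarith
  refine h1.trans ?_
  rw [← Finset.sum_fiberwise_of_maps_to (s := F) (t := Finset.range J) (g := fun i => ⌊u i⌋₊)]
  · refine Finset.sum_le_sum fun j _ => ?_
    have h2 : ∑ i ∈ F.filter (fun i => ⌊u i⌋₊ = j), exp (-(c * (⌊u i⌋₊ : ℝ))) =
        ((F.filter (fun i => ⌊u i⌋₊ = j)).card : ℝ) * exp (-(c * j)) := by
      rw [Finset.sum_congr rfl (g := fun _ => exp (-(c * (j : ℝ))))]
      · rw [Finset.sum_const, nsmul_eq_mul]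
      · intro i hi
        rw [(Finset.mem_filter.1 hi).2]
    rw [h2]
    have h3 : F.filter (fun i => ⌊u i⌋₊ = j) ⊆ F.filter (fun i => u i ≤ (j : ℝ) + 1) := by
      intro i hi
      rw [Finset.mem_filter] at hi ⊢
      refine ⟨hi.1, ?_⟩
      have := Nat.lt_floor_add_one (u i)
      rw [hi.2] at this
      exact this.le
    have h4 : ((F.filter (fun i => ⌊u i⌋₊ = j)).card : ℝ) ≤
        ((F.filter (fun i => u i ≤ (j : ℝ) + 1)).card : ℝ) := by
      exact_mod_cast Finset.card_le_card h3
    exact mul_le_mul_of_nonneg_right h4 (exp_pos _).le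
  · intro i hi
    rw [Finset.mem_range]
    exact (Nat.floor_lt (hu i hi)).2 (hJ i hi)

/-- The sum over the far zeros. -/
theorem far_gen (hW : Win f b R σ) (hF : Fac f (b + R) n x y h) {T c : ℝ} (hT : -1 ≤ T)
    (hc : 0 < c) :
    ∑ i ∈ Finset.univ.filter (fun i => b + T < x i), exp (-(c * (x i - b - T))) ≤
      30 * σ * exp T * TM f b * ∑ j ∈ Finset.range (⌊R + 1⌋₊ + 1), exp (-((c - 1) * j)) := by
  have hM : 0 < TM f b := lt_of_lt_of_le (exp_pos _) hW.big
  have hσ := hW.hσ
  have hR := hW.hR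
  refine (layer (Finset.univ.filter (fun i => b + T < x i)) (fun i => x i - b - T) hc
    (⌊R + 1⌋₊ + 1) ?_ ?_).trans ?_
  · intro i hi
    rw [Finset.mem_filter] at hi
    linarith [hi.2]
  · intro i _
    have h1 := Nat.lt_floor_add_one (R + 1)
    have h2 := hF.hx i
    push_cast
    linarith
  · rw [Finset.mul_sum]
    refine Finset.sum_le_sum fun j _ => ?_
    have h1 : (Finset.univ.filter (fun i => b + T < x i)).filter
        (fun i => x i - b - T ≤ (j : ℝ) + 1) ⊆
        Finset.univ.filter (fun i => x i ≤ b + (T + j + 1)) := by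
      intro i hi
      simp only [Finset.mem_filter, Finset.mem_univ, true_and] at hi ⊢
      linarith [hi.2]
    have h2 : (((Finset.univ.filter (fun i => b + T < x i)).filter
        (fun i => x i - b - T ≤ (j : ℝ) + 1)).card : ℝ) ≤
        ((Finset.univ.filter (fun i => x i ≤ b + (T + j + 1))).card : ℝ) := by
      exact_mod_cast Finset.card_le_card h1
    have hj : (0 : ℝ) ≤ j := Nat.cast_nonneg _
    have h3 := cnt0 hW hF (t := T + j + 1) (by linarith)
    have h4 : (((Finset.univ.filter (fun i => b + T < x i)).filter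
        (fun i => x i - b - T ≤ (j : ℝ) + 1)).card : ℝ) * exp (-(c * j)) ≤
        (11 * σ * exp (T + j + 1) * TM f b) * exp (-(c * j)) :=
      mul_le_mul_of_nonneg_right (h2.trans h3) (exp_pos _).le
    refine h4.trans ?_
    have h5 : exp (T + j + 1) * exp (-(c * j)) = exp T * exp (-((c - 1) * j)) * exp 1 := by
      rw [← Real.exp_add, ← Real.exp_add, ← Real.exp_add]
      congr 1
      ring
    have h6 : exp 1 ≤ 2.7182818286 := Real.exp_one_lt_d9.le
    have h7 : 11 * σ * exp (T + j + 1) * TM f b * exp (-(c * j)) =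
        (11 * exp 1) * (σ * exp T * TM f b * exp (-((c - 1) * j))) := by
      have : 11 * σ * exp (T + j + 1) * TM f b * exp (-(c * j)) =
          11 * σ * TM f b * (exp (T + j + 1) * exp (-(c * j))) := by ring
      rw [this, h5]
      ring
    rw [h7]
    have h8 : 30 * σ * exp T * TM f b * exp (-((c - 1) * j)) =
        30 * (σ * exp T * TM f b * exp (-((c - 1) * j))) := by ring
    rw [h8]
    refine mul_le_mul_of_nonneg_right ?_ (by positivity)
    linarith

/-- The case `c = 1`. -/
theorem far_one (hW : Win f b R σ) (hF : Fac f (b + R) n x y h) {T : ℝ} (hT : -1 ≤ T) :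
    ∑ i ∈ Finset.univ.filter (fun i => b + T < x i), exp (-(x i - b - T)) ≤
      30 * σ * exp T * TM f b * (R + 2) := by
  have hM : 0 < TM f b := lt_of_lt_of_le (exp_pos _) hW.big
  have hσ := hW.hσ
  have hR := hW.hR
  have h1 := far_gen hW hF hT one_pos
  simp only [one_mul] at h1
  refine h1.trans ?_
  refine mul_le_mul_of_nonneg_left ?_ (by positivity)
  simp only [sub_self, zero_mul, neg_zero, Real.exp_zero, Finset.sum_const, Finset.card_range,
    nsmul_eq_mul, mul_one]
  have := Nat.floor_le (show (0 : ℝ) ≤ R + 1 by linarith)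
  push_cast
  linarith

/-- The case `c > 1`. -/
theorem far_gt (hW : Win f b R σ) (hF : Fac f (b + R) n x y h) {T c : ℝ} (hT : -1 ≤ T)
    (hc : 1 < c) :
    ∑ i ∈ Finset.univ.filter (fun i => b + T < x i), exp (-(c * (x i - b - T))) ≤
      30 * σ * exp T * TM f b * (1 / (1 - exp (-(c - 1)))) := by
  have hM : 0 < TM f b := lt_of_lt_of_le (exp_pos _) hW.big
  have hσ := hW.hσ
  refine (far_gen hW hF hT (by linarith)).trans ?_
  refine mul_le_mul_of_nonneg_left ?_ (by positivity)
  have h1 : ∀ j : ℕ, exp (-((c - 1) * j)) = exp (-(c - 1)) ^ j := by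
    intro j
    rw [← Real.exp_nat_mul]
    congr 1
    ring
  simp only [h1]
  have h2 : exp (-(c - 1)) < 1 := by
    rw [Real.exp_lt_one_iff]
    linarith
  rw [le_div_iff₀ (by linarith), geom_sum_mul_neg]
  have : 0 ≤ exp (-(c - 1)) ^ (⌊R + 1⌋₊ + 1) := by positivity
  linarith

theorem sum_abs (hW : Win f b R σ) (hF : Fac f (b + R) n x y h) {t : ℝ} (ht : -1 ≤ t) (htR : t ≤ R) :
    ∑ i, exp (-|b + t - x i|) ≤ 600 * (R + 1) * σ * exp t * TM f b := by
  have hM : 0 < TM f b := lt_of_lt_of_le (exp_pos _) hW.big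
  have hσ := hW.hσ
  have hR := hW.hR
  rw [← Finset.sum_filter_add_sum_filter_not Finset.univ (fun i => b + t < x i)]
  have h1 : ∑ i ∈ Finset.univ.filter (fun i => b + t < x i), exp (-|b + t - x i|) ≤
      30 * σ * exp t * TM f b * (R + 2) := by
    refine le_trans (le_of_eq ?_) (far_one hW hF ht)
    refine Finset.sum_congr rfl fun i hi => ?_
    rw [Finset.mem_filter] at hi
    rw [abs_of_nonpos (by linarith [hi.2])]
    congr 1
    ring
  have h2 : ∑ i ∈ Finset.univ.filter (fun i => ¬ b + t < x i), exp (-|b + t - x i|) ≤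
      30 * σ * exp t * TM f b := by
    have h3 : ∑ i ∈ Finset.univ.filter (fun i => ¬ b + t < x i), exp (-|b + t - x i|) ≤
        ∑ i ∈ Finset.univ.filter (fun i => ¬ b + t < x i), (1 : ℝ) := by
      refine Finset.sum_le_sum fun i _ => ?_
      rw [← Real.exp_zero]
      exact Real.exp_le_exp.2 (by linarith [abs_nonneg (b + t - x i)])
    refine h3.trans ?_
    rw [Finset.sum_const, nsmul_eq_mul, mul_one]
    simp only [not_lt]
    exact cnt1 hW hF ht
  refine (add_le_add h1 h2).trans ?_
  have hX : 0 < σ * exp t * TM f b := by positivity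
  nlinarith

theorem sum_max (hW : Win f b R σ) (hF : Fac f (b + R) n x y h) :
    ∑ i, exp (-max (x i - b) 0) ≤ 80 * (R + 1) * σ * TM f b := by
  have hM : 0 < TM f b := lt_of_lt_of_le (exp_pos _) hW.big
  have hσ := hW.hσ
  have hR := hW.hR
  rw [← Finset.sum_filter_add_sum_filter_not Finset.univ (fun i => b + 0 < x i)]
  have h1 : ∑ i ∈ Finset.univ.filter (fun i => b + 0 < x i), exp (-max (x i - b) 0) ≤
      30 * σ * exp 0 * TM f b * (R + 2) := by
    refine le_trans (le_of_eq ?_) (far_one hW hF (T := 0) (by norm_num))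
    refine Finset.sum_congr rfl fun i hi => ?_
    rw [Finset.mem_filter] at hi
    rw [max_eq_left (by linarith [hi.2])]
    congr 1
    ring
  have h2 : ∑ i ∈ Finset.univ.filter (fun i => ¬ b + 0 < x i), exp (-max (x i - b) 0) ≤
      11 * σ * exp 0 * TM f b := by
    have h3 : ∑ i ∈ Finset.univ.filter (fun i => ¬ b + 0 < x i), exp (-max (x i - b) 0) ≤
        ∑ i ∈ Finset.univ.filter (fun i => ¬ b + 0 < x i), (1 : ℝ) := by
      refine Finset.sum_le_sum fun i _ => ?_
      rw [← Real.exp_zero]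
      exact Real.exp_le_exp.2 (by linarith [le_max_right (x i - b) 0])
    refine h3.trans ?_
    rw [Finset.sum_const, nsmul_eq_mul, mul_one]
    simp only [not_lt]
    exact cnt0 hW hF le_rfl
  refine (add_le_add h1 h2).trans ?_
  rw [Real.exp_zero]
  have hX : 0 < σ * TM f b := by positivity
  nlinarith

theorem sum_far (hW : Win f b R σ) (hF : Fac f (b + R) n x y h) {T : ℝ} (hT : 0 ≤ T) (hTR : T ≤ R) :
    ∑ i ∈ Finset.univ.filter (fun i => b + T < x i), exp (-(11 / 10 * (x i - b)))
      ≤ 400 * σ * exp (-(T / 10)) * TM f b := by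
  have hM : 0 < TM f b := lt_of_lt_of_le (exp_pos _) hW.big
  have hσ := hW.hσ
  have h1 := far_gt hW hF (T := T) (c := 11 / 10) (by linarith) (by norm_num)
  have h2 : ∑ i ∈ Finset.univ.filter (fun i => b + T < x i), exp (-(11 / 10 * (x i - b))) =
      exp (-(11 / 10 * T)) *
        ∑ i ∈ Finset.univ.filter (fun i => b + T < x i), exp (-(11 / 10 * (x i - b - T))) := by
    rw [Finset.mul_sum]
    refine Finset.sum_congr rfl fun i _ => ?_
    rw [← Real.exp_add]
    congr 1
    ring
  rw [h2]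
  have h3 : 1 / (1 - exp (-(11 / 10 - 1 : ℝ))) ≤ 11 := by
    have h4 : exp (-(11 / 10 - 1 : ℝ)) ≤ 10 / 11 := by
      have h5 := Real.add_one_le_exp (11 / 10 - 1 : ℝ)
      rw [Real.exp_neg]
      have h6 : (10 / 11 : ℝ) = (11 / 10)⁻¹ := by norm_num
      rw [h6]
      exact inv_anti₀ (by norm_num) (by linarith)
    rw [div_le_iff₀ (by linarith)]
    linarith
  have h4 : exp (-(11 / 10 * T)) * exp T = exp (-(T / 10)) := by
    rw [← Real.exp_add]
    congr 1
    ring
  calc exp (-(11 / 10 * T)) *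
        ∑ i ∈ Finset.univ.filter (fun i => b + T < x i), exp (-(11 / 10 * (x i - b - T)))
      ≤ exp (-(11 / 10 * T)) * (30 * σ * exp T * TM f b * 11) := by
        refine mul_le_mul_of_nonneg_left (h1.trans ?_) (exp_pos _).le
        exact mul_le_mul_of_nonneg_left h3 (by positivity)
    _ = 330 * σ * (exp (-(11 / 10 * T)) * exp T) * TM f b := by ring
    _ = 330 * σ * exp (-(T / 10)) * TM f b := by rw [h4]
    _ ≤ _ := by gcongr; norm_num

theorem two_aux : 1 / (1 - exp (-(2 - 1 : ℝ))) ≤ 2 := by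
  have h4 : exp (-(2 - 1 : ℝ)) ≤ 1 / 2 := by
    have h5 := Real.add_one_le_exp (2 - 1 : ℝ)
    rw [Real.exp_neg]
    have h6 : (1 / 2 : ℝ) = (2)⁻¹ := by norm_num
    rw [h6]
    exact inv_anti₀ (by norm_num) (by linarith)
  generalize exp (-(2 - 1 : ℝ)) = E at h4 ⊢
  rw [div_le_iff₀ (by linarith)]
  linarith

theorem sum_far1 (hW : Win f b R σ) (hF : Fac f (b + R) n x y h) {T : ℝ} (hT : 0 ≤ T) (hTR : T ≤ R) :
    ∑ i ∈ Finset.univ.filter (fun i => b + T < x i), exp (-(x i - b)) * exp (-(x i - b - T))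
      ≤ 100 * σ * TM f b := by
  have hM : 0 < TM f b := lt_of_lt_of_le (exp_pos _) hW.big
  have hσ := hW.hσ
  have h1 := far_gt hW hF (T := T) (c := 2) (by linarith) (by norm_num)
  have h2 : ∑ i ∈ Finset.univ.filter (fun i => b + T < x i),
      exp (-(x i - b)) * exp (-(x i - b - T)) =
      exp (-T) * ∑ i ∈ Finset.univ.filter (fun i => b + T < x i), exp (-(2 * (x i - b - T))) := by
    rw [Finset.mul_sum]
    refine Finset.sum_congr rfl fun i _ => ?_
    rw [← Real.exp_add, ← Real.exp_add]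
    congr 1
    ring
  rw [h2]
  have h4 : exp (-T) * exp T = 1 := by
    rw [← Real.exp_add]
    simp
  calc exp (-T) * ∑ i ∈ Finset.univ.filter (fun i => b + T < x i), exp (-(2 * (x i - b - T)))
      ≤ exp (-T) * (30 * σ * exp T * TM f b * 2) := by
        refine mul_le_mul_of_nonneg_left (h1.trans ?_) (exp_pos _).le
        exact mul_le_mul_of_nonneg_left two_aux (by positivity)
    _ = 60 * σ * (exp (-T) * exp T) * TM f b := by ring
    _ = 60 * σ * TM f b := by rw [h4, mul_one]
    _ ≤ _ := by gcongr; norm_num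

theorem sum_two (hW : Win f b R σ) (hF : Fac f (b + R) n x y h) :
    ∑ i ∈ Finset.univ.filter (fun i => b < x i), exp (-(2 * (x i - b))) ≤ 100 * σ * TM f b := by
  have hR := hW.hR
  have h1 := sum_far1 hW hF (T := 0) le_rfl (by linarith)
  simp only [add_zero, sub_zero] at h1
  refine le_trans (le_of_eq ?_) h1
  refine Finset.sum_congr rfl fun i _ => ?_
  rw [← Real.exp_add]
  congr 1
  ring

end Pool.Agent.TX1
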