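import Pool.Agent.TX1.Jens
import Pool.Agent.TX1.LogInt
import Pool.Agent.MML.WinGen

/-!
# TX1, module WinN: the path-uniform window inequality with the gain from the zeros

Copy of the proof of `MML.window_gen` (WinGen.lean) with `μ = 1`, `ρ = 1`, `p = 1` (no second kernel), keeping the term with `N`
(there it was dropped at the end).  `ptI a ha` with `a > 2`, `π/a ≤ π`.  `M = mN (π*1) (Ue f 1 1) = TM f`, `N = mN (π*1) (Ue f 1 η) ≥ TN f ≥ 0` (because `f 0 = 1`), so
the constants do not depend on `f`: `P = TM f + 1`, `|N| ≤ P`.  `avg` gives the coefficient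
`∫ χ exp τ hI - ∫ χ exp τ kI` of `∫ exp (-s) N`, which tends (`R → ∞`) to `(1 - cos (π/a))/(2 sin (π/a)) - 1/(2 sin (π/a)) = -cos (π/a)/(2 sin (π/a))`, and the
coefficient of `∫ exp (-s) P` tends to `1/(2 sin (π/a))` (`KI_eq`, `HI_eq` with `ρ = 1`).  `∫ exp (-s) N ≥ ∫ exp (-s) TN f` (the coefficient is negative).
-/

set_option autoImplicit false

namespace Pool.Agent.TX1

open Real MeasureTheory Set Filter Topology
open Pool.Agent.MML (Fe Ue UeS mN ptI ea_int KI_int KI_eq HI_int HI_eq tendsto_chi_int int_le_full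
  int_le_full' chi kI hI kI_cont kI_pos hI_int hI_nonneg chi_cont chi_mem avg SH_eta Ue_mono
  Ue_one_nonneg mN_Ue_mono mN_cont mN_deriv mN_deriv2 mN_UeS_nonneg)

theorem winN {a κ1 ν : ℝ} (ha : 2 < a) (hκ : 1 / (2 * sin (π / a)) < κ1)
    (hν : ν < cos (π / a) / (2 * sin (π / a))) (hν0 : 0 < ν) :
    ∃ K C : ℝ, 0 ≤ K ∧ 0 ≤ C ∧ ∀ f : ℂ → ℂ, Differentiable ℂ f → f 0 = 1 →
      ∀ η ∈ Ioc (0 : ℝ) 1, ∀ (Y : ℝ → ℝ) (α β : ℝ), α ≤ β → ContinuousOn Y (Icc α β) →
        (∀ s ∈ Icc α β, ∃ t, Y s ≤ -(Ue f 1 η s t)) →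
        ∫ s in α..β, exp (-s) * Y s ≤
          κ1 * (∫ s in α..β, exp (-s) * (TM f s + 1)) - ν * (∫ s in α..β, exp (-s) * TN f s)
          + C * (exp (-α) * (TM f (α + K) + 1) + exp (-β) * (TM f (β + K) + 1)) := by
  have ha0 : 0 < a := by linarith
  have ha1 : (1 : ℝ) < a := by linarith
  obtain ⟨K1, hK1, hPI⟩ := ptI a ha0
  have iea := ea_int (ρ := 1) one_pos ha1
  have iKI := KI_int (ρ := 1) one_pos ha1
  have eKI := KI_eq (ρ := 1) one_pos ha1
  have iHI := HI_int (ρ := 1) one_pos ha1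
  have eHI := HI_eq (ρ := 1) one_pos ha1
  simp only [one_mul, mul_one] at iea iKI eKI iHI eHI
  set A1 := ∫ τ, exp τ * exp (-(a * |τ|)) with hA1
  set c3 := 3 * K1 * A1 with hc3
  have hsin : 0 < sin (π / a) := by
    apply sin_pos_of_pos_of_lt_pi (by positivity)
    rw [div_lt_iff₀ ha0]; nlinarith [pi_pos]
  -- choice of R
  have t1 : Tendsto (fun R : ℝ => 1 / (2 * sin (π / a)) + c3 / (R - 1)) atTop
      (𝓝 (1 / (2 * sin (π / a)) + 0)) := by
    apply Tendsto.const_add
    apply Tendsto.div_atTop tendsto_const_nhds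
    exact tendsto_atTop_add_const_right _ _ tendsto_id
  have t2 : Tendsto (fun R : ℝ => ∫ τ in (-R)..R, chi R τ * (exp τ * kI a τ)) atTop
      (𝓝 (1 / (2 * sin (π / a)))) := by
    have := (tendsto_chi_int iKI)
    rwa [eKI] at this
  have hN : (1 - cos (π / a)) / (2 * sin (π / a)) + ν < 1 / (2 * sin (π / a)) := by
    have : (1 - cos (π / a)) / (2 * sin (π / a)) + cos (π / a) / (2 * sin (π / a))
        = 1 / (2 * sin (π / a)) := by
      rw [← add_div]; ring
    linarith
  have e1 := (t1.eventually (gt_mem_nhds (by simpa using hκ)) : ∀ᶠ R : ℝ in atTop, _ < κ1)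
  have e2 := t2.eventually (lt_mem_nhds hN)
  obtain ⟨R, ⟨h1R, h2R⟩, hR⟩ := ((e1.and e2).and (eventually_ge_atTop 2)).exists
  have hR0 : 0 < R := by linarith
  have hRR : -R ≤ R := by linarith
  have hR1 : 0 < R - 1 := by linarith
  obtain ⟨cc, cc1, cc2⟩ := chi_cont hR
  -- the kernels
  set kM : ℝ → ℝ := fun τ => (chi R τ * kI a τ)
    + 3 * (K1 / (R - 1) * exp (-(a * |τ|))) with hkM
  set kN : ℝ → ℝ := fun τ => (chi R τ * kI a τ) with hkN
  set kH' : ℝ → ℝ := fun τ => (chi R τ * hI a τ) with hkH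
  have kMc : Continuous kM := by
    have := kI_cont a
    rw [hkM]; fun_prop
  have kNc : Continuous kN := by
    have := kI_cont a
    rw [hkN]; fun_prop
  have ihI : ∀ x y : ℝ, IntervalIntegrable (fun τ => chi R τ * hI a τ) volume x y :=
    fun x y => (hI_int a ha0 x y).continuousOn_mul cc.continuousOn
  have kHi : IntervalIntegrable kH' volume (-R) R := ihI _ _
  have nM : ∀ τ ∈ Icc (-R) R, 0 ≤ kM τ := by
    intro τ hτ
    have c := (chi_mem hR (abs_le.2 hτ)).1
    have := (kI_pos a ha0 τ).le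
    rw [hkM]; positivity
  have nN : ∀ τ ∈ Icc (-R) R, 0 ≤ kN τ := by
    intro τ hτ
    have c := (chi_mem hR (abs_le.2 hτ)).1
    have := (kI_pos a ha0 τ).le
    rw [hkN]; positivity
  have nH : ∀ τ ∈ Icc (-R) R, 0 ≤ kH' τ := by
    intro τ hτ
    have c := (chi_mem hR (abs_le.2 hτ)).1
    have := hI_nonneg a τ
    rw [hkH]; positivity
  obtain ⟨C1, hC1, hav⟩ := avg 1 R one_pos hR0 kM kN kH' (kMc.intervalIntegrable _ _)
    (kNc.intervalIntegrable _ _) kHi nM nN nH
  simp only [one_mul, neg_mul] at hav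
  -- the constants
  set IM := ∫ τ in (-R)..R, exp τ * kM τ with hIM
  set IN := ∫ τ in (-R)..R, exp τ * kN τ with hIN
  set IH := ∫ τ in (-R)..R, exp τ * kH' τ with hIH
  have ec : Continuous (fun τ : ℝ => exp τ) := by fun_prop
  have hIN' : IN = ∫ τ in (-R)..R, chi R τ * (exp τ * kI a τ) := by
    rw [hIN]
    congr 1; ext τ; rw [hkN]; ring
  have hIMle : IM < κ1 := by
    have q1 : IM = (∫ τ in (-R)..R, chi R τ * (exp τ * kI a τ))
        + 3 * K1 / (R - 1) * (∫ τ in (-R)..R, exp τ * exp (-(a * |τ|))) := by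
      rw [← intervalIntegral.integral_const_mul, ← intervalIntegral.integral_add]
      · rw [hIM]; congr 1; ext τ; rw [hkM]; ring
      all_goals
        have := kI_cont a
        apply Continuous.intervalIntegrable
        fun_prop
    have q2 := int_le_full hR iKI
      (fun τ => mul_nonneg (exp_pos _).le (kI_pos a ha0 τ).le)
    rw [eKI] at q2
    have q4 := int_le_full' hR iea (fun τ => mul_nonneg (exp_pos _).le (exp_pos _).le)
    rw [q1]
    calc _ ≤ 1 / (2 * sin (π / a)) + 3 * K1 / (R - 1) * A1 := by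
          gcongr
      _ = 1 / (2 * sin (π / a)) + c3 / (R - 1) := by
          rw [hc3]; ring
      _ < κ1 := h1R
  have hγ : IH - IN < -ν := by
    have q1 : IH = (∫ τ in (-R)..R, chi R τ * (exp τ * hI a τ)) := by
      rw [hIH]; congr 1; ext τ; rw [hkH]; ring
    have q2 := int_le_full hR iHI
      (fun τ => mul_nonneg (exp_pos _).le (hI_nonneg a τ))
    rw [eHI] at q2
    rw [hIN', q1]
    linarith
  refine ⟨R + 1, C1, by linarith, hC1, ?_⟩
  intro f hf h0 η hη Y α β hαβ hY hYt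
  obtain ⟨Uss, Ut, Utt, hS⟩ := SH_eta hf (μ := 1) one_pos hη.1
  obtain ⟨Uss1, Ut1, Utt1, hS1⟩ := SH_eta hf (μ := 1) one_pos (one_pos : (0 : ℝ) < 1)
  have hU1c := hS1.c2.c0
  have hne : ∃ z, f z ≠ 0 := ⟨0, by rw [h0]; exact one_ne_zero⟩
  have hM1 : Monotone (mN (π * 1) (Ue f 1 1)) := mN_Ue_mono hf one_pos one_pos
  have hM0 : ∀ s, 0 ≤ mN (π * 1) (Ue f 1 1) s := by
    intro s
    apply intervalIntegral.integral_nonneg (by linarith [pi_pos])
    intro t _; exact Ue_one_nonneg s t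
  have hMc : Continuous (mN (π * 1) (Ue f 1 1)) := mN_cont hU1c
  have hNM : ∀ s, mN (π * 1) (Ue f 1 η) s ≤ mN (π * 1) (Ue f 1 1) s := by
    intro s
    apply intervalIntegral.integral_mono_on (by linarith [pi_pos])
    · exact (hS.c2.c0.comp (by fun_prop : Continuous (fun t : ℝ => (s, t)))).intervalIntegrable _ _
    · exact (hU1c.comp (by fun_prop : Continuous (fun t : ℝ => (s, t)))).intervalIntegrable _ _
    · intro t _; exact Ue_mono hη.1 hη.2 s t
  have hTM : ∀ s, TM f s = mN (π * 1) (Ue f 1 1) s := fun s => rfl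
  simp only [hTM]
  have hTN0 : ∀ s, 0 ≤ TN f s := fun s => TN_nonneg hf h0 s
  have hTNc : Continuous (TN f) := TN_cont hf h0
  have hTNN : ∀ s, TN f s ≤ mN (π * 1) (Ue f 1 η) s := fun s =>
    TN_le_mN hf hη.1 s (li_ae hf hne s)
  set M := mN (π * 1) (Ue f 1 1) with hMd
  set N := mN (π * 1) (Ue f 1 η) with hNd
  set N2 := mN (π * 1) (fun s t => Uss s t + Utt s t) with hN2d
  have hNabs : ∀ s, |N s| ≤ M s + 1 := by
    intro s
    have := hNM s; have := hM0 s; have := hTN0 s; have := hTNN s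
    rw [abs_of_nonneg (by linarith)]
    linarith
  have hN2c : Continuous N2 := mN_cont (hS.c2.css.add hS.c2.ctt)
  have hN20 : ∀ s, 0 ≤ N2 s := by
    intro s
    apply intervalIntegral.integral_nonneg (by linarith [pi_pos])
    intro t _; exact hS.sub s t
  have hal : π / a ≤ π * 1 := by
    rw [mul_one, div_le_iff₀ ha0]; nlinarith [pi_pos]
  have hNc : Continuous N := mN_cont hS.c2.c0
  have hkey : ∀ s ∈ Icc α β, Y s ≤ ∫ τ in (-R)..R,
      (kM τ * (M (s + τ) + 1) - kN τ * N (s + τ) + kH' τ * N2 (s + τ)) := by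
    intro s hs
    obtain ⟨t, ht⟩ := hYt s hs
    have a1 := hPI (π * 1) R hal hR _ _ _ _ _ _ hS hU1c Ue_one_nonneg
      (fun s t => Ue_mono hη.1 hη.2 s t) hS1.per s t
    refine ht.trans (a1.trans ?_)
    have kIc := kI_cont a
    have i2 : IntervalIntegrable (fun τ => chi R τ * hI a τ * N2 (s + τ)) volume (-R) R :=
      (ihI _ _).mul_continuousOn (by fun_prop : Continuous (fun τ => N2 (s + τ))).continuousOn
    have i4 : IntervalIntegrable (fun τ => chi R τ * kI a τ * (M (s + τ) - N (s + τ))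
            + K1 / (R - 1) * exp (-(a * |τ|)) * (2 * M (s + τ) - N (s + τ))) volume (-R) R :=
      Continuous.intervalIntegrable (by fun_prop) _ _
    have i6 : IntervalIntegrable (fun τ => kM τ * (M (s + τ) + 1) - kN τ * N (s + τ)) volume
        (-R) R := Continuous.intervalIntegrable (by fun_prop) _ _
    have i7 : IntervalIntegrable (fun τ => kH' τ * N2 (s + τ)) volume (-R) R :=
      kHi.mul_continuousOn (by fun_prop : Continuous (fun τ => N2 (s + τ))).continuousOn
    apply intervalIntegral.integral_mono_on hRR (i4.add i2) (i6.add i7)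
    intro τ hτ
    have c := (chi_mem hR (abs_le.2 hτ)).1
    have d1 := (kI_pos a ha0 τ).le
    have d5 := abs_le.1 (hNabs (s + τ))
    have d6 := hM0 (s + τ)
    have d7 : 0 < exp (-(a * |τ|)) := exp_pos _
    have d8 : 0 ≤ K1 / (R - 1) := div_nonneg hK1 hR1.le
    have m1 : chi R τ * kI a τ * (M (s + τ) - N (s + τ)) ≤
        (chi R τ * kI a τ) * (M (s + τ) + 1) - (chi R τ * kI a τ) * N (s + τ) := by
      have : 0 ≤ (chi R τ * kI a τ) := by positivity
      nlinarith
    have m2 : K1 / (R - 1) * exp (-(a * |τ|)) * (2 * M (s + τ) - N (s + τ)) ≤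
        3 * (K1 / (R - 1) * exp (-(a * |τ|))) * (M (s + τ) + 1) := by
      have : 0 ≤ (K1 / (R - 1) * exp (-(a * |τ|))) := by positivity
      nlinarith
    simp only [hkM, hkN, hkH]
    linarith [m1, m2]
  have hfin := hav (fun s => M s + 1) N (mN (π * 1) (UeS f 1 η)) N2 Y (α - R) α β
    (fun x y h => by have := hM1 h; simp only; linarith) (hMc.add continuous_const)
    (fun s => by have := hM0 s; linarith) (fun s => mN_deriv hS s) (fun s => mN_deriv2 hS s)
    hN2c hN20 (fun s => mN_UeS_nonneg hf one_pos hη.1 s) (fun s _ => hNabs s) hY (by linarith)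
    hαβ hkey
  -- the term with N
  have hI0 : 0 ≤ ∫ s in α..β, exp (-s) * TN f s := by
    apply intervalIntegral.integral_nonneg hαβ
    intro s _
    exact mul_nonneg (exp_pos _).le (hTN0 s)
  have hI1 : ∫ s in α..β, exp (-s) * TN f s ≤ ∫ s in α..β, exp (-s) * N s := by
    apply intervalIntegral.integral_mono_on hαβ
    · exact Continuous.intervalIntegrable (by fun_prop) _ _
    · exact Continuous.intervalIntegrable (by fun_prop) _ _
    · intro s _
      exact mul_le_mul_of_nonneg_left (hTNN s) (exp_pos _).le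
  have hI2 : (IH - IN) * (∫ s in α..β, exp (-s) * N s) ≤
      -ν * (∫ s in α..β, exp (-s) * TN f s) := by
    have h1 : (IH - IN) * (∫ s in α..β, exp (-s) * N s) ≤
        -ν * (∫ s in α..β, exp (-s) * N s) :=
      mul_le_mul_of_nonneg_right hγ.le (by linarith)
    have h2 : ν * (∫ s in α..β, exp (-s) * TN f s) ≤ ν * (∫ s in α..β, exp (-s) * N s) :=
      mul_le_mul_of_nonneg_left hI1 hν0.le
    linarith
  have hI3 : IM * (∫ s in α..β, exp (-s) * (M s + 1)) ≤
      κ1 * (∫ s in α..β, exp (-s) * (M s + 1)) := by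
    apply mul_le_mul_of_nonneg_right hIMle.le
    apply intervalIntegral.integral_nonneg hαβ
    intro s _
    have := hM0 s
    exact mul_nonneg (exp_pos _).le (by linarith)
  have e3 : α + R + 1 = α + (R + 1) := by ring
  have e4 : β + R + 1 = β + (R + 1) := by ring
  rw [e3, e4] at hfin
  have e5 : (1 : ℝ) ^ 2 * IH = IH := by ring
  rw [e5] at hfin
  linarith [hfin, hI2, hI3]

end Pool.Agent.TX1
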